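import Pool.Agent.Helper88.Rot.SlotStep

/-!
Case B: the translation number is badly approximable.
-/

namespace Pool.Agent.Helper88.Rot

open CircleDeg1Lift Filter Topology Finset

theorem caseB {θ : ℝ} (hθ : Irrational θ) (hBA : BA θ) : PL' θ := by
  intro m S z₀ ρ hder hne
  classical
  have hρ : ∀ s < m, 0 ≤ ρ s := fun s hs => deriv_nonneg_of_mono (S.mono s) (hder s hs)
  obtain ⟨R, hR1, hR⟩ : ∃ R : ℝ, 1 ≤ R ∧ ∀ s < m, ρ s ≤ R := by
    refine ⟨1 + ∑ s ∈ Finset.range m, ρ s, ?_, fun s hs => ?_⟩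
    · have : 0 ≤ ∑ s ∈ Finset.range m, ρ s :=
        Finset.sum_nonneg fun s hs => hρ s (Finset.mem_range.1 hs)
      linarith
    · have := Finset.single_le_sum (f := ρ) (fun i hi => hρ i (Finset.mem_range.1 hi))
        (Finset.mem_range.2 hs)
      linarith
  have hseq : ∀ j : ℕ, ∃ (Q : ℕ) (P : ℤ), j < Q ∧ 0 < Q ∧ IsCoprime P (Q : ℤ) ∧
      0 < P - Q * θ ∧ Q * (P - Q * θ) ≤ 1 := fun j => exists_upper_large hθ j
  choose Q P hjQ hQpos hcop hδpos hδle using hseq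
  have hQR : ∀ j, (0 : ℝ) < Q j := fun j => by exact_mod_cast hQpos j
  -- inverses in `[0, Q)`
  have hinv : ∀ j : ℕ, ∃ Pb : ℤ, P j * Pb ≡ 1 [ZMOD Q j] ∧ 0 ≤ Pb ∧ Pb < Q j := fun j => by
    obtain ⟨Pb, hPb⟩ := exists_inverse (hcop j)
    have hq : (0 : ℤ) < Q j := by exact_mod_cast hQpos j
    refine ⟨Pb % Q j, ?_, Int.emod_nonneg _ hq.ne', Int.emod_lt_of_pos _ hq⟩
    exact ((Int.mod_modEq Pb (Q j)).mul_left (P j)).trans hPb
  choose Pb hPb hPb0 hPb1 using hinv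
  -- phases
  obtain ⟨V, hV⟩ : ∃ V : ℕ → ℕ → ℝ, V = fun j s => Q j * (0 - S.F s z₀) := ⟨_, rfl⟩
  obtain ⟨v, hv⟩ : ∃ v : ℕ → ℕ → ℝ, v = fun j s => ⌈V j s⌉ - V j s := ⟨_, rfl⟩
  obtain ⟨β, hβ⟩ : ∃ β : ℕ → ℕ → ℝ, β = fun j s =>
    Int.fract (-(((⌈V j s⌉ * Pb j : ℤ)) : ℝ) / Q j) := ⟨_, rfl⟩
  have hv01 : ∀ s j, v j s ∈ Set.Icc (0 : ℝ) 1 := fun s j => by
    have h1 := Int.le_ceil (V j s)
    have h2 := Int.ceil_lt_add_one (V j s)
    simp only [hv, Set.mem_Icc]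
    constructor <;> linarith
  have hβ01 : ∀ s j, β j s ∈ Set.Icc (0 : ℝ) 1 := fun s j => by
    rw [hβ]
    exact ⟨Int.fract_nonneg _, (Int.fract_lt_one _).le⟩
  have hα01 : ∀ j, (Pb j : ℝ) / Q j ∈ Set.Icc (0 : ℝ) 1 := fun j => by
    have h1 : (0 : ℝ) ≤ Pb j := by exact_mod_cast hPb0 j
    have h2 : (Pb j : ℝ) ≤ Q j := by exact_mod_cast (hPb1 j).le
    exact ⟨div_nonneg h1 (hQR j).le, by rw [div_le_one (hQR j)]; exact h2⟩
  obtain ⟨𝒰, h𝒰⟩ : ∃ 𝒰 : Ultrafilter ℕ, (𝒰 : Filter ℕ) ≤ atTop :=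
    ⟨Ultrafilter.of atTop, Ultrafilter.of_le _⟩
  obtain ⟨α, -, hα⟩ := exists_ultralimit 𝒰 (fun j => (Pb j : ℝ) / Q j) 0 1 hα01
  have hαirr : Irrational α := irrational_limit hBA 𝒰 h𝒰 Q P Pb hjQ hδpos hδle hPb hα
  have hlim : ∀ s, ∃ l ∈ Set.Icc (0:ℝ) 1, Tendsto (fun j => v j s) 𝒰 (𝓝 l) := fun s =>
    exists_ultralimit 𝒰 _ 0 1 (hv01 s)
  choose vl hvl01 hvl using hlim
  have hlim' : ∀ s, ∃ l ∈ Set.Icc (0:ℝ) 1, Tendsto (fun j => β j s) 𝒰 (𝓝 l) := fun s =>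
    exists_ultralimit 𝒰 _ 0 1 (hβ01 s)
  choose β0 hβ001 hβ0 using hlim'
  -- generic starting time
  obtain ⟨τ₀, hτ₀, hτgen⟩ : ∃ τ₀ ∈ Set.Ioo (0:ℝ) 1, ∀ s < m, ∀ n l : ℤ,
      n * α + (β0 s + τ₀) ≠ l := by
    obtain ⟨bad, hbad⟩ : ∃ bad : Set ℝ, bad = ⋃ s ∈ (Finset.range m : Set ℕ), ⋃ n : ℤ, ⋃ l : ℤ,
      {(l : ℝ) - n * α - β0 s} := ⟨_, rfl⟩
    have hc : bad.Countable := by
      rw [hbad]
      apply Set.Countable.biUnion (Finset.countable_toSet _)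
      intro s _
      exact Set.countable_iUnion fun n => Set.countable_iUnion fun l => Set.countable_singleton _
    obtain ⟨y₀, hy, hy'⟩ := (hc.dense_compl ℝ).exists_mem_open isOpen_Ioo
      (Set.nonempty_Ioo.2 (one_pos (α := ℝ)))
    refine ⟨y₀, hy', fun s hs n l hn => hy ?_⟩
    rw [hbad]
    simp only [Set.mem_iUnion, Set.mem_singleton_iff]
    refine ⟨s, by simpa using hs, n, l, ?_⟩
    linarith
  obtain ⟨βl, hβl⟩ : ∃ βl : ℕ → ℝ, βl = fun s => β0 s + τ₀ := ⟨_, rfl⟩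
  have hgen : ∀ s < m, ∀ n l : ℤ, n * α + βl s ≠ l := by rw [hβl]; exact hτgen
  -- unbalanced classes
  obtain ⟨s₁, hs₁, hρ₁, hnet₁⟩ := exists_unbalanced (Finset.range m) (rel ρ vl βl α)
    (rel_equiv ρ vl βl α) ρ (fun s => (S.σ s : ℝ)) (fun s s' h => h.1) hne
  rw [Finset.mem_range] at hs₁
  obtain ⟨U, hUdef⟩ : ∃ U : Finset ℕ, U = (range m).filter fun s =>
    ρ s ≠ 0 ∧ net m S.σ ρ vl βl α s ≠ 0 := ⟨_, rfl⟩
  have hU : ∀ s, s ∈ U ↔ s < m ∧ ρ s ≠ 0 ∧ net m S.σ ρ vl βl α s ≠ 0 := by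
    intro s
    rw [hUdef, Finset.mem_filter, Finset.mem_range]
  have hs₁U : s₁ ∈ U := (hU s₁).2 ⟨hs₁, hρ₁, by unfold net; convert hnet₁⟩
  have hUne : U.Nonempty := ⟨s₁, hs₁U⟩
  have hρU : ∀ s ∈ U, 0 < ρ s := fun s hs =>
    lt_of_le_of_ne (hρ s ((hU s).1 hs).1) (Ne.symm ((hU s).1 hs).2.1)
  obtain ⟨sO, hsO, hmin⟩ := Finset.exists_min_image U ρ hUne
  obtain ⟨ρ0, hρ0⟩ : ∃ x : ℝ, x = min 1 (ρ sO) := ⟨_, rfl⟩
  have hρ0pos : 0 < ρ0 := hρ0 ▸ lt_min one_pos (hρU sO hsO)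
  have hρ01 : ρ0 ≤ 1 := hρ0 ▸ min_le_left _ _
  have hρ0U : ∀ s ∈ U, ρ0 ≤ ρ s := fun s hs => hρ0 ▸ (min_le_right _ _).trans (hmin s hs)
  -- constants
  obtain ⟨Cs, hCs⟩ : ∃ x : ℝ, x = 36 * m * R / ρ0 + 1 := ⟨_, rfl⟩
  have hCs1 : 1 ≤ Cs := by
    have : 0 ≤ 36 * m * R / ρ0 := by positivity
    linarith
  obtain ⟨ε, hε⟩ : ∃ x : ℝ, x = ρ0 / (40 * Cs ^ 2 * R) := ⟨_, rfl⟩
  have hε0 : 0 < ε := by rw [hε]; positivity
  have hεCR : 40 * (ε * Cs ^ 2 * R) = ρ0 := by rw [hε]; field_simp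
  have hεC : 40 * (ε * Cs) ≤ 1 := by
    have h1 : 40 * (ε * Cs) * (Cs * R) ≤ 1 * (Cs * R) := by
      calc 40 * (ε * Cs) * (Cs * R) = 40 * (ε * Cs ^ 2 * R) := by ring
        _ = ρ0 := hεCR
        _ ≤ 1 * (Cs * R) := by nlinarith
    exact le_of_mul_le_mul_right h1 (by positivity)
  have hε40 : 40 * ε ≤ 1 := by
    have : 40 * ε * 1 ≤ 40 * ε * Cs := mul_le_mul_of_nonneg_left hCs1 (by positivity)
    linarith
  obtain ⟨CA, hCA⟩ : ∃ x : ℝ, x = 200 / ρ0 := ⟨_, rfl⟩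
  have hCA0 : 0 < CA := by rw [hCA]; positivity
  have hCAρ : CA * ρ0 = 200 := by rw [hCA]; field_simp
  obtain ⟨C', hC'⟩ : ∃ x : ℝ, x = 2 * CA / ε := ⟨_, rfl⟩
  have hC'0 : 0 < C' := by rw [hC']; positivity
  obtain ⟨VV, hVV0, hVV, q₀, hsel⟩ := selection U hUne ρ vl βl hρU
    (fun s => ⟨(hvl01 s).1, (hvl01 s).2⟩) hαirr hC'0
  -- choice of `q`
  obtain ⟨q₁, hq₁⟩ := exists_nat_gt (4 * Cs * R * CA + 200 / ε)
  obtain ⟨q, p, hq, hgood⟩ := exists_good hαirr (max q₀ (max 20 q₁))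
  have hqq₀ : q₀ ≤ q := le_trans (le_max_left _ _) hq
  have hq20 : 20 ≤ q := le_trans (le_trans (le_max_left _ _) (le_max_right _ _)) hq
  have hqq₁ : q₁ ≤ q := le_trans (le_trans (le_max_right _ _) (le_max_right _ _)) hq
  have hq20' : (20 : ℝ) ≤ q := by exact_mod_cast hq20
  have hq0 : (0 : ℝ) < q := by linarith
  have hqbig : 4 * Cs * R * CA + 200 / ε < q := lt_of_lt_of_le hq₁ (by exact_mod_cast hqq₁)
  have hp1 : 0 < 4 * Cs * R * CA := by positivity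
  have hp2 : 0 < 200 / ε := by positivity
  have hq1 : 4 * Cs * R * CA ≤ q := by linarith
  have hq2 : 200 / ε ≤ q := by linarith
  -- slots
  obtain ⟨bad, hbad⟩ : ∃ bad : Set ℝ, bad = ⋃ s ∈ (Finset.range m : Set ℕ), ⋃ n : ℤ,
    {Int.fract ((n : ℝ) * α + βl s)} := ⟨_, rfl⟩
  have hbadc : bad.Countable := by
    rw [hbad]
    apply Set.Countable.biUnion (Finset.countable_toSet _)
    intro s _
    exact Set.countable_iUnion fun n => Set.countable_singleton _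
  obtain ⟨J, τ, hJ0, hJq, hτ0, hτJ, hlen, hτbad⟩ := exists_slots q hq20 bad hbadc
  have hs : SlotData J τ q := ⟨hJ0, hJq, hτ0, hτJ, hlen⟩
  have hτne : ∀ i, 0 < i → i < J → ∀ s < m, ∀ n : ℤ, τ i ≠ Int.fract ((n : ℝ) * α + βl s) := by
    intro i hi0 hiJ s hs n h
    apply hτbad i hi0 hiJ
    rw [hbad]
    simp only [Set.mem_iUnion, Set.mem_singleton_iff]
    exact ⟨s, by simpa using hs, n, h⟩
  obtain ⟨χ, V₁, V₂, hχ, hV₁, hV₂, sj, nj, hsj⟩ := hsel q hqq₀ p hgood J τ hs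
  -- more constants
  obtain ⟨A, hA⟩ : ∃ x : ℝ, x = CA / q := ⟨_, rfl⟩
  have hA0 : 0 < A := by rw [hA]; positivity
  have hAsep : 2 * A ≤ ε * (C' / q) := by
    rw [hA, hC']
    apply le_of_eq
    field_simp
  have hAq : A * q = CA := by rw [hA]; field_simp
  have hρ0A : ρ0 * A = 200 / q := by
    rw [eq_div_iff hq0.ne']
    calc ρ0 * A * q = (A * q) * ρ0 := by ring
      _ = 200 := by rw [hAq, hCAρ]
  obtain ⟨D, hD⟩ : ∃ x : ℝ, x = 4 * (Cs * (R * A)) := ⟨_, rfl⟩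
  have hD0 : 0 ≤ D := by rw [hD]; positivity
  have hD1 : D ≤ 1 := by
    rw [hD, hA]
    have : 4 * (Cs * (R * (CA / q))) = 4 * Cs * R * CA / q := by ring
    rw [this, div_le_one hq0]
    exact hq1
  have hRA : 4 * (R * A) ≤ 1 := by
    have : R * A ≤ Cs * (R * A) := le_mul_of_one_le_left (by positivity) hCs1
    linarith
  have hAle : A ≤ R * A := le_mul_of_one_le_left hA0.le hR1
  have hAε : A ≤ ε / ρ0 := by
    rw [hA, hCA, div_div, div_le_div_iff₀ (by positivity) hρ0pos]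
    rw [div_le_iff₀ hε0] at hq2
    have : 200 * ρ0 ≤ (q * ε) * ρ0 := mul_le_mul_of_nonneg_right hq2 hρ0pos.le
    linarith
  obtain ⟨K, hK⟩ : ∃ x : ℝ, x = (q + 4) / ρ0 := ⟨_, rfl⟩
  have hK0 : 0 < K := by rw [hK]; positivity
  obtain ⟨N, hN⟩ : ∃ x : ℝ, x = R * K + 1 := ⟨_, rfl⟩
  obtain ⟨N', hN'⟩ : ∃ x : ℝ, x = R * K + 6 := ⟨_, rfl⟩
  obtain ⟨M, hM⟩ : ∃ x : ℤ, x = ⌊N'⌋ := ⟨_, rfl⟩
  have hRK : 0 < R * K := by positivity
  have hKq : q + 4 ≤ R * K := by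
    have h1 : (q : ℝ) + 4 ≤ K := by
      rw [hK, le_div_iff₀ hρ0pos]
      exact mul_le_of_le_one_right (by positivity) hρ01
    have h2 : K ≤ R * K := le_mul_of_one_le_left hK0.le hR1
    linarith
  have hM0 : (0 : ℤ) ≤ M := by
    rw [hM]
    exact Int.le_floor.2 (by push_cast; linarith)
  have hMq : (q : ℤ) + 1 ≤ M := by
    rw [hM]
    exact Int.le_floor.2 (by push_cast; linarith)
  have hMle : (M : ℝ) ≤ N' := hM ▸ Int.floor_le N'
  have hMlt : N' < M + 1 := hM ▸ Int.lt_floor_add_one N'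
  obtain ⟨ω, hω⟩ : ∃ x : ℝ, x = min (1 / 4) (ε * R * A / 3) := ⟨_, rfl⟩
  have hω0 : 0 < ω := hω ▸ lt_min (by norm_num) (by positivity)
  obtain ⟨err, herr⟩ : ∃ x : ℝ, x = 3 * (ε * R * A) := ⟨_, rfl⟩
  have herr0 : 0 ≤ err := by rw [herr]; positivity
  have hεD0 : 0 ≤ ε * D := mul_nonneg hε0.le hD0
  -- tents
  obtain ⟨g, hg⟩ : ∃ g : ℕ → ℝ, g = fun i => sg (net m S.σ ρ vl βl α (sj i)) := ⟨_, rfl⟩
  have hg' : ∀ i, g i = sg (net m S.σ ρ vl βl α (sj i)) := fun i => by rw [hg]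
  have hg1 : ∀ i, |g i| ≤ 1 := fun i => by rw [hg' i]; exact abs_sg_le _
  have hsep := slot_sep (U := U) (α := α) (β := βl) hs hε0.le hsj hAsep
  obtain ⟨u, hu⟩ : ∃ u : ℝ → ℝ, u = tents A ε J (yc ρ vl χ V₁ V₂ τ sj nj) g := ⟨_, rfl⟩
  have hlevb : ∀ i ≤ J, 0 ≤ lev χ V₁ V₂ (τ i) ∧ lev χ V₁ V₂ (τ i) ≤ 5 / 4 := fun i hi =>
    lev_bounds hχ hVV0 hVV hV₁ hV₂ (hs.mem01 hi)
  have hbump : Bump K ε u := by
    rw [hu]
    refine tents_bump hA0.le hε0.le hK0 hg1 hsep ?_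
    intro i hi
    obtain ⟨c1, c2, c3, -⟩ := hsj i hi
    have hl := hlevb i hi.le
    have h1 : |yc ρ vl χ V₁ V₂ τ sj nj i| ≤ (q + 2) / ρ0 := by
      unfold yc
      rw [abs_div, abs_of_pos (hρU _ c1)]
      have h2 : |(nj i : ℝ) + lev χ V₁ V₂ (τ i) - vl (sj i)| ≤ q + 2 := by
        have h3 : (0 : ℝ) ≤ nj i := by exact_mod_cast c2
        have h4 : (nj i : ℝ) ≤ q := by exact_mod_cast c3.le
        have h5 := hvl01 (sj i)
        rw [Set.mem_Icc] at h5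
        rw [abs_le]
        constructor <;> linarith
      exact div_le_div₀ (by positivity) h2 hρ0pos (hρ0U _ c1)
    have h2 : 2 / ρ0 ≤ K - |yc ρ vl χ V₁ V₂ τ sj nj i| := by
      have : K = (q + 2) / ρ0 + 2 / ρ0 := by rw [hK]; ring
      linarith
    calc A ≤ ε / ρ0 := hAε
      _ ≤ ε * (2 / ρ0) := by
        have : 0 ≤ ε / ρ0 := by positivity
        have e : ε * (2 / ρ0) = 2 * (ε / ρ0) := by ring
        linarith
      _ ≤ _ := mul_le_mul_of_nonneg_left h2 hε0.le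
  have huA : ∀ y, |u y| ≤ A := fun y => by
    rw [hu]; exact tents_abs_le hA0.le hε0.le hg1 hsep y
  -- window radius
  obtain ⟨Q₀, hQ₀⟩ : ∃ Q₀ : ℝ, ∀ s < m, ∀ Q : ℝ, Q₀ ≤ Q → ∀ y, |y| ≤ K + 1 →
      |S.F s (z₀ + y / Q) - S.F s z₀ - ρ s * y / Q| ≤ ω / Q := by
    have h1 : ∀ s < m, ∃ Q₀ : ℝ, ∀ Q : ℝ, Q₀ ≤ Q → ∀ y, |y| ≤ K + 1 →
        |S.F s (z₀ + y / Q) - S.F s z₀ - ρ s * y / Q| ≤ ω / Q := fun s hs =>
      exists_win (hder s hs) (K + 1) ω (by linarith) hω0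
    choose! q hq using h1
    refine ⟨∑ s ∈ Finset.range m, |q s|, fun s hs Q hQ => hq s hs Q (le_trans ?_ hQ)⟩
    exact (le_abs_self _).trans (Finset.single_le_sum (f := fun s => |q s|)
      (fun i _ => abs_nonneg _) (Finset.mem_range.2 hs))
  -- convergence of times
  obtain ⟨X, hX⟩ : ∃ X : ℕ → ℕ → ℤ → ℝ, X = fun (j s : ℕ) (n : ℤ) =>
    (n : ℝ) * ((Pb j : ℝ) / Q j) + β j s + (⌊τ₀ * Q j⌋ : ℝ) / Q j := ⟨_, rfl⟩
  have hfloor : Tendsto (fun j : ℕ => (⌊τ₀ * Q j⌋ : ℝ) / Q j) 𝒰 (𝓝 τ₀) := by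
    have h1 : Tendsto (fun j : ℕ => 1 / (Q j : ℝ)) 𝒰 (𝓝 0) := by
      have h2 : Tendsto (fun j : ℕ => (Q j : ℝ)) atTop atTop :=
        tendsto_natCast_atTop_atTop.comp (tendsto_atTop_mono (fun j => (hjQ j).le) tendsto_id)
      have h3 := (tendsto_inv_atTop_zero.comp h2).mono_left h𝒰
      refine h3.congr fun j => ?_
      simp
    have h2 : Tendsto (fun j : ℕ => τ₀ - 1 / (Q j : ℝ)) 𝒰 (𝓝 τ₀) := by
      have := h1.const_sub τ₀
      simpa using this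
    refine tendsto_of_tendsto_of_tendsto_of_le_of_le h2 tendsto_const_nhds (fun j => ?_)
      (fun j => ?_)
    · have h3 := Int.lt_floor_add_one (τ₀ * Q j)
      have h4 := hQR j
      show τ₀ - 1 / (Q j : ℝ) ≤ (⌊τ₀ * Q j⌋ : ℝ) / Q j
      rw [le_div_iff₀ h4, sub_mul, one_div, inv_mul_cancel₀ h4.ne']
      linarith
    · have h3 := Int.floor_le (τ₀ * Q j)
      have h4 := hQR j
      show (⌊τ₀ * Q j⌋ : ℝ) / Q j ≤ τ₀
      rw [div_le_iff₀ h4]
      exact h3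
  have hXlim : ∀ s n, Tendsto (fun j => X j s n) 𝒰 (𝓝 (n * α + βl s)) := by
    intro s n
    rw [hX, hβl]
    have h1 := ((hα.const_mul (n : ℝ)).add (hβ0 s)).add hfloor
    have e : (n : ℝ) * α + (β0 s + τ₀) = n * α + β0 s + τ₀ := by ring
    rw [e]
    exact h1
  have hXfr : ∀ s < m, ∀ n, Tendsto (fun j => Int.fract (X j s n)) 𝒰
      (𝓝 (Int.fract (n * α + βl s))) := fun s hs n =>
    tendsto_fract_of_ne (fun l => hgen s hs n l) (hXlim s n)
  have hslot : ∀ s < m, ∀ n : ℤ, ∀ i ≤ J, ∀ᶠ j in (𝒰 : Filter ℕ),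
      (τ i ≤ Int.fract (X j s n) ↔ τ i ≤ Int.fract ((n : ℝ) * α + βl s)) := by
    intro s hs' n i hi
    rcases Nat.eq_zero_or_pos i with h0 | h0
    · refine Filter.Eventually.of_forall fun j => ?_
      rw [h0, hτ0]
      exact ⟨fun _ => Int.fract_nonneg _, fun _ => Int.fract_nonneg _⟩
    · rcases hi.lt_or_eq with hi | hi
      · have h1 := hτne i h0 hi s hs' n
        rcases lt_or_gt_of_ne h1 with h2 | h2
        · filter_upwards [(hXfr s hs' n).eventually (lt_mem_nhds h2)] with j hj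
          exact ⟨fun _ => h2.le, fun _ => hj.le⟩
        · filter_upwards [(hXfr s hs' n).eventually (gt_mem_nhds h2)] with j hj
          exact ⟨fun h => absurd h (not_le.2 hj), fun h => absurd h (not_le.2 h2)⟩
      · refine Filter.Eventually.of_forall fun j => ?_
        rw [hi, hτJ]
        exact ⟨fun h => absurd h (not_le.2 (Int.fract_lt_one _)),
          fun h => absurd h (not_le.2 (Int.fract_lt_one _))⟩
  -- choose j
  have ev1 : ∀ᶠ j in (𝒰 : Filter ℕ), ∀ s ∈ Finset.range m, |v j s - vl s| ≤ R * A := by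
    rw [Filter.eventually_all_finset]
    intro s _
    have h1 : Tendsto (fun j => |v j s - vl s|) 𝒰 (𝓝 0) := by
      have := ((hvl s).sub_const (vl s)).abs
      simpa using this
    exact (h1.eventually (gt_mem_nhds (by positivity :
      (0:ℝ) < R * A))).mono fun j hj => hj.le
  have ev2 : ∀ᶠ j : ℕ in (𝒰 : Filter ℕ), ∀ s ∈ Finset.range m, ∀ n ∈ Finset.Icc (-M) M,
      ∀ i ∈ Finset.range (J + 1),
      (τ i ≤ Int.fract (X j s n) ↔ τ i ≤ Int.fract ((n : ℝ) * α + βl s)) := by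
    rw [Filter.eventually_all_finset]
    intro s hs'
    rw [Filter.eventually_all_finset]
    intro n _
    rw [Filter.eventually_all_finset]
    intro i hi
    exact hslot s (mem_range.1 hs') n i (by have := mem_range.1 hi; omega)
  have ev3 : ∀ᶠ j : ℕ in (𝒰 : Filter ℕ), max Q₀ (2 * (N' + 4) + 2 * K + 2 + q) ≤ (j : ℝ) :=
    (tendsto_natCast_atTop_atTop.mono_left h𝒰).eventually (eventually_ge_atTop _)
  obtain ⟨j, hj1, hj2, hj3⟩ := (ev1.and (ev2.and ev3)).exists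
  have hjQ' : (j : ℝ) ≤ Q j := by exact_mod_cast (hjQ j).le
  have hQbig : 2 * (N' + 4) + 2 * K + 2 + q ≤ (Q j : ℝ) :=
    (le_max_right _ _).trans (hj3.trans hjQ')
  have hQQ₀ : Q₀ ≤ (Q j : ℝ) := (le_max_left _ _).trans (hj3.trans hjQ')
  have hQj0 := hQR j
  obtain ⟨h, hh⟩ := exists_h hbump (by linarith) (z₀ := z₀) (Q := (Q j : ℝ)) (by linarith)
  obtain ⟨k₀, hk₀⟩ : ∃ k : ℤ, k = ⌊τ₀ * Q j⌋ := ⟨_, rfl⟩
  let L : Loc S :=
    { K := K, ε := ε, A := A, ω := ω, N := N, N' := N', Φm := 3, err := err, z₀ := z₀,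
      x₀ := -(k₀ * P j) / Q j
      u := u, P := P j, Q := Q j, ρ := ρ, h := h
      hu := hbump
      hA := huA
      hA0 := by linarith
      hε := by linarith
      hρ := hρ
      hω0 := hω0.le
      hω := hω ▸ min_le_left _ _
      hwin := fun s hs y hy => hQ₀ s hs _ hQQ₀ y hy
      hQ := by linarith
      hQ' := fun s hs => by
        have h1 : ρ s * K ≤ R * K := mul_le_mul_of_nonneg_right (hR s hs) hK0.le
        linarith
      hh := hh
      hN := fun s hs => by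
        have h1 : ρ s * K ≤ R * K := mul_le_mul_of_nonneg_right (hR s hs) hK0.le
        linarith
      herr := fun s hs => by
        have h1 : ω ≤ ε * R * A / 3 := hω ▸ min_le_right _ _
        have h2 : 2 * ε * ρ s * A ≤ 2 * ε * R * A := by
          have := hR s hs
          gcongr
        rw [herr]
        linarith
      hN' := by linarith
      hQ'' := by linarith }
  have hPb' : L.P * Pb j ≡ 1 [ZMOD L.Q] := hPb j
  have hLV : ∀ s, L.V s = V j s - ((k₀ * P j : ℤ) : ℝ) := fun s => by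
    show (Q j : ℝ) * (-(k₀ * P j) / Q j - S.F s z₀) = _
    rw [hV]
    push_cast
    field_simp
    ring
  have hLa : ∀ s, L.a s = ⌈V j s⌉ - k₀ * P j := fun s => by
    show ⌈L.V s⌉ = _
    rw [hLV s, Int.ceil_sub_intCast]
  have hLv : ∀ s, L.v s = v j s := fun s => by
    show (L.a s : ℝ) - L.V s = _
    rw [hLa, hLV, hv]
    push_cast
    ring
  have hLδ : L.δ = P j - Q j * θ := rfl
  have hMiff : ∀ n : ℤ, |(n : ℝ)| ≤ L.N' ↔ n ∈ Finset.Icc (-M) M := hM ▸ abs_floor_iff N'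
  have hNQ : 2 * L.N' < L.Q := by
    show 2 * N' < (Q j : ℝ)
    linarith
  -- times of events
  have htime : ∀ s n, (L.kk (Pb j) s n : ℝ) / L.Q = Int.fract (X j s n) := by
    intro s n
    rw [L.kk_div, hLa]
    show Int.fract ((((n - (⌈V j s⌉ - k₀ * P j)) * Pb j : ℤ) : ℝ) / Q j) = _
    obtain ⟨e, he⟩ := (hPb j).dvd
    -- 1 - P Pb = Q e
    have he' : (P j : ℝ) * Pb j = 1 - Q j * e := by
      have : P j * Pb j = 1 - Q j * e := by linarith
      exact_mod_cast this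
    have h1 : (((n - (⌈V j s⌉ - k₀ * P j)) * Pb j : ℤ) : ℝ) / Q j
        = n * ((Pb j : ℝ) / Q j) + -(((⌈V j s⌉ * Pb j : ℤ)) : ℝ) / Q j + k₀ / Q j
          + ((-(k₀ * e) : ℤ) : ℝ) := by
      push_cast
      have h2 : ((n : ℝ) - (⌈V j s⌉ - k₀ * P j)) * Pb j
        = n * Pb j - ⌈V j s⌉ * Pb j + k₀ * (P j * Pb j) := by ring
      rw [h2, he']
      field_simp
      ring
    rw [h1, Int.fract_add_intCast, hX]
    simp only
    have h3 : β j s = -(((⌈V j s⌉ * Pb j : ℤ)) : ℝ) / Q j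
        - ((⌊-(((⌈V j s⌉ * Pb j : ℤ)) : ℝ) / Q j⌋ : ℤ) : ℝ) := by
      rw [hβ]; rfl
    rw [h3, ← hk₀]
    have h4 : (n : ℝ) * ((Pb j : ℝ) / Q j) + (-(((⌈V j s⌉ * Pb j : ℤ)) : ℝ) / Q j
        - ((⌊-(((⌈V j s⌉ * Pb j : ℤ)) : ℝ) / Q j⌋ : ℤ) : ℝ)) + k₀ / Q j
        = (n * ((Pb j : ℝ) / Q j) + -(((⌈V j s⌉ * Pb j : ℤ)) : ℝ) / Q j + k₀ / Q j)
        - ((⌊-(((⌈V j s⌉ * Pb j : ℤ)) : ℝ) / Q j⌋ : ℤ) : ℝ) := by ring
    rw [h4, Int.fract_sub_intCast]
  -- slot boundaries in rounds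
  obtain ⟨kI, hkI⟩ : ∃ kI : ℕ → ℕ, kI = fun i => ⌈τ i * Q j⌉₊ := ⟨_, rfl⟩
  have hkI0 : kI 0 = 0 := by rw [hkI]; simp [hτ0]
  have hkIJ : kI J = Q j := by rw [hkI]; simp [hτJ]
  have hkIle : ∀ i (s : ℕ) (n : ℤ), kI i ≤ L.kk (Pb j) s n ↔ τ i ≤ Int.fract (X j s n) := by
    intro i s n
    rw [← htime, hkI]
    show ⌈τ i * Q j⌉₊ ≤ L.kk (Pb j) s n ↔ τ i ≤ (L.kk (Pb j) s n : ℝ) / Q j
    rw [Nat.ceil_le, le_div_iff₀ hQj0]
  have hkImono : ∀ i < J, kI i ≤ kI (i + 1) := by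
    intro i hi
    rw [hkI]
    apply Nat.ceil_mono
    exact mul_le_mul_of_nonneg_right (hs.mono (Nat.le_succ i) hi) hQj0.le
  have hkIQ : ∀ i ≤ J, kI i ≤ Q j := by
    intro i hi
    rw [hkI]
    show ⌈τ i * Q j⌉₊ ≤ Q j
    rw [Nat.ceil_le]
    exact mul_le_of_le_one_left hQj0.le (hs.mem01 hi).2
  -- the count
  have hcount : ∀ i < J, ∑ s ∈ range m, (((Finset.Icc (-M) M).filter fun n : ℤ =>
      τ i ≤ Int.fract ((n : ℝ) * α + βl s) ∧ Int.fract ((n : ℝ) * α + βl s) < τ (i + 1)).card : ℝ)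
      ≤ Cs := by
    intro i hi
    have h1 : ∀ s ∈ range m, (((Finset.Icc (-M) M).filter fun n : ℤ =>
        τ i ≤ Int.fract ((n : ℝ) * α + βl s) ∧ Int.fract ((n : ℝ) * α + βl s) < τ (i + 1)).card : ℝ)
        ≤ 36 * R / ρ0 := by
      intro s _
      have h2 := card_window hgood (βl s) (τ i) (τ (i + 1)) (hlen i hi).2
        (hs.mono (Nat.le_succ i) hi) M hM0 ((Finset.Icc (-M) M).filter fun n : ℤ =>
        τ i ≤ Int.fract ((n : ℝ) * α + βl s) ∧ Int.fract ((n : ℝ) * α + βl s) < τ (i + 1))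
        (fun n hn => by
          rw [Finset.mem_filter, Finset.mem_Icc] at hn
          exact hn)
      refine h2.trans ?_
      have h3 : 2 * (M : ℝ) / q + 1 ≤ 4 * (R / ρ0) := by
        have h4 : 2 * (M : ℝ) / q ≤ 2 * (R * K + 6) / q := by
          rw [hN'] at hMle
          gcongr
        have h5 : 2 * (R * K + 6) / q = 2 * (R / ρ0) * ((q + 4) / q) + 12 / q := by
          rw [hK]; field_simp; ring
        have h6 : ((q : ℝ) + 4) / q ≤ 6 / 5 := by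
          rw [div_le_div_iff₀ hq0 (by norm_num)]; linarith
        have h7 : (12 : ℝ) / q ≤ 3 / 5 := by
          rw [div_le_div_iff₀ hq0 (by norm_num)]; linarith
        have h8 : 1 ≤ R / ρ0 := by
          rw [le_div_iff₀ hρ0pos]; linarith
        have h9 : 2 * (R / ρ0) * (((q : ℝ) + 4) / q) ≤ 2 * (R / ρ0) * (6 / 5) :=
          mul_le_mul_of_nonneg_left h6 (by positivity)
        linarith
      calc 9 * (2 * (M : ℝ) / q + 1) ≤ 9 * (4 * (R / ρ0)) :=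
            mul_le_mul_of_nonneg_left h3 (by norm_num)
        _ = 36 * R / ρ0 := by ring
    calc _ ≤ ∑ s ∈ range m, 36 * R / ρ0 := Finset.sum_le_sum h1
      _ = 36 * m * R / ρ0 := by
        rw [Finset.sum_const, nsmul_eq_mul, Finset.card_range]; ring
      _ ≤ Cs := by rw [hCs]; linarith
  have hMsupp : ∀ i ≤ J, ∀ s < m, ∀ n : ℤ, M < |n| →
      UU (ρ s) u (n + lev χ V₁ V₂ (τ i) - vl s) = 0 := by
    intro i hi s hs' n hn
    apply UU_supp hbump (hρ s hs')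
    have h1 : (M : ℝ) + 1 ≤ |(n : ℝ)| := by
      have : M + 1 ≤ |n| := hn
      exact_mod_cast this
    have h2 := hlevb i hi
    have h3 := hvl01 s
    rw [Set.mem_Icc] at h3
    have h4 : ρ s * K ≤ R * K := mul_le_mul_of_nonneg_right (hR s hs') hK0.le
    have h5 : |(n : ℝ)| ≤ |(n : ℝ) + lev χ V₁ V₂ (τ i) - vl s| + |lev χ V₁ V₂ (τ i) - vl s| := by
      have e : (n : ℝ) = (n + lev χ V₁ V₂ (τ i) - vl s) - (lev χ V₁ V₂ (τ i) - vl s) := by ring
      have := abs_sub ((n : ℝ) + lev χ V₁ V₂ (τ i) - vl s) (lev χ V₁ V₂ (τ i) - vl s)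
      rw [← e] at this
      exact this
    have h6 : |lev χ V₁ V₂ (τ i) - vl s| ≤ 5 / 4 := by
      rw [abs_le]; constructor <;> linarith
    linarith
  have hm0 : (0 : ℝ) ≤ Cs := by linarith
  -- one slot
  have hstep : ∀ z, ∀ i < J, L.LL z (kI i) (lev χ V₁ V₂ (τ i)) →
      L.LL z (kI (i + 1)) (lev χ V₁ V₂ (τ (i + 1))) := by
    intro z i hi hLL
    have hsum := slot_sum (m := m) (σ := S.σ) hs hε0.le hA0.le hρ
      (fun s => ⟨(hvl01 s).1, (hvl01 s).2⟩) hU hsj hAsep hMq hg' hi (by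
        rw [← hu]; exact hMsupp i hi.le)
    rw [← hu] at hsum
    obtain ⟨c1, c2, c3, -⟩ := hsj i hi
    have hnet := ((hU (sj i)).1 c1).2.2
    have hnet1 := one_le_abs_net hnet
    have hG : ρ0 * A ≤ |net m S.σ ρ vl βl α (sj i)| * (ρ (sj i) * A) := by
      have h1 : ρ0 * A ≤ ρ (sj i) * A := mul_le_mul_of_nonneg_right (hρ0U _ c1) hA0.le
      have h2 : ρ (sj i) * A ≤ |net m S.σ ρ vl βl α (sj i)| * (ρ (sj i) * A) :=
        le_mul_of_one_le_left (mul_nonneg (hρU _ c1).le hA0.le) hnet1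
      linarith
    rw [← hsum] at hG
    have hl := hlevb i hi.le
    -- number of rounds
    have hkd : kI i + (kI (i + 1) - kI i) = kI (i + 1) := by
      have := hkImono i hi; omega
    have hrounds : L.δ * ((kI (i + 1) - kI i : ℕ) : ℝ) ≤ 7 / q := by
      have h1 : ((kI (i + 1) - kI i : ℕ) : ℝ) ≤ 6 / q * Q j + 1 := by
        rw [Nat.cast_sub (hkImono i hi), hkI]
        simp only
        have h2 : (⌈τ (i + 1) * (Q j : ℝ)⌉₊ : ℝ) < τ (i + 1) * Q j + 1 :=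
          Nat.ceil_lt_add_one (mul_nonneg (hs.mem01 hi).1 hQj0.le)
        have h3 := Nat.le_ceil (τ i * (Q j : ℝ))
        have h4 : (τ (i + 1) - τ i) * Q j ≤ 6 / q * Q j :=
          mul_le_mul_of_nonneg_right (hlen i hi).2 hQj0.le
        rw [sub_mul] at h4
        linarith
      have h2 : L.δ ≤ 1 / Q j := by
        rw [hLδ, le_div_iff₀ hQj0]
        have := hδle j
        linarith
      have hδ0 : 0 ≤ L.δ := (hδpos j).le
      calc L.δ * ((kI (i + 1) - kI i : ℕ) : ℝ) ≤ 1 / Q j * (6 / q * Q j + 1) :=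
            mul_le_mul h2 h1 (Nat.cast_nonneg _) (by positivity)
        _ = 6 / q + 1 / Q j := by field_simp
        _ ≤ 6 / q + 1 / q := by
            have : (q : ℝ) ≤ Q j := by linarith
            gcongr
        _ = 7 / q := by ring
    have hk1 := hkIQ (i + 1) hi
    have hres := L.slot_step (z := z) hPb' (k₁ := kI i) (j := kI (i + 1) - kI i)
      (by rw [hkd]; exact hk1) M hMiff hNQ
      (ψ := lev χ V₁ V₂ (τ i)) (D := D) (C₁ := R * A + err + ε * D) (C := Cs) (ev := R * A)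
      (G := ρ0 * A) vl (fun s hs' => by rw [hLv]; exact hj1 s (mem_range.2 hs'))
      (fun s n => τ i ≤ Int.fract ((n : ℝ) * α + βl s) ∧
        Int.fract ((n : ℝ) * α + βl s) < τ (i + 1))
      (fun s hs' n hn => by
        rw [hkd]
        have e1 := hj2 s (mem_range.2 hs') n hn i (mem_range.2 (by omega))
        have e2 := hj2 s (mem_range.2 hs') n hn (i + 1) (mem_range.2 (by omega))
        rw [hkIle, e1, ← not_le, hkIle, e2, not_le])
      (by convert hcount i hi)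
      (by
        refine hG.trans (le_of_eq ?_)
        refine Finset.sum_congr rfl fun s _ => ?_
        congr 1
        refine Finset.sum_congr rfl fun n _ => ?_
        unfold gg
        by_cases hE : τ i ≤ Int.fract ((n : ℝ) * α + βl s) ∧
          Int.fract ((n : ℝ) * α + βl s) < τ (i + 1)
        · rw [if_pos hE, if_pos hE]
        · rw [if_neg hE, if_neg hE])
      hD0 (by have : 0 ≤ R * A := by positivity
              linarith)
      (fun s hs' => by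
        have h1 : ρ s * A ≤ R * A := mul_le_mul_of_nonneg_right (hR s hs') hA0.le
        show ρ s * A + err + ε * D ≤ _
        linarith)
      herr0 (by positivity) (hδpos j).le
      (by
        have e1 : Cs * (R * A + err + ε * D) = Cs * (R * A) + 3 * (ε * Cs) * (R * A)
            + 4 * (ε * Cs) * (Cs * (R * A)) := by rw [herr, hD]; ring
        rw [e1]
        have h1 : R * A ≤ Cs * (R * A) := le_mul_of_one_le_left (by positivity) hCs1
        have h2 : 40 * (ε * Cs) * (Cs * (R * A)) ≤ 1 * (Cs * (R * A)) :=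
          mul_le_mul_of_nonneg_right hεC (by positivity)
        have h3 : 40 * (ε * Cs) * (R * A) ≤ 1 * (R * A) :=
          mul_le_mul_of_nonneg_right hεC (by positivity)
        have h4 : ρ0 * A ≤ R * A := mul_le_mul_of_nonneg_right (by linarith) hA0.le
        have h5 : (200 : ℝ) / q = 200 / 7 * (7 / q) := by ring
        rw [hD]
        linarith)
      (by
        show |lev χ V₁ V₂ (τ i)| + D ≤ 3
        rw [abs_of_nonneg hl.1]
        linarith) hLL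
    rw [hkd] at hres
    refine Loc.LI.mono hres ?_
    -- arithmetic
    have hlevd : lev χ V₁ V₂ (τ (i + 1)) - lev χ V₁ V₂ (τ i) ≤ 9 / 4 / q := by
      have e : lev χ V₁ V₂ (τ (i + 1)) - lev χ V₁ V₂ (τ i)
          = (τ (i + 1) - τ i) * (V₁ + V₂ * (τ i + τ (i + 1))) := by unfold lev; ring
      rw [e]
      have t1 := hs.mem01 hi.le
      have t2 := hs.mem01 (Nat.succ_le_of_lt hi)
      have h1 : V₁ + V₂ * (τ i + τ (i + 1)) ≤ 3 / 8 := by
        have h2 : V₂ * (τ i + τ (i + 1)) ≤ (1 / 8) * 2 :=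
          mul_le_mul (by linarith [hV₂.2]) (by linarith [t1.2, t2.2])
            (by linarith [t1.1, t2.1]) (by norm_num)
        linarith [hV₁.2]
      have h2 : 0 ≤ V₁ + V₂ * (τ i + τ (i + 1)) := by
        have : 0 ≤ V₂ * (τ i + τ (i + 1)) :=
          mul_nonneg (by linarith [hV₂.1]) (by linarith [t1.1, t2.1])
        linarith [hV₁.1]
      calc (τ (i + 1) - τ i) * (V₁ + V₂ * (τ i + τ (i + 1))) ≤ (6 / q) * (3 / 8) :=
            mul_le_mul (hlen i hi).2 h1 h2 (by positivity)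
        _ = 9 / 4 / q := by ring
    show lev χ V₁ V₂ (τ (i + 1)) ≤ lev χ V₁ V₂ (τ i) + ρ0 * A
      - Cs * (err + ε * D + ε * (R * A)) - L.δ * ((kI (i + 1) - kI i : ℕ) : ℝ)
    have k1 : Cs * (err + ε * D + ε * (R * A)) = 4 * (ε * Cs * (R * A))
        + 4 * (ε * Cs ^ 2 * R) * A := by rw [herr, hD]; ring
    have k2 : ε * Cs * (R * A) ≤ (ε * Cs ^ 2 * R) * A := by
      have : ε * Cs * (R * A) * 1 ≤ ε * Cs * (R * A) * Cs :=
        mul_le_mul_of_nonneg_left hCs1 (by positivity)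
      calc ε * Cs * (R * A) = ε * Cs * (R * A) * 1 := by ring
        _ ≤ _ := this
        _ = _ := by ring
    have k3 : 40 * ((ε * Cs ^ 2 * R) * A) = ρ0 * A := by rw [← hεCR]; ring
    rw [k1]
    have k4 : ρ0 * A = 200 * (1 / q) := by rw [hρ0A]; ring
    have k5 : (7 : ℝ) / q = 7 * (1 / q) := by ring
    have k6 : (9 : ℝ) / 4 / q = 9 / 4 * (1 / q) := by ring
    have k7 : 0 < 1 / (q : ℝ) := by positivity
    rw [k5] at hrounds
    rw [k6] at hlevd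
    linarith
  -- conclusion
  obtain ⟨z, hz0, hz⟩ := L.exists_start (lev χ V₁ V₂ (τ 0))
  have hall : ∀ i ≤ J, L.LL z (kI i) (lev χ V₁ V₂ (τ i)) := by
    intro i
    induction i with
    | zero => intro _; rw [hkI0]; exact hz
    | succ i ih => intro hi; exact hstep z i (by omega) (ih (by omega))
  have hend := hall J le_rfl
  rw [hkIJ] at hend
  refine ⟨h, ?_⟩
  refine L.closing (z := z) (φ := lev χ V₁ V₂ (τ 0)) hz0.le ?_ hend (hδpos j)
  rw [hτ0, hτJ]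
  unfold lev
  linarith [hV₁.1, hV₂.1]

end Pool.Agent.Helper88.Rot
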