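import Pool.Agent.Helper88.Rot.Stage

/-!
Translation into statements about homomorphisms of the free group.
-/

namespace Pool.Agent.Helper88.Rot

open CircleDeg1Lift Filter Topology

theorem T_central (n : ℤ) (g : CircleDeg1Liftˣ) : g * T n = T n * g := by
  ext x
  show g ((n : ℝ) + x) = (n : ℝ) + g x
  rw [map_int_add]

theorem pow_eq_of_isConj {g : CircleDeg1Liftˣ} {q : ℕ} {p : ℤ} (hq : 0 < q)
    (h : IsConj g (T ((p : ℝ) / q))) : g ^ q = T p := by
  rw [isConj_iff] at h
  obtain ⟨c, hc⟩ := h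
  have h1 : (c * g * c⁻¹) ^ q = T p := by
    rw [hc, translate_pow]
    congr 2
    have : (q : ℝ) ≠ 0 := by exact_mod_cast hq.ne'
    field_simp
  rw [conj_pow, mul_inv_eq_iff_eq_mul, ← T_central] at h1
  exact mul_left_cancel h1

theorem isConj_of_pow_eq {g : CircleDeg1Liftˣ} {q : ℕ} {p : ℤ} (hq : 0 < q)
    (h : g ^ q = T p) : IsConj g (T ((p : ℝ) / q)) := by
  have hq' : (0 : ℝ) < q := by exact_mod_cast hq
  let L0 : CircleDeg1Lift :=
    { toFun := fun x => (∑ k ∈ Finset.range q, (g ^ k : CircleDeg1Liftˣ) x) / q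
      monotone' := fun x y hxy => by
        have : ∑ k ∈ Finset.range q, (g ^ k : CircleDeg1Liftˣ) x
            ≤ ∑ k ∈ Finset.range q, (g ^ k : CircleDeg1Liftˣ) y :=
          Finset.sum_le_sum fun k _ => (g ^ k : CircleDeg1Liftˣ).val.monotone hxy
        exact div_le_div_of_nonneg_right this hq'.le
      map_add_one' := fun x => by
        simp only [map_add_one, Finset.sum_add_distrib, Finset.sum_const, Finset.card_range,
          nsmul_eq_mul, mul_one]
        field_simp }
  have hL0 : ∀ x, L0 x = (∑ k ∈ Finset.range q, (g ^ k : CircleDeg1Liftˣ) x) / q := fun x => rfl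
  have hcont : Continuous (L0 : ℝ → ℝ) := by
    have : (L0 : ℝ → ℝ) = fun x => (∑ k ∈ Finset.range q, (g ^ k : CircleDeg1Liftˣ) x) / q := rfl
    rw [this]
    exact (continuous_finsetSum _ fun k _ => unit_continuous _).div_const _
  have hstrict : StrictMono (L0 : ℝ → ℝ) := by
    intro x y hxy
    rw [hL0, hL0]
    apply div_lt_div_of_pos_right _ hq'
    exact Finset.sum_lt_sum_of_nonempty (Finset.nonempty_range_iff.2 hq.ne')
      fun k _ => unit_strictMono _ hxy
  obtain ⟨Λ, hΛ⟩ : IsUnit L0 :=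
    isUnit_iff_bijective.2 ⟨hstrict.injective, (continuous_iff_surjective _).1 hcont⟩
  rw [isConj_iff]
  refine ⟨Λ, ?_⟩
  rw [mul_inv_eq_iff_eq_mul]
  ext x
  show Λ (g x) = (p : ℝ) / q + Λ x
  have hΛ' : ∀ x, Λ x = L0 x := fun x => by rw [hΛ]
  rw [hΛ', hΛ', hL0, hL0]
  have h1 : ∀ k, (g ^ k : CircleDeg1Liftˣ) (g x) = (g ^ (k + 1) : CircleDeg1Liftˣ) x := by
    intro k; rw [pow_succ]; rfl
  simp only [h1]
  have h2 := Finset.sum_range_succ' (fun k => (g ^ k : CircleDeg1Liftˣ) x) q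
  rw [Finset.sum_range_succ] at h2
  have h3 : (g ^ q : CircleDeg1Liftˣ) x = p + x := by rw [h]; rfl
  have h4 : (g ^ 0 : CircleDeg1Liftˣ) x = x := by simp
  rw [h3, h4] at h2
  field_simp
  linarith

/-- Values of the translation number of `w` over all homomorphisms with prescribed rotation
classes of the two generators. -/
theorem set_eq (w : FreeGroup (Fin 2)) (r s : ℚ) :
    {t : ℝ | ∃ ρ : FreeGroup (Fin 2) →* CircleDeg1Liftˣ,
      IsConj (ρ (FreeGroup.of 0)) (translate (Multiplicative.ofAdd (r : ℝ))) ∧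
      IsConj (ρ (FreeGroup.of 1)) (translate (Multiplicative.ofAdd (s : ℝ))) ∧
      t = translationNumber (ρ w)}
    = {t : ℝ | ∃ g : Fin 2 → CircleDeg1Liftˣ, Adm ![r.den, s.den] ![r.num, s.num] g ∧
      t = translationNumber (FreeGroup.lift g w)} := by
  have hr : ((r.num : ℤ) : ℝ) / (r.den : ℕ) = (r : ℝ) := by exact_mod_cast Rat.num_div_den r
  have hs : ((s.num : ℤ) : ℝ) / (s.den : ℕ) = (s : ℝ) := by exact_mod_cast Rat.num_div_den s
  ext t
  constructor
  · rintro ⟨ρ, h0, h1, rfl⟩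
    refine ⟨fun j => ρ (FreeGroup.of j), fun j => ?_, ?_⟩
    · rw [← hr] at h0
      rw [← hs] at h1
      fin_cases j
      · exact pow_eq_of_isConj r.den_pos h0
      · exact pow_eq_of_isConj s.den_pos h1
    · congr 2
      have : FreeGroup.lift (fun j => ρ (FreeGroup.of j)) = ρ := by ext j; simp
      rw [this]
  · rintro ⟨g, hg, rfl⟩
    refine ⟨FreeGroup.lift g, ?_, ?_, rfl⟩
    · rw [FreeGroup.lift_apply_of, ← hr]
      exact isConj_of_pow_eq r.den_pos (hg 0)
    · rw [FreeGroup.lift_apply_of, ← hs]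
      exact isConj_of_pow_eq s.den_pos (hg 1)

theorem final_of (Bad : ℝ → Prop) (hBad : ∀ θ, Irrational θ → ¬ Bad θ → PL θ)
    (w : FreeGroup (Fin 2)) (r s : ℚ) :
    ∃ R : ℝ, IsGreatest {t : ℝ | ∃ ρ : FreeGroup (Fin 2) →* CircleDeg1Liftˣ,
      IsConj (ρ (FreeGroup.of 0)) (translate (Multiplicative.ofAdd (r : ℝ))) ∧
      IsConj (ρ (FreeGroup.of 1)) (translate (Multiplicative.ofAdd (s : ℝ))) ∧
      t = translationNumber (ρ w)} R ∧ ((∃ q : ℚ, R = q) ∨ Bad R) := by
  obtain ⟨g, hg, hmax, hor⟩ := max_rational (ι := Fin 2) ![r.den, s.den] ![r.num, s.num]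
    (fun j => by
      fin_cases j
      · exact r.den_pos
      · exact s.den_pos) w
  refine ⟨translationNumber (FreeGroup.lift g w), ?_, ?_⟩
  · rw [set_eq]
    refine ⟨⟨g, hg, rfl⟩, ?_⟩
    rintro t ⟨g', hg', rfl⟩
    exact hmax g' hg'
  · by_cases hirr : Irrational (translationNumber (FreeGroup.lift g w : CircleDeg1Lift))
    · right
      by_contra hP
      rcases hor with h | h
      · exact h hirr
      · exact h (hBad _ hirr hP)
    · left
      rw [irrational_iff_ne_rational] at hirr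
      push Not at hirr
      obtain ⟨a, b, hb, hab⟩ := hirr
      exact ⟨(a : ℚ) / b, by push_cast; exact hab⟩

end Pool.Agent.Helper88.Rot
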