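import Pool.Agent.Helper88.Rot.Tent

/-!
Case A: the translation number is well approximable from above.
-/

namespace Pool.Agent.Helper88.Rot

open CircleDeg1Lift Filter Topology

namespace Loc
variable {m : ℕ} {θ : ℝ} {S : Sys m θ} (L : Loc S)

/-- contributions of a group of rounds, reindexed -/
theorem sum_con {Pb : ℤ} (hPb : L.P * Pb ≡ 1 [ZMOD L.Q]) {k₁ j : ℕ}
    (hj : k₁ + j ≤ L.Q) (M : ℤ) (hM : ∀ n : ℤ, |(n : ℝ)| ≤ L.N' ↔ n ∈ Finset.Icc (-M) M)
    (hNQ : 2 * L.N' < L.Q) (ψ D : ℝ) :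
    ∑ k ∈ Finset.range j, ∑ s ∈ Finset.range m, L.con ψ D s (k₁ + k)
    = ∑ s ∈ Finset.range m, ∑ n ∈ Finset.Icc (-M) M,
        (if k₁ ≤ L.kk Pb s n ∧ L.kk Pb s n < k₁ + j then
          S.σ s * UU (L.ρ s) L.u (n + ψ - L.v s) - L.err - L.ε * D else 0) := by
  rw [Finset.sum_comm]
  refine Finset.sum_congr rfl fun s _ => ?_
  exact L.sum_group hPb s hj M hM hNQ
    (fun n => S.σ s * UU (L.ρ s) L.u (n + ψ - L.v s) - L.err - L.ε * D)

/-- number of events of a group of rounds, reindexed -/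
theorem sum_evc {Pb : ℤ} (hPb : L.P * Pb ≡ 1 [ZMOD L.Q]) {k₁ j : ℕ}
    (hj : k₁ + j ≤ L.Q) (M : ℤ) (hM : ∀ n : ℤ, |(n : ℝ)| ≤ L.N' ↔ n ∈ Finset.Icc (-M) M)
    (hNQ : 2 * L.N' < L.Q) :
    ∑ k ∈ Finset.range j, ∑ s ∈ Finset.range m, L.evc s (k₁ + k)
    = ∑ s ∈ Finset.range m, ∑ n ∈ Finset.Icc (-M) M,
        (if k₁ ≤ L.kk Pb s n ∧ L.kk Pb s n < k₁ + j then 1 else 0) := by
  rw [Finset.sum_comm]
  refine Finset.sum_congr rfl fun s _ => ?_
  exact L.sum_group hPb s hj M hM hNQ (fun _ => 1)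

end Loc

/-- well approximable from above by coprime fractions -/
def WAA (θ : ℝ) : Prop := ∀ η : ℝ, 0 < η → ∃ (Q : ℕ) (P : ℤ), 0 < Q ∧ IsCoprime P (Q : ℤ) ∧
  0 < P - Q * θ ∧ Q * (P - Q * θ) < η

theorem WAA.large {θ : ℝ} (hθ : Irrational θ) (h : WAA θ) (η : ℝ) (hη : 0 < η) (j : ℕ) :
    ∃ (Q : ℕ) (P : ℤ), j < Q ∧ 0 < Q ∧ IsCoprime P (Q : ℤ) ∧
      0 < P - Q * θ ∧ Q * (P - Q * θ) < η := by
  -- lower bound for small denominators
  have h1 : ∃ c > 0, ∀ Q < j + 1, 0 < Q → ∀ P : ℤ, 0 < P - Q * θ → c ≤ Q * (P - Q * θ) := by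
    refine exists_min_pos (fun Q c => 0 < Q → ∀ P : ℤ, 0 < P - Q * θ → c ≤ Q * (P - Q * θ))
      (fun Q d d' _ hdd h hQ P hP => hdd.trans (h hQ P hP)) (j + 1) fun Q _ => ?_
    by_cases hQ : 0 < Q
    · have hQ' : (0 : ℝ) < Q := by exact_mod_cast hQ
      have hpos : 0 < Q * ((⌈Q * θ⌉ : ℝ) - Q * θ) := by
        apply mul_pos hQ'
        have h2 := Int.le_ceil ((Q : ℝ) * θ)
        rcases h2.eq_or_lt with h3 | h3
        · exfalso
          have : Irrational ((Q : ℝ) * θ) := by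
            have := hθ.natCast_mul hQ.ne'
            exact this
          exact this ⟨(⌈Q * θ⌉ : ℤ), by rw [h3]; simp⟩
        · linarith
      refine ⟨_, hpos, fun _ P hP => ?_⟩
      apply mul_le_mul_of_nonneg_left _ hQ'.le
      have : ⌈(Q : ℝ) * θ⌉ ≤ P := Int.ceil_le.2 (by linarith)
      have : (⌈(Q : ℝ) * θ⌉ : ℝ) ≤ P := by exact_mod_cast this
      linarith
    · exact ⟨1, one_pos, fun h => absurd h hQ⟩
  obtain ⟨c, hc, hc'⟩ := h1
  obtain ⟨Q, P, hQ, hcop, hpos, hlt⟩ := h (min η c) (lt_min hη hc)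
  refine ⟨Q, P, ?_, hQ, hcop, hpos, hlt.trans_le (min_le_left _ _)⟩
  by_contra hcon
  push Not at hcon
  have := hc' Q (by omega) hQ P hpos
  have := hlt.trans_le (min_le_right _ _)
  linarith

theorem exists_ultralimit (𝒰 : Ultrafilter ℕ) (f : ℕ → ℝ) (a b : ℝ)
    (h : ∀ j, f j ∈ Set.Icc a b) : ∃ l ∈ Set.Icc a b, Tendsto f 𝒰 (𝓝 l) := by
  have hc : IsCompact (Set.Icc a b) := isCompact_Icc
  have hmem : Set.Icc a b ∈ 𝒰.map f := by
    rw [Ultrafilter.mem_map]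
    have : f ⁻¹' Set.Icc a b = Set.univ := by
      ext n
      simpa using h n
    rw [this]
    exact Filter.univ_mem
  obtain ⟨y, hy1, hy⟩ := hc.ultrafilter_le_nhds (𝒰.map f) (by
    rw [Filter.le_principal_iff]; exact hmem)
  exact ⟨y, hy1, hy⟩

theorem abs_floor_iff (N' : ℝ) (n : ℤ) : |(n : ℝ)| ≤ N' ↔ n ∈ Finset.Icc (-⌊N'⌋) ⌊N'⌋ := by
  rw [Finset.mem_Icc, abs_le]
  constructor
  · rintro ⟨h1, h2⟩
    refine ⟨?_, Int.le_floor.2 h2⟩
    have : -n ≤ ⌊N'⌋ := Int.le_floor.2 (by push_cast; linarith)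
    omega
  · rintro ⟨h1, h2⟩
    refine ⟨?_, Int.le_floor.1 h2⟩
    have h3 : -n ≤ ⌊N'⌋ := by omega
    have := Int.le_floor.1 h3
    push_cast at this
    linarith

theorem exists_inverse {P : ℤ} {Q : ℕ} (h : IsCoprime P (Q : ℤ)) :
    ∃ Pb : ℤ, P * Pb ≡ 1 [ZMOD Q] := by
  obtain ⟨a, b, hab⟩ := h
  refine ⟨a, ?_⟩
  rw [Int.modEq_iff_dvd]
  exact ⟨b, by linarith⟩

theorem caseA {θ : ℝ} (hθ : Irrational θ) (hW : WAA θ) : PL' θ := by
  intro m S z₀ ρ hder hne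
  classical
  have hρ : ∀ s < m, 0 ≤ ρ s := fun s hs => deriv_nonneg_of_mono (S.mono s) (hder s hs)
  obtain ⟨R, hR1, hR⟩ : ∃ R : ℝ, 1 ≤ R ∧ ∀ s < m, ρ s ≤ R := by
    refine ⟨1 + ∑ s ∈ Finset.range m, ρ s, ?_, fun s hs => ?_⟩
    · have : 0 ≤ ∑ s ∈ Finset.range m, ρ s :=
        Finset.sum_nonneg fun s hs => hρ s (Finset.mem_range.1 hs)
      linarith
    · have := Finset.single_le_sum (f := ρ) (fun i hi => hρ i (Finset.mem_range.1 hi))
        (Finset.mem_range.2 hs)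
      linarith
  have hseq : ∀ j : ℕ, ∃ (Q : ℕ) (P : ℤ), j < Q ∧ 0 < Q ∧ IsCoprime P (Q : ℤ) ∧
      0 < P - Q * θ ∧ Q * (P - Q * θ) < 1 / ((j : ℝ) + 1) := fun j =>
    hW.large hθ _ (by positivity) j
  choose Q P hjQ hQpos hcop hδpos hδlt using hseq
  -- phases
  set V : ℕ → ℕ → ℝ := fun j s => Q j * (0 - S.F s z₀) with hV
  set v : ℕ → ℕ → ℝ := fun j s => ⌈V j s⌉ - V j s with hv
  have hv01 : ∀ s j, v j s ∈ Set.Icc (0 : ℝ) 1 := fun s j => by
    have h1 := Int.le_ceil (V j s)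
    have h2 := Int.ceil_lt_add_one (V j s)
    simp only [hv, Set.mem_Icc]
    constructor <;> linarith
  obtain ⟨𝒰, h𝒰⟩ : ∃ 𝒰 : Ultrafilter ℕ, (𝒰 : Filter ℕ) ≤ atTop :=
    ⟨Ultrafilter.of atTop, Ultrafilter.of_le _⟩
  have hlim : ∀ s, ∃ l ∈ Set.Icc (0:ℝ) 1, Tendsto (fun j => v j s) 𝒰 (𝓝 l) := fun s =>
    exists_ultralimit 𝒰 _ 0 1 (hv01 s)
  choose vl hvl01 hvl using hlim
  -- classes
  set r : ℕ → ℕ → Prop := fun s s' => ρ s = ρ s' ∧ ∃ n : ℤ, vl s' - vl s = n with hr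
  have hequiv : Equivalence r := by
    refine ⟨fun s => ⟨rfl, 0, by simp⟩, ?_, ?_⟩
    · rintro s s' ⟨h1, n, hn⟩
      exact ⟨h1.symm, -n, by push_cast; linarith⟩
    · rintro s s' s'' ⟨h1, n, hn⟩ ⟨h2, n', hn'⟩
      exact ⟨h1.trans h2, n + n', by push_cast; linarith⟩
  obtain ⟨s₁, hs₁, hρ₁, hnet⟩ := exists_unbalanced (Finset.range m) r hequiv ρ
    (fun s => (S.σ s : ℝ)) (fun s s' h => h.1) hne
  rw [Finset.mem_range] at hs₁
  have hB : 0 < ρ s₁ := lt_of_le_of_ne (hρ s₁ hs₁) (Ne.symm hρ₁)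
  set B := ρ s₁ with hBdef
  set net : ℝ := ∑ s ∈ Finset.range m with r s₁ s, (S.σ s : ℝ) with hnetdef
  have hnet' : net ≠ 0 := by convert hnet
  have hnet1 : 1 ≤ |net| := by
    have e : net = ((∑ s ∈ Finset.range m with r s₁ s, S.σ s : ℤ) : ℝ) := by
      rw [hnetdef]; push_cast; rfl
    rw [e] at hnet' ⊢
    have : (∑ s ∈ Finset.range m with r s₁ s, S.σ s) ≠ 0 := by exact_mod_cast hnet'
    exact_mod_cast Int.one_le_abs this
  obtain ⟨τ, hτ1, hτnet⟩ : ∃ τ : ℝ, |τ| ≤ 1 ∧ τ * net = |net| := by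
    rcases le_total 0 net with h | h
    · exact ⟨1, by simp, by rw [abs_of_nonneg h, one_mul]⟩
    · exact ⟨-1, by simp, by rw [abs_of_nonpos h]; ring⟩
  -- generic position
  obtain ⟨y₀, hy₀, hgen⟩ : ∃ y₀ ∈ Set.Ioo (0:ℝ) 1, ∀ s < m, ρ s ≠ B →
      ∀ n : ℤ, (vl s₁ + B * y₀) - vl s - ρ s * y₀ ≠ n := by
    set bad : Set ℝ := ⋃ s ∈ (Finset.range m : Set ℕ), ⋃ n : ℤ,
      {(n + vl s - vl s₁) / (B - ρ s)} with hbad
    have hc : bad.Countable := by
      apply Set.Countable.biUnion (Finset.countable_toSet _)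
      intro s _
      exact Set.countable_iUnion fun n => Set.countable_singleton _
    have hd : Dense badᶜ := hc.dense_compl ℝ
    obtain ⟨y₀, hy, hy'⟩ := hd.exists_mem_open isOpen_Ioo (Set.nonempty_Ioo.2 one_pos)
    refine ⟨y₀, hy', fun s hs hne' n hn => hy ?_⟩
    rw [hbad]
    simp only [Set.mem_iUnion, Set.mem_singleton_iff]
    refine ⟨s, by simpa using hs, n, ?_⟩
    have : B - ρ s ≠ 0 := sub_ne_zero.2 (Ne.symm hne')
    rw [eq_div_iff this]
    linarith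
  obtain ⟨ψ, hψ⟩ : ∃ x : ℝ, x = vl s₁ + B * y₀ := ⟨_, rfl⟩
  -- separation
  obtain ⟨d, hd, hsep⟩ : ∃ d > 0, ∀ s < m, ¬ r s₁ s → ∀ n : ℤ,
      d ≤ |ψ - vl s - ρ s * y₀ - n| := by
    refine exists_min_pos (fun s d => ¬ r s₁ s → ∀ n : ℤ, d ≤ |ψ - vl s - ρ s * y₀ - n|)
      (fun s d d' _ hdd h hr' n => hdd.trans (h hr' n)) m fun s hs => ?_
    by_cases hrs : r s₁ s
    · exact ⟨1, one_pos, fun h => absurd hrs h⟩
    · refine ⟨|rr (ψ - vl s - ρ s * y₀)|, ?_, fun _ n => rr_le_abs_sub _ n⟩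
      show 0 < |rr (ψ - vl s - ρ s * y₀)|
      rw [abs_pos]
      intro h0
      have h1 : ψ - vl s - ρ s * y₀ = (round (ψ - vl s - ρ s * y₀) : ℤ) := by
        unfold rr at h0; linarith
      by_cases hρs : ρ s = B
      · apply hrs
        refine ⟨hρs.symm, -(round (ψ - vl s - ρ s * y₀) : ℤ), ?_⟩
        push_cast
        rw [← h1, hψ, hρs]
        ring
      · rw [hψ] at h1; exact hgen s hs hρs _ h1
  -- constants
  obtain ⟨Φm, hΦm⟩ : ∃ x : ℝ, x = |ψ| + 1 := ⟨_, rfl⟩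
  obtain ⟨N, hN⟩ : ∃ x : ℝ, x = 2 * R + 1 := ⟨_, rfl⟩
  obtain ⟨N', hN'⟩ : ∃ x : ℝ, x = N + Φm + 2 := ⟨_, rfl⟩
  obtain ⟨M, hM⟩ : ∃ x : ℤ, x = ⌊N'⌋ := ⟨_, rfl⟩
  have hN'0 : 4 ≤ N' := by have := abs_nonneg ψ; linarith
  have hM0 : (4:ℝ) ≤ M := by
    have : (4 : ℤ) ≤ ⌊N'⌋ := Int.le_floor.2 (by exact_mod_cast hN'0)
    rw [hM]
    exact_mod_cast this
  obtain ⟨C, hC⟩ : ∃ x : ℝ, x = m * (2 * M + 1) + 1 := ⟨_, rfl⟩
  have hC1 : 1 ≤ C := by
    have : 0 ≤ (m : ℝ) * (2 * M + 1) := by positivity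
    linarith
  have hBR : B ≤ R := hR s₁ hs₁
  obtain ⟨ε, hε⟩ : ∃ x : ℝ, x = B / (40 * C ^ 2 * R) := ⟨_, rfl⟩
  have hε0 : 0 < ε := by rw [hε]; positivity
  have hεCR : 40 * (ε * C ^ 2 * R) = B := by rw [hε]; field_simp
  have hεC : 40 * (ε * C) ≤ 1 := by
    have h1 : 40 * (ε * C) * (C * R) ≤ 1 * (C * R) := by
      calc 40 * (ε * C) * (C * R) = 40 * (ε * C ^ 2 * R) := by ring
        _ = B := hεCR
        _ ≤ 1 * (C * R) := by nlinarith
    exact le_of_mul_le_mul_right h1 (by positivity)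
  have hε40 : 40 * ε ≤ 1 := by
    have : 40 * ε * 1 ≤ 40 * ε * C := mul_le_mul_of_nonneg_left hC1 (by positivity)
    linarith
  obtain ⟨d', hd'⟩ : ∃ x : ℝ, x = min d 1 := ⟨_, rfl⟩
  have hd'0 : 0 < d' := hd' ▸ lt_min hd one_pos
  obtain ⟨A, hA⟩ : ∃ x : ℝ, x = ε * d' / (4 * C * R) := ⟨_, rfl⟩
  have hA0 : 0 < A := by rw [hA]; positivity
  have hACR : 4 * (C * (R * A)) = ε * d' := by rw [hA]; field_simp
  have hRA : 4 * (R * A) ≤ ε * d' := by
    rw [← hACR]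
    have : R * A ≤ C * (R * A) := le_mul_of_one_le_left (by positivity) hC1
    linarith
  have hAle : A ≤ R * A := le_mul_of_one_le_left hA0.le hR1
  have hd'1 : d' ≤ 1 := hd' ▸ min_le_right _ _
  have hd'd : d' ≤ d := hd' ▸ min_le_left _ _
  have hεd' : ε * d' ≤ ε := mul_le_of_le_one_right hε0.le hd'1
  have hAε : 4 * A ≤ ε := by linarith
  obtain ⟨D, hD⟩ : ∃ x : ℝ, x = 4 * (C * (R * A)) := ⟨_, rfl⟩
  have hD1 : D ≤ 1 := by rw [hD, hACR]; linarith
  have hD0 : 0 ≤ D := by rw [hD]; positivity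
  obtain ⟨ω, hω⟩ : ∃ x : ℝ, x = min (1 / 4) (ε * R * A / 3) := ⟨_, rfl⟩
  have hω0 : 0 < ω := hω ▸ lt_min (by norm_num) (by positivity)
  obtain ⟨err, herr⟩ : ∃ x : ℝ, x = 3 * (ε * R * A) := ⟨_, rfl⟩
  have herr0 : 0 ≤ err := by rw [herr]; positivity
  have hεD0 : 0 ≤ ε * D := mul_nonneg hε0.le hD0
  -- window radius
  obtain ⟨Q₀, hQ₀⟩ : ∃ Q₀ : ℝ, ∀ s < m, ∀ Q : ℝ, Q₀ ≤ Q → ∀ y, |y| ≤ 3 →
      |S.F s (z₀ + y / Q) - S.F s z₀ - ρ s * y / Q| ≤ ω / Q := by
    have h1 : ∀ s < m, ∃ Q₀ : ℝ, ∀ Q : ℝ, Q₀ ≤ Q → ∀ y, |y| ≤ 3 →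
        |S.F s (z₀ + y / Q) - S.F s z₀ - ρ s * y / Q| ≤ ω / Q := fun s hs =>
      exists_win (hder s hs) 3 ω (by norm_num) hω0
    choose! q hq using h1
    refine ⟨∑ s ∈ Finset.range m, |q s|, fun s hs Q hQ => hq s hs Q (le_trans ?_ hQ)⟩
    exact (le_abs_self _).trans (Finset.single_le_sum (f := fun s => |q s|)
      (fun i _ => abs_nonneg _) (Finset.mem_range.2 hs))
  -- choose j
  have ev1 : ∀ᶠ j in (𝒰 : Filter ℕ), ∀ s ∈ Finset.range m, |v j s - vl s| ≤ min (d' / 2) (R * A) := by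
    rw [Filter.eventually_all_finset]
    intro s _
    have h1 : Tendsto (fun j => |v j s - vl s|) 𝒰 (𝓝 0) := by
      have := ((hvl s).sub_const (vl s)).abs
      simpa using this
    exact (h1.eventually (gt_mem_nhds (by positivity :
      (0:ℝ) < min (d' / 2) (R * A)))).mono fun j hj => hj.le
  have ev2 : ∀ᶠ j : ℕ in (𝒰 : Filter ℕ), 1 / ((j : ℝ) + 1) ≤ ε * C * R * A := by
    have h1 := (tendsto_one_div_add_atTop_nhds_zero_nat (𝕜 := ℝ)).mono_left h𝒰
    exact (h1.eventually (gt_mem_nhds (by positivity :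
      (0:ℝ) < ε * C * R * A))).mono fun j hj => hj.le
  have ev3 : ∀ᶠ j : ℕ in (𝒰 : Filter ℕ), max Q₀ (2 * (N' + Φm + 1) + 6 * R + 6) ≤ (j : ℝ) :=
    (tendsto_natCast_atTop_atTop.mono_left h𝒰).eventually (eventually_ge_atTop _)
  obtain ⟨j, hj1, hj2, hj3⟩ := (ev1.and (ev2.and ev3)).exists
  have hjQ' : (j : ℝ) ≤ Q j := by exact_mod_cast (hjQ j).le
  have hQbig : 2 * (N' + Φm + 1) + 6 * R + 6 ≤ (Q j : ℝ) :=
    (le_max_right _ _).trans (hj3.trans hjQ')
  have hQQ₀ : Q₀ ≤ (Q j : ℝ) := (le_max_left _ _).trans (hj3.trans hjQ')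
  have hΦ0 : 0 ≤ Φm := by rw [hΦm]; positivity
  have hbump : Bump 2 ε (tent A ε y₀ τ) := tent_bump hε0.le hτ1 two_pos (by
    have : |y₀| ≤ 1 := by rw [abs_of_pos hy₀.1]; exact hy₀.2.le
    nlinarith)
  obtain ⟨h, hh⟩ := exists_h hbump (by linarith) (z₀ := z₀) (Q := (Q j : ℝ)) (by linarith)
  let L : Loc S :=
    { K := 2, ε := ε, A := A, ω := ω, N := N, N' := N', Φm := Φm, err := err, z₀ := z₀, x₀ := 0
      u := tent A ε y₀ τ, P := P j, Q := Q j, ρ := ρ, h := h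
      hu := hbump
      hA := fun y => tent_abs_le hA0.le hε0.le hτ1
      hA0 := by linarith
      hε := by linarith
      hρ := hρ
      hω0 := hω0.le
      hω := hω ▸ min_le_left _ _
      hwin := fun s hs y hy => hQ₀ s hs _ hQQ₀ y (by linarith)
      hQ := by linarith
      hQ' := fun s hs => by have := hR s hs; linarith
      hh := hh
      hN := fun s hs => by have := hR s hs; linarith
      herr := fun s hs => by
        have h1 : ω ≤ ε * R * A / 3 := hω ▸ min_le_right _ _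
        have h2 : 2 * ε * ρ s * A ≤ 2 * ε * R * A := by
          have := hR s hs
          gcongr
        rw [herr]
        linarith
      hN' := by linarith
      hQ'' := by linarith }
  obtain ⟨Pb, hPb⟩ := exists_inverse (hcop j)
  have hPb' : L.P * Pb ≡ 1 [ZMOD L.Q] := hPb
  have hLv : ∀ s, L.v s = v j s := fun s => rfl
  have hLδ : L.δ = P j - Q j * θ := rfl
  have hMiff : ∀ n : ℤ, |(n : ℝ)| ≤ L.N' ↔ n ∈ Finset.Icc (-M) M := hM ▸ abs_floor_iff N'
  have hNQ : 2 * L.N' < L.Q := by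
    show 2 * N' < (Q j : ℝ)
    linarith
  -- the sum of contributions
  have hsum := L.sum_con hPb' (k₁ := 0) (j := Q j) (by simp [L]) M hMiff hNQ ψ D
  have hcnt := L.sum_evc hPb' (k₁ := 0) (j := Q j) (by simp [L]) M hMiff hNQ
  have htrue : ∀ s n, (0 ≤ L.kk Pb s n ∧ L.kk Pb s n < 0 + Q j) := fun s n => by
    refine ⟨Nat.zero_le _, ?_⟩
    rw [zero_add]
    exact L.kk_lt Pb s n
  have hcard : ((Finset.Icc (-M) M).card : ℝ) = 2 * M + 1 := by
    rw [Int.card_Icc]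
    have h0 : (0 : ℤ) ≤ M + 1 - -M := by
      have : (4 : ℤ) ≤ M := by exact_mod_cast hM0
      omega
    have h1 : (((M + 1 - -M).toNat : ℤ) : ℝ) = ((M + 1 - -M : ℤ) : ℝ) := by
      rw [Int.toNat_of_nonneg h0]
    have h2 : (((M + 1 - -M).toNat : ℕ) : ℝ) = (((M + 1 - -M).toNat : ℤ) : ℝ) := by norm_cast
    rw [h2, h1]
    push_cast
    ring
  simp only [htrue, and_self, if_true] at hsum hcnt
  have hcount : ((∑ k ∈ Finset.range (Q j), ∑ s ∈ Finset.range m, L.evc s (0 + k) : ℕ) : ℝ) ≤ C := by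
    rw [hcnt]
    push_cast
    simp only [Finset.sum_const, nsmul_eq_mul, mul_one, Finset.card_range]
    rw [hcard, hC]
    linarith
  -- evaluation of the stage sums
  have hstage : ∀ s < m, |(∑ n ∈ Finset.Icc (-M) M, UU (ρ s) (tent A ε y₀ τ) (n + ψ - v j s))
      - (if r s₁ s then B * (τ * A) else 0)| ≤ ε * (R * A) := by
    intro s hs
    have hvs := hj1 s (Finset.mem_range.2 hs)
    have hvs1 : |v j s - vl s| ≤ d' / 2 := hvs.trans (min_le_left _ _)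
    have hvs2 : |v j s - vl s| ≤ R * A := hvs.trans (min_le_right _ _)
    have hρA : ρ s * A ≤ R * A := mul_le_mul_of_nonneg_right (hR s hs) hA0.le
    by_cases hrs : r s₁ s
    · rw [if_pos hrs]
      obtain ⟨hρs, c, hc⟩ := hrs
      have hρs' : ρ s = B := hρs.symm
      have hcM : c ∈ Finset.Icc (-M) M := by
        rw [← hMiff]
        show |(c : ℝ)| ≤ N'
        rw [← hc]
        have h1 := hvl01 s
        have h2 := hvl01 s₁
        rw [Set.mem_Icc] at h1 h2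
        rw [abs_le]
        constructor <;> linarith
      rw [Finset.sum_eq_single_of_mem c hcM]
      · have h1 := UU_tent_near (A := A) (ε := ε) (y₀ := y₀) (τ := τ) (ρ := B)
          (ξ := c + ψ - v j s) hA0.le hε0.le hτ1 hB
        rw [hρs']
        refine h1.trans (mul_le_mul_of_nonneg_left ?_ hε0.le)
        have e : (c : ℝ) + ψ - v j s - B * y₀ = -(v j s - vl s) := by
          rw [hψ, ← hc]; ring
        rw [e, abs_neg]
        exact hvs2
      · intro n _ hnc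
        rw [hρs']
        apply UU_tent_far hB.le
        have e : (n : ℝ) + ψ - v j s - B * y₀ = ((n - c : ℤ) : ℝ) - (v j s - vl s) := by
          rw [hψ]; push_cast; rw [← hc]; ring
        have h1 : (1 : ℝ) ≤ |((n - c : ℤ) : ℝ)| := by
          have : n - c ≠ 0 := sub_ne_zero.2 hnc
          exact_mod_cast Int.one_le_abs this
        have h2 := abs_sub_abs_le_abs_sub (((n - c : ℤ) : ℝ)) (v j s - vl s)
        rw [e]
        have h3 : 1 / 2 ≤ |((n - c : ℤ) : ℝ) - (v j s - vl s)| := by linarith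
        have h4 := mul_le_mul_of_nonneg_left h3 hε0.le
        have h5 : B * A ≤ R * A := mul_le_mul_of_nonneg_right hBR hA0.le
        linarith
    · rw [if_neg hrs, sub_zero]
      rw [Finset.sum_eq_zero, abs_zero]
      · positivity
      · intro n _
        apply UU_tent_far (hρ s hs)
        have h1 := hsep s hs hrs (-n)
        have e : (n : ℝ) + ψ - v j s - ρ s * y₀
            = (ψ - vl s - ρ s * y₀ - ((-n : ℤ) : ℝ)) - (v j s - vl s) := by push_cast; ring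
        have h2 := abs_sub_abs_le_abs_sub (ψ - vl s - ρ s * y₀ - ((-n : ℤ) : ℝ)) (v j s - vl s)
        rw [e]
        have h3 : d' / 2 ≤ |ψ - vl s - ρ s * y₀ - ((-n : ℤ) : ℝ) - (v j s - vl s)| := by linarith
        have h4 := mul_le_mul_of_nonneg_left h3 hε0.le
        linarith
  -- total
  have htot : ρ s₁ * A ≤ ∑ s ∈ Finset.range m, (S.σ s : ℝ) *
      (∑ n ∈ Finset.Icc (-M) M, UU (ρ s) (tent A ε y₀ τ) (n + ψ - v j s))
      + m * (ε * (R * A)) := by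
    have h1 : ∑ s ∈ Finset.range m, (S.σ s : ℝ) * (if r s₁ s then B * (τ * A) else 0)
        = |net| * (B * A) := by
      have : ∀ s ∈ Finset.range m, (S.σ s : ℝ) * (if r s₁ s then B * (τ * A) else 0)
          = if r s₁ s then (S.σ s : ℝ) * (B * (τ * A)) else 0 := by
        intro s _
        split_ifs <;> simp
      rw [Finset.sum_congr rfl this, ← Finset.sum_filter, ← Finset.sum_mul, ← hnetdef, ← hτnet]
      ring
    have h2 : |∑ s ∈ Finset.range m, (S.σ s : ℝ) *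
        (∑ n ∈ Finset.Icc (-M) M, UU (ρ s) (tent A ε y₀ τ) (n + ψ - v j s))
        - ∑ s ∈ Finset.range m, (S.σ s : ℝ) * (if r s₁ s then B * (τ * A) else 0)|
        ≤ m * (ε * (R * A)) := by
      rw [← Finset.sum_sub_distrib]
      refine (Finset.abs_sum_le_sum_abs _ _).trans ?_
      calc ∑ s ∈ Finset.range m, |(S.σ s : ℝ) *
            (∑ n ∈ Finset.Icc (-M) M, UU (ρ s) (tent A ε y₀ τ) (n + ψ - v j s))
            - (S.σ s : ℝ) * (if r s₁ s then B * (τ * A) else 0)|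
          ≤ ∑ s ∈ Finset.range m, ε * (R * A) := by
            refine Finset.sum_le_sum fun s hs => ?_
            rw [← mul_sub]
            exact (Loc.σ_mul_le S s _).trans (hstage s (Finset.mem_range.1 hs))
        _ = m * (ε * (R * A)) := by simp
    rw [h1] at h2
    have h3 := (abs_le.1 h2).1
    have h4 : B * A ≤ |net| * (B * A) := le_mul_of_one_le_left (by positivity) hnet1
    linarith
  obtain ⟨z, hz0, hz⟩ := L.exists_start ψ
  have hδQ : L.δ * (Q j : ℝ) ≤ ε * C * R * A := by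
    rw [hLδ]
    have := (hδlt j).le.trans hj2
    linarith
  have hgr := L.group (z := z) (k₁ := 0) (Q j) (ψ := ψ) (D := D) (C₁ := R * A + err + ε * D)
    (C := C) hD0 (by have : 0 ≤ R * A := by positivity
                     linarith) (fun s hs => by
      have h1 : ρ s * A ≤ R * A := mul_le_mul_of_nonneg_right (hR s hs) hA0.le
      show ρ s * A + err + ε * D ≤ _
      linarith) hcount (hδpos j).le (by
      have e1 : C * (R * A + err + ε * D) = C * (R * A) + 3 * (ε * C) * (R * A)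
          + 4 * (ε * C) * (C * (R * A)) := by rw [herr, hD]; ring
      have e2 : ε * C * R * A = (ε * C) * (R * A) := by ring
      rw [e1]
      have h1 : R * A ≤ C * (R * A) := le_mul_of_one_le_left (by positivity) hC1
      have h2 : 40 * (ε * C) * (C * (R * A)) ≤ 1 * (C * (R * A)) :=
        mul_le_mul_of_nonneg_right hεC (by positivity)
      have h3 : 40 * (ε * C) * (R * A) ≤ 1 * (R * A) :=
        mul_le_mul_of_nonneg_right hεC (by positivity)
      rw [e2] at hδQ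
      rw [hD]
      linarith) (by
      show |ψ| + D ≤ Φm
      rw [hΦm]
      linarith) hz
  rw [hsum, zero_add] at hgr
  refine ⟨h, ?_⟩
  refine L.closing (z := z) (φ := ψ) hz0.le ?_ hgr (hδpos j)
  -- final inequality
  have hfin : ∑ s ∈ Finset.range m, ∑ n ∈ Finset.Icc (-M) M,
      ((S.σ s : ℝ) * UU (L.ρ s) L.u (n + ψ - L.v s) - L.err - L.ε * D)
      = ∑ s ∈ Finset.range m, (S.σ s : ℝ) *
      (∑ n ∈ Finset.Icc (-M) M, UU (ρ s) (tent A ε y₀ τ) (n + ψ - v j s))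
      - m * (2 * M + 1) * (err + ε * D) := by
    have h1 : ∀ s ∈ Finset.range m, ∑ n ∈ Finset.Icc (-M) M,
        ((S.σ s : ℝ) * UU (L.ρ s) L.u (n + ψ - L.v s) - L.err - L.ε * D)
        = (S.σ s : ℝ) * (∑ n ∈ Finset.Icc (-M) M, UU (ρ s) (tent A ε y₀ τ) (n + ψ - v j s))
          - (2 * M + 1) * (err + ε * D) := by
      intro s _
      have h2 : ∀ n ∈ Finset.Icc (-M) M,
          ((S.σ s : ℝ) * UU (L.ρ s) L.u (n + ψ - L.v s) - L.err - L.ε * D)
          = (S.σ s : ℝ) * UU (ρ s) (tent A ε y₀ τ) (n + ψ - v j s) - (err + ε * D) := by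
        intro n _
        show (S.σ s : ℝ) * UU (ρ s) (tent A ε y₀ τ) (n + ψ - v j s) - err - ε * D = _
        ring
      rw [Finset.sum_congr rfl h2, Finset.sum_sub_distrib, Finset.sum_const, nsmul_eq_mul, hcard,
        Finset.mul_sum]
    rw [Finset.sum_congr rfl h1, Finset.sum_sub_distrib, Finset.sum_const, nsmul_eq_mul,
      Finset.card_range]
    ring
  rw [hfin]
  have hm0 : (m : ℝ) ≤ C := by
    rw [hC]
    have : (m : ℝ) * 1 ≤ m * (2 * M + 1) := mul_le_mul_of_nonneg_left (by linarith) (by positivity)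
    linarith
  have k1 : (m : ℝ) * (ε * (R * A)) ≤ C * (ε * (R * A)) :=
    mul_le_mul_of_nonneg_right hm0 (by positivity)
  have k2 : (m : ℝ) * (2 * M + 1) * (err + ε * D) ≤ C * (err + ε * D) := by
    apply mul_le_mul_of_nonneg_right _ (by linarith)
    rw [hC]; linarith
  have k3 : C * (err + ε * D) = 3 * (ε * C * (R * A)) + 4 * (ε * C ^ 2 * R) * A := by
    rw [herr, hD]; ring
  have k4 : ε * C * (R * A) ≤ (ε * C ^ 2 * R) * A := by
    have : ε * C * (R * A) * 1 ≤ ε * C * (R * A) * C :=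
      mul_le_mul_of_nonneg_left hC1 (by positivity)
    calc ε * C * (R * A) = ε * C * (R * A) * 1 := by ring
      _ ≤ _ := this
      _ = _ := by ring
  have k5 : 40 * ((ε * C ^ 2 * R) * A) = B * A := by rw [← hεCR]; ring
  have k6 : 0 < B * A := by positivity
  have k7 : C * (ε * (R * A)) = ε * C * (R * A) := by ring
  have k8 : ε * C * R * A = ε * C * (R * A) := by ring
  rw [k8] at hδQ
  rw [← hBdef] at htot
  linarith

end Pool.Agent.Helper88.Rot
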