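import Pool.Agent.Helper88.Rot.SlotStep

/-!
Case Z, exact treatment of events: calm events and the lowering potential.
-/

namespace Pool.Agent.Helper88.Rot

open CircleDeg1Lift Filter Topology Finset

/-- if the bump vanishes near the point, the level is not changed -/
theorem step_calm {K ε ω ρ Q z₀ : ℝ} {u : ℝ → ℝ} (hu : Bump K ε u)
    (hε : ε ≤ 1 / 2) {F : ℝ → ℝ} (hc : Continuous F) (hm : Monotone F)
    (hd : ∀ x, F (x + 1) = F x + 1) (hρ : 0 ≤ ρ) (hω : ω ≤ 1 / 4)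
    (hwin : ∀ y, |y| ≤ K + 1 → |F (z₀ + y / Q) - F z₀ - ρ * y / Q| ≤ ω / Q)
    (hQ : 2 * K + 2 ≤ Q) (hQ' : 2 * (ρ * K + 1) ≤ Q) {h : CircleDeg1Liftˣ}
    (hh : ∀ z, h z = z + uh u z₀ Q z) {σ : ℤ} (hσ : σ = -1 ∨ σ = 0 ∨ σ = 1)
    {X z : ℝ} (hz : X ≤ F z)
    (hcalm : ∀ y, |ρ * y - Q * rr (X - F z₀)| ≤ ω → u y = 0) :
    X ≤ F ((h ^ σ : CircleDeg1Liftˣ) z) := by
  have hK := hu.Kpos
  have hQ0 : 0 < Q := by linarith
  obtain ⟨z1, hz1, hmin⟩ := exists_min_level F hc hm hd X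
  have hzz : z1 ≤ z := hmin z hz
  have hmono : (h ^ σ : CircleDeg1Liftˣ) z1 ≤ (h ^ σ : CircleDeg1Liftˣ) z :=
    (h ^ σ : CircleDeg1Liftˣ).val.monotone hzz
  refine le_trans ?_ (hm hmono)
  obtain ⟨x, hx⟩ : ∃ x : ℝ, x = z1 - z₀ := ⟨_, rfl⟩
  obtain ⟨l, hl⟩ : ∃ l : ℤ, l = round x := ⟨_, rfl⟩
  obtain ⟨r, hr⟩ : ∃ r : ℝ, r = rr x := ⟨_, rfl⟩
  obtain ⟨y, hy⟩ : ∃ y : ℝ, y = Q * r := ⟨_, rfl⟩
  have hz1' : z1 = z₀ + r + l := by
    have : r = x - l := by rw [hr, hl]; rfl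
    rw [this, hx]; ring
  have hX : X = F (z₀ + r) + l := by rw [← hz1, hz1', F_add_int hd]
  have hyr : r = y / Q := by rw [hy]; field_simp
  have hpow := h_zpow hu hε (by linarith : 2 * K ≤ Q) hh σ hσ z1
  have huh : uh u z₀ Q z1 = u y / Q := by
    unfold uh
    rw [hy, hr, hx]
  have hu0 : u y = 0 := by
    rcases le_or_gt K |y| with hyK | hyK
    · exact hu.supp y hyK
    · have w1 := hwin y (by linarith)
      rw [← hyr] at w1
      obtain ⟨e1, he1⟩ : ∃ e1 : ℝ, e1 = Q * (F (z₀ + r) - F z₀) - ρ * y := ⟨_, rfl⟩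
      have he1' : |e1| ≤ ω := by
        have : e1 = Q * (F (z₀ + r) - F z₀ - ρ * y / Q) := by rw [he1]; field_simp
        rw [this, abs_mul, abs_of_pos hQ0]
        have := mul_le_mul_of_nonneg_left w1 hQ0.le
        calc _ ≤ Q * (ω / Q) := this
          _ = ω := by field_simp
      have hρy : |ρ * y| ≤ ρ * K := by
        rw [abs_mul, abs_of_nonneg hρ]
        exact mul_le_mul_of_nonneg_left hyK.le hρ
      have hXF : X - F z₀ - l = (ρ * y + e1) / Q := by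
        rw [hX, he1]; field_simp; ring
      have hlt : |X - F z₀ - l| < 1 / 2 := by
        rw [hXF, abs_div, abs_of_pos hQ0, div_lt_iff₀ hQ0]
        have := abs_add_le (ρ * y) e1
        linarith
      have hrr := rr_eq_of_abs_lt l hlt
      have hξ : Q * rr (X - F z₀) = ρ * y + e1 := by
        rw [hrr, hXF]; field_simp
      apply hcalm
      rw [hξ]
      have : ρ * y - (ρ * y + e1) = -e1 := by ring
      rw [this, abs_neg]
      exact he1'
  rw [huh, hu0, zero_div, mul_zero, add_zero, abs_zero, mul_zero] at hpow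
  have e : (h ^ σ : CircleDeg1Liftˣ) z1 = z1 := by
    have := abs_nonpos_iff.1 hpow
    linarith
  rw [e, hz1]

namespace Loc
variable {m : ℕ} {θ : ℝ} {S : Sys m θ} (L : Loc S)

/-- calm event at a level -/
def Calm (s k : ℕ) (φ : ℝ) : Prop :=
  ∀ y, |L.ρ s * y - L.Q * rr (L.x₀ + (k * L.P + φ) / L.Q - S.F s L.z₀)| ≤ L.ω → L.u y = 0

theorem LI_calm {z : ℝ} {k s : ℕ} (hs : s < m) {φ : ℝ} (hcalm : L.Calm s k φ)
    (h : L.LI z k s φ) : L.LI z k (s + 1) φ := by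
  have h1 := step_calm L.hu L.hε (S.cont s) (S.mono s) (S.deg s) (L.hρ s hs) L.hω
    (L.hwin s hs) L.hQ (L.hQ' s hs) L.hh (S.hσ s) (X := L.x₀ + (k * L.P + φ) / L.Q)
    (z := W S.M S.σ L.h s ((L.w ^ k : CircleDeg1Liftˣ) z)) h hcalm
  have h2 : S.F (s + 1) (W S.M S.σ L.h (s + 1) ((L.w ^ k : CircleDeg1Liftˣ) z))
      = S.F s ((L.h ^ S.σ s : CircleDeg1Liftˣ)
          (W S.M S.σ L.h s ((L.w ^ k : CircleDeg1Liftˣ) z))) := by
    rw [← S.step s]
    rfl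
  unfold LI
  rw [h2]
  exact h1

theorem calm_of_nev {s k : ℕ} (hs : s < m) {φ : ℝ} (hφ : |φ| ≤ L.Φm)
    (hn : L.N' < |(L.n s k : ℝ)|) : L.Calm s k φ := by
  intro y hy
  have h1 := L.phase_nev hφ hn
  have h2 := L.hN s hs
  have h3 := L.hω
  have hρ := L.hρ s hs
  have hK := L.Kpos
  obtain ⟨ξ, hξ⟩ : ∃ ξ : ℝ, ξ = L.Q * rr (L.x₀ + (k * L.P + φ) / L.Q - S.F s L.z₀) := ⟨_, rfl⟩
  rw [← hξ] at h1 hy
  have h4 : |ξ| ≤ |L.ρ s * y| + |L.ρ s * y - ξ| := by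
    have e : ξ = L.ρ s * y - (L.ρ s * y - ξ) := by ring
    have := abs_sub (L.ρ s * y) (L.ρ s * y - ξ)
    rw [← e] at this
    exact this
  have h5 : L.ρ s * L.K < |L.ρ s * y| := by linarith
  rw [abs_mul, abs_of_nonneg hρ] at h5
  exact L.hu.supp y (lt_of_mul_lt_mul_left h5 hρ).le

theorem LI_flat {z : ℝ} {k s : ℕ} (hs : s < m) (hρ0 : L.ρ s = 0) {φ : ℝ}
    (h : L.LI z k s φ) : L.LI z k (s + 1) (φ - 3 * L.ω) := by
  have hQ := L.Qpos
  have hω0 := L.hω0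
  have h1 := step_lemma L.hu L.hA L.hA0 L.hε (S.cont s) (S.mono s) (S.deg s) (L.hρ s hs) L.hω0
    L.hω (L.hwin s hs) L.hQ (L.hQ' s hs) L.hh (S.hσ s) (L.hN s hs) (err := 3 * L.ω)
    (by rw [hρ0]; linarith) (X := L.x₀ + (k * L.P + φ) / L.Q)
    (z := W S.M S.σ L.h s ((L.w ^ k : CircleDeg1Liftˣ) z)) h
  have h2 : S.F (s + 1) (W S.M S.σ L.h (s + 1) ((L.w ^ k : CircleDeg1Liftˣ) z))
      = S.F s ((L.h ^ S.σ s : CircleDeg1Liftˣ)
          (W S.M S.σ L.h s ((L.w ^ k : CircleDeg1Liftˣ) z))) := by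
    rw [← S.step s]
    rfl
  unfold LI
  rw [h2]
  refine le_trans ?_ h1
  have key : -(3 * L.ω) ≤ gain (S.σ s) (L.ρ s) L.u L.N (3 * L.ω)
      (L.Q * rr (L.x₀ + (k * L.P + φ) / L.Q - S.F s L.z₀)) := by
    unfold gain UU
    rw [hρ0]
    split_ifs
    · simp
    · linarith
  have h3 := div_le_div_of_nonneg_right key hQ.le
  have e : L.x₀ + (k * L.P + (φ - 3 * L.ω)) / L.Q
      = L.x₀ + (k * L.P + φ) / L.Q + -(3 * L.ω) / L.Q := by ring
  rw [e]
  linarith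

end Loc

/-- the lowering potential -/
noncomputable def Pot (m : ℕ) (b : ℝ) (zc : ℕ → ℝ) (φ : ℝ) : ℝ :=
  φ - 2 * b * ∑ s ∈ range m, (⌈φ + b - zc s⌉ : ℝ)

theorem Pot_mono {m : ℕ} {b : ℝ} (hb : 0 ≤ b) {zc zc' : ℕ → ℝ} (h : ∀ s < m, zc s ≤ zc' s)
    (φ : ℝ) : Pot m b zc φ ≤ Pot m b zc' φ := by
  unfold Pot
  have : ∑ s ∈ range m, (⌈φ + b - zc' s⌉ : ℝ) ≤ ∑ s ∈ range m, (⌈φ + b - zc s⌉ : ℝ) := by
    refine Finset.sum_le_sum fun s hs => ?_
    have := h s (mem_range.1 hs)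
    exact_mod_cast Int.ceil_mono (by linarith)
  have := mul_le_mul_of_nonneg_left this (by linarith : 0 ≤ 2 * b)
  linarith

theorem Pot_sub {m : ℕ} {b : ℝ} (hb : 0 ≤ b) {zc : ℕ → ℝ} {φ η : ℝ} (hη : 0 ≤ η) :
    Pot m b zc φ - η ≤ Pot m b zc (φ - η) := by
  unfold Pot
  have : ∑ s ∈ range m, (⌈φ - η + b - zc s⌉ : ℝ) ≤ ∑ s ∈ range m, (⌈φ + b - zc s⌉ : ℝ) := by
    refine Finset.sum_le_sum fun s hs => ?_
    exact_mod_cast Int.ceil_mono (by linarith)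
  have := mul_le_mul_of_nonneg_left this (by linarith : 0 ≤ 2 * b)
  linarith

theorem Pot_lower {m : ℕ} {b : ℝ} (hb : 0 < b) (hb2 : 2 * b ≤ 1) (zc : ℕ → ℝ) (φ : ℝ) {s : ℕ}
    (hs : s < m) : ∃ φ' ≤ φ, Pot m b zc φ ≤ Pot m b zc φ' ∧ ∀ i : ℤ, b ≤ |φ' - zc s - i| := by
  by_cases hsafe : ∀ i : ℤ, b ≤ |φ - zc s - i|
  · exact ⟨φ, le_rfl, le_rfl, hsafe⟩
  · push Not at hsafe
    obtain ⟨i, hi⟩ := hsafe
    rw [abs_lt] at hi
    refine ⟨zc s + i - b, by linarith [hi.1], ?_, ?_⟩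
    · unfold Pot
      have h1 : ∑ s' ∈ range m, (⌈zc s + i - b + b - zc s'⌉ : ℝ) + 1
          ≤ ∑ s' ∈ range m, (⌈φ + b - zc s'⌉ : ℝ) := by
        rw [← Finset.add_sum_erase _ _ (mem_range.2 hs), ← Finset.add_sum_erase _ _ (mem_range.2 hs)]
        have h2 : ∑ s' ∈ (range m).erase s, (⌈zc s + i - b + b - zc s'⌉ : ℝ)
            ≤ ∑ s' ∈ (range m).erase s, (⌈φ + b - zc s'⌉ : ℝ) := by
          refine Finset.sum_le_sum fun s' _ => ?_
          exact_mod_cast Int.ceil_mono (by linarith [hi.1])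
        have h3 : ⌈zc s + i - b + b - zc s⌉ = i := by
          have : zc s + i - b + b - zc s = i := by ring
          rw [this, Int.ceil_intCast]
        have h4 : i + 1 ≤ ⌈φ + b - zc s⌉ := by
          have : i < ⌈φ + b - zc s⌉ := Int.lt_ceil.2 (by linarith [hi.1])
          omega
        have h5 : (i : ℝ) + 1 ≤ ⌈φ + b - zc s⌉ := by exact_mod_cast h4
        rw [h3]
        linarith
      have h6 := mul_le_mul_of_nonneg_left h1 (by linarith : 0 ≤ 2 * b)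
      rw [mul_add] at h6
      linarith [hi.2]
    · intro i'
      have e : zc s + i - b - zc s - i' = ((i - i' : ℤ) : ℝ) - b := by push_cast; ring
      rw [e]
      rcases lt_trichotomy i i' with h | h | h
      · have : ((i - i' : ℤ) : ℝ) ≤ -1 := by
          have : i - i' ≤ -1 := by omega
          exact_mod_cast this
        rw [abs_of_neg (by linarith)]
        linarith
      · subst h
        simp [abs_of_pos hb]
      · have : (1 : ℝ) ≤ ((i - i' : ℤ) : ℝ) := by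
          have : 1 ≤ i - i' := by omega
          exact_mod_cast this
        rw [abs_of_nonneg (by linarith)]
        linarith

theorem Pot_bound {m : ℕ} {b Λ Z : ℝ} (hb : 0 ≤ b) (hbm : 32 * (b * m) ≤ 1) {zc zc' : ℕ → ℝ}
    (hZ : ∀ s < m, zc' s - zc s ≤ Z) {φ φ' : ℝ} (h : Pot m b zc φ - Λ ≤ Pot m b zc' φ')
    (hnn : 0 ≤ Λ + 2 * b * m * (Z + 1)) :
    φ - 16 / 15 * (Λ + 2 * b * m * (Z + 1)) ≤ φ' := by
  unfold Pot at h
  have h1 : ∑ s ∈ range m, (⌈φ + b - zc s⌉ : ℝ)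
      ≤ ∑ s ∈ range m, (⌈φ' + b - zc' s⌉ : ℝ) + m * (φ - φ' + Z + 1) := by
    have h2 : ∑ s ∈ range m, (⌈φ + b - zc s⌉ : ℝ)
        ≤ ∑ s ∈ range m, ((⌈φ' + b - zc' s⌉ : ℝ) + (φ - φ' + Z + 1)) := by
      refine Finset.sum_le_sum fun s hs => ?_
      have h3 := hZ s (mem_range.1 hs)
      have h4 := Int.ceil_lt_add_one (φ + b - zc s)
      have h5 := Int.le_ceil (φ' + b - zc' s)
      linarith
    rw [Finset.sum_add_distrib, Finset.sum_const, nsmul_eq_mul, Finset.card_range] at h2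
    exact h2
  have h2 := mul_le_mul_of_nonneg_left h1 (by linarith : 0 ≤ 2 * b)
  by_contra hcon
  push Not at hcon
  have h3 : 2 * b * (m * (φ - φ' + Z + 1)) = 2 * (b * m) * (φ - φ') + 2 * b * m * (Z + 1) := by ring
  rw [mul_add] at h2
  have h4 : 0 ≤ φ - φ' := by linarith
  have h5 : 32 * (b * m) * (φ - φ') ≤ 1 * (φ - φ') := mul_le_mul_of_nonneg_right hbm h4
  linarith

namespace Loc
variable {m : ℕ} {θ : ℝ} {S : Sys m θ} (L : Loc S)

theorem foreign_run {z b Z : ℝ} (hb : 0 < b) (hb2 : 2 * b ≤ 1) (hbm : 32 * (b * m) ≤ 1)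
    (zc : ℕ → ℕ → ℝ) {k₁ j : ℕ}
    (hmono : ∀ k, k₁ ≤ k → k < k₁ + j → ∀ s < m, zc k s ≤ zc (k + 1) s)
    (hrange : ∀ s < m, zc (k₁ + j) s - zc k₁ s ≤ Z) (hZ : 0 ≤ Z)
    (hcalm : ∀ k, k₁ ≤ k → k < k₁ + j → ∀ s < m, L.ρ s ≠ 0 → |(L.n s k : ℝ)| ≤ L.N' →
      ∀ φ, |φ| ≤ L.Φm → (∀ i : ℤ, b ≤ |φ - zc k s - i|) → L.Calm s k φ)
    {φ₁ Λ : ℝ} (hδ : 0 ≤ L.δ)
    (hΛ : 3 * L.ω * ((∑ k ∈ Finset.range j, ∑ s ∈ Finset.range m, L.evc s (k₁ + k) : ℕ) : ℝ)
      + L.δ * j ≤ Λ)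
    (hφ : |φ₁| + 16 / 15 * (Λ + 2 * b * m * (Z + 1)) ≤ L.Φm)
    (h : L.LL z k₁ φ₁) :
    ∃ φ₂, L.LL z (k₁ + j) φ₂ ∧ φ₁ - 16 / 15 * (Λ + 2 * b * m * (Z + 1)) ≤ φ₂ ∧ φ₂ ≤ φ₁ := by
  have hω0 := L.hω0
  have hmono' : ∀ a c, a ≤ c → c ≤ j → ∀ s < m, zc (k₁ + a) s ≤ zc (k₁ + c) s := by
    intro a c hac hc s hs
    induction c with
    | zero => have : a = 0 := by omega
              rw [this]
    | succ c ih =>
      rcases Nat.lt_or_ge a (c + 1) with h1 | h1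
      · have h2 := ih (by omega) (by omega)
        have h3 := hmono (k₁ + c) (by omega) (by omega) s hs
        exact h2.trans h3
      · have : a = c + 1 := by omega
        rw [this]
  have hcnt0 : (0 : ℝ) ≤ ((∑ k ∈ Finset.range j, ∑ s ∈ Finset.range m, L.evc s (k₁ + k) : ℕ) : ℝ) :=
    Nat.cast_nonneg _
  have hΛ0 : 0 ≤ Λ := by
    refine le_trans ?_ hΛ
    positivity
  have hnn : 0 ≤ Λ + 2 * b * m * (Z + 1) := by positivity
  -- loss bookkeeping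
  have hloss : ∀ a ≤ j, ∀ s ≤ m, (a < j ∨ s = 0) →
      3 * L.ω * ((∑ k ∈ Finset.range a, ∑ s ∈ Finset.range m, L.evc s (k₁ + k)
        + ∑ s' ∈ Finset.range s, L.evc s' (k₁ + a) : ℕ) : ℝ) + L.δ * a ≤ Λ := by
    intro a ha s hs hor
    refine le_trans ?_ hΛ
    have h1 : (∑ k ∈ Finset.range a, ∑ s ∈ Finset.range m, L.evc s (k₁ + k)
        + ∑ s' ∈ Finset.range s, L.evc s' (k₁ + a))
        ≤ ∑ k ∈ Finset.range j, ∑ s ∈ Finset.range m, L.evc s (k₁ + k) := by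
      rcases hor with h2 | h2
      · have c1 : (∑ s' ∈ Finset.range s, L.evc s' (k₁ + a))
            ≤ ∑ s' ∈ Finset.range m, L.evc s' (k₁ + a) :=
          Finset.sum_le_sum_of_subset (Finset.range_subset_range.2 hs)
        have c2 : (∑ k ∈ Finset.range (a + 1), ∑ s ∈ Finset.range m, L.evc s (k₁ + k))
            ≤ ∑ k ∈ Finset.range j, ∑ s ∈ Finset.range m, L.evc s (k₁ + k) :=
          Finset.sum_le_sum_of_subset (Finset.range_subset_range.2 h2)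
        rw [Finset.sum_range_succ] at c2
        omega
      · rw [h2, Finset.sum_range_zero, add_zero]
        exact Finset.sum_le_sum_of_subset (Finset.range_subset_range.2 ha)
    have h2 : ((∑ k ∈ Finset.range a, ∑ s ∈ Finset.range m, L.evc s (k₁ + k)
        + ∑ s' ∈ Finset.range s, L.evc s' (k₁ + a) : ℕ) : ℝ)
        ≤ ((∑ k ∈ Finset.range j, ∑ s ∈ Finset.range m, L.evc s (k₁ + k) : ℕ) : ℝ) := by
      exact_mod_cast h1
    have h3 : L.δ * a ≤ L.δ * j := mul_le_mul_of_nonneg_left (by exact_mod_cast ha) hδ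
    have h4 := mul_le_mul_of_nonneg_left h2 (by linarith : 0 ≤ 3 * L.ω)
    linarith
  -- bound for levels
  have hlevel : ∀ a ≤ j, ∀ φ Λ', Λ' ≤ Λ → φ ≤ φ₁ →
      Pot m b (zc k₁) φ₁ - Λ' ≤ Pot m b (zc (k₁ + a)) φ →
      φ₁ - 16 / 15 * (Λ + 2 * b * m * (Z + 1)) ≤ φ ∧ |φ| ≤ L.Φm := by
    intro a ha φ Λ' hΛ' hφ1 hpot
    have h1 := Pot_bound (Λ := Λ) (Z := Z) hb.le hbm (zc := zc k₁) (zc' := zc (k₁ + a))
      (fun s hs => by
        have := hmono' a j ha le_rfl s hs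
        have := hrange s hs
        linarith) (φ := φ₁) (φ' := φ) (by linarith) hnn
    refine ⟨h1, ?_⟩
    have h2 := le_abs_self φ₁
    have h3 := neg_abs_le φ₁
    rw [abs_le]
    constructor <;> linarith
  have main : ∀ a ≤ j, ∃ φ ≤ φ₁, L.LL z (k₁ + a) φ ∧
      Pot m b (zc k₁) φ₁ - (3 * L.ω * ((∑ k ∈ Finset.range a, ∑ s ∈ Finset.range m,
        L.evc s (k₁ + k) : ℕ) : ℝ) + L.δ * a) ≤ Pot m b (zc (k₁ + a)) φ := by
    intro a
    induction a with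
    | zero =>
      intro _
      exact ⟨φ₁, le_rfl, by simpa using h, by simp⟩
    | succ a ih =>
      intro ha
      obtain ⟨φ, hφ1, hLL, hpot⟩ := ih (by omega)
      -- inside the round
      have hin : ∀ s ≤ m, ∃ φ ≤ φ₁, L.LI z (k₁ + a) s φ ∧
          Pot m b (zc k₁) φ₁ - (3 * L.ω * ((∑ k ∈ Finset.range a, ∑ s ∈ Finset.range m,
            L.evc s (k₁ + k) + ∑ s' ∈ Finset.range s, L.evc s' (k₁ + a) : ℕ) : ℝ) + L.δ * a)
            ≤ Pot m b (zc (k₁ + a)) φ := by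
        intro s
        induction s with
        | zero =>
          intro _
          refine ⟨φ, hφ1, hLL, ?_⟩
          rw [Finset.sum_range_zero, add_zero]
          exact hpot
        | succ s ihs =>
          intro hs
          obtain ⟨φ, hφ1, hLI, hpot⟩ := ihs (by omega)
          have hs' : s < m := by omega
          obtain ⟨hlb, hΦ⟩ := hlevel a (by omega) φ _ (hloss a (by omega) s (by omega)
            (Or.inl (by omega))) hφ1 hpot
          have hcast : ((∑ k ∈ Finset.range a, ∑ s ∈ Finset.range m,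
            L.evc s (k₁ + k) + ∑ s' ∈ Finset.range (s + 1), L.evc s' (k₁ + a) : ℕ) : ℝ)
            = ((∑ k ∈ Finset.range a, ∑ s ∈ Finset.range m,
            L.evc s (k₁ + k) + ∑ s' ∈ Finset.range s, L.evc s' (k₁ + a) : ℕ) : ℝ)
            + (L.evc s (k₁ + a) : ℝ) := by
            rw [Finset.sum_range_succ]
            push_cast
            ring
          rw [hcast, mul_add]
          by_cases hev : |(L.n s (k₁ + a) : ℝ)| ≤ L.N'
          · have hevc : L.evc s (k₁ + a) = 1 := by unfold evc; rw [if_pos hev]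
            rw [hevc, Nat.cast_one, mul_one]
            by_cases hρ0 : L.ρ s = 0
            · refine ⟨φ - 3 * L.ω, by linarith, L.LI_flat hs' hρ0 hLI, ?_⟩
              have := Pot_sub (m := m) hb.le (zc := zc (k₁ + a)) (φ := φ)
                (by linarith : 0 ≤ 3 * L.ω)
              linarith
            · obtain ⟨φ', hφ', hpot', hsafe⟩ := Pot_lower (m := m) hb hb2 (zc (k₁ + a)) φ hs'
              have hpot'' := hpot.trans hpot'
              obtain ⟨-, hΦ'⟩ := hlevel a (by omega) φ' _ (hloss a (by omega) s (by omega)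
                (Or.inl (by omega))) (hφ'.trans hφ1) hpot''
              refine ⟨φ', hφ'.trans hφ1, L.LI_calm hs' (hcalm (k₁ + a) (by omega) (by omega) s hs'
                hρ0 hev φ' hΦ' hsafe) (hLI.mono hφ'), ?_⟩
              linarith
          · have hevc : L.evc s (k₁ + a) = 0 := by unfold evc; rw [if_neg hev]
            rw [hevc, Nat.cast_zero, mul_zero, add_zero]
            exact ⟨φ, hφ1, L.LI_calm hs' (L.calm_of_nev hs' hΦ (not_le.1 hev)) hLI, hpot⟩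
      obtain ⟨φ', hφ', hLI, hpot'⟩ := hin m le_rfl
      have h1 := L.LL_end hLI
      refine ⟨φ' - L.δ, by linarith, h1, ?_⟩
      have h2 := Pot_sub (m := m) hb.le (zc := zc (k₁ + a)) (φ := φ') hδ
      have h3 := Pot_mono (m := m) hb.le (hmono (k₁ + a) (by omega) (by omega)) (φ' - L.δ)
      have h4 : ((∑ k ∈ Finset.range (a + 1), ∑ s ∈ Finset.range m, L.evc s (k₁ + k) : ℕ) : ℝ)
          = ((∑ k ∈ Finset.range a, ∑ s ∈ Finset.range m,
            L.evc s (k₁ + k) + ∑ s' ∈ Finset.range m, L.evc s' (k₁ + a) : ℕ) : ℝ) := by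
        rw [Finset.sum_range_succ]
      rw [h4]
      have e : zc (k₁ + (a + 1)) = zc (k₁ + a + 1) := by congr 1
      rw [e]
      push_cast at hpot' ⊢
      linarith
  obtain ⟨φ₂, hφ₂, hLL, hpot⟩ := main j le_rfl
  have h1 := hloss j le_rfl 0 (Nat.zero_le m) (Or.inr rfl)
  rw [Finset.sum_range_zero, add_zero] at h1
  exact ⟨φ₂, hLL, (hlevel j le_rfl φ₂ _ h1 hφ₂ hpot).1, hφ₂⟩

end Loc

end Pool.Agent.Helper88.Rot
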