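import Pool.Agent.Helper88.Rot.Pigeon

/-!
Diophantine lemmas about `n α + β` modulo one.
-/

namespace Pool.Agent.Helper88.Rot

open Finset

/-- lower bound for small multiples of an irrational number -/
theorem gap_exists {α : ℝ} (hα : Irrational α) (Γ : ℕ) :
    ∃ d : ℝ, 0 < d ∧ ∀ k : ℤ, k ≠ 0 → |k| < Γ → ∀ l : ℤ, d < |k * α - l| := by
  induction Γ with
  | zero => exact ⟨1, one_pos, fun k _ h => absurd h (by simp)⟩
  | succ Γ ih =>
    obtain ⟨d, hd, h⟩ := ih
    by_cases hΓ : Γ = 0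
    · subst hΓ
      refine ⟨1, one_pos, fun k hk hk' => ?_⟩
      exfalso
      have : |k| < 1 := by simpa using hk'
      exact hk (Int.abs_lt_one_iff.1 this)
    · have hpos : ∀ k : ℤ, k ≠ 0 → 0 < |k * α - round (k * α)| := by
        intro k hk
        rw [abs_pos, sub_ne_zero]
        have h1 : Irrational ((k : ℝ) * α) := hα.intCast_mul hk
        exact h1.ne_int _
      have h1 := hpos Γ (by exact_mod_cast hΓ)
      have h2 := hpos (-Γ) (by
        have : (Γ : ℤ) ≠ 0 := by exact_mod_cast hΓ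
        omega)
      set e := min d (min (|((Γ : ℤ) : ℝ) * α - round (((Γ : ℤ) : ℝ) * α)| / 2)
        (|((-Γ : ℤ) : ℝ) * α - round (((-Γ : ℤ) : ℝ) * α)| / 2)) with he
      refine ⟨e, ?_, fun k hk hk' l => ?_⟩
      · rw [he]
        exact lt_min hd (lt_min (by linarith) (by linarith))
      · have hk'' : |k| ≤ Γ := by
          have : |k| < (Γ : ℤ) + 1 := by exact_mod_cast hk'
          omega
        rcases hk''.lt_or_eq with h3 | h3
        · exact lt_of_le_of_lt (min_le_left _ _) (h k hk h3 l)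
        · rcases abs_eq (by omega : (0 : ℤ) ≤ Γ) |>.1 h3 with h4 | h4
          · have h5 := round_le ((k : ℝ) * α) l
            have h6 : e ≤ |((Γ : ℤ) : ℝ) * α - round (((Γ : ℤ) : ℝ) * α)| / 2 :=
              (min_le_right _ _).trans (min_le_left _ _)
            rw [← h4] at h6 h1
            linarith
          · have h5 := round_le ((k : ℝ) * α) l
            have h6 : e ≤ |((-Γ : ℤ) : ℝ) * α - round (((-Γ : ℤ) : ℝ) * α)| / 2 :=
              (min_le_right _ _).trans (min_le_right _ _)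
            rw [← h4] at h6 h2
            linarith

/-- a `Γ`-separated set of integers in an interval -/
theorem card_separated (T : Finset ℤ) (Γ : ℕ) (hΓ : 0 < Γ) (a b : ℤ) (hab : a ≤ b)
    (hT : ∀ m ∈ T, a ≤ m ∧ m ≤ b)
    (hsep : ∀ m ∈ T, ∀ m' ∈ T, m ≠ m' → (Γ : ℤ) ≤ |m - m'|) :
    (T.card : ℝ) ≤ ((b : ℝ) - a) / Γ + 1 := by
  have hΓ' : (0 : ℤ) < Γ := by exact_mod_cast hΓ
  have hinj : Set.InjOn (fun m : ℤ => (m - a) / (Γ : ℤ)) T := by
    intro m hm m' hm' h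
    by_contra hne
    have h1 := hsep m hm m' hm' hne
    have h2 : (m - a) / (Γ : ℤ) = (m' - a) / (Γ : ℤ) := h
    have h3 := Int.emod_add_mul_ediv (m - a) Γ
    have h4 := Int.emod_add_mul_ediv (m' - a) Γ
    have h5 := Int.emod_nonneg (m - a) hΓ'.ne'
    have h6 := Int.emod_lt_of_pos (m - a) hΓ'
    have h7 := Int.emod_nonneg (m' - a) hΓ'.ne'
    have h8 := Int.emod_lt_of_pos (m' - a) hΓ'
    rw [h2] at h3
    have h9 : m - m' = (m - a) % Γ - (m' - a) % Γ := by linarith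
    have h10 : |m - m'| < Γ := by
      rw [h9, abs_lt]
      constructor <;> linarith
    linarith
  have hsub : T.image (fun m : ℤ => (m - a) / (Γ : ℤ)) ⊆ Finset.Icc 0 ((b - a) / (Γ : ℤ)) := by
    intro i hi
    rw [Finset.mem_image] at hi
    obtain ⟨m, hm, rfl⟩ := hi
    obtain ⟨h1, h2⟩ := hT m hm
    rw [Finset.mem_Icc]
    exact ⟨Int.ediv_nonneg (by omega) hΓ'.le, Int.ediv_le_ediv hΓ' (by omega)⟩
  have h1 := Finset.card_le_card hsub
  rw [Finset.card_image_of_injOn hinj, Int.card_Icc] at h1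
  have h2 : 0 ≤ (b - a) / (Γ : ℤ) := Int.ediv_nonneg (by omega) hΓ'.le
  have h3 : (T.card : ℤ) ≤ (b - a) / (Γ : ℤ) + 1 := by omega
  have h4 : (T.card : ℝ) ≤ (((b - a) / (Γ : ℤ) : ℤ) : ℝ) + 1 := by exact_mod_cast h3
  have h5 : (((b - a) / (Γ : ℤ) : ℤ) : ℝ) ≤ ((b : ℝ) - a) / Γ := by
    have h6 := Int.mul_ediv_self_le (x := b - a) (k := (Γ : ℤ)) hΓ'.ne'
    rw [le_div_iff₀ (by exact_mod_cast hΓ)]
    have : (((b - a) / (Γ : ℤ) : ℤ) : ℝ) * ((Γ : ℤ) : ℝ) ≤ ((b - a : ℤ) : ℝ) := by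
      rw [mul_comm]
      exact_mod_cast h6
    push_cast at this
    exact this
  linarith

/-- number of integers `m` in an interval with `m α + Δ` close to an integer -/
theorem card_near {α : ℝ} (Γ : ℕ) (hΓ : 0 < Γ) {d : ℝ}
    (hd : ∀ k : ℤ, k ≠ 0 → |k| < Γ → ∀ l : ℤ, d < |k * α - l|) (Δ e : ℝ) (he : 2 * e ≤ d)
    (T : Finset ℤ) (a b : ℤ) (hab : a ≤ b)
    (hT : ∀ m ∈ T, a ≤ m ∧ m ≤ b) (hT' : ∀ m ∈ T, ∃ l : ℤ, |m * α + Δ - l| ≤ e) :
    (T.card : ℝ) ≤ ((b : ℝ) - a) / Γ + 1 := by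
  refine card_separated T Γ hΓ a b hab hT fun m hm m' hm' hne => ?_
  by_contra hcon
  push Not at hcon
  obtain ⟨l, hl⟩ := hT' m hm
  obtain ⟨l', hl'⟩ := hT' m' hm'
  have h1 := hd (m - m') (sub_ne_zero.2 hne) hcon (l - l')
  have e1 : ((m - m' : ℤ) : ℝ) * α - ((l - l' : ℤ) : ℝ)
      = (m * α + Δ - l) - (m' * α + Δ - l') := by push_cast; ring
  rw [e1] at h1
  have h2 := abs_sub (m * α + Δ - l) (m' * α + Δ - l')
  linarith

/-- a good rational approximation -/
def Good (α : ℝ) (q : ℕ) (p : ℤ) : Prop :=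
  0 < q ∧ IsCoprime p (q : ℤ) ∧ |(q : ℝ) * α - p| * q < 1

theorem Good.err {α : ℝ} {q : ℕ} {p : ℤ} (h : Good α q p) {n : ℤ} (h0 : 0 ≤ n) (hn : n < q) :
    |(n : ℝ) * α - n * p / q| * q < 1 := by
  obtain ⟨hq, -, h1⟩ := h
  have hq' : (0 : ℝ) < q := by exact_mod_cast hq
  have e : (n : ℝ) * α - n * p / q = (n / q) * ((q : ℝ) * α - p) := by field_simp
  rw [e, abs_mul, abs_of_nonneg (div_nonneg (by exact_mod_cast h0) hq'.le)]
  have h2 : (n : ℝ) / q ≤ 1 := by
    rw [div_le_one hq']; exact_mod_cast hn.le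
  calc (n : ℝ) / q * |(q : ℝ) * α - p| * q = (n : ℝ) / q * (|(q : ℝ) * α - p| * q) := by ring
    _ ≤ 1 * (|(q : ℝ) * α - p| * q) := mul_le_mul_of_nonneg_right h2 (by positivity)
    _ < 1 := by linarith

/-- every slot of length at least `3/q` contains a candidate -/
theorem Good.candidate {α : ℝ} {q : ℕ} {p : ℤ} (h : Good α q p) (β x y : ℝ) (hx : 0 ≤ x)
    (hy : y ≤ 1) (hxy : 3 / (q : ℝ) ≤ y - x) :
    ∃ n : ℤ, 0 ≤ n ∧ n < q ∧ x < Int.fract (n * α + β) ∧ Int.fract (n * α + β) < y := by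
  obtain ⟨hq, hcop, h1⟩ := h
  have hq' : (0 : ℝ) < q := by exact_mod_cast hq
  have hq'' : (0 : ℤ) < q := by exact_mod_cast hq
  set k : ℤ := ⌈q * (x - β) + 1⌉ with hk
  have hk1 : q * (x - β) + 1 ≤ k := Int.le_ceil _
  have hk2 : (k : ℝ) < q * (x - β) + 2 := by
    have := Int.ceil_lt_add_one (q * (x - β) + 1)
    linarith
  obtain ⟨a, b, hab⟩ := hcop
  -- a * p + b * q = 1
  set n : ℤ := (a * k) % q with hn
  have hn0 : 0 ≤ n := Int.emod_nonneg _ hq''.ne'
  have hn1 : n < q := Int.emod_lt_of_pos _ hq''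
  obtain ⟨l, hl⟩ : ∃ l : ℤ, n * p = k + q * l := by
    have h2 := Int.emod_add_mul_ediv (a * k) q
    rw [← hn] at h2
    refine ⟨-(b * k) - (a * k) / q * p, ?_⟩
    have h3 : n = a * k - q * (a * k / q) := by linarith
    calc n * p = (a * k - q * (a * k / q)) * p := by rw [← h3]
      _ = (a * p) * k - q * (a * k / q) * p := by ring
      _ = (1 - b * q) * k - q * (a * k / q) * p := by rw [← hab]; ring
      _ = _ := by ring
  have herr := Good.err ⟨hq, ⟨a, b, hab⟩, h1⟩ hn0 hn1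
  have hl' : (n : ℝ) * p / q = k / q + l := by
    have : (n : ℝ) * p = k + q * l := by exact_mod_cast hl
    rw [this]; field_simp
  have herr' : |(n : ℝ) * α - n * p / q| < 1 / q := by
    rw [lt_div_iff₀ hq']; exact herr
  rw [abs_lt] at herr'
  have hkq1 : x - β + 1 / q ≤ k / q := by
    rw [le_div_iff₀ hq']
    have : (x - β + 1 / q) * q = q * (x - β) + 1 := by field_simp
    linarith
  have hkq2 : (k : ℝ) / q < x - β + 2 / q := by
    rw [div_lt_iff₀ hq']
    have : (x - β + 2 / q) * q = q * (x - β) + 2 := by field_simp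
    linarith
  have e3 : (3 : ℝ) / q = 2 / q + 1 / q := by ring
  have hv1 : x < n * α + β - l := by linarith [herr'.1]
  have hv2 : n * α + β - l < y := by linarith [herr'.2]
  have hfr : Int.fract (n * α + β) = n * α + β - l := by
    rw [Int.fract_eq_iff]
    refine ⟨by linarith, by linarith, l, by ring⟩
  exact ⟨n, hn0, hn1, by rw [hfr]; exact hv1, by rw [hfr]; exact hv2⟩

/-- number of indices of a block of length `q` falling in a short slot -/
theorem Good.card_block {α : ℝ} {q : ℕ} {p : ℤ} (h : Good α q p) (β x y : ℝ)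
    (hxy : y - x ≤ 6 / (q : ℝ)) (hxy0 : x ≤ y) (n₀ : ℤ) (T : Finset ℤ)
    (hT : ∀ n ∈ T, n₀ ≤ n ∧ n < n₀ + q ∧ x ≤ Int.fract (n * α + β) ∧ Int.fract (n * α + β) < y) :
    (T.card : ℝ) ≤ 9 := by
  obtain ⟨hq, hcop, h1⟩ := id h
  have hq' : (0 : ℝ) < q := by exact_mod_cast hq
  set f : ℤ → ℤ := fun n => (n - n₀) * p - q * ⌊(n : ℝ) * α + β⌋ with hf
  have hinj : Set.InjOn f T := by
    intro n hn n' hn' hff
    have h2 := hT n hn
    have h3 := hT n' hn'
    have h4 : (n - n') * p = q * (⌊(n : ℝ) * α + β⌋ - ⌊(n' : ℝ) * α + β⌋) := by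
      have : (n - n₀) * p - q * ⌊(n : ℝ) * α + β⌋
        = (n' - n₀) * p - q * ⌊(n' : ℝ) * α + β⌋ := hff
      linarith
    have h5 : (q : ℤ) ∣ (n - n') * p := ⟨_, h4⟩
    have h6 : (q : ℤ) ∣ (n - n') := hcop.symm.dvd_of_dvd_mul_right h5
    have h7 : |n - n'| < q := by
      rw [abs_lt]
      constructor <;> linarith [h2.1, h2.2.1, h3.1, h3.2.1]
    have := Int.eq_zero_of_abs_lt_dvd h6 h7
    linarith
  have h2 := card_int_interval (T.image f) (q * (x - (β + n₀ * α)) - 1)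
    (q * (y - (β + n₀ * α)) + 1) (by
      have : q * (x - (β + n₀ * α)) ≤ q * (y - (β + n₀ * α)) :=
        mul_le_mul_of_nonneg_left (by linarith) hq'.le
      linarith) (by
    intro i hi
    rw [Finset.mem_image] at hi
    obtain ⟨n, hn, rfl⟩ := hi
    obtain ⟨a1, a2, a3, a4⟩ := hT n hn
    have herr := h.err (n := n - n₀) (by omega) (by omega)
    have herr' : |((n - n₀ : ℤ) : ℝ) * α * q - ((n - n₀ : ℤ) : ℝ) * p| < 1 := by
      have e : ((n - n₀ : ℤ) : ℝ) * α * q - ((n - n₀ : ℤ) : ℝ) * p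
          = (((n - n₀ : ℤ) : ℝ) * α - ((n - n₀ : ℤ) : ℝ) * p / q) * q := by field_simp
      rw [e, abs_mul, abs_of_pos hq']
      exact herr
    rw [abs_lt] at herr'
    have e2 : (f n : ℝ) = ((n - n₀ : ℤ) : ℝ) * p - q * ⌊(n : ℝ) * α + β⌋ := by
      simp only [hf]; push_cast; ring
    have e3 : Int.fract ((n : ℝ) * α + β) = n * α + β - ⌊(n : ℝ) * α + β⌋ := rfl
    rw [e3] at a3 a4
    have a3' := mul_le_mul_of_nonneg_left a3 hq'.le
    have a4' := mul_le_mul_of_nonneg_left a4.le hq'.le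
    rw [e2]
    push_cast at herr' ⊢
    constructor
    · nlinarith [herr'.1]
    · nlinarith [herr'.2])
  rw [Finset.card_image_of_injOn hinj] at h2
  have e : q * (y - (β + n₀ * α)) + 1 - (q * (x - (β + n₀ * α)) - 1) + 1
      = q * (y - x) + 3 := by ring
  rw [e] at h2
  have h3 : q * (y - x) ≤ 6 := by
    calc q * (y - x) ≤ q * (6 / q) := mul_le_mul_of_nonneg_left hxy hq'.le
      _ = 6 := by field_simp
  linarith

theorem exists_good {α : ℝ} (hα : Irrational α) (q₀ : ℕ) : ∃ q p, q₀ ≤ q ∧ Good α q p := by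
  obtain ⟨d, hd, hd'⟩ := gap_exists hα (q₀ + 1)
  obtain ⟨N, hN⟩ := exists_nat_one_div_lt hd
  obtain ⟨r, hr1, hr2⟩ := Real.exists_rat_abs_sub_le_and_den_le α (n := N + 1) (Nat.succ_pos N)
  have hq : (0 : ℝ) < r.den := by exact_mod_cast r.den_pos
  have hN' : (0 : ℝ) < (N : ℝ) + 1 := by positivity
  have h1 : |(r.den : ℝ) * α - r.num| ≤ 1 / ((N : ℝ) + 2) := by
    have e : (r.den : ℝ) * α - r.num = r.den * (α - r) := by
      have : (r : ℝ) = r.num / r.den := by exact_mod_cast (Rat.num_div_den r).symm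
      rw [this]; field_simp
    rw [e, abs_mul, abs_of_pos hq]
    calc (r.den : ℝ) * |α - r| ≤ r.den * (1 / ((((N + 1 : ℕ) : ℝ) + 1) * r.den)) :=
          mul_le_mul_of_nonneg_left hr1 hq.le
      _ = 1 / ((N : ℝ) + 2) := by push_cast; field_simp; ring
  refine ⟨r.den, r.num, ?_, r.den_pos, ?_, ?_⟩
  · by_contra hcon
    push Not at hcon
    have h2 := hd' (r.den : ℤ) (by exact_mod_cast r.den_pos.ne') (by
      rw [abs_of_nonneg (by positivity)]
      exact_mod_cast (by omega : r.den < q₀ + 1)) r.num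
    have h3 : 1 / ((N : ℝ) + 2) ≤ 1 / ((N : ℝ) + 1) :=
      one_div_le_one_div_of_le hN' (by linarith)
    push_cast at h2
    linarith
  · have := r.reduced
    rw [Int.isCoprime_iff_gcd_eq_one]
    exact_mod_cast this
  · have h2 : (r.den : ℝ) ≤ (N : ℝ) + 1 := by exact_mod_cast hr2
    calc |(r.den : ℝ) * α - r.num| * r.den ≤ 1 / ((N : ℝ) + 2) * ((N : ℝ) + 1) :=
          mul_le_mul h1 h2 hq.le (by positivity)
      _ < 1 := by
          rw [one_div, inv_mul_lt_iff₀ (by positivity)]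
          linarith

/-- slot boundaries avoiding a countable set -/
theorem exists_slots (q : ℕ) (hq : 20 ≤ q) (bad : Set ℝ) (hbad : bad.Countable) :
    ∃ (J : ℕ) (τ : ℕ → ℝ), 0 < J ∧ J ≤ q ∧ τ 0 = 0 ∧ τ J = 1 ∧
      (∀ j < J, 3 / (q : ℝ) ≤ τ (j + 1) - τ j ∧ τ (j + 1) - τ j ≤ 6 / (q : ℝ)) ∧
      ∀ j, 0 < j → j < J → τ j ∉ bad := by
  have hq' : (0 : ℝ) < q := by
    have : 0 < q := by omega
    exact_mod_cast this
  set J := q / 4 with hJ
  have hJ5 : 5 ≤ J := by omega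
  have hJq : 4 * J ≤ q := by omega
  have hqJ : q < 4 * J + 4 := by omega
  have hJ' : (5 : ℝ) ≤ J := by exact_mod_cast hJ5
  have hJ0 : (0 : ℝ) < J := by linarith
  have hJq' : 4 * (J : ℝ) ≤ q := by exact_mod_cast hJq
  have hqJ' : (q : ℝ) < 4 * J + 4 := by exact_mod_cast hqJ
  obtain ⟨ϑ, hϑ, hϑ'⟩ : ∃ ϑ ∈ Set.Ioo (0 : ℝ) 1, ∀ j : ℕ, (j : ℝ) / J + ϑ / q ∉ bad := by
    set B : Set ℝ := ⋃ j : ℕ, (fun b : ℝ => q * (b - j / J)) '' bad with hB
    have hc : B.Countable := Set.countable_iUnion fun j => hbad.image _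
    obtain ⟨ϑ, h1, h2⟩ := (hc.dense_compl ℝ).exists_mem_open isOpen_Ioo
      (Set.nonempty_Ioo.2 (one_pos (α := ℝ)))
    refine ⟨ϑ, h2, fun j hj => h1 ?_⟩
    rw [hB, Set.mem_iUnion]
    refine ⟨j, _, hj, ?_⟩
    field_simp
    ring
  have l1 : 4 / (q : ℝ) ≤ 1 / J := by
    rw [div_le_div_iff₀ hq' hJ0]; linarith
  have l2 : 1 / (J : ℝ) ≤ 5 / q := by
    rw [div_le_div_iff₀ hJ0 hq']; linarith
  have l3 : 0 < ϑ / q := div_pos hϑ.1 hq'
  have l4 : ϑ / q ≤ 1 / q := by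
    have := hϑ.2
    gcongr
  have e4 : (4 : ℝ) / q = 3 / q + 1 / q := by ring
  have e6 : (6 : ℝ) / q = 5 / q + 1 / q := by ring
  have e0 : (0 : ℝ) < 1 / q := by positivity
  refine ⟨J, fun j => if j = 0 then 0 else if J ≤ j then 1 else (j : ℝ) / J + ϑ / q,
    by omega, by omega, by simp, ?_, ?_, ?_⟩
  · have : J ≠ 0 := by omega
    simp [this]
  · intro j hj
    have hj' : ¬ J ≤ j := by omega
    have hj1 : j + 1 ≠ 0 := by omega
    rcases Nat.eq_zero_or_pos j with h0 | h0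
    · subst h0
      have h1 : ¬ J ≤ 0 + 1 := by omega
      simp only [hj1, if_false, h1, if_true]
      push_cast
      constructor <;> linarith
    · have h00 : j ≠ 0 := by omega
      simp only [h00, if_false, hj', hj1]
      split_ifs with h1
      · have h2 : J = j + 1 := by omega
        have e : (1 : ℝ) - ((j : ℝ) / J + ϑ / q) = 1 / J - ϑ / q := by
          rw [h2]; push_cast
          have : (j : ℝ) + 1 ≠ 0 := by positivity
          field_simp
          ring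
        rw [e]
        constructor <;> linarith
      · have e : ((j + 1 : ℕ) : ℝ) / J + ϑ / q - ((j : ℝ) / J + ϑ / q) = 1 / J := by
          push_cast; field_simp; ring
        rw [e]
        constructor <;> linarith
  · intro j h0 hj
    have h00 : j ≠ 0 := by omega
    have hj' : ¬ J ≤ j := by omega
    simp only [h00, if_false, hj']
    exact hϑ' j

end Pool.Agent.Helper88.Rot
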