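import Pool.Agent.Helper88.Rot.Norm

/-!
Reindexing events by their index `n` instead of their round `k`.
-/

namespace Pool.Agent.Helper88.Rot

open CircleDeg1Lift Filter Topology

namespace Loc
variable {m : ℕ} {θ : ℝ} {S : Sys m θ} (L : Loc S)

theorem QposN : 0 < L.Q := by exact_mod_cast L.Qpos

/-- round in which stage `s` has index `n` (given an inverse `Pb` of `P` modulo `Q`) -/
noncomputable def kk (Pb : ℤ) (s : ℕ) (n : ℤ) : ℕ := (((n - L.a s) * Pb) % (L.Q : ℤ)).toNat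

theorem kk_cast (Pb : ℤ) (s : ℕ) (n : ℤ) :
    (L.kk Pb s n : ℤ) = ((n - L.a s) * Pb) % (L.Q : ℤ) := by
  have hQ : (0 : ℤ) < L.Q := by exact_mod_cast L.QposN
  unfold kk
  exact Int.toNat_of_nonneg (Int.emod_nonneg _ hQ.ne')

theorem kk_lt (Pb : ℤ) (s : ℕ) (n : ℤ) : L.kk Pb s n < L.Q := by
  have hQ : (0 : ℤ) < L.Q := by exact_mod_cast L.QposN
  have := Int.emod_lt_of_pos ((n - L.a s) * Pb) hQ
  rw [← L.kk_cast] at this
  exact_mod_cast this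

theorem n_modEq (s k : ℕ) : L.n s k ≡ k * L.P + L.a s [ZMOD L.Q] := by
  unfold n
  rw [Int.ModEq]
  exact Int.bmod_emod

theorem kk_modEq (Pb : ℤ) (s : ℕ) (n : ℤ) :
    (L.kk Pb s n : ℤ) ≡ (n - L.a s) * Pb [ZMOD L.Q] := by
  rw [L.kk_cast]
  exact Int.mod_modEq _ _

theorem n_kk {Pb : ℤ} (hPb : L.P * Pb ≡ 1 [ZMOD L.Q]) (s : ℕ) {n : ℤ}
    (hn : 2 * |(n : ℝ)| < L.Q) : L.n s (L.kk Pb s n) = n := by
  have h1 := L.n_modEq s (L.kk Pb s n)
  have h2 := L.kk_modEq Pb s n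
  have h3 : (L.kk Pb s n : ℤ) * L.P + L.a s ≡ n [ZMOD L.Q] := by
    calc (L.kk Pb s n : ℤ) * L.P + L.a s ≡ ((n - L.a s) * Pb) * L.P + L.a s [ZMOD L.Q] :=
          (h2.mul_right _).add_right _
      _ = (n - L.a s) * (L.P * Pb) + L.a s := by ring
      _ ≡ (n - L.a s) * 1 + L.a s [ZMOD L.Q] := (hPb.mul_left _).add_right _
      _ = n := by ring
  have h4 := h1.trans h3
  have h5 := L.n_abs_le s (L.kk Pb s n)
  have h6 : (L.Q : ℤ) ∣ n - L.n s (L.kk Pb s n) := h4.dvd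
  obtain ⟨c, hc⟩ := h6
  have h7 : |((n - L.n s (L.kk Pb s n) : ℤ) : ℝ)| < L.Q := by
    push_cast
    have := abs_sub (n : ℝ) (L.n s (L.kk Pb s n) : ℝ)
    linarith
  rw [hc] at h7
  have hQ := L.Qpos
  push_cast at h7
  rw [abs_mul, abs_of_pos hQ] at h7
  have h8 : |(c : ℝ)| < 1 := by
    by_contra hcon
    push Not at hcon
    nlinarith
  have h9 : c = 0 := by
    have : |c| < 1 := by exact_mod_cast h8
    exact Int.abs_lt_one_iff.1 this
  rw [h9, mul_zero] at hc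
  linarith

theorem kk_n {Pb : ℤ} (hPb : L.P * Pb ≡ 1 [ZMOD L.Q]) (s : ℕ) {k : ℕ} (hk : k < L.Q) :
    L.kk Pb s (L.n s k) = k := by
  have h1 := L.n_modEq s k
  have h2 := L.kk_modEq Pb s (L.n s k)
  have h3 : (L.kk Pb s (L.n s k) : ℤ) ≡ k [ZMOD L.Q] := by
    calc (L.kk Pb s (L.n s k) : ℤ) ≡ (L.n s k - L.a s) * Pb [ZMOD L.Q] := h2
      _ ≡ (k * L.P + L.a s - L.a s) * Pb [ZMOD L.Q] := (h1.sub_right _).mul_right _
      _ = k * (L.P * Pb) := by ring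
      _ ≡ k * 1 [ZMOD L.Q] := hPb.mul_left _
      _ = k := by ring
  have h4 : (L.kk Pb s (L.n s k)) % L.Q = k % L.Q := by
    exact_mod_cast h3
  rw [Nat.mod_eq_of_lt (L.kk_lt _ _ _), Nat.mod_eq_of_lt hk] at h4
  exact h4

/-- reindexing of sums of events over a group of rounds -/
theorem sum_group {Pb : ℤ} (hPb : L.P * Pb ≡ 1 [ZMOD L.Q]) (s : ℕ) {k₁ j : ℕ}
    (hj : k₁ + j ≤ L.Q) (M : ℤ) (hM : ∀ n : ℤ, |(n : ℝ)| ≤ L.N' ↔ n ∈ Finset.Icc (-M) M)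
    (hNQ : 2 * L.N' < L.Q)
    {E : Type} [AddCommMonoid E] (f : ℤ → E) :
    ∑ k ∈ Finset.range j, (if |(L.n s (k₁ + k) : ℝ)| ≤ L.N' then f (L.n s (k₁ + k)) else 0)
    = ∑ n ∈ Finset.Icc (-M) M,
        (if k₁ ≤ L.kk Pb s n ∧ L.kk Pb s n < k₁ + j then f n else 0) := by
  rw [← Finset.sum_filter, ← Finset.sum_filter]
  refine Finset.sum_bij' (fun k _ => L.n s (k₁ + k)) (fun n _ => L.kk Pb s n - k₁)
    ?_ ?_ ?_ ?_ ?_
  · intro k hk
    rw [Finset.mem_filter, Finset.mem_range] at hk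
    rw [Finset.mem_filter]
    refine ⟨(hM _).1 hk.2, ?_⟩
    rw [L.kk_n hPb s (by omega)]
    omega
  · intro n hn
    rw [Finset.mem_filter] at hn
    have h1 := (hM n).2 hn.1
    rw [Finset.mem_filter, Finset.mem_range]
    have e : k₁ + (L.kk Pb s n - k₁) = L.kk Pb s n := by omega
    refine ⟨by omega, ?_⟩
    rw [e, L.n_kk hPb s (by linarith)]
    exact h1
  · intro k hk
    rw [Finset.mem_filter, Finset.mem_range] at hk
    rw [L.kk_n hPb s (by omega)]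
    omega
  · intro n hn
    rw [Finset.mem_filter] at hn
    have h1 := (hM n).2 hn.1
    have e : k₁ + (L.kk Pb s n - k₁) = L.kk Pb s n := by omega
    rw [e, L.n_kk hPb s (by linarith)]
  · intro k _
    rfl

end Loc

/-- the window estimate from differentiability -/
theorem exists_win {F : ℝ → ℝ} {ρ z₀ : ℝ} (h : HasDerivAt F ρ z₀) (K ω : ℝ) (hK : 0 < K)
    (hω : 0 < ω) : ∃ Q₀ : ℝ, ∀ Q : ℝ, Q₀ ≤ Q → ∀ y, |y| ≤ K →
      |F (z₀ + y / Q) - F z₀ - ρ * y / Q| ≤ ω / Q := by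
  rw [hasDerivAt_iff_isLittleO_nhds_zero] at h
  have h1 := h.def (div_pos hω hK)
  rw [Metric.eventually_nhds_iff] at h1
  obtain ⟨r, hr, h2⟩ := h1
  refine ⟨2 * K / r, fun Q hQ y hy => ?_⟩
  have hQ0 : 0 < Q := lt_of_lt_of_le (by positivity) hQ
  have h3 : dist (y / Q) 0 < r := by
    rw [Real.dist_eq, sub_zero, abs_div, abs_of_pos hQ0, div_lt_iff₀ hQ0]
    rw [div_le_iff₀ hr] at hQ
    linarith
  have h4 := h2 h3
  rw [Real.norm_eq_abs, Real.norm_eq_abs, smul_eq_mul, abs_div, abs_of_pos hQ0] at h4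
  have e : y / Q * ρ = ρ * y / Q := by ring
  rw [e] at h4
  refine h4.trans ?_
  calc ω / K * (|y| / Q) ≤ ω / K * (K / Q) := by gcongr
    _ = ω / Q := by field_simp

end Pool.Agent.Helper88.Rot
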