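import Pool.Agent.Helper88.Rot.Dioph

/-!
The combinatorial selection lemma in the badly approximable case.
-/

namespace Pool.Agent.Helper88.Rot

open Finset

/-- planned level -/
def lev (χ V₁ V₂ t : ℝ) : ℝ := χ + V₁ * t + V₂ * t ^ 2

/-- slot boundaries -/
structure SlotData (J : ℕ) (τ : ℕ → ℝ) (q : ℕ) : Prop where
  J0 : 0 < J
  Jq : J ≤ q
  t0 : τ 0 = 0
  t1 : τ J = 1
  len : ∀ j < J, 3 / (q : ℝ) ≤ τ (j + 1) - τ j ∧ τ (j + 1) - τ j ≤ 6 / (q : ℝ)

namespace SlotData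
variable {J : ℕ} {τ : ℕ → ℝ} {q : ℕ} (h : SlotData J τ q)
include h

theorem q0 : 0 < q := lt_of_lt_of_le h.J0 h.Jq

theorem mono {i j : ℕ} (hij : i ≤ j) (hj : j ≤ J) : τ i ≤ τ j := by
  induction j with
  | zero => have : i = 0 := by omega
            rw [this]
  | succ j ih =>
    rcases Nat.lt_or_ge i (j + 1) with h1 | h1
    · have h2 := ih (by omega) (by omega)
      have h3 := (h.len j (by omega)).1
      have : 0 < 3 / (q : ℝ) := by
        have := h.q0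
        positivity
      linarith
    · have : i = j + 1 := by omega
      rw [this]

theorem mem01 {j : ℕ} (hj : j ≤ J) : 0 ≤ τ j ∧ τ j ≤ 1 := by
  constructor
  · rw [← h.t0]; exact h.mono (Nat.zero_le _) hj
  · rw [← h.t1]; exact h.mono hj le_rfl

end SlotData

/-- slot of a time -/
noncomputable def slt (J : ℕ) (τ : ℕ → ℝ) (t : ℝ) : ℕ := ((range J).filter fun j => τ (j + 1) ≤ t).card

theorem slt_eq {J : ℕ} {τ : ℕ → ℝ} {q : ℕ} (h : SlotData J τ q) {j : ℕ} (hj : j < J) {t : ℝ}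
    (h1 : τ j ≤ t) (h2 : t < τ (j + 1)) : slt J τ t = j := by
  unfold slt
  have : (range J).filter (fun j => τ (j + 1) ≤ t) = range j := by
    ext i
    rw [Finset.mem_filter, Finset.mem_range, Finset.mem_range]
    constructor
    · rintro ⟨h3, h4⟩
      by_contra hcon
      have := h.mono (i := j + 1) (j := i + 1) (by omega) (by omega)
      linarith
    · intro h3
      refine ⟨by omega, ?_⟩
      have := h.mono (i := i + 1) (j := j) (by omega) (by omega)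
      linarith
  rw [this, Finset.card_range]

theorem exists_min_finset {ι : Type} (T : Finset ι) (P : ι → ℝ → Prop)
    (hanti : ∀ s d d', 0 < d' → d' ≤ d → P s d → P s d')
    (h : ∀ s ∈ T, ∃ d > 0, P s d) : ∃ d > 0, ∀ s ∈ T, P s d := by
  classical
  induction T using Finset.induction_on with
  | empty => exact ⟨1, one_pos, fun s hs => absurd hs (Finset.notMem_empty s)⟩
  | insert a T ha ih =>
    obtain ⟨d, hd, h1⟩ := ih fun s hs => h s (Finset.mem_insert_of_mem hs)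
    obtain ⟨d', hd', h2⟩ := h a (Finset.mem_insert_self a T)
    refine ⟨min d d', lt_min hd hd', fun s hs => ?_⟩
    rcases Finset.mem_insert.1 hs with rfl | hs
    · exact hanti s d' _ (lt_min hd hd') (min_le_right _ _) h2
    · exact hanti s d _ (lt_min hd hd') (min_le_left _ _) (h1 s hs)

theorem dist_int_pos (x : ℝ) : ∃ d > 0, ∀ l : ℤ, x ≠ l → d ≤ |x - l| := by
  by_cases hx : x = round x
  · refine ⟨1, one_pos, fun l hl => ?_⟩
    rw [hx] at hl ⊢
    have : round x - l ≠ 0 := by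
      intro h
      apply hl
      have : round x = l := by linarith
      rw [this]
    have := Int.one_le_abs this
    exact_mod_cast this
  · refine ⟨|x - round x|, abs_pos.2 (sub_ne_zero.2 hx), fun l _ => round_le x l⟩

/-- foreign events with the same slope never conflict -/
theorem sameSlope (U : Finset ℕ) (ρ v β : ℕ → ℝ) (hρ : ∀ s ∈ U, 0 < ρ s) (α : ℝ)
    {C' R : ℝ} (hC' : 0 < C') (hR : ∀ s ∈ U, ρ s ≤ R) :
    ∃ V > 0, V ≤ 1 / 16 ∧ ∃ q₀ : ℕ, ∀ q, q₀ ≤ q → ∀ J τ, SlotData J τ q →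
    ∀ χ V₁ V₂ : ℝ, (V ≤ V₁ ∧ V₁ ≤ 2 * V) → (V ≤ V₂ ∧ V₂ ≤ 2 * V) →
    ∀ s ∈ U, ∀ s' ∈ U, ρ s' = ρ s → ∀ n n' : ℤ, ∀ j < J, ∀ j' < J,
      τ j ≤ Int.fract (n * α + β s) → Int.fract (n * α + β s) < τ (j + 1) →
      τ j' ≤ Int.fract (n' * α + β s') → Int.fract (n' * α + β s') < τ (j' + 1) →
      ¬ ((n' : ℝ) - v s' = n - v s ∧ Int.fract (n' * α + β s') = Int.fract (n * α + β s)) →
      C' / q < |(n' + lev χ V₁ V₂ (τ j') - v s') / ρ s' - (n + lev χ V₁ V₂ (τ j) - v s) / ρ s| := by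
  obtain ⟨d₁, hd₁, hd₁'⟩ : ∃ d > 0, ∀ x ∈ U ×ˢ U, ∀ l : ℤ, v x.1 - v x.2 ≠ l →
      d ≤ |v x.1 - v x.2 - l| :=
    exists_min_finset (U ×ˢ U) (fun x d => ∀ l : ℤ, v x.1 - v x.2 ≠ l → d ≤ |v x.1 - v x.2 - l|)
      (fun s d d' _ hdd h l hl => hdd.trans (h l hl)) fun x _ => dist_int_pos _
  obtain ⟨d₂, hd₂, hd₂'⟩ : ∃ d > 0, ∀ x ∈ U ×ˢ U, ∀ m l : ℤ, v x.2 - v x.1 = m →
      m * α + β x.2 - β x.1 ≠ l → d ≤ |m * α + β x.2 - β x.1 - l| :=
    exists_min_finset (U ×ˢ U) (fun x d => ∀ m l : ℤ, v x.2 - v x.1 = m →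
      m * α + β x.2 - β x.1 ≠ l → d ≤ |m * α + β x.2 - β x.1 - l|)
      (fun s d d' _ hdd h m l hm hl => hdd.trans (h m l hm hl)) fun x _ => by
      by_cases hx : ∃ m : ℤ, v x.2 - v x.1 = m
      · obtain ⟨m, hm⟩ := hx
        obtain ⟨d, hd, h⟩ := dist_int_pos (m * α + β x.2 - β x.1)
        refine ⟨d, hd, fun m' l hm' hl => ?_⟩
        have : m' = m := by exact_mod_cast hm'.symm.trans hm
        subst this
        exact h l hl
      · exact ⟨1, one_pos, fun m l hm => absurd ⟨m, hm⟩ hx⟩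
  obtain ⟨V, hV⟩ : ∃ x : ℝ, x = min (1 / 16) (d₁ / 16) := ⟨_, rfl⟩
  have hV0 : 0 < V := hV ▸ lt_min (by norm_num) (by positivity)
  have hV1 : V ≤ 1 / 16 := hV ▸ min_le_left _ _
  have hV2 : V ≤ d₁ / 16 := hV ▸ min_le_right _ _
  -- threshold
  obtain ⟨q₀, hq₀⟩ := exists_nat_gt (max (max (2 * |R| * C' / d₁) (12 / d₂))
    (2 * |R| * C' / (V * d₂)))
  refine ⟨V, hV0, hV1, q₀, fun q hq J τ hs χ V₁ V₂ hV₁ hV₂ s hsU s' hsU' hρρ n n' j hj j' hj'
    a1 a2 a3 a4 hne => ?_⟩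
  have hq' : (q₀ : ℝ) ≤ q := by exact_mod_cast hq
  have hqpos : (0 : ℝ) < q := by exact_mod_cast hs.q0
  have hq1 : max (max (2 * |R| * C' / d₁) (12 / d₂)) (2 * |R| * C' / (V * d₂)) < q :=
    hq₀.trans_le hq'
  have b1 : 2 * |R| * C' / d₁ < q := lt_of_le_of_lt ((le_max_left _ _).trans (le_max_left _ _)) hq1
  have b2 : 12 / d₂ < q := lt_of_le_of_lt ((le_max_right _ _).trans (le_max_left _ _)) hq1
  have b3 : 2 * |R| * C' / (V * d₂) < q := lt_of_le_of_lt (le_max_right _ _) hq1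
  rw [div_lt_iff₀ hd₁] at b1
  rw [div_lt_iff₀ hd₂] at b2
  rw [div_lt_iff₀ (by positivity)] at b3
  have hρs := hρ s hsU
  have hρR : ρ s ≤ |R| := (hR s hsU).trans (le_abs_self R)
  -- reduce to a statement about levels
  have e1 : (n' + lev χ V₁ V₂ (τ j') - v s') / ρ s' - (n + lev χ V₁ V₂ (τ j) - v s) / ρ s
      = (((n' : ℝ) - v s' - (n - v s)) + (lev χ V₁ V₂ (τ j') - lev χ V₁ V₂ (τ j))) / ρ s := by
    rw [hρρ]; field_simp; ring
  rw [e1, abs_div, abs_of_pos hρs, lt_div_iff₀ hρs]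
  have hRC : C' / q * ρ s ≤ |R| * C' / q := by
    calc C' / q * ρ s ≤ C' / q * |R| := mul_le_mul_of_nonneg_left hρR (by positivity)
      _ = _ := by ring
  refine lt_of_le_of_lt hRC ?_
  have hlev : lev χ V₁ V₂ (τ j') - lev χ V₁ V₂ (τ j)
      = (τ j' - τ j) * (V₁ + V₂ * (τ j + τ j')) := by unfold lev; ring
  have t1 := hs.mem01 hj.le
  have t2 := hs.mem01 hj'.le
  by_cases ha : (n' : ℝ) - v s' - (n - v s) = 0
  · rw [ha, zero_add, hlev]
    have hm : v s' - v s = ((n' - n : ℤ) : ℝ) := by push_cast; linarith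
    set f := Int.fract (n * α + β s) with hf
    set f' := Int.fract (n' * α + β s') with hf'
    have hff : f' ≠ f := fun h => hne ⟨by linarith, h⟩
    have hf1 : f = n * α + β s - ⌊(n : ℝ) * α + β s⌋ := rfl
    have hf2 : f' = n' * α + β s' - ⌊(n' : ℝ) * α + β s'⌋ := rfl
    have key := hd₂' (s, s') (Finset.mem_product.2 ⟨hsU, hsU'⟩) (n' - n)
      (⌊(n' : ℝ) * α + β s'⌋ - ⌊(n : ℝ) * α + β s⌋) hm (by
        intro h
        apply hff
        push_cast at h
        rw [hf1, hf2]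
        linarith)
    have e2 : ((n' - n : ℤ) : ℝ) * α + β s' - β s
        - ((⌊(n' : ℝ) * α + β s'⌋ - ⌊(n : ℝ) * α + β s⌋ : ℤ) : ℝ) = f' - f := by
      rw [hf1, hf2]; push_cast; ring
    simp only at key
    rw [e2] at key
    have l1 := (hs.len j hj).2
    have l2 := (hs.len j' hj').2
    have h6 : 6 / (q : ℝ) < d₂ / 2 := by
      rw [div_lt_iff₀ hqpos]; linarith
    have hτ : d₂ / 2 ≤ |τ j' - τ j| := by
      have h1 : |f' - f| ≤ |τ j' - τ j| + 6 / q := by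
        rw [abs_le]
        have := le_abs_self (τ j' - τ j)
        have := neg_abs_le (τ j' - τ j)
        constructor <;> linarith
      linarith
    rw [abs_mul]
    have h2 : V ≤ |V₁ + V₂ * (τ j + τ j')| := by
      have h3 : 0 ≤ V₂ * (τ j + τ j') := mul_nonneg (by linarith [hV₂.1]) (by linarith [t1.1, t2.1])
      exact le_trans (by linarith [hV₁.1]) (le_abs_self _)
    have h4 : d₂ / 2 * V ≤ |τ j' - τ j| * |V₁ + V₂ * (τ j + τ j')| :=
      mul_le_mul hτ h2 hV0.le (abs_nonneg _)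
    refine lt_of_lt_of_le ?_ h4
    rw [div_lt_iff₀ hqpos]
    linarith
  · have h1 : d₁ ≤ |(n' : ℝ) - v s' - (n - v s)| := by
      have := hd₁' (s, s') (Finset.mem_product.2 ⟨hsU, hsU'⟩) (n - n') (by
        intro h
        apply ha
        push_cast at h
        linarith)
      have e : v s - v s' - ((n - n' : ℤ) : ℝ) = (n' : ℝ) - v s' - (n - v s) := by
        push_cast; ring
      simp only at this
      rwa [e] at this
    have h2 : |lev χ V₁ V₂ (τ j') - lev χ V₁ V₂ (τ j)| ≤ 6 * V := by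
      rw [hlev, abs_mul]
      have h3 : |τ j' - τ j| ≤ 1 := by
        rw [abs_le]; constructor <;> linarith [t1.1, t1.2, t2.1, t2.2]
      have h4 : |V₁ + V₂ * (τ j + τ j')| ≤ 6 * V := by
        have h5 : 0 ≤ V₂ * (τ j + τ j') := mul_nonneg (by linarith [hV₂.1]) (by linarith [t1.1, t2.1])
        have h6 : V₂ * (τ j + τ j') ≤ (2 * V) * 2 :=
          mul_le_mul hV₂.2 (by linarith [t1.2, t2.2]) (by linarith [t1.1, t2.1]) (by positivity)
        rw [abs_of_nonneg (by linarith [hV₁.1])]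
        linarith [hV₁.2]
      calc _ ≤ 1 * (6 * V) := mul_le_mul h3 h4 (abs_nonneg _) zero_le_one
        _ = _ := one_mul _
    have h3 := abs_sub_abs_le_abs_add ((n' : ℝ) - v s' - (n - v s))
      (lev χ V₁ V₂ (τ j') - lev χ V₁ V₂ (τ j))
    have h4 : |R| * C' / q < d₁ / 2 := by
      rw [div_lt_iff₀ hqpos]; linarith
    linarith

end Pool.Agent.Helper88.Rot
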