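import Pool.Agent.Helper88.Rot.LL

/-!
The selection lemma: in every slot one of two candidates has no conflict.
-/

namespace Pool.Agent.Helper88.Rot

open Finset

/-- possible partners of a candidate -/
noncomputable def ent (U : Finset ℕ) (ρ v : ℕ → ℝ) (W₀ : ℝ) (s : ℕ) (cn : ℤ) :
    Finset (Σ _ : ℕ, ℤ) :=
  (U.filter fun s' => ρ s' ≠ ρ s).sigma fun s' =>
    Finset.Icc ⌈ρ s' / ρ s * (cn - v s) + v s' - W₀⌉ ⌊ρ s' / ρ s * (cn - v s) + v s' + W₀⌋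

theorem mem_ent {U : Finset ℕ} {ρ v : ℕ → ℝ} {W₀ : ℝ} {s : ℕ} {cn : ℤ} {x : Σ _ : ℕ, ℤ} :
    x ∈ ent U ρ v W₀ s cn ↔ (x.1 ∈ U ∧ ρ x.1 ≠ ρ s) ∧
      |(x.2 : ℝ) - (ρ x.1 / ρ s * (cn - v s) + v x.1)| ≤ W₀ := by
  unfold ent
  rw [Finset.mem_sigma, Finset.mem_filter, Finset.mem_Icc, abs_le, Int.ceil_le, Int.le_floor]
  constructor
  · rintro ⟨h1, h2, h3⟩
    exact ⟨h1, by linarith, by linarith⟩
  · rintro ⟨h1, h2, h3⟩
    exact ⟨h1, by linarith, by linarith⟩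

theorem card_ent {U : Finset ℕ} {ρ v : ℕ → ℝ} {W₀ : ℝ} (hW : 0 ≤ W₀) {s : ℕ} {cn : ℤ} :
    ((ent U ρ v W₀ s cn).card : ℝ) ≤ U.card * (2 * W₀ + 1) := by
  unfold ent
  rw [Finset.card_sigma]
  push_cast
  calc ∑ s' ∈ U.filter (fun s' => ρ s' ≠ ρ s),
        ((Finset.Icc ⌈ρ s' / ρ s * (cn - v s) + v s' - W₀⌉
          ⌊ρ s' / ρ s * (cn - v s) + v s' + W₀⌋).card : ℝ)
      ≤ ∑ s' ∈ U.filter (fun s' => ρ s' ≠ ρ s), (2 * W₀ + 1) := by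
        refine Finset.sum_le_sum fun s' _ => ?_
        have := card_int_interval (Finset.Icc ⌈ρ s' / ρ s * (cn - v s) + v s' - W₀⌉
          ⌊ρ s' / ρ s * (cn - v s) + v s' + W₀⌋) (ρ s' / ρ s * (cn - v s) + v s' - W₀)
          (ρ s' / ρ s * (cn - v s) + v s' + W₀) (by linarith) (by
            intro i hi
            rw [Finset.mem_Icc, Int.ceil_le, Int.le_floor] at hi
            exact hi)
        linarith
    _ ≤ _ := by
        rw [Finset.sum_const, nsmul_eq_mul]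
        have : ((U.filter (fun s' => ρ s' ≠ ρ s)).card : ℝ) ≤ U.card := by
          exact_mod_cast Finset.card_filter_le _ _
        exact mul_le_mul_of_nonneg_right this (by linarith)

/-- the part of the level difference not containing `χ` -/
noncomputable def eE (κ vs vs' : ℝ) (cn n' : ℤ) (t t' V₁ V₂ : ℝ) : ℝ :=
  V₁ * (t' - κ * t) + V₂ * (t' ^ 2 - κ * t ^ 2) + (n' - vs' - κ * (cn - vs))

theorem conf_eq {ρs ρs' vs vs' : ℝ} (h : 0 < ρs) (h' : 0 < ρs') (cn n' : ℤ)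
    (t t' χ V₁ V₂ : ℝ) :
    (n' + lev χ V₁ V₂ t' - vs') / ρs' - (cn + lev χ V₁ V₂ t - vs) / ρs
      = ((1 - ρs' / ρs) * χ + eE (ρs' / ρs) vs vs' cn n' t t' V₁ V₂) / ρs' := by
  unfold lev eE
  field_simp
  ring

theorem lev_bounds {χ V V₁ V₂ t : ℝ} (hχ : 0 ≤ χ ∧ χ ≤ 1) (hV0 : 0 < V) (hV : V ≤ 1 / 16)
    (hV₁ : V ≤ V₁ ∧ V₁ ≤ 2 * V) (hV₂ : V ≤ V₂ ∧ V₂ ≤ 2 * V) (ht : 0 ≤ t ∧ t ≤ 1) :
    0 ≤ lev χ V₁ V₂ t ∧ lev χ V₁ V₂ t ≤ 5 / 4 := by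
  unfold lev
  have h1 : 0 ≤ V₁ * t := mul_nonneg (by linarith [hV₁.1]) ht.1
  have h2 : 0 ≤ V₂ * t ^ 2 := mul_nonneg (by linarith [hV₂.1]) (sq_nonneg t)
  have h3 : V₁ * t ≤ 1 / 8 * 1 := mul_le_mul (by linarith [hV₁.2]) ht.2 ht.1 (by norm_num)
  have h4 : V₂ * t ^ 2 ≤ 1 / 8 * 1 :=
    mul_le_mul (by linarith [hV₂.2]) (by nlinarith [ht.1, ht.2]) (sq_nonneg t) (by norm_num)
  constructor <;> linarith [hχ.1, hχ.2]

/-- a conflict gives a partner -/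
theorem conf_mem {U : Finset ℕ} {ρ v : ℕ → ℝ} (hρ : ∀ s ∈ U, 0 < ρ s) {s s' : ℕ} (hs : s ∈ U)
    (hs' : s' ∈ U) (hne : ρ s' ≠ ρ s) {R κM C' χ V V₁ V₂ t t' qq : ℝ} {cn n' : ℤ}
    (hR : ∀ s ∈ U, ρ s ≤ R) (hκ : ∀ s ∈ U, ∀ s' ∈ U, ρ s' / ρ s ≤ κM) (hC' : 0 < C')
    (hqq : 0 < qq) (hq : 4 * (R * C') ≤ qq)
    (hχ : 0 ≤ χ ∧ χ ≤ 1) (hV0 : 0 < V) (hV : V ≤ 1 / 16)
    (hV₁ : V ≤ V₁ ∧ V₁ ≤ 2 * V) (hV₂ : V ≤ V₂ ∧ V₂ ≤ 2 * V) (ht : 0 ≤ t ∧ t ≤ 1)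
    (ht' : 0 ≤ t' ∧ t' ≤ 1)
    (hconf : |(n' + lev χ V₁ V₂ t' - v s') / ρ s' - (cn + lev χ V₁ V₂ t - v s) / ρ s| ≤ C' / qq) :
    (⟨s', n'⟩ : Σ _ : ℕ, ℤ) ∈ ent U ρ v (2 * κM + 3) s cn ∧
      |(1 - ρ s' / ρ s) * χ + eE (ρ s' / ρ s) (v s) (v s') cn n' t t' V₁ V₂| ≤ R * C' / qq := by
  have h1 := hρ s hs
  have h2 := hρ s' hs'
  rw [conf_eq h1 h2, abs_div, abs_of_pos h2, div_le_iff₀ h2] at hconf
  have h3 : |(1 - ρ s' / ρ s) * χ + eE (ρ s' / ρ s) (v s) (v s') cn n' t t' V₁ V₂|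
      ≤ R * C' / qq := by
    refine hconf.trans ?_
    calc C' / qq * ρ s' ≤ C' / qq * R := mul_le_mul_of_nonneg_left (hR s' hs') (by positivity)
      _ = _ := by ring
  refine ⟨?_, h3⟩
  rw [mem_ent]
  refine ⟨⟨hs', hne⟩, ?_⟩
  have hκ0 : 0 < ρ s' / ρ s := div_pos h2 h1
  have hκ1 := hκ s hs s' hs'
  have l1 := lev_bounds hχ hV0 hV hV₁ hV₂ ht
  have l2 := lev_bounds hχ hV0 hV hV₁ hV₂ ht'
  have h4 : R * C' / qq ≤ 1 / 4 := by
    rw [div_le_iff₀ hqq]; linarith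
  have e : (n' : ℝ) - (ρ s' / ρ s * (cn - v s) + v s')
      = ((1 - ρ s' / ρ s) * χ + eE (ρ s' / ρ s) (v s) (v s') cn n' t t' V₁ V₂)
        - lev χ V₁ V₂ t' + ρ s' / ρ s * lev χ V₁ V₂ t := by
    unfold eE lev; ring
  have l3 : 0 ≤ ρ s' / ρ s * lev χ V₁ V₂ t := mul_nonneg hκ0.le l1.1
  have l4 : ρ s' / ρ s * lev χ V₁ V₂ t ≤ κM * (5 / 4) :=
    mul_le_mul hκ1 l1.2 l1.1 (by linarith)
  rw [e]
  rw [abs_le] at h3 ⊢
  constructor <;> linarith [h3.1, h3.2, l1.1, l2.1, l2.2]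

theorem card_lin_int (T : Finset ℤ) (x y R : ℝ) (hx : x ≠ 0) (hR : 0 ≤ R)
    (h : ∀ i ∈ T, |x * i + y| ≤ R) : (T.card : ℝ) ≤ 2 * R / |x| + 1 := by
  have hx' : 0 < |x| := abs_pos.2 hx
  have key : ∀ i ∈ T, -y / x - R / |x| ≤ i ∧ (i : ℝ) ≤ -y / x + R / |x| := by
    intro i hi
    have h1 := h i hi
    have e : x * i + y = x * (i - -y / x) := by field_simp; ring
    rw [e, abs_mul, ← le_div_iff₀' hx', abs_le] at h1
    constructor <;> linarith [h1.1, h1.2]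
  have h2 := card_int_interval T (-y / x - R / |x|) (-y / x + R / |x|)
    (by have : 0 ≤ R / |x| := by positivity
        linarith) key
  have e : -y / x + R / |x| - (-y / x - R / |x|) + 1 = 2 * R / |x| + 1 := by ring
  linarith

/-- number of near partners -/
theorem card_near_ent {U : Finset ℕ} {ρ v β : ℕ → ℝ} {α : ℝ} {J q : ℕ} {τ : ℕ → ℝ}
    (hs : SlotData J τ q) {s : ℕ} (hsU : s ∈ U) (hρ : ∀ s ∈ U, 0 < ρ s)
    (hv : ∀ s, 0 ≤ v s ∧ v s ≤ 1) (cn : ℕ → ℤ)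
    (hcn : ∀ j < J, 0 ≤ cn j ∧ cn j < q ∧ τ j < Int.fract (cn j * α + β s) ∧
      Int.fract (cn j * α + β s) < τ (j + 1))
    {Γ : ℕ} (hΓ : 0 < Γ) {d : ℝ} (hd : ∀ k : ℤ, k ≠ 0 → |k| < Γ → ∀ l : ℤ, d < |k * α - l|)
    (hq6 : 6 / (q : ℝ) ≤ d / 4) {κM b₀ W₀ : ℝ} (hκ : ∀ s' ∈ U, ρ s' / ρ s ≤ κM) (hκ1 : 1 ≤ κM)
    (hb₀ : 0 < b₀) (hb : ∀ s' ∈ U, ρ s' ≠ ρ s → b₀ ≤ |1 - ρ s' / ρ s|) (hW : 0 ≤ W₀)
    (SY : Finset (Σ _ : ℕ, Σ _ : ℕ, ℤ))
    (hSY : ∀ y ∈ SY, y.1 < J ∧ y.2 ∈ ent U ρ v W₀ s (cn y.1) ∧ ∃ j' < J,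
      τ j' ≤ Int.fract (y.2.2 * α + β y.2.1) ∧ Int.fract (y.2.2 * α + β y.2.1) < τ (j' + 1) ∧
      |τ j' - τ y.1| < d / 4) :
    (SY.card : ℝ) ≤ (2 * W₀ / b₀ + 1) * (U.card * (2 * (κM * q + W₀ + 2) / Γ + 1)) := by
  classical
  have hq0 : (0 : ℝ) < q := by exact_mod_cast hs.q0
  have hΓ' : (0 : ℝ) < Γ := by exact_mod_cast hΓ
  have hρs := hρ s hsU
  obtain ⟨B, hB⟩ : ∃ B : ℤ, B = ⌈κM * q + W₀ + 1⌉ := ⟨_, rfl⟩
  have hB1 : κM * q + W₀ + 1 ≤ B := hB ▸ Int.le_ceil _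
  have hB2 : (B : ℝ) < κM * q + W₀ + 1 + 1 := hB ▸ Int.ceil_lt_add_one _
  have hB0 : 0 ≤ B := by
    have : (0 : ℝ) ≤ B := by
      have : 0 ≤ κM * q := by positivity
      linarith
    exact_mod_cast this
  obtain ⟨Tm, hTm⟩ : ∃ Tm : ℕ → Finset ℤ, Tm = fun s' => (Finset.Icc (-B) B).filter fun m : ℤ =>
    ∃ l : ℤ, |m * α + (β s' - β s) - l| ≤ d / 2 := ⟨_, rfl⟩
  have hTmc : ∀ s', ((Tm s').card : ℝ) ≤ 2 * (κM * q + W₀ + 2) / Γ + 1 := by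
    intro s'
    have h1 := card_near Γ hΓ hd (β s' - β s) (d / 2) (by linarith) (Tm s') (-B) B (by omega)
      (fun m hm => by
        rw [hTm, Finset.mem_filter, Finset.mem_Icc] at hm
        exact hm.1) (fun m hm => by
        rw [hTm, Finset.mem_filter] at hm
        exact hm.2)
    refine h1.trans ?_
    push_cast
    have : (B : ℝ) - -B ≤ 2 * (κM * q + W₀ + 2) := by linarith
    gcongr
  have hmap : ∀ y ∈ SY, (⟨y.2.1, y.2.2 - cn y.1⟩ : Σ _ : ℕ, ℤ) ∈ U.sigma Tm := by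
    intro y hy
    obtain ⟨hj, hent, j', hj', a1, a2, a3⟩ := hSY y hy
    rw [mem_ent] at hent
    obtain ⟨⟨hU, hne⟩, hW'⟩ := hent
    obtain ⟨c0, c1, c2, c3⟩ := hcn y.1 hj
    rw [Finset.mem_sigma]
    refine ⟨hU, ?_⟩
    simp only
    rw [hTm, Finset.mem_filter, Finset.mem_Icc]
    have hκ0 : 0 < ρ y.2.1 / ρ s := div_pos (hρ _ hU) hρs
    have hκ' := hκ _ hU
    have c0' : (0 : ℝ) ≤ cn y.1 := by exact_mod_cast c0
    have c1' : (cn y.1 : ℝ) + 1 ≤ q := by exact_mod_cast c1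
    have hv1 := hv s
    have hv2 := hv y.2.1
    constructor
    · have hm : |(y.2.2 : ℝ) - cn y.1| ≤ κM * q + W₀ + 1 := by
        have e : (y.2.2 : ℝ) - cn y.1 = (y.2.2 - (ρ y.2.1 / ρ s * (cn y.1 - v s) + v y.2.1))
          + ((ρ y.2.1 / ρ s - 1) * (cn y.1 - v s) + (v y.2.1 - v s)) := by ring
        have h5 : |(ρ y.2.1 / ρ s - 1) * (cn y.1 - v s)| ≤ κM * q := by
          rw [abs_mul]
          refine mul_le_mul ?_ ?_ (abs_nonneg _) (by linarith)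
          · rw [abs_le]; constructor <;> linarith
          · rw [abs_le]; constructor <;> linarith
        have h6 : |v y.2.1 - v s| ≤ 1 := by
          rw [abs_le]; constructor <;> linarith
        rw [e]
        refine (abs_add_le _ _).trans ?_
        have h7 := abs_add_le ((ρ y.2.1 / ρ s - 1) * (cn y.1 - v s)) (v y.2.1 - v s)
        linarith
      rw [abs_le] at hm
      constructor
      · have : (-B : ℝ) ≤ (y.2.2 : ℝ) - cn y.1 := by linarith [hm.1]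
        exact_mod_cast this
      · have : (y.2.2 : ℝ) - cn y.1 ≤ (B : ℝ) := by linarith [hm.2]
        exact_mod_cast this
    · refine ⟨⌊(y.2.2 : ℝ) * α + β y.2.1⌋ - ⌊(cn y.1 : ℝ) * α + β s⌋, ?_⟩
      have e : (((y.2.2 - cn y.1 : ℤ)) : ℝ) * α + (β y.2.1 - β s)
          - ((⌊(y.2.2 : ℝ) * α + β y.2.1⌋ - ⌊(cn y.1 : ℝ) * α + β s⌋ : ℤ) : ℝ)
          = Int.fract (y.2.2 * α + β y.2.1) - Int.fract (cn y.1 * α + β s) := by
        rw [Int.fract, Int.fract]; push_cast; ring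
      rw [e]
      have l1 := (hs.len j' hj').2
      have l2 := (hs.len y.1 hj).2
      rw [abs_lt] at a3
      rw [abs_le]
      constructor <;> linarith [a3.1, a3.2]
  have hcard := Finset.card_eq_sum_card_fiberwise hmap
  rw [hcard]
  push_cast
  have hfib : ∀ b ∈ U.sigma Tm, ((SY.filter fun y =>
      (⟨y.2.1, y.2.2 - cn y.1⟩ : Σ _ : ℕ, ℤ) = b).card : ℝ) ≤ 2 * W₀ / b₀ + 1 := by
    intro b hb'
    by_cases hne : ρ b.1 = ρ s
    · have : (SY.filter fun y => (⟨y.2.1, y.2.2 - cn y.1⟩ : Σ _ : ℕ, ℤ) = b) = ∅ := by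
        rw [Finset.filter_eq_empty_iff]
        intro y hy h
        obtain ⟨hj, hent, -⟩ := hSY y hy
        rw [mem_ent] at hent
        apply hent.1.2
        rw [← hne, ← h]
      rw [this]
      simp only [Finset.card_empty, Nat.cast_zero]
      positivity
    · have hbU : b.1 ∈ U := (Finset.mem_sigma.1 hb').1
      have hx : b₀ ≤ |1 - ρ b.1 / ρ s| := hb b.1 hbU hne
      have hx0 : 1 - ρ b.1 / ρ s ≠ 0 := abs_pos.1 (hb₀.trans_le hx)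
      have hinj : Set.InjOn (fun y : (Σ _ : ℕ, Σ _ : ℕ, ℤ) => cn y.1)
          (SY.filter fun y => (⟨y.2.1, y.2.2 - cn y.1⟩ : Σ _ : ℕ, ℤ) = b) := by
        intro y hy y' hy' h
        rw [Finset.mem_coe, Finset.mem_filter] at hy hy'
        obtain ⟨hy, hyb⟩ := hy
        obtain ⟨hy', hyb'⟩ := hy'
        obtain ⟨hj, -⟩ := hSY y hy
        obtain ⟨hj', -⟩ := hSY y' hy'
        have h' : cn y.1 = cn y'.1 := h
        obtain ⟨-, -, c2, c3⟩ := hcn y.1 hj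
        obtain ⟨-, -, c2', c3'⟩ := hcn y'.1 hj'
        have h1 := slt_eq hs hj c2.le c3
        have h2 := slt_eq hs hj' c2'.le c3'
        have h3 : y.1 = y'.1 := by rw [← h1, ← h2, h']
        have h4 : y.2.1 = y'.2.1 := by
          have := congrArg Sigma.fst (hyb.trans hyb'.symm)
          exact this
        have h5 : y.2.2 = y'.2.2 := by
          have := hyb.trans hyb'.symm
          rw [Sigma.mk.injEq] at this
          have := eq_of_heq this.2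
          rw [h'] at this
          linarith
        rcases y with ⟨a, b, c⟩
        rcases y' with ⟨a', b', c'⟩
        simp only at h3 h4 h5
        subst h3; subst h4; subst h5
        rfl
      have h1 := card_lin_int ((SY.filter fun y =>
        (⟨y.2.1, y.2.2 - cn y.1⟩ : Σ _ : ℕ, ℤ) = b).image fun y => cn y.1)
        (1 - ρ b.1 / ρ s) (b.2 + ρ b.1 / ρ s * v s - v b.1) W₀ hx0 hW (by
          intro i hi
          rw [Finset.mem_image] at hi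
          obtain ⟨y, hy, rfl⟩ := hi
          rw [Finset.mem_filter] at hy
          obtain ⟨hy, hyb⟩ := hy
          obtain ⟨-, hent, -⟩ := hSY y hy
          rw [mem_ent] at hent
          have h2 := hent.2
          rw [← hyb]
          push_cast
          have e : (1 - ρ y.2.1 / ρ s) * (cn y.1 : ℝ)
            + ((y.2.2 : ℝ) - cn y.1 + ρ y.2.1 / ρ s * v s - v y.2.1)
            = y.2.2 - (ρ y.2.1 / ρ s * (cn y.1 - v s) + v y.2.1) := by ring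
          rw [e]
          exact h2)
      rw [Finset.card_image_of_injOn hinj] at h1
      refine h1.trans ?_
      gcongr
  calc ∑ b ∈ U.sigma Tm, ((SY.filter fun y =>
      (⟨y.2.1, y.2.2 - cn y.1⟩ : Σ _ : ℕ, ℤ) = b).card : ℝ)
      ≤ ∑ b ∈ U.sigma Tm, (2 * W₀ / b₀ + 1) := Finset.sum_le_sum hfib
    _ = (U.sigma Tm).card * (2 * W₀ / b₀ + 1) := by rw [Finset.sum_const, nsmul_eq_mul]
    _ ≤ (U.card * (2 * (κM * q + W₀ + 2) / Γ + 1)) * (2 * W₀ / b₀ + 1) := by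
        refine mul_le_mul_of_nonneg_right ?_ (by positivity)
        rw [Finset.card_sigma]
        push_cast
        calc ∑ s' ∈ U, ((Tm s').card : ℝ) ≤ ∑ s' ∈ U, (2 * (κM * q + W₀ + 2) / Γ + 1) :=
              Finset.sum_le_sum fun s' _ => hTmc s'
          _ = _ := by rw [Finset.sum_const, nsmul_eq_mul]
    _ = _ := mul_comm _ _

end Pool.Agent.Helper88.Rot
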