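import Pool.Agent.Helper88.Rot.LL2

/-!
The selection lemma, main statement.
-/

namespace Pool.Agent.Helper88.Rot

open Finset

/-- no conflict -/
def NoConf (U : Finset ℕ) (ρ v β : ℕ → ℝ) (α C' χ V₁ V₂ : ℝ) (q J : ℕ) (τ : ℕ → ℝ)
    (j s : ℕ) (n : ℤ) : Prop :=
  ∀ s' ∈ U, ∀ n' : ℤ, ∀ j' < J, τ j' ≤ Int.fract (n' * α + β s') →
    Int.fract (n' * α + β s') < τ (j' + 1) →
    ¬ (ρ s' = ρ s ∧ (n' : ℝ) - v s' = n - v s ∧
      Int.fract (n' * α + β s') = Int.fract (n * α + β s)) →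
    C' / q < |(n' + lev χ V₁ V₂ (τ j') - v s') / ρ s' - (n + lev χ V₁ V₂ (τ j) - v s) / ρ s|

theorem selection (U : Finset ℕ) (hU : U.Nonempty) (ρ v β : ℕ → ℝ) (hρ : ∀ s ∈ U, 0 < ρ s)
    (hv : ∀ s, 0 ≤ v s ∧ v s ≤ 1) {α : ℝ} (hα : Irrational α) {C' : ℝ} (hC' : 0 < C') :
    ∃ V > 0, V ≤ 1 / 16 ∧ ∃ q₀ : ℕ, ∀ q, q₀ ≤ q → ∀ p, Good α q p → ∀ J τ, SlotData J τ q →
    ∃ χ V₁ V₂ : ℝ, (0 ≤ χ ∧ χ ≤ 1) ∧ (V ≤ V₁ ∧ V₁ ≤ 2 * V) ∧ (V ≤ V₂ ∧ V₂ ≤ 2 * V) ∧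
    ∃ (sj : ℕ → ℕ) (nj : ℕ → ℤ), ∀ j < J, sj j ∈ U ∧ 0 ≤ nj j ∧ nj j < q ∧
      τ j < Int.fract (nj j * α + β (sj j)) ∧ Int.fract (nj j * α + β (sj j)) < τ (j + 1) ∧
      NoConf U ρ v β α C' χ V₁ V₂ q J τ j (sj j) (nj j) := by
  classical
  obtain ⟨sS, hsS, hmax⟩ := Finset.exists_max_image U ρ hU
  obtain ⟨sO, hsO, hmin⟩ := Finset.exists_min_image U ρ hU
  have hρS := hρ sS hsS
  have hρO := hρ sO hsO
  obtain ⟨R, hR⟩ : ∃ x : ℝ, x = ρ sS := ⟨_, rfl⟩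
  have hR0 : 0 < R := hR ▸ hρS
  have hR1 : ∀ s ∈ U, ρ s ≤ R := fun s hs => hR ▸ hmax s hs
  obtain ⟨κM, hκM⟩ : ∃ x : ℝ, x = ρ sS / ρ sO := ⟨_, rfl⟩
  have hκM1 : 1 ≤ κM := by
    rw [hκM, le_div_iff₀ hρO, one_mul]; exact hmin sS hsS
  have hκ : ∀ s ∈ U, ∀ s' ∈ U, ρ s' / ρ s ≤ κM := by
    intro s hs s' hs'
    rw [hκM]
    exact div_le_div₀ hρS.le (hmax s' hs') hρO (hmin s hs)
  obtain ⟨b₀, hb₀, hb₀'⟩ : ∃ b > 0, ∀ x ∈ U ×ˢ U, ρ x.2 ≠ ρ x.1 → b ≤ |1 - ρ x.2 / ρ x.1| :=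
    exists_min_finset (U ×ˢ U) (fun x b => ρ x.2 ≠ ρ x.1 → b ≤ |1 - ρ x.2 / ρ x.1|)
      (fun s d d' _ hdd h hne => hdd.trans (h hne)) (fun x hx => by
        by_cases hne : ρ x.2 ≠ ρ x.1
        · refine ⟨|1 - ρ x.2 / ρ x.1|, ?_, fun _ => le_rfl⟩
          have h1 := hρ x.1 (Finset.mem_product.1 hx).1
          rw [gt_iff_lt, abs_pos, sub_ne_zero]
          intro h
          apply hne
          rw [eq_comm, div_eq_one_iff_eq h1.ne'] at h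
          exact h
        · exact ⟨1, one_pos, fun h => absurd h hne⟩)
  have hb : ∀ s ∈ U, ∀ s' ∈ U, ρ s' ≠ ρ s → b₀ ≤ |1 - ρ s' / ρ s| :=
    fun s hs s' hs' hne => hb₀' (s, s') (Finset.mem_product.2 ⟨hs, hs'⟩) hne
  obtain ⟨W₀, hW₀⟩ : ∃ x : ℝ, x = 2 * κM + 3 := ⟨_, rfl⟩
  have hW0 : 0 < W₀ := by rw [hW₀]; linarith
  have hU1 : (1 : ℝ) ≤ U.card := by exact_mod_cast hU.card_pos
  obtain ⟨M, hM⟩ : ∃ x : ℝ, x = U.card * (2 * W₀ + 1) := ⟨_, rfl⟩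
  have hM0 : 0 < M := by rw [hM]; positivity
  obtain ⟨V, hV0, hV, q₁, hq₁⟩ := sameSlope U ρ v β hρ α hC' hR1
  obtain ⟨F, hF⟩ : ∃ x : ℝ, x = 2 * (R * C') / b₀ + 1 := ⟨_, rfl⟩
  have hF0 : 0 < F := by rw [hF]; positivity
  obtain ⟨Cb, hCb⟩ : ∃ x : ℝ, x = 2 * W₀ / b₀ + 1 := ⟨_, rfl⟩
  have hCb0 : 0 < Cb := by rw [hCb]; positivity
  obtain ⟨Γ, hΓ⟩ := exists_nat_gt (8 * F * U.card * Cb * κM + 1)
  have hΓ0' : (1 : ℝ) < Γ := by
    have : 0 < 8 * F * U.card * Cb * κM := by positivity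
    linarith
  have hΓ0 : 0 < Γ := by
    have : (0 : ℝ) < Γ := by linarith
    exact_mod_cast this
  have hΓ1 : 8 * F * U.card * Cb * κM ≤ Γ := by linarith
  obtain ⟨d, hd, hd'⟩ := gap_exists hα Γ
  obtain ⟨μ, hμ⟩ : ∃ x : ℝ, x = b₀ * (d / 4) ^ 2 / 3 := ⟨_, rfl⟩
  have hμ0 : 0 < μ := by rw [hμ]; positivity
  obtain ⟨K₂, hK₂⟩ : ∃ x : ℝ, x = M ^ 2 * (2 * κM * (R * C') / (μ * V) + 1) := ⟨_, rfl⟩
  have hK₂0 : 0 < K₂ := by rw [hK₂]; positivity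
  obtain ⟨q₂, hq₂⟩ := exists_nat_gt (24 / d + 4 * (R * C')
    + 4 * (F * (Cb * (U.card * (2 * (W₀ + 2) + 1)))) + 4 * (F * K₂))
  have p1 : 0 < 24 / d := by positivity
  have p2 : 0 < 4 * (R * C') := by positivity
  have p3 : 0 < 4 * (F * (Cb * (U.card * (2 * (W₀ + 2) + 1)))) := by positivity
  have p4 : 0 < 4 * (F * K₂) := by positivity
  refine ⟨V, hV0, hV, max q₁ q₂, fun q hq p hgood J τ hs => ?_⟩
  have hq1 : q₁ ≤ q := le_trans (le_max_left _ _) hq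
  have hq2 : (q₂ : ℝ) ≤ q := by exact_mod_cast le_trans (le_max_right _ _) hq
  have hqpos : (0 : ℝ) < q := by exact_mod_cast hs.q0
  have c1 : 24 / d < q := by linarith
  have c2 : 4 * (R * C') < q := by linarith
  have c3 : 4 * (F * (Cb * (U.card * (2 * (W₀ + 2) + 1)))) < q := by linarith
  have c4 : 4 * (F * K₂) < q := by linarith
  rw [div_lt_iff₀ hd] at c1
  have hq6 : 6 / (q : ℝ) ≤ d / 4 := by
    rw [div_le_iff₀ hqpos]; linarith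
  have hJq : (J : ℝ) ≤ q := by exact_mod_cast hs.Jq
  -- candidates
  have hcand : ∀ s, ∀ j, ∃ n : ℤ, j < J → 0 ≤ n ∧ n < q ∧ τ j < Int.fract (n * α + β s) ∧
      Int.fract (n * α + β s) < τ (j + 1) := by
    intro s j
    by_cases hj : j < J
    · obtain ⟨n, h1, h2, h3, h4⟩ := hgood.candidate (β s) (τ j) (τ (j + 1)) (hs.mem01 hj.le).1
        (hs.mem01 (Nat.succ_le_of_lt hj)).2 (hs.len j hj).1
      exact ⟨n, fun _ => ⟨h1, h2, h3, h4⟩⟩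
    · exact ⟨0, fun h => absurd h hj⟩
  choose cn hcn using hcand
  -- the two families of dangerous configurations
  obtain ⟨tt, htt⟩ : ∃ tt : (Σ _ : ℕ, ℤ) → ℝ, tt = fun x =>
    τ (slt J τ (Int.fract (x.2 * α + β x.1))) := ⟨_, rfl⟩
  obtain ⟨SY, hSY⟩ : ∃ SY : Finset (Σ _ : ℕ, Σ _ : ℕ, ℤ), SY = (range J).sigma fun j =>
    (ent U ρ v W₀ sS (cn sS j)).filter fun x => ∃ j' < J,
      τ j' ≤ Int.fract (x.2 * α + β x.1) ∧ Int.fract (x.2 * α + β x.1) < τ (j' + 1) ∧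
      |τ j' - τ j| < d / 4 := ⟨_, rfl⟩
  obtain ⟨SX, hSX⟩ : ∃ SX : Finset (Σ _ : ℕ, (Σ _ : ℕ, ℤ) × (Σ _ : ℕ, ℤ)),
    SX = (range J).sigma fun j => ((ent U ρ v W₀ sS (cn sS j)).filter fun x =>
      d / 4 ≤ |tt x - τ j|) ×ˢ (ent U ρ v W₀ sO (cn sO j)) := ⟨_, rfl⟩
  have hSYc : (SY.card : ℝ) ≤ Cb * (U.card * (2 * (κM * q + W₀ + 2) / Γ + 1)) := by
    rw [hCb]
    refine card_near_ent hs hsS hρ hv (cn sS) (fun j hj => hcn sS j hj) hΓ0 hd' hq6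
      (fun s' hs' => hκ sS hsS s' hs') hκM1 hb₀ (fun s' hs' => hb sS hsS s' hs') hW0.le SY
      (fun y hy => ?_)
    rw [hSY, Finset.mem_sigma, Finset.mem_range, Finset.mem_filter] at hy
    exact ⟨hy.1, hy.2.1, hy.2.2⟩
  have hSXc : (SX.card : ℝ) ≤ q * M ^ 2 := by
    rw [hSX, Finset.card_sigma]
    push_cast
    calc ∑ j ∈ range J, ((((ent U ρ v W₀ sS (cn sS j)).filter fun x =>
          d / 4 ≤ |tt x - τ j|) ×ˢ (ent U ρ v W₀ sO (cn sO j))).card : ℝ)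
        ≤ ∑ j ∈ range J, M ^ 2 := by
          refine Finset.sum_le_sum fun j _ => ?_
          rw [Finset.card_product]
          push_cast
          have e1 : (((ent U ρ v W₀ sS (cn sS j)).filter fun x =>
            d / 4 ≤ |tt x - τ j|).card : ℝ) ≤ M := by
            refine le_trans ?_ (hM ▸ card_ent hW0.le (s := sS) (cn := cn sS j) (U := U) (ρ := ρ)
              (v := v))
            exact_mod_cast Finset.card_filter_le _ _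
          have e2 : ((ent U ρ v W₀ sO (cn sO j)).card : ℝ) ≤ M := hM ▸ card_ent hW0.le
          calc _ ≤ M * M := mul_le_mul e1 e2 (Nat.cast_nonneg _) hM0.le
            _ = M ^ 2 := by ring
      _ = J * M ^ 2 := by rw [Finset.sum_const, nsmul_eq_mul, Finset.card_range]
      _ ≤ q * M ^ 2 := mul_le_mul_of_nonneg_right hJq (by positivity)
  obtain ⟨χ, V₁, V₂, hχ, hV₁, hV₂, hY, hX⟩ := pigeon SX SY
    (fun x => (ρ x.2.2.1 / ρ sO - 1) * (tt x.2.1 - ρ x.2.1.1 / ρ sS * τ x.1)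
      + (1 - ρ x.2.1.1 / ρ sS) * (tt x.2.2 - ρ x.2.2.1 / ρ sO * τ x.1))
    (fun x => (ρ x.2.2.1 / ρ sO - 1) * (tt x.2.1 ^ 2 - ρ x.2.1.1 / ρ sS * τ x.1 ^ 2)
      + (1 - ρ x.2.1.1 / ρ sS) * (tt x.2.2 ^ 2 - ρ x.2.2.1 / ρ sO * τ x.1 ^ 2))
    (fun x => (ρ x.2.2.1 / ρ sO - 1) * (x.2.1.2 - v x.2.1.1
        - ρ x.2.1.1 / ρ sS * (cn sS x.1 - v sS))
      + (1 - ρ x.2.1.1 / ρ sS) * (x.2.2.2 - v x.2.2.1
        - ρ x.2.2.1 / ρ sO * (cn sO x.1 - v sO)))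
    (fun x => 1 - ρ x.2.1.1 / ρ sS)
    (fun x V₁ V₂ => eE (ρ x.2.1.1 / ρ sS) (v sS) (v x.2.1.1) (cn sS x.1) x.2.1.2 (τ x.1)
      (tt x.2.1) V₁ V₂)
    (fun y => 1 - ρ y.2.1 / ρ sS)
    (fun y V₁ V₂ => eE (ρ y.2.1 / ρ sS) (v sS) (v y.2.1) (cn sS y.1) y.2.2 (τ y.1)
      (tt y.2) V₁ V₂)
    μ V b₀ (κM * (R * C' / q)) (R * C' / q) K₂ q hs.q0 hV0 hμ0 hb₀ (by positivity)
    (by positivity)
    (by
      intro x hx
      rw [hSX, Finset.mem_sigma, Finset.mem_range, Finset.mem_product, Finset.mem_filter] at hx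
      obtain ⟨hj, ⟨hx1, hfar⟩, hx2⟩ := hx
      rw [mem_ent] at hx1 hx2
      obtain ⟨⟨hU1, hne1⟩, -⟩ := hx1
      obtain ⟨⟨hU2, hne2⟩, -⟩ := hx2
      have ha : b₀ ≤ ρ x.2.2.1 / ρ sO - 1 := by
        have h1 := hb sO hsO _ hU2 hne2
        have h2 : 1 ≤ ρ x.2.2.1 / ρ sO := by
          rw [le_div_iff₀ hρO, one_mul]; exact hmin _ hU2
        rw [abs_sub_comm, abs_of_nonneg (by linarith)] at h1
        exact h1
      have hb : b₀ ≤ 1 - ρ x.2.1.1 / ρ sS := by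
        have h1 := hb sS hsS _ hU1 hne1
        have h2 : ρ x.2.1.1 / ρ sS ≤ 1 := by
          rw [div_le_iff₀ hρS, one_mul]; exact hmax _ hU1
        rw [abs_of_nonneg (by linarith)] at h1
        exact h1
      have hs01 := hs.mem01 hj.le
      obtain ⟨a, ha'⟩ : ∃ a : ℝ, a = ρ x.2.2.1 / ρ sO - 1 := ⟨_, rfl⟩
      obtain ⟨b, hb'⟩ : ∃ b : ℝ, b = 1 - ρ x.2.1.1 / ρ sS := ⟨_, rfl⟩
      have k1 : ρ x.2.1.1 / ρ sS = 1 - b := by linarith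
      have k2 : ρ x.2.2.1 / ρ sO = 1 + a := by linarith
      rw [← ha'] at ha
      rw [← hb'] at hb
      simp only [k1, k2]
      obtain ⟨σ, hσ⟩ : ∃ σ : ℝ, σ = τ x.1 := ⟨_, rfl⟩
      obtain ⟨t₁, ht₁⟩ : ∃ t : ℝ, t = tt x.2.1 := ⟨_, rfl⟩
      obtain ⟨t₂, ht₂⟩ : ∃ t : ℝ, t = tt x.2.2 := ⟨_, rfl⟩
      rw [← hσ, ← ht₁] at hfar
      rw [← hσ] at hs01
      rw [← hσ, ← ht₁, ← ht₂]
      obtain ⟨A₁, hA₁⟩ : ∃ A : ℝ, A = (1 + a - 1) * (t₁ - (1 - b) * σ)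
        + (1 - (1 - b)) * (t₂ - (1 + a) * σ) := ⟨_, rfl⟩
      obtain ⟨A₂, hA₂⟩ : ∃ A : ℝ, A = (1 + a - 1) * (t₁ ^ 2 - (1 - b) * σ ^ 2)
        + (1 - (1 - b)) * (t₂ ^ 2 - (1 + a) * σ ^ 2) := ⟨_, rfl⟩
      rw [← hA₁, ← hA₂]
      have key : A₂ - 2 * σ * A₁ = a * (t₁ - σ) ^ 2 + b * (t₂ - σ) ^ 2 := by
        rw [hA₁, hA₂]; ring
      have h1 : b₀ * (d / 4) ^ 2 ≤ a * (t₁ - σ) ^ 2 + b * (t₂ - σ) ^ 2 := by
        have h2 : (d / 4) ^ 2 ≤ (t₁ - σ) ^ 2 := by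
          rw [← sq_abs (t₁ - σ)]
          exact pow_le_pow_left₀ (by positivity) hfar 2
        have h3 : b₀ * (d / 4) ^ 2 ≤ a * (t₁ - σ) ^ 2 :=
          mul_le_mul ha h2 (by positivity) (by linarith)
        have h4 : 0 ≤ b * (t₂ - σ) ^ 2 := mul_nonneg (by linarith) (sq_nonneg _)
        linarith
      rw [← key] at h1
      have h5 : A₂ - 2 * σ * A₁ ≤ 3 * max |A₁| |A₂| := by
        have h6 : A₂ ≤ max |A₁| |A₂| := (le_abs_self _).trans (le_max_right _ _)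
        have h7 : -(2 * σ * A₁) ≤ 2 * max |A₁| |A₂| := by
          have h8 : |2 * σ * A₁| ≤ 2 * |A₁| := by
            rw [abs_mul]
            refine mul_le_mul_of_nonneg_right ?_ (abs_nonneg _)
            rw [abs_le]; constructor <;> linarith
          have h9 : |A₁| ≤ max |A₁| |A₂| := le_max_left _ _
          have := neg_abs_le (2 * σ * A₁)
          linarith
        linarith
      rw [hμ]
      linarith)
    (by
      intro x hx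
      rw [hSX, Finset.mem_sigma, Finset.mem_range, Finset.mem_product, Finset.mem_filter] at hx
      obtain ⟨hj, ⟨hx1, hfar⟩, hx2⟩ := hx
      rw [mem_ent] at hx1
      exact hb sS hsS _ hx1.1.1 hx1.1.2)
    (by
      intro y hy
      rw [hSY, Finset.mem_sigma, Finset.mem_range, Finset.mem_filter] at hy
      obtain ⟨hj, hy1, -⟩ := hy
      rw [mem_ent] at hy1
      exact hb sS hsS _ hy1.1.1 hy1.1.2)
    (by
      calc (SX.card : ℝ) * (2 * (κM * (R * C' / q)) / (μ * V) + 1 / q)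
          ≤ (q * M ^ 2) * (2 * (κM * (R * C' / q)) / (μ * V) + 1 / q) :=
            mul_le_mul_of_nonneg_right hSXc (by positivity)
        _ = K₂ := by rw [hK₂]; field_simp)
    (by
      have e : ((SY.card : ℝ) + K₂) * (2 * (R * C' / q) / b₀ + 1 / q)
          = (SY.card + K₂) * F / q := by rw [hF]; field_simp
      rw [e, div_lt_one hqpos]
      have h1 : (SY.card : ℝ) * F ≤ q / 4 + F * (Cb * (U.card * (2 * (W₀ + 2) + 1))) := by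
        calc (SY.card : ℝ) * F ≤ (Cb * (U.card * (2 * (κM * q + W₀ + 2) / Γ + 1))) * F :=
              mul_le_mul_of_nonneg_right hSYc hF0.le
          _ = (8 * F * U.card * Cb * κM) / Γ * (q / 4)
              + F * (Cb * (U.card * (2 * (W₀ + 2) / Γ + 1))) := by
              field_simp; ring
          _ ≤ 1 * (q / 4) + F * (Cb * (U.card * (2 * (W₀ + 2) + 1))) := by
              have l1 : (8 * F * U.card * Cb * κM) / Γ ≤ 1 := by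
                rw [div_le_one (by linarith)]; exact hΓ1
              have l2 : 2 * (W₀ + 2) / (Γ : ℝ) ≤ 2 * (W₀ + 2) :=
                div_le_self (by positivity) hΓ0'.le
              gcongr
          _ = _ := by ring
      nlinarith)
  -- in every slot one of the two candidates is free
  have hfree : ∀ j < J, NoConf U ρ v β α C' χ V₁ V₂ q J τ j sS (cn sS j) ∨
      NoConf U ρ v β α C' χ V₁ V₂ q J τ j sO (cn sO j) := by
    intro j hj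
    by_contra hcon
    push Not at hcon
    obtain ⟨h1, h2⟩ := hcon
    unfold NoConf at h1 h2
    push Not at h1 h2
    obtain ⟨s₁, hs₁, n₁, j₁, hj₁, a1, a2, a3, a4⟩ := h1
    obtain ⟨s₂, hs₂, n₂, j₂, hj₂, b1, b2, b3, b4⟩ := h2
    obtain ⟨-, -, u1, u2⟩ := hcn sS j hj
    obtain ⟨-, -, w1, w2⟩ := hcn sO j hj
    have hne1 : ρ s₁ ≠ ρ sS := by
      intro hρρ
      have := hq₁ q hq1 J τ hs χ V₁ V₂ hV₁ hV₂ sS hsS s₁ hs₁ hρρ (cn sS j) n₁ j hj j₁ hj₁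
        u1.le u2 a1 a2 (fun h => a3 hρρ h.1 h.2)
      linarith
    have hne2 : ρ s₂ ≠ ρ sO := by
      intro hρρ
      have := hq₁ q hq1 J τ hs χ V₁ V₂ hV₁ hV₂ sO hsO s₂ hs₂ hρρ (cn sO j) n₂ j hj j₂ hj₂
        w1.le w2 b1 b2 (fun h => b3 hρρ h.1 h.2)
      linarith
    have t01 := hs.mem01 hj.le
    have t01' := hs.mem01 hj₁.le
    have t01'' := hs.mem01 hj₂.le
    obtain ⟨m1, m2⟩ := conf_mem hρ hsS hs₁ hne1 hR1 hκ hC' hqpos c2.le hχ hV0 hV hV₁ hV₂ t01 t01'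
      a4
    obtain ⟨k1, k2⟩ := conf_mem hρ hsO hs₂ hne2 hR1 hκ hC' hqpos c2.le hχ hV0 hV hV₁ hV₂ t01 t01''
      b4
    rw [← hW₀] at m1 k1
    have htt1 : tt ⟨s₁, n₁⟩ = τ j₁ := by
      rw [htt]; simp only; rw [slt_eq hs hj₁ a1 a2]
    have htt2 : tt ⟨s₂, n₂⟩ = τ j₂ := by
      rw [htt]; simp only; rw [slt_eq hs hj₂ b1 b2]
    by_cases hnear : |τ j₁ - τ j| < d / 4
    · have := hY ⟨j, s₁, n₁⟩ (by
        rw [hSY, Finset.mem_sigma, Finset.mem_range, Finset.mem_filter]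
        exact ⟨hj, m1, j₁, hj₁, a1, a2, hnear⟩)
      simp only at this
      rw [htt1] at this
      linarith
    · have hx := hX ⟨j, ⟨s₁, n₁⟩, ⟨s₂, n₂⟩⟩ (by
        rw [hSX, Finset.mem_sigma, Finset.mem_range, Finset.mem_product, Finset.mem_filter]
        refine ⟨hj, ⟨m1, ?_⟩, k1⟩
        rw [htt1]; exact not_lt.1 hnear)
      simp only at hx
      rw [htt1, htt2] at hx
      rcases hx with hx | hx
      · obtain ⟨E₁, hE₁⟩ : ∃ E : ℝ, E = (1 - ρ s₁ / ρ sS) * χ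
          + eE (ρ s₁ / ρ sS) (v sS) (v s₁) (cn sS j) n₁ (τ j) (τ j₁) V₁ V₂ := ⟨_, rfl⟩
        obtain ⟨E₂, hE₂⟩ : ∃ E : ℝ, E = (1 - ρ s₂ / ρ sO) * χ
          + eE (ρ s₂ / ρ sO) (v sO) (v s₂) (cn sO j) n₂ (τ j) (τ j₂) V₁ V₂ := ⟨_, rfl⟩
        rw [← hE₁] at m2
        rw [← hE₂] at k2
        have key : ((ρ s₂ / ρ sO - 1) * (τ j₁ - ρ s₁ / ρ sS * τ j)
          + (1 - ρ s₁ / ρ sS) * (τ j₂ - ρ s₂ / ρ sO * τ j)) * V₁
          + ((ρ s₂ / ρ sO - 1) * (τ j₁ ^ 2 - ρ s₁ / ρ sS * τ j ^ 2)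
          + (1 - ρ s₁ / ρ sS) * (τ j₂ ^ 2 - ρ s₂ / ρ sO * τ j ^ 2)) * V₂
          + ((ρ s₂ / ρ sO - 1) * (n₁ - v s₁ - ρ s₁ / ρ sS * (cn sS j - v sS))
          + (1 - ρ s₁ / ρ sS) * (n₂ - v s₂ - ρ s₂ / ρ sO * (cn sO j - v sO)))
          = (ρ s₂ / ρ sO - 1) * E₁ + (1 - ρ s₁ / ρ sS) * E₂ := by
          rw [hE₁, hE₂]; unfold eE; ring
        rw [key] at hx
        have ha0 : 0 ≤ ρ s₂ / ρ sO - 1 := by
          have h2 : 1 ≤ ρ s₂ / ρ sO := by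
            rw [le_div_iff₀ hρO, one_mul]; exact hmin _ hs₂
          linarith
        have hb0 : 0 ≤ 1 - ρ s₁ / ρ sS := by
          have h2 : ρ s₁ / ρ sS ≤ 1 := by
            rw [div_le_iff₀ hρS, one_mul]; exact hmax _ hs₁
          linarith
        have h3 := abs_add_le ((ρ s₂ / ρ sO - 1) * E₁) ((1 - ρ s₁ / ρ sS) * E₂)
        rw [abs_mul, abs_mul, abs_of_nonneg ha0, abs_of_nonneg hb0] at h3
        have h4 : (ρ s₂ / ρ sO - 1) * |E₁| ≤ (ρ s₂ / ρ sO - 1) * (R * C' / q) :=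
          mul_le_mul_of_nonneg_left m2 ha0
        have h5 : (1 - ρ s₁ / ρ sS) * |E₂| ≤ (1 - ρ s₁ / ρ sS) * (R * C' / q) :=
          mul_le_mul_of_nonneg_left k2 hb0
        have h6 : (ρ s₂ / ρ sO - 1 + (1 - ρ s₁ / ρ sS)) * (R * C' / q) ≤ κM * (R * C' / q) := by
          refine mul_le_mul_of_nonneg_right ?_ (by positivity)
          have h7 := hκ sO hsO s₂ hs₂
          have h8 : 0 < ρ s₁ / ρ sS := div_pos (hρ _ hs₁) hρS
          linarith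
        have h7 : (ρ s₂ / ρ sO - 1 + (1 - ρ s₁ / ρ sS)) * (R * C' / q)
          = (ρ s₂ / ρ sO - 1) * (R * C' / q) + (1 - ρ s₁ / ρ sS) * (R * C' / q) := by ring
        linarith
      · linarith
  -- final choice
  have hfin : ∀ j, ∃ x : ℕ × ℤ, j < J → x.1 ∈ U ∧ 0 ≤ x.2 ∧ x.2 < q ∧
      τ j < Int.fract (x.2 * α + β x.1) ∧ Int.fract (x.2 * α + β x.1) < τ (j + 1) ∧
      NoConf U ρ v β α C' χ V₁ V₂ q J τ j x.1 x.2 := by
    intro j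
    by_cases hj : j < J
    · rcases hfree j hj with h | h
      · obtain ⟨h1, h2, h3, h4⟩ := hcn sS j hj
        exact ⟨(sS, cn sS j), fun _ => ⟨hsS, h1, h2, h3, h4, h⟩⟩
      · obtain ⟨h1, h2, h3, h4⟩ := hcn sO j hj
        exact ⟨(sO, cn sO j), fun _ => ⟨hsO, h1, h2, h3, h4, h⟩⟩
    · exact ⟨(0, 0), fun h => absurd h hj⟩
  choose x hx using hfin
  exact ⟨χ, V₁, V₂, hχ, hV₁, hV₂, fun j => (x j).1, fun j => (x j).2, fun j hj => hx j hj⟩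

end Pool.Agent.Helper88.Rot
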