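import Pool.Agent.Helper88.Rot.Step

/-!
Lower level dynamics: rounds and groups of rounds.
-/

namespace Pool.Agent.Helper88.Rot

open CircleDeg1Lift Filter Topology

/-- All parameters of a localised perturbation at scale `1/Q`. -/
structure Loc {m : ℕ} {θ : ℝ} (S : Sys m θ) where
  (K ε A ω N N' Φm err z₀ x₀ : ℝ)
  u : ℝ → ℝ
  P : ℤ
  Q : ℕ
  ρ : ℕ → ℝ
  h : CircleDeg1Liftˣ
  hu : Bump K ε u
  hA : ∀ y, |u y| ≤ A
  hA0 : A ≤ 1 / 2
  hε : ε ≤ 1 / 2
  hρ : ∀ s < m, 0 ≤ ρ s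
  hω0 : 0 ≤ ω
  hω : ω ≤ 1 / 4
  hwin : ∀ s < m, ∀ y, |y| ≤ K + 1 → |S.F s (z₀ + y / Q) - S.F s z₀ - ρ s * y / Q| ≤ ω / Q
  hQ : 2 * K + 2 ≤ (Q : ℝ)
  hQ' : ∀ s < m, 2 * (ρ s * K + 1) ≤ (Q : ℝ)
  hh : ∀ z, h z = z + uh u z₀ Q z
  hN : ∀ s < m, ρ s * K + 1 ≤ N
  herr : ∀ s < m, 2 * ε * ρ s * A + 3 * ω ≤ err
  hN' : N + Φm + 1 < N'
  hQ'' : 2 * (N' + Φm + 1) ≤ (Q : ℝ)

namespace Loc
variable {m : ℕ} {θ : ℝ} {S : Sys m θ} (L : Loc S)

/-- raw phase -/
noncomputable def V (s : ℕ) : ℝ := L.Q * (L.x₀ - S.F s L.z₀)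
/-- integer part -/
noncomputable def a (s : ℕ) : ℤ := ⌈L.V s⌉
/-- fractional part -/
noncomputable def v (s : ℕ) : ℝ := L.a s - L.V s
/-- balanced index of the pass at stage `s` in round `k` -/
noncomputable def n (s k : ℕ) : ℤ := Int.bmod (k * L.P + L.a s) L.Q
/-- drift per round -/
noncomputable def δ : ℝ := L.P - L.Q * θ
/-- one round -/
noncomputable def w : CircleDeg1Liftˣ := W S.M S.σ L.h m

theorem v_nonneg (s : ℕ) : 0 ≤ L.v s := by
  have := Int.le_ceil (L.V s)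
  unfold v a
  linarith

theorem v_lt (s : ℕ) : L.v s < 1 := by
  have := Int.ceil_lt_add_one (L.V s)
  unfold v a
  linarith

theorem Kpos : 0 < L.K := L.hu.Kpos

theorem Qpos : 0 < (L.Q : ℝ) := by
  have := L.hQ; have := L.Kpos; linarith

/-- level predicate inside a round -/
def LI (z : ℝ) (k s : ℕ) (φ : ℝ) : Prop :=
  L.x₀ + (k * L.P + φ) / L.Q ≤ S.F s (W S.M S.σ L.h s ((L.w ^ k : CircleDeg1Liftˣ) z))

/-- level predicate at the beginning of a round -/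
def LL (z : ℝ) (k : ℕ) (φ : ℝ) : Prop := L.LI z k 0 φ

theorem LI.mono {L : Loc S} {z : ℝ} {k s : ℕ} {φ φ' : ℝ} (h : L.LI z k s φ) (hφ : φ' ≤ φ) :
    L.LI z k s φ' := by
  have := L.Qpos
  refine le_trans ?_ h
  have : (k * L.P + φ') / (L.Q : ℝ) ≤ (k * L.P + φ) / L.Q := by gcongr
  linarith

theorem phase_eq (s k : ℕ) (φ : ℝ) :
    ∃ l : ℤ, L.x₀ + (k * L.P + φ) / L.Q - S.F s L.z₀ = (L.n s k + φ - L.v s) / L.Q + l := by
  have hQ := L.Qpos
  have hb := Int.bmod_add_bdiv (k * L.P + L.a s) L.Q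
  refine ⟨Int.bdiv (k * L.P + L.a s) L.Q, ?_⟩
  have hb' : ((Int.bmod (k * L.P + L.a s) L.Q : ℤ) : ℝ)
      + L.Q * ((Int.bdiv (k * L.P + L.a s) L.Q : ℤ) : ℝ) = k * L.P + L.a s := by
    exact_mod_cast hb
  have hV : L.V s = L.Q * (L.x₀ - S.F s L.z₀) := rfl
  have hv : L.v s = L.a s - L.V s := rfl
  have hn : (L.n s k : ℝ) = ((Int.bmod (k * L.P + L.a s) L.Q : ℤ) : ℝ) := rfl
  rw [hv, hV, hn, ← sub_eq_zero]
  field_simp
  linarith

theorem n_abs_le (s k : ℕ) : |(L.n s k : ℝ)| ≤ L.Q / 2 := by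
  have hQ : 0 < L.Q := by
    have := L.Qpos
    exact_mod_cast this
  have h1 := Int.le_bmod (x := k * L.P + L.a s) hQ
  have h2 := Int.bmod_lt (x := k * L.P + L.a s) hQ
  have hn : L.n s k = Int.bmod (k * L.P + L.a s) L.Q := rfl
  rw [← hn] at h1 h2
  have h3 : -(L.Q : ℤ) ≤ 2 * L.n s k := by omega
  have h4 : 2 * L.n s k ≤ L.Q := by omega
  have h3' : -(L.Q : ℝ) ≤ 2 * (L.n s k : ℝ) := by exact_mod_cast h3
  have h4' : 2 * (L.n s k : ℝ) ≤ (L.Q : ℝ) := by exact_mod_cast h4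
  rw [abs_le]
  constructor <;> linarith

theorem phase_ev {s k : ℕ} {φ : ℝ} (hφ : |φ| ≤ L.Φm) (hn : |(L.n s k : ℝ)| ≤ L.N') :
    L.Q * rr (L.x₀ + (k * L.P + φ) / L.Q - S.F s L.z₀) = L.n s k + φ - L.v s := by
  obtain ⟨l, hl⟩ := L.phase_eq s k φ
  have hQ := L.Qpos
  rw [hl]
  have hlt : |((L.n s k + φ - L.v s) / L.Q + l) - l| < 1 / 2 := by
    rw [add_sub_cancel_right, abs_div, abs_of_pos hQ, div_lt_iff₀ hQ]
    have h1 := abs_add_le ((L.n s k : ℝ) + φ) (- L.v s)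
    have h2 := abs_add_le (L.n s k : ℝ) φ
    have h3 : |(- L.v s)| < 1 := by
      rw [abs_neg, abs_of_nonneg (L.v_nonneg s)]
      exact L.v_lt s
    have := L.hQ''
    rw [← sub_eq_add_neg] at h1
    linarith
  rw [rr_eq_of_abs_lt l hlt, add_sub_cancel_right]
  field_simp

theorem phase_nev {s k : ℕ} {φ : ℝ} (hφ : |φ| ≤ L.Φm) (hn : L.N' < |(L.n s k : ℝ)|) :
    L.N < |L.Q * rr (L.x₀ + (k * L.P + φ) / L.Q - S.F s L.z₀)| := by
  obtain ⟨l, hl⟩ := L.phase_eq s k φ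
  have hQ := L.Qpos
  have hv := L.v_nonneg s
  have hv' := L.v_lt s
  have hφ' := abs_le.1 hφ
  have hN' := L.hN'
  have hQ'' := L.hQ''
  have hnQ := abs_le.1 (L.n_abs_le s k)
  rw [abs_mul, abs_of_pos hQ, hl]
  set c : ℝ := (L.N' - L.Φm - 1) / L.Q with hc
  have hcQ : c * L.Q = L.N' - L.Φm - 1 := by rw [hc]; field_simp
  have key : c ≤ |rr ((L.n s k + φ - L.v s) / L.Q + l)| := by
    rcases le_total 0 (L.n s k : ℝ) with h0 | h0
    · rw [abs_of_nonneg h0] at hn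
      refine rr_abs_ge l ?_ ?_
      · have : c ≤ (L.n s k + φ - L.v s) / L.Q := by
          rw [le_div_iff₀ hQ]; linarith
        linarith
      · have : (L.n s k + φ - L.v s) / L.Q ≤ 1 - c := by
          rw [div_le_iff₀ hQ, sub_mul]; linarith
        linarith
    · rw [abs_of_nonpos h0] at hn
      refine rr_abs_ge (l - 1) ?_ ?_
      · have : c - 1 ≤ (L.n s k + φ - L.v s) / L.Q := by
          rw [le_div_iff₀ hQ, sub_mul]; linarith
        push_cast
        linarith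
      · have : (L.n s k + φ - L.v s) / L.Q ≤ - c := by
          rw [div_le_iff₀ hQ, neg_mul]; linarith
        push_cast
        linarith
  have : L.Q * c = L.N' - L.Φm - 1 := by rw [hc]; field_simp
  have h2 := mul_le_mul_of_nonneg_left key hQ.le
  linarith

/-- contribution of stage `s` in round `k`, linearised at level `ψ` with tolerance `D` -/
noncomputable def con (ψ D : ℝ) (s k : ℕ) : ℝ :=
  if |(L.n s k : ℝ)| ≤ L.N' then
    S.σ s * UU (L.ρ s) L.u (L.n s k + ψ - L.v s) - L.err - L.ε * D else 0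

/-- event counter -/
noncomputable def evc (s k : ℕ) : ℕ := if |(L.n s k : ℝ)| ≤ L.N' then 1 else 0

theorem σ_mul_le (S : Sys m θ) (s : ℕ) (x : ℝ) : |(S.σ s : ℝ) * x| ≤ |x| := by
  rcases S.hσ s with h | h | h <;> rw [h] <;> simp

theorem LI_step {z : ℝ} {k s : ℕ} (hs : s < m) {φ ψ D : ℝ} (hφ : |φ| ≤ L.Φm) (hD : |φ - ψ| ≤ D)
    (h : L.LI z k s φ) : L.LI z k (s + 1) (φ + L.con ψ D s k) := by
  have hQ := L.Qpos
  set X := L.x₀ + (k * L.P + φ) / L.Q with hX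
  have h1 := step_lemma L.hu L.hA L.hA0 L.hε (S.cont s) (S.mono s) (S.deg s) (L.hρ s hs) L.hω0
    L.hω (L.hwin s hs) L.hQ (L.hQ' s hs) L.hh (S.hσ s) (L.hN s hs) (L.herr s hs) (X := X)
    (z := W S.M S.σ L.h s ((L.w ^ k : CircleDeg1Liftˣ) z)) h
  have h2 : S.F (s + 1) (W S.M S.σ L.h (s + 1) ((L.w ^ k : CircleDeg1Liftˣ) z))
      = S.F s ((L.h ^ S.σ s : CircleDeg1Liftˣ)
          (W S.M S.σ L.h s ((L.w ^ k : CircleDeg1Liftˣ) z))) := by
    rw [← S.step s]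
    rfl
  unfold LI
  rw [h2]
  refine le_trans ?_ h1
  have herr0 : 0 ≤ L.err := by
    have := L.herr s hs
    have h3 := L.hu.εnn
    have h4 := L.hρ s hs
    have h5 : 0 ≤ L.A := (abs_nonneg _).trans (L.hA 0)
    have h6 := L.hω0
    have : 0 ≤ 2 * L.ε * L.ρ s * L.A := by positivity
    linarith
  have hD0 : 0 ≤ D := (abs_nonneg _).trans hD
  have hεD : 0 ≤ L.ε * D := mul_nonneg L.hu.εnn hD0
  have key : L.con ψ D s k ≤ gain (S.σ s) (L.ρ s) L.u L.N L.err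
      (L.Q * rr (X - S.F s L.z₀)) := by
    unfold con
    split_ifs with hev
    · rw [hX, L.phase_ev hφ hev]
      unfold gain
      have hl : S.σ s * UU (L.ρ s) L.u (L.n s k + ψ - L.v s)
          ≤ S.σ s * UU (L.ρ s) L.u (L.n s k + φ - L.v s) + L.ε * D := by
        have h3 := UU_lip L.hu (L.hρ s hs) (L.n s k + ψ - L.v s) (L.n s k + φ - L.v s)
        have h4 := σ_mul_le S s (UU (L.ρ s) L.u (L.n s k + ψ - L.v s)
          - UU (L.ρ s) L.u (L.n s k + φ - L.v s))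
        have h5 : |(L.n s k : ℝ) + ψ - L.v s - (L.n s k + φ - L.v s)| ≤ D := by
          rw [← abs_neg]
          have : -((L.n s k : ℝ) + ψ - L.v s - (L.n s k + φ - L.v s)) = φ - ψ := by ring
          rw [this]; exact hD
        have h6 := mul_le_mul_of_nonneg_left h5 L.hu.εnn
        have h7 := (abs_le.1 h4).2
        rw [mul_sub] at h7
        linarith
      split_ifs with hN
      · linarith
      · have h3 : UU (L.ρ s) L.u (L.n s k + φ - L.v s) = 0 := by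
          apply UU_supp L.hu (L.hρ s hs)
          have := L.hN s hs
          push Not at hN
          linarith
        rw [h3, mul_zero] at hl
        linarith
    · unfold gain
      push Not at hev
      rw [if_neg]
      rw [hX, not_le]
      exact L.phase_nev hφ hev
  have e : L.x₀ + (k * L.P + (φ + L.con ψ D s k)) / L.Q
      = X + L.con ψ D s k / L.Q := by
    rw [hX]; ring
  rw [e]
  have := div_le_div_of_nonneg_right key hQ.le
  linarith

theorem LL_end {z : ℝ} {k : ℕ} {φ : ℝ} (h : L.LI z k m φ) : L.LL z (k + 1) (φ - L.δ) := by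
  have hQ := L.Qpos
  have h1 : L.LI z k m φ = (L.x₀ + (k * L.P + φ) / L.Q ≤ S.F m (L.w ((L.w ^ k : CircleDeg1Liftˣ) z))) := rfl
  rw [h1, S.fin] at h
  have h2 : (L.w ^ (k + 1) : CircleDeg1Liftˣ) z = L.w ((L.w ^ k : CircleDeg1Liftˣ) z) := by
    rw [pow_succ']; rfl
  have h3 : L.LL z (k + 1) (φ - L.δ) = (L.x₀ + (((k + 1 : ℕ) : ℝ) * L.P + (φ - L.δ)) / L.Q
      ≤ S.F 0 ((L.w ^ (k + 1) : CircleDeg1Liftˣ) z)) := rfl
  rw [h3, h2]
  have e : L.x₀ + (((k + 1 : ℕ) : ℝ) * L.P + (φ - L.δ)) / L.Q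
      = L.x₀ + (k * L.P + φ) / L.Q + θ := by
    unfold δ
    push_cast
    field_simp
    ring
  rw [e]
  linarith

theorem con_abs_le {s : ℕ} (hs : s < m) {ψ D C₁ : ℝ} (hD : 0 ≤ D)
    (hC₁ : L.ρ s * L.A + L.err + L.ε * D ≤ C₁) (k : ℕ) :
    |L.con ψ D s k| ≤ C₁ * L.evc s k := by
  unfold con evc
  split_ifs
  · have h1 := σ_mul_le S s (UU (L.ρ s) L.u (L.n s k + ψ - L.v s))
    have h2 := UU_bound L.hA (L.hρ s hs) (L.n s k + ψ - L.v s)
    have herr0 : 0 ≤ L.err := by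
      have := L.herr s hs
      have h3 := L.hu.εnn
      have h4 := L.hρ s hs
      have h5 : 0 ≤ L.A := (abs_nonneg _).trans (L.hA 0)
      have h6 := L.hω0
      have : 0 ≤ 2 * L.ε * L.ρ s * L.A := by positivity
      linarith
    have hεD : 0 ≤ L.ε * D := mul_nonneg L.hu.εnn hD
    have h3 := abs_le.1 (h1.trans h2)
    rw [Nat.cast_one, mul_one, abs_le]
    constructor <;> linarith [h3.1, h3.2]
  · simp

theorem group {z : ℝ} {k₁ : ℕ} (j : ℕ) {ψ D C₁ C : ℝ} (hD0 : 0 ≤ D) (hC₁0 : 0 ≤ C₁)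
    (hC₁ : ∀ s < m, L.ρ s * L.A + L.err + L.ε * D ≤ C₁)
    (hcount : ((∑ k ∈ Finset.range j, ∑ s ∈ Finset.range m, L.evc s (k₁ + k) : ℕ) : ℝ) ≤ C)
    (hδ : 0 ≤ L.δ) (hD : C * C₁ + L.δ * j ≤ D) (hψ : |ψ| + D ≤ L.Φm) (h : L.LL z k₁ ψ) :
    L.LL z (k₁ + j) (ψ + ∑ k ∈ Finset.range j, ∑ s ∈ Finset.range m, L.con ψ D s (k₁ + k)
      - L.δ * j) := by
  -- deviation bound
  have hdev : ∀ j' < j, ∀ s ≤ m,
      |(∑ k ∈ Finset.range j', ∑ s ∈ Finset.range m, L.con ψ D s (k₁ + k))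
        + (∑ s' ∈ Finset.range s, L.con ψ D s' (k₁ + j')) - L.δ * j'| ≤ D := by
    intro j' hj' s hs
    have b1 : |∑ k ∈ Finset.range j', ∑ s ∈ Finset.range m, L.con ψ D s (k₁ + k)|
        ≤ C₁ * ((∑ k ∈ Finset.range j', ∑ s ∈ Finset.range m, L.evc s (k₁ + k) : ℕ) : ℝ) := by
      push_cast
      rw [Finset.mul_sum]
      refine (Finset.abs_sum_le_sum_abs _ _).trans (Finset.sum_le_sum fun k _ => ?_)
      rw [Finset.mul_sum]
      refine (Finset.abs_sum_le_sum_abs _ _).trans (Finset.sum_le_sum fun s' hs' => ?_)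
      exact L.con_abs_le (Finset.mem_range.1 hs') hD0 (hC₁ s' (Finset.mem_range.1 hs')) _
    have b2 : |∑ s' ∈ Finset.range s, L.con ψ D s' (k₁ + j')|
        ≤ C₁ * ((∑ s' ∈ Finset.range s, L.evc s' (k₁ + j') : ℕ) : ℝ) := by
      push_cast
      rw [Finset.mul_sum]
      refine (Finset.abs_sum_le_sum_abs _ _).trans (Finset.sum_le_sum fun s' hs' => ?_)
      have : s' < m := (Finset.mem_range.1 hs').trans_le hs
      exact L.con_abs_le this hD0 (hC₁ s' this) _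
    have b3 : (∑ k ∈ Finset.range j', ∑ s ∈ Finset.range m, L.evc s (k₁ + k))
        + (∑ s' ∈ Finset.range s, L.evc s' (k₁ + j'))
        ≤ ∑ k ∈ Finset.range j, ∑ s ∈ Finset.range m, L.evc s (k₁ + k) := by
      have c1 : (∑ s' ∈ Finset.range s, L.evc s' (k₁ + j'))
          ≤ ∑ s' ∈ Finset.range m, L.evc s' (k₁ + j') :=
        Finset.sum_le_sum_of_subset (Finset.range_subset_range.2 hs)
      have c2 : (∑ k ∈ Finset.range (j' + 1), ∑ s ∈ Finset.range m, L.evc s (k₁ + k))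
          ≤ ∑ k ∈ Finset.range j, ∑ s ∈ Finset.range m, L.evc s (k₁ + k) :=
        Finset.sum_le_sum_of_subset (Finset.range_subset_range.2 hj')
      rw [Finset.sum_range_succ] at c2
      omega
    have b3' : ((∑ k ∈ Finset.range j', ∑ s ∈ Finset.range m, L.evc s (k₁ + k) : ℕ) : ℝ)
        + ((∑ s' ∈ Finset.range s, L.evc s' (k₁ + j') : ℕ) : ℝ) ≤ C :=
      le_trans (by exact_mod_cast b3) hcount
    have b4 := mul_le_mul_of_nonneg_left b3' hC₁0
    have b5 : L.δ * j' ≤ L.δ * j := mul_le_mul_of_nonneg_left (by exact_mod_cast hj'.le) hδ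
    have b6 : 0 ≤ L.δ * j' := by positivity
    rw [abs_le] at b1 b2 ⊢
    constructor <;> linarith [b1.1, b1.2, b2.1, b2.2]
  have hφm : ∀ φ, |φ - ψ| ≤ D → |φ| ≤ L.Φm := by
    intro φ hφ
    have := abs_add_le (φ - ψ) ψ
    rw [sub_add_cancel] at this
    linarith
  have main : ∀ j' ≤ j, L.LL z (k₁ + j')
      (ψ + ∑ k ∈ Finset.range j', ∑ s ∈ Finset.range m, L.con ψ D s (k₁ + k) - L.δ * j') := by
    intro j'
    induction j' with
    | zero => intro _; simpa using h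
    | succ j' ih =>
      intro hj'
      have h1 := ih (by omega)
      have h2 : ∀ s ≤ m, L.LI z (k₁ + j') s
          ((ψ + ∑ k ∈ Finset.range j', ∑ s ∈ Finset.range m, L.con ψ D s (k₁ + k) - L.δ * j')
            + ∑ s' ∈ Finset.range s, L.con ψ D s' (k₁ + j')) := by
        intro s
        induction s with
        | zero =>
          intro _
          rw [Finset.sum_range_zero, add_zero]
          exact h1
        | succ s ihs =>
          intro hs
          have h3 := ihs (by omega)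
          have h4 := hdev j' (by omega) s (by omega)
          have e : (ψ + ∑ k ∈ Finset.range j', ∑ s ∈ Finset.range m, L.con ψ D s (k₁ + k)
              - L.δ * j') + ∑ s' ∈ Finset.range s, L.con ψ D s' (k₁ + j') - ψ
              = (∑ k ∈ Finset.range j', ∑ s ∈ Finset.range m, L.con ψ D s (k₁ + k))
                + (∑ s' ∈ Finset.range s, L.con ψ D s' (k₁ + j')) - L.δ * j' := by ring
          rw [← e] at h4
          have h5 := L.LI_step (by omega : s < m) (hφm _ h4) h4 h3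
          rw [Finset.sum_range_succ, ← add_assoc]
          exact h5
      have h3 := L.LL_end (h2 m le_rfl)
      have e : (ψ + ∑ k ∈ Finset.range j', ∑ s ∈ Finset.range m, L.con ψ D s (k₁ + k) - L.δ * j')
            + ∑ s' ∈ Finset.range m, L.con ψ D s' (k₁ + j') - L.δ
          = ψ + ∑ k ∈ Finset.range (j' + 1), ∑ s ∈ Finset.range m, L.con ψ D s (k₁ + k)
            - L.δ * ((j' + 1 : ℕ) : ℝ) := by
        rw [Finset.sum_range_succ]
        push_cast
        ring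
      rw [e] at h3
      exact h3
  exact main j le_rfl

/-- closing: a gain after `Q` rounds gives a larger translation number -/
theorem closing {z : ℝ} {φ ψ : ℝ} (h0 : S.F 0 z ≤ L.x₀ + φ / L.Q) (hψ : φ < ψ)
    (hLL : L.LL z L.Q ψ) (hδ : 0 < L.δ) : θ < translationNumber L.w := by
  have hQ := L.Qpos
  have h1 : L.x₀ + ((L.Q : ℝ) * L.P + ψ) / L.Q ≤ S.F 0 ((L.w ^ L.Q : CircleDeg1Liftˣ) z) := hLL
  have h2 : S.F 0 (z + L.P) < S.F 0 ((L.w ^ L.Q : CircleDeg1Liftˣ) z) := by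
    rw [F_add_int (S.deg 0)]
    refine lt_of_lt_of_le ?_ h1
    have e : L.x₀ + ((L.Q : ℝ) * L.P + ψ) / L.Q = L.x₀ + ψ / L.Q + L.P := by
      field_simp
      ring
    rw [e]
    have : φ / L.Q < ψ / (L.Q : ℝ) := by gcongr
    linarith
  have h3 : z + L.P < (L.w ^ L.Q : CircleDeg1Liftˣ) z := by
    by_contra hcon
    push Not at hcon
    exact absurd (S.mono 0 hcon) (not_le.2 h2)
  have h4 : ((L.P : ℤ) : ℝ) ≤ translationNumber ((L.w : CircleDeg1Lift) ^ L.Q) := by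
    apply le_translationNumber_of_add_int_le (x := z)
    exact h3.le
  rw [translationNumber_pow] at h4
  have h5 : (L.P : ℝ) - L.Q * θ > 0 := hδ
  have h6 : (L.Q : ℝ) * θ < L.Q * translationNumber (L.w : CircleDeg1Lift) := by linarith
  exact lt_of_mul_lt_mul_left h6 hQ.le

/-- starting point -/
theorem exists_start (φ : ℝ) : ∃ z, S.F 0 z = L.x₀ + φ / L.Q ∧ L.LL z 0 φ := by
  obtain ⟨z, hz, -⟩ := exists_min_level (S.F 0) (S.cont 0) (S.mono 0) (S.deg 0)
    (L.x₀ + φ / L.Q)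
  refine ⟨z, hz, ?_⟩
  show L.x₀ + (((0 : ℕ) : ℝ) * L.P + φ) / L.Q ≤ S.F 0 z
  rw [hz]
  simp

end Loc

end Pool.Agent.Helper88.Rot
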