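import Mathlib

/-!
Conjugating a finite family of circle homeomorphisms so that all of them become Lipschitz.
-/

namespace Pool.Agent.Helper88.Rot

open CircleDeg1Lift Filter Topology

section
variable {ι : Type} [Fintype ι] (g : ι → CircleDeg1Liftˣ)

/-- sum over all words of length `n` -/
noncomputable def S : ℕ → ℝ → ℝ
  | 0, t => t
  | n + 1, t => ∑ j, S n (g j t)

theorem S_zero (t : ℝ) : S g 0 t = t := rfl
theorem S_succ (n : ℕ) (t : ℝ) : S g (n + 1) t = ∑ j, S g n (g j t) := rfl

theorem unit_continuous (f : CircleDeg1Liftˣ) : Continuous (f : ℝ → ℝ) :=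
  (continuous_iff_surjective _).2 (toOrderIso f).surjective

theorem unit_strictMono (f : CircleDeg1Liftˣ) : StrictMono (f : ℝ → ℝ) :=
  (toOrderIso f).strictMono

theorem S_continuous (n : ℕ) : Continuous (S g n) := by
  induction n with
  | zero => exact continuous_id
  | succ n ih =>
    have : S g (n + 1) = fun t => ∑ j, S g n (g j t) := rfl
    rw [this]
    exact continuous_finsetSum _ fun j _ => ih.comp (unit_continuous _)

theorem S_monotone (n : ℕ) : Monotone (S g n) := by
  induction n with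
  | zero => exact monotone_id
  | succ n ih =>
    intro s t hst
    rw [S_succ, S_succ]
    exact Finset.sum_le_sum fun j _ => ih ((g j : CircleDeg1Lift).monotone hst)

theorem S_add_one (n : ℕ) : ∀ t : ℝ, S g n (t + 1) = S g n t + (Fintype.card ι : ℝ) ^ n := by
  induction n with
  | zero => intro t; simp [S_zero]
  | succ n ih =>
    intro t
    rw [S_succ, S_succ]
    simp only [map_add_one, ih, Finset.sum_add_distrib, Finset.sum_const, Finset.card_univ,
      nsmul_eq_mul, pow_succ]
    ring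

/-- displacement bound -/
theorem exists_disp (f : CircleDeg1Lift) : ∃ C : ℝ, 0 ≤ C ∧ ∀ t, |f t - t| ≤ C := by
  refine ⟨|translationNumber f| + 1, by positivity, fun t => ?_⟩
  have h1 := map_lt_add_translationNumber_add_one f t
  have h2 : t + translationNumber f - 1 < f t := by
    by_contra hcon
    push Not at hcon
    have h3 : f t ≤ t + ((⌈translationNumber f⌉ - 1 : ℤ) : ℝ) := by
      push_cast
      have := Int.le_ceil (translationNumber f)
      linarith
    have h4 := translationNumber_le_of_le_add_int f h3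
    push_cast at h4
    have := Int.ceil_lt_add_one (translationNumber f)
    linarith
  rw [abs_le]
  constructor
  · have := neg_abs_le (translationNumber f); linarith
  · have := le_abs_self (translationNumber f); linarith

theorem S_bound {C : ℝ} (hC : ∀ j t, |g j t - t| ≤ C) (n : ℕ) :
    ∀ t : ℝ, |S g n t - (Fintype.card ι : ℝ) ^ n * t| ≤ n * (Fintype.card ι : ℝ) ^ n * C := by
  induction n with
  | zero => intro t; simp [S_zero]
  | succ n ih =>
    intro t
    set c : ℝ := (Fintype.card ι : ℝ) with hc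
    have e : S g (n + 1) t - c ^ (n + 1) * t
        = ∑ j, ((S g n (g j t) - c ^ n * g j t) + c ^ n * (g j t - t)) := by
      rw [S_succ]
      have : ∑ j : ι, ((S g n (g j t) - c ^ n * g j t) + c ^ n * (g j t - t))
          = ∑ j : ι, (S g n (g j t) - c ^ n * t) := by
        refine Finset.sum_congr rfl fun j _ => by ring
      rw [this, Finset.sum_sub_distrib, Finset.sum_const, Finset.card_univ, nsmul_eq_mul, ← hc,
        pow_succ]
      ring
    rw [e]
    refine (Finset.abs_sum_le_sum_abs _ _).trans ?_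
    have h1 : ∀ j ∈ (Finset.univ : Finset ι),
        |(S g n (g j t) - c ^ n * g j t) + c ^ n * (g j t - t)| ≤ n * c ^ n * C + c ^ n * C := by
      intro j _
      refine (abs_add_le _ _).trans (add_le_add (ih _) ?_)
      rw [abs_mul, abs_of_nonneg (by positivity : (0:ℝ) ≤ c ^ n)]
      exact mul_le_mul_of_nonneg_left (hC j t) (by positivity)
    refine (Finset.sum_le_sum h1).trans ?_
    rw [Finset.sum_const, Finset.card_univ, nsmul_eq_mul, ← hc]
    push_cast
    rw [pow_succ]
    nlinarith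


/-- the correction terms -/
noncomputable def corr (n : ℕ) (t : ℝ) : ℝ :=
  (S g n t - (Fintype.card ι : ℝ) ^ n * t) / ((Fintype.card ι : ℝ) + 1) ^ n

theorem summable_geo : Summable fun n : ℕ =>
    ((Fintype.card ι : ℝ) / ((Fintype.card ι : ℝ) + 1)) ^ n := by
  apply summable_geometric_of_lt_one (by positivity)
  rw [div_lt_one (by positivity)]
  linarith

theorem summable_ngeo : Summable fun n : ℕ =>
    (n : ℝ) * ((Fintype.card ι : ℝ) / ((Fintype.card ι : ℝ) + 1)) ^ n := by
  have h : ‖((Fintype.card ι : ℝ) / ((Fintype.card ι : ℝ) + 1))‖ < 1 := by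
    rw [Real.norm_eq_abs, abs_of_nonneg (by positivity), div_lt_one (by positivity)]
    linarith
  simpa using summable_pow_mul_geometric_of_norm_lt_one 1 h

theorem corr_bound {C : ℝ} (hC : ∀ j t, |g j t - t| ≤ C) (n : ℕ) (t : ℝ) :
    ‖corr g n t‖ ≤ ((n : ℝ) * ((Fintype.card ι : ℝ) / ((Fintype.card ι : ℝ) + 1)) ^ n) * C := by
  rw [corr, Real.norm_eq_abs, abs_div, abs_of_nonneg
    (by positivity : (0:ℝ) ≤ ((Fintype.card ι : ℝ) + 1) ^ n), div_le_iff₀ (by positivity), div_pow]
  refine (S_bound g hC n t).trans (le_of_eq ?_)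
  field_simp

theorem corr_summable {C : ℝ} (hC : ∀ j t, |g j t - t| ≤ C) (t : ℝ) :
    Summable fun n => corr g n t :=
  Summable.of_norm_bounded ((summable_ngeo (ι := ι)).mul_right C) fun n => corr_bound g hC n t

/-- the unnormalised conjugating map -/
noncomputable def Lam (t : ℝ) : ℝ := ((Fintype.card ι : ℝ) + 1) * t + ∑' n, corr g n t

theorem tsum_geo : ∑' n : ℕ, ((Fintype.card ι : ℝ) / ((Fintype.card ι : ℝ) + 1)) ^ n
    = (Fintype.card ι : ℝ) + 1 := by
  rw [tsum_geometric_of_lt_one (by positivity)]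
  · field_simp
    ring
  · rw [div_lt_one (by positivity)]
    linarith

theorem Lam_eq {C : ℝ} (hC : ∀ j t, |g j t - t| ≤ C) (t : ℝ) :
    Summable (fun n => S g n t / ((Fintype.card ι : ℝ) + 1) ^ n) ∧
    Lam g t = ∑' n, S g n t / ((Fintype.card ι : ℝ) + 1) ^ n := by
  have e : (fun n => S g n t / ((Fintype.card ι : ℝ) + 1) ^ n) = fun n : ℕ =>
      ((Fintype.card ι : ℝ) / ((Fintype.card ι : ℝ) + 1)) ^ n * t + corr g n t := by
    funext n
    rw [corr, div_pow]
    field_simp
    ring
  have h1 : Summable (fun n : ℕ =>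
      ((Fintype.card ι : ℝ) / ((Fintype.card ι : ℝ) + 1)) ^ n * t) := summable_geo.mul_right t
  have h2 := corr_summable g hC t
  rw [e]
  refine ⟨h1.add h2, ?_⟩
  rw [h1.tsum_add h2, tsum_mul_right, tsum_geo, Lam]

theorem Lam_continuous {C : ℝ} (hC : ∀ j t, |g j t - t| ≤ C) : Continuous (Lam g) := by
  unfold Lam
  refine (continuous_const.mul continuous_id).add ?_
  refine continuous_tsum (fun n => ?_) ((summable_ngeo (ι := ι)).mul_right C)
    fun n t => corr_bound g hC n t
  unfold corr
  exact ((S_continuous g n).sub (continuous_const.mul continuous_id)).div_const _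

theorem Lam_mono {C : ℝ} (hC : ∀ j t, |g j t - t| ≤ C) {s t : ℝ} (hst : s ≤ t) :
    t - s ≤ Lam g t - Lam g s := by
  rw [(Lam_eq g hC t).2, (Lam_eq g hC s).2, ← (Lam_eq g hC t).1.tsum_sub (Lam_eq g hC s).1]
  have hs := (Lam_eq g hC t).1.sub (Lam_eq g hC s).1
  have h0 := hs.le_tsum 0 (fun n _ => by
    have := S_monotone g n hst
    rw [← sub_div]
    apply div_nonneg (by linarith) (by positivity))
  simpa [S_zero] using h0

theorem Lam_add_one (t : ℝ) :
    Lam g (t + 1) = Lam g t + ((Fintype.card ι : ℝ) + 1) := by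
  have e : (fun n => corr g n (t + 1)) = fun n => corr g n t := by
    funext n
    rw [corr, corr, S_add_one]
    congr 1
    ring
  rw [Lam, Lam, e]
  ring

theorem Lam_fun {C : ℝ} (hC : ∀ j t, |g j t - t| ≤ C) (t : ℝ) :
    ∑ j, Lam g (g j t) = ((Fintype.card ι : ℝ) + 1) * (Lam g t - t) := by
  have h1 : ∀ j, Lam g (g j t) = ∑' n, S g n (g j t) / ((Fintype.card ι : ℝ) + 1) ^ n :=
    fun j => (Lam_eq g hC _).2
  simp only [h1]
  rw [← Summable.tsum_finsetSum (fun j _ => (Lam_eq g hC (g j t)).1)]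
  have e : (fun n => ∑ j, S g n (g j t) / ((Fintype.card ι : ℝ) + 1) ^ n)
      = fun n => ((Fintype.card ι : ℝ) + 1) * (S g (n+1) t / ((Fintype.card ι : ℝ) + 1) ^ (n+1)) := by
    funext n
    rw [← Finset.sum_div, ← S_succ]
    field_simp
    rw [pow_succ]
    ring
  rw [e, tsum_mul_left, (Lam_eq g hC t).2, (Lam_eq g hC t).1.tsum_eq_zero_add]
  simp [S_zero]

theorem Lam_lip {C : ℝ} (hC : ∀ j t, |g j t - t| ≤ C) (j : ι) {s t : ℝ} (hst : s ≤ t) :
    Lam g (g j t) - Lam g (g j s) ≤ ((Fintype.card ι : ℝ) + 1) * (Lam g t - Lam g s) := by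
  have h1 : Lam g (g j t) - Lam g (g j s) ≤ ∑ i, (Lam g (g i t) - Lam g (g i s)) := by
    refine Finset.single_le_sum (f := fun i => Lam g (g i t) - Lam g (g i s)) (fun i _ => ?_)
      (Finset.mem_univ j)
    have h2 := (g i : CircleDeg1Lift).monotone hst
    have := Lam_mono g hC h2
    show 0 ≤ Lam g (g i t) - Lam g (g i s)
    linarith
  rw [Finset.sum_sub_distrib, Lam_fun g hC, Lam_fun g hC] at h1
  nlinarith [Nat.cast_nonneg (α := ℝ) (Fintype.card ι)]

/-- For a finite family of units there is a conjugation making all of them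
`(card ι + 1)`-Lipschitz. -/
theorem exists_conj_lipschitz : ∃ Λ : CircleDeg1Liftˣ, ∀ j, ∀ s t : ℝ,
    |(Λ * g j * Λ⁻¹ : CircleDeg1Liftˣ) t - (Λ * g j * Λ⁻¹ : CircleDeg1Liftˣ) s|
      ≤ ((Fintype.card ι : ℝ) + 1) * |t - s| := by
  have hCj : ∀ j, ∃ C : ℝ, 0 ≤ C ∧ ∀ t, |g j t - t| ≤ C := fun j => exists_disp (g j)
  choose Cj hCj0 hCj using hCj
  obtain ⟨C, hC⟩ : ∃ C : ℝ, ∀ j t, |g j t - t| ≤ C := by
    refine ⟨∑ j, Cj j, fun j t => (hCj j t).trans ?_⟩
    exact Finset.single_le_sum (f := Cj) (fun i _ => hCj0 i) (Finset.mem_univ j)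
  set K : ℝ := (Fintype.card ι : ℝ) + 1 with hK
  have hKpos : 0 < K := by positivity
  let L0 : CircleDeg1Lift :=
    { toFun := fun t => Lam g t / K
      monotone' := fun s t hst => by
        have := Lam_mono g hC hst
        exact div_le_div_of_nonneg_right (by linarith) hKpos.le
      map_add_one' := fun t => by
        show Lam g (t + 1) / K = Lam g t / K + 1
        rw [Lam_add_one g, hK]
        field_simp }
  have hL0 : ∀ t, L0 t = Lam g t / K := fun t => rfl
  have hcont : Continuous (L0 : ℝ → ℝ) := by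
    have : (L0 : ℝ → ℝ) = fun t => Lam g t / K := rfl
    rw [this]
    exact (Lam_continuous g hC).div_const _
  have hinj : Function.Injective (L0 : ℝ → ℝ) := by
    intro s t hst
    rw [hL0, hL0, div_left_inj' hKpos.ne'] at hst
    rcases le_total s t with h | h
    · have := Lam_mono g hC h; linarith
    · have := Lam_mono g hC h; linarith
  have hunit : IsUnit L0 := isUnit_iff_bijective.2 ⟨hinj, (continuous_iff_surjective _).1 hcont⟩
  obtain ⟨Λ, hΛ⟩ := hunit
  have hΛ' : ∀ t, Λ t = Lam g t / K := fun t => by rw [hΛ]; exact hL0 t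
  refine ⟨Λ, fun j => ?_⟩
  have key : ∀ s t : ℝ, s ≤ t → |(Λ * g j * Λ⁻¹ : CircleDeg1Liftˣ) t - (Λ * g j * Λ⁻¹ : CircleDeg1Liftˣ) s|
      ≤ K * |t - s| := by
    intro s t hst
    set t' := (Λ⁻¹ : CircleDeg1Liftˣ) t with ht'
    set s' := (Λ⁻¹ : CircleDeg1Liftˣ) s with hs'
    have ht : t = Λ t' := (units_apply_inv_apply Λ t).symm
    have hs : s = Λ s' := (units_apply_inv_apply Λ s).symm
    have hst' : s' ≤ t' := (Λ⁻¹ : CircleDeg1Liftˣ).val.monotone hst
    have e1 : (Λ * g j * Λ⁻¹ : CircleDeg1Liftˣ) t = Λ (g j t') := rfl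
    have e2 : (Λ * g j * Λ⁻¹ : CircleDeg1Liftˣ) s = Λ (g j s') := rfl
    have h3 := Lam_lip g hC j hst'
    have h4 := Lam_mono g hC ((g j : CircleDeg1Lift).monotone hst')
    have h5 := (g j : CircleDeg1Lift).monotone hst'
    rw [e1, e2, hΛ', hΛ', abs_of_nonneg (by
      have : (0:ℝ) ≤ (Lam g (g j t') - Lam g (g j s')) / K := div_nonneg (by linarith) hKpos.le
      rwa [sub_div] at this), abs_of_nonneg (by linarith), ht, hs, hΛ', hΛ', ← sub_div, ← sub_div,
      ← mul_div_assoc, div_le_div_iff_of_pos_right hKpos]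
    exact h3
  intro s t
  rcases le_total s t with h | h
  · exact key s t h
  · rw [abs_sub_comm, abs_sub_comm t s]
    exact key t s h

end

end Pool.Agent.Helper88.Rot
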