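import Pool.Agent.Helper88.Rot.Lip

/-!
Existence of a maximiser of the translation number of a word.
-/

namespace Pool.Agent.Helper88.Rot

open CircleDeg1Lift Filter Topology

/-- translation as a unit -/
noncomputable abbrev T (x : ℝ) : CircleDeg1Liftˣ := translate (Multiplicative.ofAdd x)

theorem T_apply (x y : ℝ) : T x y = x + y := rfl

/-- pointwise convergence along an ultrafilter with uniform Lipschitz bounds -/
def Conv (𝒰 : Filter ℕ) (f : ℕ → CircleDeg1Liftˣ) (g : CircleDeg1Liftˣ) : Prop :=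
  (∃ L : ℝ, ∀ n, ∀ s t : ℝ, |f n t - f n s| ≤ L * |t - s|) ∧
    ∀ x, Tendsto (fun n => f n x) 𝒰 (𝓝 (g x))

theorem Conv.mul {𝒰 : Filter ℕ} {f f' : ℕ → CircleDeg1Liftˣ} {g g' : CircleDeg1Liftˣ}
    (h : Conv 𝒰 f g) (h' : Conv 𝒰 f' g') : Conv 𝒰 (fun n => f n * f' n) (g * g') := by
  obtain ⟨⟨L, hL⟩, hl⟩ := h
  obtain ⟨⟨L', hL'⟩, hl'⟩ := h'
  have hL0 : 0 ≤ L := by
    have := hL 0 0 1
    simp only [sub_zero, abs_one, mul_one] at this
    exact (abs_nonneg _).trans this
  refine ⟨⟨L * L', fun n s t => ?_⟩, fun x => ?_⟩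
  · calc |(f n * f' n : CircleDeg1Liftˣ) t - (f n * f' n : CircleDeg1Liftˣ) s|
        = |f n (f' n t) - f n (f' n s)| := rfl
      _ ≤ L * |f' n t - f' n s| := hL n _ _
      _ ≤ L * (L' * |t - s|) := mul_le_mul_of_nonneg_left (hL' n s t) hL0
      _ = L * L' * |t - s| := by ring
  · have e : (fun n => (f n * f' n : CircleDeg1Liftˣ) x) =
        fun n => (f n (f' n x) - f n (g' x)) + f n (g' x) := by
      funext n
      show f n (f' n x) = _
      ring
    rw [e]
    have h1 : Tendsto (fun n => f n (f' n x) - f n (g' x)) 𝒰 (𝓝 0) := by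
      have h2 : Tendsto (fun n => L * |f' n x - g' x|) 𝒰 (𝓝 0) := by
        have h3 : Tendsto (fun n => f' n x - g' x) 𝒰 (𝓝 0) := by
          simpa using (hl' x).sub_const (g' x)
        simpa using (h3.abs.const_mul L)
      exact squeeze_zero_norm (fun n => hL n _ _) h2
    have h4 := h1.add (hl (g' x))
    rw [zero_add] at h4
    exact h4

theorem Conv.one {𝒰 : Filter ℕ} : Conv 𝒰 (fun _ => 1) 1 :=
  ⟨⟨1, fun n s t => by
    rw [one_mul]
    exact le_of_eq rfl⟩, fun x => tendsto_const_nhds⟩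

/-- limit of a family of units together with their inverses -/
theorem exists_limit_unit (𝒰 : Ultrafilter ℕ) (f : ℕ → CircleDeg1Liftˣ) {L C : ℝ}
    (hL : ∀ n, ∀ s t : ℝ, |f n t - f n s| ≤ L * |t - s|)
    (hL' : ∀ n, ∀ s t : ℝ, |(f n)⁻¹ t - (f n)⁻¹ s| ≤ L * |t - s|)
    (hC : ∀ n x, |f n x - x| ≤ C) :
    ∃ g : CircleDeg1Liftˣ, Conv 𝒰 f g ∧ Conv 𝒰 (fun n => (f n)⁻¹) g⁻¹ := by
  have hC' : ∀ n x, |(f n)⁻¹ x - x| ≤ C := by
    intro n x
    have := hC n ((f n)⁻¹ x)
    rw [units_apply_inv_apply, abs_sub_comm] at this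
    exact this
  have lim : ∀ (h : ℕ → ℝ) (x : ℝ), (∀ n, |h n - x| ≤ C) →
      ∃ y, Tendsto h 𝒰 (𝓝 y) := by
    intro h x hh
    have hc : IsCompact (Set.Icc (x - C) (x + C)) := isCompact_Icc
    have hmem : Set.Icc (x - C) (x + C) ∈ 𝒰.map h := by
      rw [Ultrafilter.mem_map]
      have : h ⁻¹' Set.Icc (x - C) (x + C) = Set.univ := by
        ext n
        simp only [Set.mem_preimage, Set.mem_Icc, Set.mem_univ, iff_true]
        have := abs_le.1 (hh n)
        constructor <;> linarith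
      rw [this]
      exact Filter.univ_mem
    obtain ⟨y, -, hy⟩ := hc.ultrafilter_le_nhds (𝒰.map h) (by
      rw [Filter.le_principal_iff]; exact hmem)
    exact ⟨y, hy⟩
  choose G hG using fun x => lim (fun n => f n x) x (fun n => hC n x)
  choose G' hG' using fun x => lim (fun n => (f n)⁻¹ x) x (fun n => hC' n x)
  have mono : ∀ (F : ℕ → CircleDeg1Liftˣ) (H : ℝ → ℝ),
      (∀ x, Tendsto (fun n => F n x) 𝒰 (𝓝 (H x))) → Monotone H := by
    intro F H hH s t hst
    exact le_of_tendsto_of_tendsto' (hH s) (hH t) fun n => (F n : CircleDeg1Lift).monotone hst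
  have deg : ∀ (F : ℕ → CircleDeg1Liftˣ) (H : ℝ → ℝ),
      (∀ x, Tendsto (fun n => F n x) 𝒰 (𝓝 (H x))) → ∀ x, H (x + 1) = H x + 1 := by
    intro F H hH x
    refine tendsto_nhds_unique (hH (x + 1)) ?_
    simp only [map_add_one]
    exact (hH x).add_const 1
  let g : CircleDeg1Lift := ⟨⟨G, mono f G hG⟩, deg f G hG⟩
  let g' : CircleDeg1Lift := ⟨⟨G', mono (fun n => (f n)⁻¹) G' hG'⟩, deg (fun n => (f n)⁻¹) G' hG'⟩
  have inv : ∀ (F F' : ℕ → CircleDeg1Liftˣ) (H H' : ℝ → ℝ),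
      (∀ n, ∀ s t : ℝ, |F n t - F n s| ≤ L * |t - s|) →
      (∀ x, Tendsto (fun n => F n x) 𝒰 (𝓝 (H x))) →
      (∀ x, Tendsto (fun n => F' n x) 𝒰 (𝓝 (H' x))) →
      (∀ n x, F n (F' n x) = x) → ∀ x, H (H' x) = x := by
    intro F F' H H' hLip hH hH' hFF x
    have h3 : Tendsto (fun n => H' x - F' n x) 𝒰 (𝓝 0) := by
      simpa using (hH' x).const_sub (H' x)
    have h2 : Tendsto (fun n => L * |H' x - F' n x|) 𝒰 (𝓝 0) := by
      simpa using (h3.abs.const_mul L)
    have h1 : Tendsto (fun n => F n (H' x) - F n (F' n x)) 𝒰 (𝓝 0) :=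
      squeeze_zero_norm (fun n => hLip n _ _) h2
    simp only [hFF] at h1
    have h4 : Tendsto (fun n => F n (H' x) - x) 𝒰 (𝓝 (H (H' x) - x)) := (hH (H' x)).sub_const x
    have := tendsto_nhds_unique h1 h4
    linarith
  have e1 : ∀ x, G (G' x) = x :=
    inv f (fun n => (f n)⁻¹) G G' hL hG hG' (fun n x => units_apply_inv_apply _ _)
  have e2 : ∀ x, G' (G x) = x :=
    inv (fun n => (f n)⁻¹) f G' G hL' hG' hG (fun n x => units_inv_apply_apply _ _)
  refine ⟨⟨g, g', ext e1, ext e2⟩, ⟨⟨L, hL⟩, hG⟩, ⟨⟨L, hL'⟩, hG'⟩⟩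

theorem Conv.lift {ι : Type} {𝒰 : Filter ℕ} {f : ℕ → ι → CircleDeg1Liftˣ}
    {g : ι → CircleDeg1Liftˣ}
    (h : ∀ j, Conv 𝒰 (fun n => f n j) (g j)) (h' : ∀ j, Conv 𝒰 (fun n => (f n j)⁻¹) (g j)⁻¹)
    (w : FreeGroup ι) : Conv 𝒰 (fun n => FreeGroup.lift (f n) w) (FreeGroup.lift g w) := by
  induction w using FreeGroup.induction_on with
  | C1 => simpa using Conv.one
  | of j => simpa using h j
  | inv_of j _ => simpa using h' j
  | mul x y hx hy => simpa using hx.mul hy

/-- Convergence passes translation numbers to the limit (one inequality). -/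
theorem Conv.le_translationNumber {𝒰 : Filter ℕ} [NeBot 𝒰] {f : ℕ → CircleDeg1Liftˣ}
    {g : CircleDeg1Liftˣ} (h : Conv 𝒰 f g) {τ : ℝ}
    (hτ : ∀ c < τ, ∀ᶠ n in 𝒰, c < translationNumber (f n)) : τ ≤ translationNumber g := by
  by_contra hcon
  push Not at hcon
  obtain ⟨r, hr1, hr2⟩ := exists_rat_btwn hcon
  obtain ⟨r', hr1', hr2'⟩ := exists_rat_btwn hr1
  have hq : (0:ℝ) < r.den := by exact_mod_cast r.den_pos
  have key : ∀ᶠ n in 𝒰, (r.num : ℝ) ≤ (f n ^ r.den : CircleDeg1Liftˣ) 0 := by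
    filter_upwards [hτ r hr2] with n hn
    have h1 : ((r.num : ℤ) : ℝ) < translationNumber ((f n : CircleDeg1Lift) ^ r.den) := by
      rw [translationNumber_pow]
      have : (r : ℝ) = r.num / r.den := by exact_mod_cast (Rat.num_div_den r).symm
      rw [this, div_lt_iff₀ hq] at hn
      linarith
    have h2 := lt_map_of_int_lt_translationNumber _ h1 0
    rw [zero_add] at h2
    exact h2.le
  have hconv : Conv 𝒰 (fun n => f n ^ r.den) (g ^ r.den) := by
    have : ∀ k : ℕ, Conv 𝒰 (fun n => f n ^ k) (g ^ k) := by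
      intro k
      induction k with
      | zero => simpa using Conv.one
      | succ k ih => simpa [pow_succ] using ih.mul h
    exact this _
  have h3 : (r.num : ℝ) ≤ (g ^ r.den : CircleDeg1Liftˣ) 0 :=
    ge_of_tendsto (hconv.2 0) key
  have h4 : ((r.num : ℤ) : ℝ) ≤ translationNumber ((g : CircleDeg1Lift) ^ r.den) := by
    apply le_translationNumber_of_add_int_le (x := 0)
    rw [zero_add]
    exact h3
  rw [translationNumber_pow] at h4
  have : (r : ℝ) = r.num / r.den := by exact_mod_cast (Rat.num_div_den r).symm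
  rw [this, lt_div_iff₀ hq] at hr1
  linarith

section
variable {ι : Type} [Fintype ι]

/-- all generators have the prescribed finite order modulo integer translations -/
def Adm (q : ι → ℕ) (p : ι → ℤ) (g : ι → CircleDeg1Liftˣ) : Prop :=
  ∀ j, g j ^ q j = T (p j)

theorem Adm.conj {q : ι → ℕ} {p : ι → ℤ} {g : ι → CircleDeg1Liftˣ} (h : Adm q p g)
    (Λ : CircleDeg1Liftˣ) : Adm q p (fun j => Λ * g j * Λ⁻¹) := by
  intro j
  have e : ∀ n : ℕ, (Λ * g j * Λ⁻¹) ^ n = Λ * g j ^ n * Λ⁻¹ := fun n => conj_pow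
  rw [e, h j, mul_inv_eq_iff_eq_mul]
  ext x
  show Λ ((p j : ℝ) + x) = (p j : ℝ) + Λ x
  rw [map_int_add]

theorem Adm.tau {q : ι → ℕ} {p : ι → ℤ} {g : ι → CircleDeg1Liftˣ} (h : Adm q p g) (j : ι)
    (hq : 0 < q j) : translationNumber (g j) = p j / q j := by
  have h1 : translationNumber (g j ^ q j : CircleDeg1Liftˣ) = p j := by
    rw [h j]; exact translationNumber_translate _
  rw [Units.val_pow_eq_pow_val, translationNumber_pow] at h1
  rw [eq_div_iff (by exact_mod_cast hq.ne'), mul_comm]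
  exact h1

theorem lift_conj (g : ι → CircleDeg1Liftˣ) (Λ : CircleDeg1Liftˣ) (w : FreeGroup ι) :
    FreeGroup.lift (fun j => Λ * g j * Λ⁻¹) w = Λ * FreeGroup.lift g w * Λ⁻¹ := by
  have : FreeGroup.lift (fun j => Λ * g j * Λ⁻¹)
      = (MulAut.conj Λ).toMonoidHom.comp (FreeGroup.lift g) := by
    ext j
    simp
  rw [this]
  simp

/-- uniform displacement bound -/
theorem disp_of_tau (f : CircleDeg1Lift) (t : ℝ) :
    |f t - t| ≤ |translationNumber f| + 1 := by
  have h1 := map_lt_add_translationNumber_add_one f t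
  have h2 : t + translationNumber f - 1 < f t := by
    by_contra hcon
    push Not at hcon
    have h3 : f t ≤ t + ((⌈translationNumber f⌉ - 1 : ℤ) : ℝ) := by
      push_cast
      have := Int.le_ceil (translationNumber f)
      linarith
    have h4 := translationNumber_le_of_le_add_int f h3
    push_cast at h4
    have := Int.ceil_lt_add_one (translationNumber f)
    linarith
  rw [abs_le]
  constructor
  · have := neg_abs_le (translationNumber f); linarith
  · have := le_abs_self (translationNumber f); linarith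

theorem exists_word_bound (C : ℝ) (w : FreeGroup ι) : ∃ D : ℝ, ∀ g : ι → CircleDeg1Liftˣ,
    (∀ j x, |g j x - x| ≤ C) → ∀ x, |FreeGroup.lift g w x - x| ≤ D := by
  induction w using FreeGroup.induction_on with
  | C1 => exact ⟨0, fun g _ x => by simp⟩
  | of j => exact ⟨C, fun g hg x => by simpa using hg j x⟩
  | inv_of j _ =>
    refine ⟨C, fun g hg x => ?_⟩
    have := hg j ((g j)⁻¹ x)
    rw [units_apply_inv_apply, abs_sub_comm] at this
    simpa using this
  | mul x y hx hy =>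
    obtain ⟨D, hD⟩ := hx
    obtain ⟨D', hD'⟩ := hy
    refine ⟨D + D', fun g hg t => ?_⟩
    have e : FreeGroup.lift g (x * y) t = FreeGroup.lift g x (FreeGroup.lift g y t) := by
      rw [map_mul]; rfl
    rw [e]
    calc |FreeGroup.lift g x (FreeGroup.lift g y t) - t|
        = |(FreeGroup.lift g x (FreeGroup.lift g y t) - FreeGroup.lift g y t)
            + (FreeGroup.lift g y t - t)| := by ring_nf
      _ ≤ _ := (abs_add_le _ _).trans (add_le_add (hD g hg _) (hD' g hg _))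

/-- **Existence of a maximiser.** -/
theorem exists_max (q : ι → ℕ) (p : ι → ℤ) (hq : ∀ j, 0 < q j) (w : FreeGroup ι) :
    ∃ g : ι → CircleDeg1Liftˣ, Adm q p g ∧ ∀ g' : ι → CircleDeg1Liftˣ, Adm q p g' →
      translationNumber (FreeGroup.lift g' w) ≤ translationNumber (FreeGroup.lift g w) := by
  classical
  obtain ⟨C, hC⟩ : ∃ C : ℝ, ∀ g : ι → CircleDeg1Liftˣ, Adm q p g → ∀ j x, |g j x - x| ≤ C := by
    refine ⟨∑ j, (|(p j : ℝ) / q j| + 1), fun g hg j x => ?_⟩
    have h1 := disp_of_tau (g j) x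
    rw [hg.tau j (hq j)] at h1
    refine h1.trans ?_
    exact Finset.single_le_sum (f := fun j => |(p j : ℝ) / q j| + 1)
      (fun i _ => by positivity) (Finset.mem_univ j)
  obtain ⟨D, hD⟩ := exists_word_bound C w
  set A : Set ℝ := {t | ∃ g : ι → CircleDeg1Liftˣ, Adm q p g ∧
    t = translationNumber (FreeGroup.lift g w)} with hA
  have hne : A.Nonempty := by
    refine ⟨_, fun j => T ((p j : ℝ) / q j), fun j => ?_, rfl⟩
    rw [translate_pow]
    congr 2
    have : (q j : ℝ) ≠ 0 := by exact_mod_cast (hq j).ne'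
    field_simp
  have hbdd : BddAbove A := by
    refine ⟨D, ?_⟩
    rintro t ⟨g, hg, rfl⟩
    apply translationNumber_le_of_le_add
    intro x
    have := abs_le.1 (hD g (hC g hg) x)
    linarith
  have hlt : ∀ n : ℕ, ∃ g : ι → CircleDeg1Liftˣ, Adm q p g ∧
      sSup A - 1 / ((n : ℝ) + 1) < translationNumber (FreeGroup.lift g w) := by
    intro n
    have h1 : sSup A - 1 / ((n : ℝ) + 1) < sSup A := by
      have : (0:ℝ) < 1 / ((n : ℝ) + 1) := by positivity
      linarith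
    obtain ⟨t, ⟨g, hg, rfl⟩, ht⟩ := exists_lt_of_lt_csSup hne h1
    exact ⟨g, hg, ht⟩
  choose g₀ hg₀ hlt₀ using hlt
  -- normalise
  have hLam : ∀ n, ∃ Λ : CircleDeg1Liftˣ, ∀ j : ι ⊕ ι, ∀ s t : ℝ,
      |(Λ * Sum.elim (g₀ n) (fun j => (g₀ n j)⁻¹) j * Λ⁻¹ : CircleDeg1Liftˣ) t
        - (Λ * Sum.elim (g₀ n) (fun j => (g₀ n j)⁻¹) j * Λ⁻¹ : CircleDeg1Liftˣ) s|
      ≤ ((Fintype.card (ι ⊕ ι) : ℝ) + 1) * |t - s| :=
    fun n => exists_conj_lipschitz (Sum.elim (g₀ n) (fun j => (g₀ n j)⁻¹))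
  choose Λ hΛ using hLam
  set g₁ : ℕ → ι → CircleDeg1Liftˣ := fun n j => Λ n * g₀ n j * (Λ n)⁻¹ with hg₁
  have hadm : ∀ n, Adm q p (g₁ n) := fun n => (hg₀ n).conj (Λ n)
  have hτ : ∀ n, translationNumber (FreeGroup.lift (g₁ n) w)
      = translationNumber (FreeGroup.lift (g₀ n) w) := by
    intro n
    rw [hg₁, lift_conj]
    exact translationNumber_conj_eq _ _
  obtain ⟨𝒰, h𝒰⟩ : ∃ 𝒰 : Ultrafilter ℕ, (𝒰 : Filter ℕ) ≤ atTop :=
    ⟨Ultrafilter.of atTop, Ultrafilter.of_le _⟩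
  have hlim : ∀ j, ∃ g : CircleDeg1Liftˣ, Conv 𝒰 (fun n => g₁ n j) g ∧
      Conv 𝒰 (fun n => (g₁ n j)⁻¹) g⁻¹ := by
    intro j
    refine exists_limit_unit 𝒰 (fun n => g₁ n j) (L := (Fintype.card (ι ⊕ ι) : ℝ) + 1)
      (C := C) (fun n s t => hΛ n (Sum.inl j) s t) (fun n s t => ?_)
      (fun n x => hC _ (hadm n) j x)
    have h1 := hΛ n (Sum.inr j) s t
    have h2 : (g₁ n j)⁻¹ = Λ n * (g₀ n j)⁻¹ * (Λ n)⁻¹ := by
      simp [hg₁, mul_assoc]
    rw [h2]
    exact h1
  choose g hg hg' using hlim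
  have hconv := Conv.lift hg hg' w
  refine ⟨g, fun j => ?_, fun g' hadm' => ?_⟩
  · have h1 := (Conv.lift hg hg' (FreeGroup.of j ^ q j)).2
    apply Units.ext
    ext x
    have h2 := h1 x
    have h3 : ∀ n, (FreeGroup.lift (g₁ n) (FreeGroup.of j ^ q j)) x = p j + x := by
      intro n
      rw [map_pow, FreeGroup.lift_apply_of, hadm n j]
      rfl
    simp only [h3] at h2
    have h4 := tendsto_nhds_unique h2 tendsto_const_nhds
    rw [map_pow, FreeGroup.lift_apply_of] at h4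
    exact h4
  · have h1 : sSup A ≤ translationNumber (FreeGroup.lift g w) := by
      refine hconv.le_translationNumber fun c hc => ?_
      have h2 : Tendsto (fun n : ℕ => sSup A - 1 / ((n : ℝ) + 1)) 𝒰 (𝓝 (sSup A)) := by
        have := (tendsto_one_div_add_atTop_nhds_zero_nat (𝕜 := ℝ)).mono_left h𝒰
        simpa using this.const_sub (sSup A)
      filter_upwards [h2.eventually (lt_mem_nhds hc)] with n hn
      rw [hτ]
      exact hn.trans (hlt₀ n)
    exact (le_csSup hbdd ⟨g', hadm', rfl⟩).trans h1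

end

end Pool.Agent.Helper88.Rot
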