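import Pool.Agent.Helper88.Rot.Level

/-!
Lipschitz coordinates and a point of differentiability.
-/

namespace Pool.Agent.Helper88.Rot

open CircleDeg1Lift Filter Topology MeasureTheory

/-- The perturbation property at a point of differentiability. -/
def PL' (θ : ℝ) : Prop := ∀ (m : ℕ) (S : Sys m θ) (z₀ : ℝ) (ρ : ℕ → ℝ),
  (∀ s < m, HasDerivAt (S.F s) (ρ s) z₀) → (∑ s ∈ Finset.range m, (S.σ s : ℝ) * ρ s) ≠ 0 →
  ∃ h : CircleDeg1Liftˣ, θ < translationNumber (W S.M S.σ h m)

theorem W_conj (M : ℕ → CircleDeg1Liftˣ) (σ : ℕ → ℤ) (h N : CircleDeg1Liftˣ) (s : ℕ) :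
    W (fun s => N * M s * N⁻¹) σ (N * h * N⁻¹) s = N * W M σ h s * N⁻¹ := by
  induction s with
  | zero => simp [W]
  | succ s ih =>
    rw [W, W, ih, conj_zpow]
    group

theorem PL_of_PL' {θ : ℝ} (hPL : PL' θ) : PL θ := by
  intro m S hσ hnc
  -- the coordinate
  set c : ℝ := (m : ℝ) + 1 with hc
  have hcpos : 0 < c := by positivity
  let N0 : CircleDeg1Lift :=
    { toFun := fun z => (z + ∑ s ∈ Finset.range m, S.F s z) / c
      monotone' := fun z z' hzz => by
        have : ∑ s ∈ Finset.range m, S.F s z ≤ ∑ s ∈ Finset.range m, S.F s z' :=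
          Finset.sum_le_sum fun s _ => S.mono s hzz
        exact div_le_div_of_nonneg_right (by linarith) hcpos.le
      map_add_one' := fun z => by
        show (z + 1 + ∑ s ∈ Finset.range m, S.F s (z + 1)) / c
          = (z + ∑ s ∈ Finset.range m, S.F s z) / c + 1
        simp only [S.deg, Finset.sum_add_distrib, Finset.sum_const, Finset.card_range,
          nsmul_eq_mul, mul_one]
        rw [hc]
        field_simp
        ring }
  have hN0 : ∀ z, N0 z = (z + ∑ s ∈ Finset.range m, S.F s z) / c := fun z => rfl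
  have hcont : Continuous (N0 : ℝ → ℝ) := by
    have : (N0 : ℝ → ℝ) = fun z => (z + ∑ s ∈ Finset.range m, S.F s z) / c := rfl
    rw [this]
    exact (continuous_id.add (continuous_finsetSum _ fun s _ => S.cont s)).div_const _
  have hinc : ∀ z z', z ≤ z' → ∀ s < m, S.F s z' - S.F s z ≤ c * (N0 z' - N0 z) := by
    intro z z' hzz s hs
    rw [hN0, hN0, ← sub_div, mul_div_cancel₀ _ hcpos.ne']
    have h1 : S.F s z' - S.F s z ≤ ∑ s ∈ Finset.range m, (S.F s z' - S.F s z) :=
      Finset.single_le_sum (f := fun s => S.F s z' - S.F s z)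
        (fun i _ => sub_nonneg.2 (S.mono i hzz)) (Finset.mem_range.2 hs)
    rw [Finset.sum_sub_distrib] at h1
    linarith
  have hinc' : ∀ z z', z ≤ z' → z' - z ≤ c * (N0 z' - N0 z) := by
    intro z z' hzz
    rw [hN0, hN0, ← sub_div, mul_div_cancel₀ _ hcpos.ne']
    have h1 : 0 ≤ ∑ s ∈ Finset.range m, (S.F s z' - S.F s z) :=
      Finset.sum_nonneg fun i _ => sub_nonneg.2 (S.mono i hzz)
    rw [Finset.sum_sub_distrib] at h1
    linarith
  have hinj : Function.Injective (N0 : ℝ → ℝ) := by
    intro z z' h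
    rcases le_total z z' with h1 | h1
    · have := hinc' z z' h1; rw [h, sub_self, mul_zero] at this; linarith
    · have := hinc' z' z h1; rw [h, sub_self, mul_zero] at this; linarith
  obtain ⟨N, hN⟩ : IsUnit N0 :=
    isUnit_iff_bijective.2 ⟨hinj, (continuous_iff_surjective _).1 hcont⟩
  let S' : Sys m θ :=
    { M := fun s => N * S.M s * N⁻¹
      σ := S.σ
      F := fun s x => S.F s (N⁻¹ x)
      hσ := S.hσ
      cont := fun s => (S.cont s).comp (unit_continuous _)
      mono := fun s => (S.mono s).comp (N⁻¹ : CircleDeg1Liftˣ).val.monotone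
      deg := fun s x => by simp only [map_add_one, S.deg]
      step := fun s x => by
        have e : (N⁻¹ : CircleDeg1Liftˣ) ((N * S.M s * N⁻¹ : CircleDeg1Liftˣ) x)
            = S.M s (N⁻¹ x) := by
          show (N⁻¹ : CircleDeg1Liftˣ) (N (S.M s (N⁻¹ x))) = _
          rw [units_inv_apply_apply]
        rw [e, S.step]
      fin := fun x => S.fin _ }
  have hLip : ∀ s < m, LipschitzWith (Real.toNNReal c) (S'.F s) := by
    intro s hs
    apply LipschitzWith.of_dist_le_mul
    have key : ∀ x y, x ≤ y → |S'.F s x - S'.F s y| ≤ c * |x - y| := by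
      intro x y hxy
      have h1 : (N⁻¹ : CircleDeg1Liftˣ) x ≤ (N⁻¹ : CircleDeg1Liftˣ) y :=
        (N⁻¹ : CircleDeg1Liftˣ).val.monotone hxy
      have h2 := hinc _ _ h1 s hs
      have h3 : N0 ((N⁻¹ : CircleDeg1Liftˣ) x) = x := by
        rw [← hN]; exact units_apply_inv_apply N x
      have h4 : N0 ((N⁻¹ : CircleDeg1Liftˣ) y) = y := by
        rw [← hN]; exact units_apply_inv_apply N y
      rw [h3, h4] at h2
      have h5 := S.mono s h1
      rw [abs_sub_comm, abs_sub_comm x, abs_of_nonneg (sub_nonneg.2 hxy)]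
      show |S.F s ((N⁻¹ : CircleDeg1Liftˣ) y) - S.F s ((N⁻¹ : CircleDeg1Liftˣ) x)| ≤ _
      rw [abs_of_nonneg (by linarith)]
      exact h2
    intro x y
    rw [Real.dist_eq, Real.dist_eq, Real.coe_toNNReal c hcpos.le]
    rcases le_total x y with h | h
    · exact key x y h
    · rw [abs_sub_comm, abs_sub_comm x]; exact key y x h
  -- a good point
  have hpt : ∃ z₀, (∀ s < m, DifferentiableAt ℝ (S'.F s) z₀) ∧
      (∑ s ∈ Finset.range m, (S.σ s : ℝ) * deriv (S'.F s) z₀) ≠ 0 := by
    by_contra hcon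
    push Not at hcon
    have hae : ∀ᵐ x : ℝ, ∀ s < m, DifferentiableAt ℝ (S'.F s) x := by
      rw [ae_all_iff]
      intro s
      by_cases hs : s < m
      · filter_upwards [(S'.mono s).ae_differentiableAt] with x hx _
        exact hx
      · exact Eventually.of_forall fun x h => absurd h hs
    obtain ⟨x, y, hxy⟩ := hnc
    set Ψ : ℝ → ℝ := fun x => ∑ s ∈ Finset.range m, (S.σ s : ℝ) * S'.F s x with hΨ
    have hder : ∀ᵐ x : ℝ, HasDerivAt Ψ 0 x := by
      filter_upwards [hae] with x hx
      have h1 : HasDerivAt Ψ (∑ s ∈ Finset.range m, (S.σ s : ℝ) * deriv (S'.F s) x) x := by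
        apply HasDerivAt.fun_sum
        intro s hs
        exact (hx s (Finset.mem_range.1 hs)).hasDerivAt.const_mul _
      rwa [hcon x hx] at h1
    have hΨLip : ∃ K : NNReal, LipschitzWith K Ψ := by
      have : ∀ n ≤ m, ∃ K : NNReal, LipschitzWith K
          (fun x => ∑ s ∈ Finset.range n, (S.σ s : ℝ) * S'.F s x) := by
        intro n
        induction n with
        | zero => intro _; exact ⟨0, by simp⟩
        | succ n ih =>
          intro hn
          obtain ⟨K, hK⟩ := ih (by omega)
          have h1 := hLip n (by omega)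
          have h2 : LipschitzWith (Real.toNNReal c) (fun x => (S.σ n : ℝ) * S'.F n x) := by
            apply LipschitzWith.of_dist_le_mul
            intro x y
            have h3 := h1.dist_le_mul x y
            rw [Real.dist_eq] at h3 ⊢
            rw [← mul_sub, abs_mul]
            have h4 : |(S.σ n : ℝ)| ≤ 1 := by
              rcases S.hσ n with h | h | h <;> rw [h] <;> simp
            calc _ ≤ 1 * |S'.F n x - S'.F n y| := mul_le_mul_of_nonneg_right h4 (abs_nonneg _)
              _ ≤ _ := by rw [one_mul]; exact h3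
          refine ⟨K + Real.toNNReal c, ?_⟩
          have := hK.add h2
          simpa only [Finset.sum_range_succ] using this
      exact this m le_rfl
    obtain ⟨K, hK⟩ := hΨLip
    set x' := N x with hx'
    set y' := N y with hy'
    have hAC : AbsolutelyContinuousOnInterval Ψ x' y' :=
      (hK.lipschitzOnWith (s := Set.uIcc x' y')).absolutelyContinuousOnInterval
    obtain ⟨C, hC⟩ := hAC.const_of_ae_hasDerivAt_zero (by
      filter_upwards [hder] with x hx _
      exact hx)
    have e1 : Ψ x' = ∑ s ∈ Finset.range m, (S.σ s : ℝ) * S.F s x := by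
      show ∑ s ∈ Finset.range m, (S.σ s : ℝ) * S.F s (N⁻¹ x') = _
      rw [hx', units_inv_apply_apply]
    have e2 : Ψ y' = ∑ s ∈ Finset.range m, (S.σ s : ℝ) * S.F s y := by
      show ∑ s ∈ Finset.range m, (S.σ s : ℝ) * S.F s (N⁻¹ y') = _
      rw [hy', units_inv_apply_apply]
    apply hxy
    rw [← e1, ← e2, hC x' Set.left_mem_uIcc, hC y' Set.right_mem_uIcc]
  obtain ⟨z₀, hd, hne⟩ := hpt
  obtain ⟨h, hh⟩ := hPL m S' z₀ (fun s => deriv (S'.F s) z₀) (fun s hs => (hd s hs).hasDerivAt) hne
  refine ⟨N⁻¹ * h * N, ?_⟩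
  have e : W S'.M S'.σ h m = N * W S.M S.σ (N⁻¹ * h * N) m * N⁻¹ := by
    rw [← W_conj]
    congr 1
    group
  rw [e] at hh
  have e2 : translationNumber ((N * W S.M S.σ (N⁻¹ * h * N) m * N⁻¹ : CircleDeg1Liftˣ)
      : CircleDeg1Lift) = translationNumber (W S.M S.σ (N⁻¹ * h * N) m : CircleDeg1Lift) :=
    translationNumber_conj_eq _ _
  rw [e2] at hh
  exact hh

end Pool.Agent.Helper88.Rot
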