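import Mathlib

/-!
Counting lemmas and the pigeonhole principle used in the badly approximable case.
-/

namespace Pool.Agent.Helper88.Rot

open Finset

/-- integers in an interval -/
theorem card_int_interval (T : Finset ℤ) (a b : ℝ) (hab : a ≤ b) (h : ∀ i ∈ T, a ≤ i ∧ i ≤ b) :
    (T.card : ℝ) ≤ b - a + 1 := by
  have hsub : T ⊆ Finset.Icc ⌈a⌉ ⌊b⌋ := by
    intro i hi
    rw [Finset.mem_Icc]
    exact ⟨Int.ceil_le.2 (h i hi).1, Int.le_floor.2 (h i hi).2⟩
  have h1 : T.card ≤ (⌊b⌋ + 1 - ⌈a⌉).toNat := by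
    have := Finset.card_le_card hsub
    rwa [Int.card_Icc] at this
  have h2 : (T.card : ℤ) ≤ max (⌊b⌋ + 1 - ⌈a⌉) 0 := by
    have : (T.card : ℤ) ≤ ((⌊b⌋ + 1 - ⌈a⌉).toNat : ℤ) := by exact_mod_cast h1
    rwa [Int.toNat_eq_max] at this
  have h3 : (T.card : ℝ) ≤ max ((⌊b⌋ : ℝ) + 1 - ⌈a⌉) 0 := by exact_mod_cast h2
  refine h3.trans (max_le ?_ (by linarith))
  have := Int.floor_le b
  have := Int.le_ceil a
  linarith

/-- number of naturals `i < G` with `|x i + y| ≤ R` -/
theorem card_lin (T : Finset ℕ) (x y R : ℝ) (hx : x ≠ 0) (hR : 0 ≤ R)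
    (h : ∀ i ∈ T, |x * i + y| ≤ R) : (T.card : ℝ) ≤ 2 * R / |x| + 1 := by
  have hx' : 0 < |x| := abs_pos.2 hx
  have key : ∀ i ∈ T, -y / x - R / |x| ≤ i ∧ (i : ℝ) ≤ -y / x + R / |x| := by
    intro i hi
    have h1 := h i hi
    have e : x * i + y = x * (i - -y / x) := by field_simp; ring
    rw [e, abs_mul, ← le_div_iff₀' hx', abs_le] at h1
    constructor <;> linarith [h1.1, h1.2]
  have h2 := card_int_interval (T.map Nat.castEmbedding) (-y / x - R / |x|) (-y / x + R / |x|)
    (by have : 0 ≤ R / |x| := by positivity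
        linarith) (by
      intro i hi
      rw [Finset.mem_map] at hi
      obtain ⟨k, hk, rfl⟩ := hi
      have := key k hk
      simpa using this)
  rw [Finset.card_map] at h2
  have e : -y / x + R / |x| - (-y / x - R / |x|) + 1 = 2 * R / |x| + 1 := by ring
  linarith

/-- the abstract pigeonhole principle -/
theorem pigeon {X Y : Type} (SX : Finset X) (SY : Finset Y) (A₁ A₂ c bX : X → ℝ)
    (eX : X → ℝ → ℝ → ℝ) (bY : Y → ℝ) (eY : Y → ℝ → ℝ → ℝ) (μ V b RL R K₂ : ℝ) (G : ℕ)
    (hG : 0 < G) (hV : 0 < V) (hμ0 : 0 < μ) (hb0 : 0 < b) (hRL : 0 ≤ RL) (hR : 0 ≤ R)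
    (hμ : ∀ x ∈ SX, μ ≤ max |A₁ x| |A₂ x|) (hbX : ∀ x ∈ SX, b ≤ |bX x|)
    (hbY : ∀ y ∈ SY, b ≤ |bY y|)
    (h1 : SX.card * (2 * RL / (μ * V) + 1 / G) ≤ K₂)
    (h2 : (SY.card + K₂) * (2 * R / b + 1 / G) < 1) :
    ∃ χ V₁ V₂ : ℝ, (0 ≤ χ ∧ χ ≤ 1) ∧ (V ≤ V₁ ∧ V₁ ≤ 2 * V) ∧ (V ≤ V₂ ∧ V₂ ≤ 2 * V) ∧
      (∀ y ∈ SY, R < |bY y * χ + eY y V₁ V₂|) ∧
      (∀ x ∈ SX, RL < |A₁ x * V₁ + A₂ x * V₂ + c x| ∨ R < |bX x * χ + eX x V₁ V₂|) := by
  classical
  have hG' : (0 : ℝ) < G := by exact_mod_cast hG
  set W : ℕ → ℝ := fun i => V + V * (i / G) with hW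
  -- step 1: choice of `V₁, V₂`
  have step1 : ∃ p ∈ (range G ×ˢ range G), ((SX.filter fun x =>
      |A₁ x * W p.1 + A₂ x * W p.2 + c x| ≤ RL).card : ℝ) ≤ K₂ := by
    have hcount : ∀ x ∈ SX, (((range G ×ˢ range G).filter fun p : ℕ × ℕ =>
        |A₁ x * W p.1 + A₂ x * W p.2 + c x| ≤ RL).card : ℝ)
        ≤ G * (2 * RL / (μ * V) * G + 1) := by
      intro x hx
      rcases le_max_iff.1 (hμ x hx) with hA | hA
      · have hA0 : 0 < |A₁ x| := hμ0.trans_le hA
        have e1 : ((range G ×ˢ range G).filter fun p : ℕ × ℕ =>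
          |A₁ x * W p.1 + A₂ x * W p.2 + c x| ≤ RL).card
          = ∑ k ∈ range G, ((range G).filter fun i : ℕ =>
            |A₁ x * W i + A₂ x * W k + c x| ≤ RL).card := by
          rw [Finset.card_filter, Finset.sum_product_right]
          refine Finset.sum_congr rfl fun k _ => ?_
          rw [Finset.card_filter]
        rw [e1]
        push_cast
        calc ∑ k ∈ range G, (((range G).filter fun i : ℕ =>
            |A₁ x * W i + A₂ x * W k + c x| ≤ RL).card : ℝ)
            ≤ ∑ k ∈ range G, (2 * RL / (μ * V) * G + 1) := by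
              refine Finset.sum_le_sum fun k _ => ?_
              have h3 := card_lin ((range G).filter fun i : ℕ =>
                |A₁ x * W i + A₂ x * W k + c x| ≤ RL) (A₁ x * V / G)
                (A₁ x * V + A₂ x * W k + c x) RL (by
                  have : A₁ x ≠ 0 := abs_pos.1 hA0
                  positivity) hRL (by
                  intro i hi
                  have := (Finset.mem_filter.1 hi).2
                  have e : A₁ x * V / G * i + (A₁ x * V + A₂ x * W k + c x)
                      = A₁ x * W i + A₂ x * W k + c x := by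
                    simp only [hW]; ring
                  rw [e]; exact this)
              refine h3.trans ?_
              have e2 : |A₁ x * V / G| = |A₁ x| * V / G := by
                rw [abs_div, abs_mul, abs_of_pos hV, abs_of_pos hG']
              rw [e2]
              have : 2 * RL / (|A₁ x| * V / G) ≤ 2 * RL / (μ * V) * G := by
                have e3 : 2 * RL / (|A₁ x| * V / G) = 2 * RL / (|A₁ x| * V) * G := by
                  field_simp
                rw [e3]
                gcongr
              linarith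
          _ = G * (2 * RL / (μ * V) * G + 1) := by
              rw [Finset.sum_const, nsmul_eq_mul, Finset.card_range]
      · have hA0 : 0 < |A₂ x| := hμ0.trans_le hA
        have e1 : ((range G ×ˢ range G).filter fun p : ℕ × ℕ =>
          |A₁ x * W p.1 + A₂ x * W p.2 + c x| ≤ RL).card
          = ∑ k ∈ range G, ((range G).filter fun i : ℕ =>
            |A₁ x * W k + A₂ x * W i + c x| ≤ RL).card := by
          rw [Finset.card_filter, Finset.sum_product]
          refine Finset.sum_congr rfl fun k _ => ?_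
          rw [Finset.card_filter]
        rw [e1]
        push_cast
        calc ∑ k ∈ range G, (((range G).filter fun i : ℕ =>
            |A₁ x * W k + A₂ x * W i + c x| ≤ RL).card : ℝ)
            ≤ ∑ k ∈ range G, (2 * RL / (μ * V) * G + 1) := by
              refine Finset.sum_le_sum fun k _ => ?_
              have h3 := card_lin ((range G).filter fun i : ℕ =>
                |A₁ x * W k + A₂ x * W i + c x| ≤ RL) (A₂ x * V / G)
                (A₁ x * W k + A₂ x * V + c x) RL (by
                  have : A₂ x ≠ 0 := abs_pos.1 hA0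
                  positivity) hRL (by
                  intro i hi
                  have := (Finset.mem_filter.1 hi).2
                  have e : A₂ x * V / G * i + (A₁ x * W k + A₂ x * V + c x)
                      = A₁ x * W k + A₂ x * W i + c x := by
                    simp only [hW]; ring
                  rw [e]; exact this)
              refine h3.trans ?_
              have e2 : |A₂ x * V / G| = |A₂ x| * V / G := by
                rw [abs_div, abs_mul, abs_of_pos hV, abs_of_pos hG']
              rw [e2]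
              have : 2 * RL / (|A₂ x| * V / G) ≤ 2 * RL / (μ * V) * G := by
                have e3 : 2 * RL / (|A₂ x| * V / G) = 2 * RL / (|A₂ x| * V) * G := by
                  field_simp
                rw [e3]
                gcongr
              linarith
          _ = G * (2 * RL / (μ * V) * G + 1) := by
              rw [Finset.sum_const, nsmul_eq_mul, Finset.card_range]
    by_contra hcon
    push Not at hcon
    have hs1 : (G : ℝ) * G * K₂ < ∑ p ∈ range G ×ˢ range G, ((SX.filter fun x =>
      |A₁ x * W p.1 + A₂ x * W p.2 + c x| ≤ RL).card : ℝ) := by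
      have hne : (range G ×ˢ range G).Nonempty := by
        rw [Finset.nonempty_product]
        exact ⟨Finset.nonempty_range_iff.2 hG.ne', Finset.nonempty_range_iff.2 hG.ne'⟩
      calc (G : ℝ) * G * K₂ = ∑ p ∈ range G ×ˢ range G, K₂ := by
            simp [Finset.card_product]
        _ < _ := Finset.sum_lt_sum_of_nonempty hne hcon
    have hs2 : ∑ p ∈ range G ×ˢ range G, ((SX.filter fun x =>
      |A₁ x * W p.1 + A₂ x * W p.2 + c x| ≤ RL).card : ℝ)
      = ∑ x ∈ SX, (((range G ×ˢ range G).filter fun p : ℕ × ℕ =>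
        |A₁ x * W p.1 + A₂ x * W p.2 + c x| ≤ RL).card : ℝ) := by
      have e1 : ∀ p : ℕ × ℕ, ((SX.filter fun x =>
        |A₁ x * W p.1 + A₂ x * W p.2 + c x| ≤ RL).card : ℝ)
        = ∑ x ∈ SX, if |A₁ x * W p.1 + A₂ x * W p.2 + c x| ≤ RL then (1 : ℝ) else 0 := by
        intro p
        rw [Finset.card_filter]; push_cast; rfl
      have e2 : ∀ x, (((range G ×ˢ range G).filter fun p : ℕ × ℕ =>
        |A₁ x * W p.1 + A₂ x * W p.2 + c x| ≤ RL).card : ℝ)
        = ∑ p ∈ range G ×ˢ range G,
          if |A₁ x * W p.1 + A₂ x * W p.2 + c x| ≤ RL then (1 : ℝ) else 0 := by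
        intro x
        rw [Finset.card_filter]; push_cast; rfl
      simp only [e1, e2]
      exact Finset.sum_comm
    have hs3 : ∑ x ∈ SX, (((range G ×ˢ range G).filter fun p : ℕ × ℕ =>
        |A₁ x * W p.1 + A₂ x * W p.2 + c x| ≤ RL).card : ℝ)
        ≤ SX.card * (G * (2 * RL / (μ * V) * G + 1)) := by
      calc _ ≤ ∑ x ∈ SX, ((G : ℝ) * (2 * RL / (μ * V) * G + 1)) := Finset.sum_le_sum hcount
        _ = _ := by rw [Finset.sum_const, nsmul_eq_mul]
    have hs4 : SX.card * (G * (2 * RL / (μ * V) * G + 1)) ≤ G * G * K₂ := by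
      have := mul_le_mul_of_nonneg_left h1 (by positivity : (0:ℝ) ≤ G * G)
      calc SX.card * (G * (2 * RL / (μ * V) * G + 1))
          = (G:ℝ) * G * (SX.card * (2 * RL / (μ * V) + 1 / G)) := by field_simp
        _ ≤ _ := this
    linarith
  obtain ⟨p, hp, hpK⟩ := step1
  rw [Finset.mem_product, Finset.mem_range, Finset.mem_range] at hp
  have hWmem : ∀ i < G, V ≤ W i ∧ W i ≤ 2 * V := by
    intro i hi
    have h3 : (i : ℝ) / G ≤ 1 := by
      rw [div_le_one hG']; exact_mod_cast hi.le
    have h4 : 0 ≤ (i : ℝ) / G := by positivity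
    simp only [hW]
    constructor <;> nlinarith
  -- step 2: choice of `χ`
  set SX' := SX.filter fun x => |A₁ x * W p.1 + A₂ x * W p.2 + c x| ≤ RL with hSX'
  have step2 : ∃ i ∈ range G, (∀ y ∈ SY, R < |bY y * (i / G) + eY y (W p.1) (W p.2)|) ∧
      (∀ x ∈ SX', R < |bX x * (i / G) + eX x (W p.1) (W p.2)|) := by
    by_contra hcon
    push Not at hcon
    have hcov : range G ⊆ (SY.biUnion fun y => (range G).filter fun i : ℕ =>
        |bY y * (i / G) + eY y (W p.1) (W p.2)| ≤ R) ∪ (SX'.biUnion fun x =>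
        (range G).filter fun i : ℕ => |bX x * (i / G) + eX x (W p.1) (W p.2)| ≤ R) := by
      intro i hi
      rw [Finset.mem_union, Finset.mem_biUnion, Finset.mem_biUnion]
      by_cases hy : ∀ y ∈ SY, R < |bY y * (i / G) + eY y (W p.1) (W p.2)|
      · obtain ⟨x, hx, hx'⟩ := hcon i hi hy
        exact Or.inr ⟨x, hx, Finset.mem_filter.2 ⟨hi, hx'⟩⟩
      · push Not at hy
        obtain ⟨y, hy, hy'⟩ := hy
        exact Or.inl ⟨y, hy, Finset.mem_filter.2 ⟨hi, hy'⟩⟩
    have hlin : ∀ (b' e' : ℝ), b ≤ |b'| → (((range G).filter fun i : ℕ =>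
        |b' * (i / G) + e'| ≤ R).card : ℝ) ≤ 2 * R / b * G + 1 := by
      intro b' e' hb'
      have hb'' : 0 < |b'| := hb0.trans_le hb'
      have h3 := card_lin ((range G).filter fun i : ℕ => |b' * (i / G) + e'| ≤ R) (b' / G) e' R
        (by have : b' ≠ 0 := abs_pos.1 hb''
            positivity) hR (by
          intro i hi
          have := (Finset.mem_filter.1 hi).2
          have e : b' / G * i + e' = b' * (i / G) + e' := by ring
          rw [e]; exact this)
      refine h3.trans ?_
      have e2 : |b' / G| = |b'| / G := by rw [abs_div, abs_of_pos hG']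
      rw [e2]
      have : 2 * R / (|b'| / G) ≤ 2 * R / b * G := by
        have e3 : 2 * R / (|b'| / G) = 2 * R / |b'| * G := by field_simp
        rw [e3]
        gcongr
      linarith
    have hcard := (Finset.card_le_card hcov).trans (Finset.card_union_le _ _)
    rw [Finset.card_range] at hcard
    have hcard' : (G : ℝ) ≤ ((SY.biUnion fun y => (range G).filter fun i : ℕ =>
        |bY y * (i / G) + eY y (W p.1) (W p.2)| ≤ R).card : ℝ) + ((SX'.biUnion fun x =>
        (range G).filter fun i : ℕ => |bX x * (i / G) + eX x (W p.1) (W p.2)| ≤ R).card : ℝ) := by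
      exact_mod_cast hcard
    have b1 : ((SY.biUnion fun y => (range G).filter fun i : ℕ =>
        |bY y * (i / G) + eY y (W p.1) (W p.2)| ≤ R).card : ℝ)
        ≤ SY.card * (2 * R / b * G + 1) := by
      calc _ ≤ ((∑ y ∈ SY, ((range G).filter fun i : ℕ =>
            |bY y * (i / G) + eY y (W p.1) (W p.2)| ≤ R).card : ℕ) : ℝ) := by
            exact_mod_cast Finset.card_biUnion_le
        _ = ∑ y ∈ SY, (((range G).filter fun i : ℕ =>
            |bY y * (i / G) + eY y (W p.1) (W p.2)| ≤ R).card : ℝ) := by push_cast; rfl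
        _ ≤ ∑ y ∈ SY, (2 * R / b * G + 1) :=
            Finset.sum_le_sum fun y hy => hlin _ _ (hbY y hy)
        _ = _ := by rw [Finset.sum_const, nsmul_eq_mul]
    have b2 : ((SX'.biUnion fun x => (range G).filter fun i : ℕ =>
        |bX x * (i / G) + eX x (W p.1) (W p.2)| ≤ R).card : ℝ)
        ≤ SX'.card * (2 * R / b * G + 1) := by
      calc _ ≤ ((∑ x ∈ SX', ((range G).filter fun i : ℕ =>
            |bX x * (i / G) + eX x (W p.1) (W p.2)| ≤ R).card : ℕ) : ℝ) := by
            exact_mod_cast Finset.card_biUnion_le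
        _ = ∑ x ∈ SX', (((range G).filter fun i : ℕ =>
            |bX x * (i / G) + eX x (W p.1) (W p.2)| ≤ R).card : ℝ) := by push_cast; rfl
        _ ≤ ∑ x ∈ SX', (2 * R / b * G + 1) :=
            Finset.sum_le_sum fun x hx => hlin _ _ (hbX x (Finset.mem_filter.1 hx).1)
        _ = _ := by rw [Finset.sum_const, nsmul_eq_mul]
    have hpos : 0 ≤ 2 * R / b * G + 1 := by positivity
    have b3 : (SX'.card : ℝ) * (2 * R / b * G + 1) ≤ K₂ * (2 * R / b * G + 1) :=
      mul_le_mul_of_nonneg_right hpK hpos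
    have b4 : (SY.card + K₂) * (2 * R / b * G + 1) < G := by
      have := mul_lt_mul_of_pos_right h2 hG'
      calc (SY.card + K₂) * (2 * R / b * G + 1)
          = (SY.card + K₂) * (2 * R / b + 1 / G) * G := by field_simp
        _ < 1 * G := this
        _ = G := one_mul _
    nlinarith
  obtain ⟨i, hi, hiY, hiX⟩ := step2
  rw [Finset.mem_range] at hi
  refine ⟨(i : ℝ) / G, W p.1, W p.2, ⟨by positivity, ?_⟩, hWmem _ hp.1, hWmem _ hp.2, hiY, ?_⟩
  · rw [div_le_one hG']; exact_mod_cast hi.le
  · intro x hx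
    by_cases hL : |A₁ x * W p.1 + A₂ x * W p.2 + c x| ≤ RL
    · exact Or.inr (hiX x (Finset.mem_filter.2 ⟨hx, hL⟩))
    · exact Or.inl (not_le.1 hL)

end Pool.Agent.Helper88.Rot
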