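import Pool.Agent.Helper88.Rot.Tents

/-!
Sequences of upper fractions and the limit of the inverses.
-/

namespace Pool.Agent.Helper88.Rot

open CircleDeg1Lift Filter Topology Finset

/-- reduced upper fractions of bounded quality and arbitrarily good error -/
theorem exists_upper {θ : ℝ} (hθ : Irrational θ) (η : ℝ) (hη : 0 < η) :
    ∃ (Q : ℕ) (P : ℤ), 0 < Q ∧ IsCoprime P (Q : ℤ) ∧ 0 < P - Q * θ ∧ P - Q * θ < η ∧
      Q * (P - Q * θ) ≤ 1 := by
  obtain ⟨N, hN⟩ := exists_nat_gt (1 / η)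
  obtain ⟨q, p, hq, hgood⟩ := exists_good hθ (N + 1)
  obtain ⟨hq0, hcop, herr⟩ := hgood
  have hq0' : (0 : ℝ) < q := by exact_mod_cast hq0
  have hqN : (N : ℝ) + 1 ≤ q := by exact_mod_cast hq
  have hqη : 1 < q * η := by
    rw [div_lt_iff₀ hη] at hN
    nlinarith
  have hne : (q : ℝ) * θ - p ≠ 0 := by
    have h1 : Irrational ((q : ℝ) * θ) := hθ.natCast_mul hq0.ne'
    intro h
    exact h1.ne_int p (by linarith)
  rcases lt_or_gt_of_ne hne with h | h
  · -- upper fraction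
    rw [abs_of_neg h] at herr
    refine ⟨q, p, hq0, hcop, by linarith, ?_, by linarith⟩
    by_contra hcon
    push Not at hcon
    have : (p - q * θ) * q ≥ η * q := mul_le_mul_of_nonneg_right hcon hq0'.le
    linarith
  · -- lower fraction: take the companion
    rw [abs_of_pos h] at herr
    obtain ⟨a, b, hab⟩ := hcop
    -- a * p + b * q = 1
    have hq0z : (0 : ℤ) < q := by exact_mod_cast hq0
    -- `Q ≡ -a (mod q)`, `1 ≤ Q ≤ q`
    obtain ⟨Q, hQ1, hQ2, c, hc⟩ : ∃ Q : ℤ, 1 ≤ Q ∧ Q ≤ q ∧ ∃ c, Q = -a + q * c := by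
      refine ⟨(-a - 1) % q + 1, ?_, ?_, - ((-a - 1) / q), ?_⟩
      · have := Int.emod_nonneg (-a - 1) hq0z.ne'
        omega
      · have := Int.emod_lt_of_pos (-a - 1) hq0z
        omega
      · have := Int.emod_add_mul_ediv (-a - 1) q
        have e : (q : ℤ) * -((-a - 1) / q) = -(q * ((-a - 1) / q)) := by ring
        rw [e]
        omega
    obtain ⟨Qn, hQn⟩ := Int.eq_ofNat_of_zero_le (by omega : 0 ≤ Q)
    -- P q - p Q = 1
    obtain ⟨P, hP⟩ : ∃ P : ℤ, P * q - p * Q = 1 := by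
      refine ⟨b + p * c, ?_⟩
      rw [hc]
      linear_combination hab
    have hQR : (1 : ℝ) ≤ Qn := by
      have : (1 : ℤ) ≤ Qn := by rw [← hQn]; exact hQ1
      exact_mod_cast this
    have hQR' : (Qn : ℝ) ≤ q := by
      have : (Qn : ℤ) ≤ q := by rw [← hQn]; exact hQ2
      exact_mod_cast this
    have hPR : (P : ℝ) * q - p * Qn = 1 := by
      have : P * q - p * (Qn : ℤ) = 1 := by rw [← hQn]; exact hP
      exact_mod_cast this
    have e : ((P : ℝ) - Qn * θ) * q = 1 - Qn * (q * θ - p) := by linarith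
    have h1 : Qn * (q * θ - p) ≤ q * (q * θ - p) := mul_le_mul_of_nonneg_right hQR' h.le
    have h2 : 0 < Qn * (q * θ - p) := mul_pos (by linarith) h
    have h3 : 0 < ((P : ℝ) - Qn * θ) * q := by rw [e]; nlinarith
    have h4 : 0 < (P : ℝ) - Qn * θ := pos_of_mul_pos_left h3 hq0'.le
    have h5 : ((P : ℝ) - Qn * θ) * q < 1 := by rw [e]; linarith
    refine ⟨Qn, P, by exact_mod_cast (by linarith : (0 : ℝ) < Qn), ?_, h4, ?_, ?_⟩
    · refine ⟨q, -p, ?_⟩
      rw [← hQn]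
      linarith
    · by_contra hcon
      push Not at hcon
      have : (P - Qn * θ) * q ≥ η * q := mul_le_mul_of_nonneg_right hcon hq0'.le
      linarith
    · have : (Qn : ℝ) * (P - Qn * θ) ≤ q * (P - Qn * θ) := mul_le_mul_of_nonneg_right hQR' h4.le
      linarith

theorem exists_upper_large {θ : ℝ} (hθ : Irrational θ) (j : ℕ) :
    ∃ (Q : ℕ) (P : ℤ), j < Q ∧ 0 < Q ∧ IsCoprime P (Q : ℤ) ∧ 0 < P - Q * θ ∧
      Q * (P - Q * θ) ≤ 1 := by
  -- lower bound for small denominators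
  have h1 : ∃ c > 0, ∀ Q < j + 1, 0 < Q → ∀ P : ℤ, 0 < P - Q * θ → c ≤ P - Q * θ := by
    refine exists_min_pos (fun Q c => 0 < Q → ∀ P : ℤ, 0 < P - Q * θ → c ≤ P - Q * θ)
      (fun Q d d' _ hdd h hQ P hP => hdd.trans (h hQ P hP)) (j + 1) fun Q _ => ?_
    by_cases hQ : 0 < Q
    · have hpos : 0 < ((⌈Q * θ⌉ : ℝ) - Q * θ) := by
        have h2 := Int.le_ceil ((Q : ℝ) * θ)
        rcases h2.eq_or_lt with h3 | h3
        · exfalso
          have : Irrational ((Q : ℝ) * θ) := hθ.natCast_mul hQ.ne'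
          exact this ⟨(⌈Q * θ⌉ : ℤ), by rw [h3]; simp⟩
        · linarith
      refine ⟨_, hpos, fun _ P hP => ?_⟩
      have : ⌈(Q : ℝ) * θ⌉ ≤ P := Int.ceil_le.2 (by linarith)
      have : (⌈(Q : ℝ) * θ⌉ : ℝ) ≤ P := by exact_mod_cast this
      linarith
    · exact ⟨1, one_pos, fun h => absurd h hQ⟩
  obtain ⟨c, hc, hc'⟩ := h1
  obtain ⟨Q, P, hQ, hcop, hpos, hlt, hle⟩ := exists_upper hθ c hc
  refine ⟨Q, P, ?_, hQ, hcop, hpos, hle⟩
  by_contra hcon
  push Not at hcon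
  have := hc' Q (by omega) hQ P hpos
  linarith

/-- badly approximable -/
def BA (θ : ℝ) : Prop := ∃ c : ℝ, 0 < c ∧ ∀ (q : ℕ) (p : ℤ), 0 < q → c ≤ q * |q * θ - p|

theorem irrational_limit {θ : ℝ} (hBA : BA θ) (𝒰 : Ultrafilter ℕ)
    (h𝒰 : (𝒰 : Filter ℕ) ≤ atTop) (Q : ℕ → ℕ) (P Pb : ℕ → ℤ) (hjQ : ∀ j, j < Q j)
    (hδ : ∀ j, 0 < P j - Q j * θ) (hδ' : ∀ j, Q j * (P j - Q j * θ) ≤ 1)
    (hPb : ∀ j, P j * Pb j ≡ 1 [ZMOD Q j]) {α : ℝ}
    (hα : Tendsto (fun j => (Pb j : ℝ) / Q j) 𝒰 (𝓝 α)) : Irrational α := by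
  obtain ⟨c, hc, hBA'⟩ := hBA
  rintro ⟨r, hr⟩
  obtain ⟨b, hb⟩ : ∃ b : ℕ, b = r.den := ⟨_, rfl⟩
  obtain ⟨a, ha⟩ : ∃ a : ℤ, a = r.num := ⟨_, rfl⟩
  have hb0 : 0 < b := hb ▸ r.den_pos
  have hb0' : (0 : ℝ) < b := by exact_mod_cast hb0
  have hα' : b * α = a := by
    rw [← hr, hb, ha]
    have : (r : ℝ) = r.num / r.den := by exact_mod_cast (Rat.num_div_den r).symm
    rw [this]
    have : (r.den : ℝ) ≠ 0 := by exact_mod_cast r.den_pos.ne'
    field_simp
  have ev1 : ∀ᶠ j in (𝒰 : Filter ℕ), |(Pb j : ℝ) / Q j - α| < min (1 / (b : ℝ)) (c / (2 * ((b : ℝ) + 1) * b)) := by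
    have h1 : Tendsto (fun j => |(Pb j : ℝ) / Q j - α|) 𝒰 (𝓝 0) := by
      have := (hα.sub_const α).abs
      simpa using this
    exact h1.eventually (gt_mem_nhds (by positivity))
  have ev2 : ∀ᶠ j : ℕ in (𝒰 : Filter ℕ), b ≤ j := h𝒰 (eventually_ge_atTop b)
  obtain ⟨j, hj1, hj2⟩ := (ev1.and ev2).exists
  have hQ : 0 < Q j := by have := hjQ j; omega
  have hQ' : (0 : ℝ) < Q j := by exact_mod_cast hQ
  have hQz : (0 : ℤ) < Q j := by exact_mod_cast hQ
  obtain ⟨d, hd⟩ : ∃ d : ℤ, d = b * Pb j - a * Q j := ⟨_, rfl⟩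
  have hdR : (d : ℝ) = Q j * (b * ((Pb j : ℝ) / Q j - α)) := by
    rw [hd]; push_cast
    rw [← hα']
    field_simp
  have hdabs : |(d : ℝ)| = Q j * (b * |(Pb j : ℝ) / Q j - α|) := by
    rw [hdR, abs_mul, abs_mul, abs_of_pos hQ', abs_of_pos hb0']
  have h1 : |(Pb j : ℝ) / Q j - α| < 1 / b := hj1.trans_le (min_le_left _ _)
  have h2 : |(Pb j : ℝ) / Q j - α| < c / (2 * (b + 1) * b) := hj1.trans_le (min_le_right _ _)
  have hd1 : |(d : ℝ)| ≤ Q j := by
    rw [hdabs]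
    have : (b : ℝ) * |(Pb j : ℝ) / Q j - α| ≤ 1 := by
      rw [lt_div_iff₀ hb0'] at h1
      linarith
    calc (Q j : ℝ) * (b * |(Pb j : ℝ) / Q j - α|) ≤ Q j * 1 := mul_le_mul_of_nonneg_left this hQ'.le
      _ = Q j := mul_one _
  have hd0 : d ≠ 0 := by
    intro h0
    rw [hd] at h0
    have h3 : (Q j : ℤ) ∣ b * Pb j := ⟨a, by linarith⟩
    obtain ⟨e, he⟩ := (hPb j).dvd
    have h4 : (Q j : ℤ) ∣ b := by
      obtain ⟨f, hf⟩ := h3
      -- 1 - P Pb = Q e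
      refine ⟨b * e + f * P j, ?_⟩
      linear_combination (b : ℤ) * he + P j * hf
    have h5 := Int.le_of_dvd (by exact_mod_cast hb0) h4
    have h6 : Q j ≤ b := by exact_mod_cast h5
    have := hjQ j
    omega
  obtain ⟨e, he⟩ := (hPb j).dvd
  -- 1 - P Pb = Q e, so P d = b + Q l
  obtain ⟨l, hl⟩ : ∃ l : ℤ, P j * d = b + Q j * l := by
    refine ⟨-(b * e) - a * P j, ?_⟩
    rw [hd]
    have : P j * Pb j = 1 - Q j * e := by linarith
    calc P j * (b * Pb j - a * Q j) = b * (P j * Pb j) - a * P j * Q j := by ring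
      _ = b * (1 - Q j * e) - a * P j * Q j := by rw [this]
      _ = _ := by ring
  have hlR : (P j : ℝ) * d = b + Q j * l := by exact_mod_cast hl
  have hkey : Q j * ((d : ℝ) * θ - l) = b - d * (P j - Q j * θ) := by
    linarith
  have hbound : Q j * |(d : ℝ) * θ - l| ≤ b + 1 := by
    have h0 : Q j * |(d : ℝ) * θ - l| = |Q j * ((d : ℝ) * θ - l)| := by
      rw [abs_mul, abs_of_pos hQ']
    rw [h0, hkey]
    have h3 := abs_sub (b : ℝ) (d * (P j - Q j * θ))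
    rw [abs_of_pos hb0', abs_mul, abs_of_pos (hδ j)] at h3
    have h4 : |(d : ℝ)| * (P j - Q j * θ) ≤ Q j * (P j - Q j * θ) :=
      mul_le_mul_of_nonneg_right hd1 (hδ j).le
    have := hδ' j
    linarith
  -- contradiction
  have hBA1 : c ≤ |(d : ℝ)| * |(d : ℝ) * θ - l| := by
    rcases lt_or_gt_of_ne hd0 with h0 | h0
    · obtain ⟨n, hn⟩ := Int.eq_ofNat_of_zero_le (by omega : 0 ≤ -d)
      have := hBA' n (-l) (by omega)
      have hnR : (n : ℝ) = -d := by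
        have : ((n : ℤ) : ℝ) = ((-d : ℤ) : ℝ) := by rw [hn]
        push_cast at this
        exact this
      rw [hnR] at this
      push_cast at this
      have e1 : -(d : ℝ) * θ - -(l : ℝ) = -((d : ℝ) * θ - l) := by ring
      rw [e1, abs_neg] at this
      have e2 : |(d : ℝ)| = -d := abs_of_neg (by exact_mod_cast h0)
      rw [e2]
      exact this
    · obtain ⟨n, hn⟩ := Int.eq_ofNat_of_zero_le (by omega : 0 ≤ d)
      have := hBA' n l (by omega)
      have hnR : (n : ℝ) = d := by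
        have : ((n : ℤ) : ℝ) = ((d : ℤ) : ℝ) := by rw [hn]
        exact_mod_cast this
      rw [hnR] at this
      have e2 : |(d : ℝ)| = d := abs_of_pos (by exact_mod_cast h0)
      rw [e2]
      exact this
  have h3 : |(d : ℝ)| * |(d : ℝ) * θ - l| = (b * |(Pb j : ℝ) / Q j - α|) * (Q j * |(d : ℝ) * θ - l|) := by
    rw [hdabs]; ring
  rw [h3] at hBA1
  have h4 : (b * |(Pb j : ℝ) / Q j - α|) * (Q j * |(d : ℝ) * θ - l|)
      ≤ (b * (c / (2 * (b + 1) * b))) * (b + 1) :=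
    mul_le_mul (mul_le_mul_of_nonneg_left h2.le hb0'.le) hbound (by positivity) (by positivity)
  have h5 : (b * (c / (2 * ((b : ℝ) + 1) * b))) * (b + 1) = c / 2 := by
    field_simp
  linarith

end Pool.Agent.Helper88.Rot
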