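import Pool.Agent.Helper88.Rot.SlotSum

/-!
One slot of the dynamics, in terms of the limit phases.
-/

namespace Pool.Agent.Helper88.Rot

open CircleDeg1Lift Filter Topology Finset

namespace Loc
variable {m : ℕ} {θ : ℝ} {S : Sys m θ} (L : Loc S)

theorem kk_div (Pb : ℤ) (s : ℕ) (n : ℤ) :
    (L.kk Pb s n : ℝ) / L.Q = Int.fract ((((n - L.a s) * Pb : ℤ) : ℝ) / L.Q) := by
  have h := Int.fract_div_intCast_eq_div_intCast_mod (k := ℝ) (m := (n - L.a s) * Pb) (n := L.Q)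
  rw [h]
  have h2 := L.kk_cast Pb s n
  have h3 : (L.kk Pb s n : ℝ) = (((L.kk Pb s n : ℕ) : ℤ) : ℝ) := by norm_cast
  rw [h3, h2]

open Classical in
theorem slot_step {z : ℝ} {Pb : ℤ} (hPb : L.P * Pb ≡ 1 [ZMOD L.Q]) {k₁ j : ℕ}
    (hj : k₁ + j ≤ L.Q) (M : ℤ) (hM : ∀ n : ℤ, |(n : ℝ)| ≤ L.N' ↔ n ∈ Finset.Icc (-M) M)
    (hNQ : 2 * L.N' < L.Q) {ψ D C₁ C ev G : ℝ} (vl : ℕ → ℝ) (hv : ∀ s < m, |L.v s - vl s| ≤ ev)
    (E : ℕ → ℤ → Prop)
    (hE : ∀ s < m, ∀ n ∈ Finset.Icc (-M) M, (k₁ ≤ L.kk Pb s n ∧ L.kk Pb s n < k₁ + j) ↔ E s n)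
    (hcount : ∑ s ∈ range m, (((Finset.Icc (-M) M).filter fun n => E s n).card : ℝ) ≤ C)
    (hG : G ≤ ∑ s ∈ range m, (S.σ s : ℝ) *
      ∑ n ∈ Finset.Icc (-M) M, if E s n then UU (L.ρ s) L.u (n + ψ - vl s) else 0)
    (hD0 : 0 ≤ D) (hC₁0 : 0 ≤ C₁) (hC₁ : ∀ s < m, L.ρ s * L.A + L.err + L.ε * D ≤ C₁)
    (herr : 0 ≤ L.err) (hev0 : 0 ≤ ev)
    (hδ : 0 ≤ L.δ) (hD : C * C₁ + L.δ * j ≤ D) (hψ : |ψ| + D ≤ L.Φm) (h : L.LL z k₁ ψ) :
    L.LL z (k₁ + j) (ψ + G - C * (L.err + L.ε * D + L.ε * ev) - L.δ * j) := by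
  have hcnt := L.sum_evc hPb hj M hM hNQ
  have hcount' : ((∑ k ∈ Finset.range j, ∑ s ∈ Finset.range m, L.evc s (k₁ + k) : ℕ) : ℝ) ≤ C := by
    rw [hcnt]
    refine le_trans (le_of_eq ?_) hcount
    push_cast
    refine Finset.sum_congr rfl fun s hs => ?_
    rw [Finset.card_filter]
    push_cast
    refine Finset.sum_congr rfl fun n hn => ?_
    have := hE s (mem_range.1 hs) n hn
    by_cases h1 : E s n
    · rw [if_pos (this.2 h1), if_pos h1]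
    · rw [if_neg (fun h => h1 (this.1 h)), if_neg h1]
  have hgr := L.group (z := z) (k₁ := k₁) j (ψ := ψ) (D := D) (C₁ := C₁) (C := C) hD0 hC₁0 hC₁
    hcount' hδ hD hψ h
  rw [L.sum_con hPb hj M hM hNQ ψ D] at hgr
  refine LI.mono hgr ?_
  have hsum : ∑ s ∈ Finset.range m, ∑ n ∈ Finset.Icc (-M) M,
        (if k₁ ≤ L.kk Pb s n ∧ L.kk Pb s n < k₁ + j then
          (S.σ s : ℝ) * UU (L.ρ s) L.u (n + ψ - L.v s) - L.err - L.ε * D else 0)
      ≥ ∑ s ∈ range m, ((S.σ s : ℝ) *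
      (∑ n ∈ Finset.Icc (-M) M, if E s n then UU (L.ρ s) L.u (n + ψ - vl s) else 0)
      - (((Finset.Icc (-M) M).filter fun n => E s n).card : ℝ) * (L.err + L.ε * D + L.ε * ev)) := by
    refine Finset.sum_le_sum fun s hs => ?_
    rw [mem_range] at hs
    have e1 : ((S.σ s : ℝ) *
      (∑ n ∈ Finset.Icc (-M) M, if E s n then UU (L.ρ s) L.u (n + ψ - vl s) else 0)
      - (((Finset.Icc (-M) M).filter fun n => E s n).card : ℝ) * (L.err + L.ε * D + L.ε * ev))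
      = ∑ n ∈ Finset.Icc (-M) M, (if E s n then (S.σ s : ℝ) * UU (L.ρ s) L.u (n + ψ - vl s)
        - (L.err + L.ε * D + L.ε * ev) else 0) := by
      rw [Finset.mul_sum, Finset.card_filter]
      push_cast
      rw [Finset.sum_mul, ← Finset.sum_sub_distrib]
      refine Finset.sum_congr rfl fun n _ => ?_
      split_ifs <;> simp
    rw [e1]
    refine Finset.sum_le_sum fun n hn => ?_
    have h1 := hE s hs n hn
    by_cases h2 : E s n
    · rw [if_pos h2, if_pos (h1.2 h2)]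
      have h3 := UU_lip L.hu (L.hρ s hs) (n + ψ - vl s) (n + ψ - L.v s)
      have h4 := σ_mul_le S s (UU (L.ρ s) L.u (n + ψ - vl s) - UU (L.ρ s) L.u (n + ψ - L.v s))
      have h5 : |(n : ℝ) + ψ - vl s - (n + ψ - L.v s)| ≤ ev := by
        have e : (n : ℝ) + ψ - vl s - (n + ψ - L.v s) = L.v s - vl s := by ring
        rw [e]; exact hv s hs
      have h6 := mul_le_mul_of_nonneg_left h5 L.hu.εnn
      have h7 := (abs_le.1 h4).2
      rw [mul_sub] at h7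
      linarith
    · rw [if_neg h2, if_neg (fun h => h2 (h1.1 h))]
  rw [Finset.sum_sub_distrib, ← Finset.sum_mul] at hsum
  have h8 : (∑ s ∈ range m, (((Finset.Icc (-M) M).filter fun n => E s n).card : ℝ))
      * (L.err + L.ε * D + L.ε * ev) ≤ C * (L.err + L.ε * D + L.ε * ev) := by
    refine mul_le_mul_of_nonneg_right hcount ?_
    have := mul_nonneg L.hu.εnn hD0
    have := mul_nonneg L.hu.εnn hev0
    linarith
  linarith

end Loc

/-- `fract` is continuous away from the integers -/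
theorem tendsto_fract_of_ne {ι : Type} {l : Filter ι} {f : ι → ℝ} {x : ℝ}
    (hx : ∀ n : ℤ, x ≠ n) (h : Tendsto f l (𝓝 x)) :
    Tendsto (fun i => Int.fract (f i)) l (𝓝 (Int.fract x)) := by
  have h1 : (⌊x⌋ : ℝ) < x := lt_of_le_of_ne (Int.floor_le x) (Ne.symm (hx _))
  have h2 : x < ⌊x⌋ + 1 := Int.lt_floor_add_one x
  have h3 : ∀ᶠ i in l, f i ∈ Set.Ioo (⌊x⌋ : ℝ) (⌊x⌋ + 1) := h.eventually (Ioo_mem_nhds h1 h2)
  have h4 : Tendsto (fun i => f i - ⌊x⌋) l (𝓝 (x - ⌊x⌋)) := h.sub_const _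
  refine Tendsto.congr' ?_ h4
  filter_upwards [h3] with i hi
  have : ⌊f i⌋ = ⌊x⌋ := Int.floor_eq_iff.2 ⟨hi.1.le, hi.2⟩
  rw [Int.fract, this]

end Pool.Agent.Helper88.Rot
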