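import Pool.Agent.Helper88.Rot.Seq

/-!
Case B, static part: the sum of the contributions of one slot.
-/

namespace Pool.Agent.Helper88.Rot

open CircleDeg1Lift Filter Topology Finset

/-- classes of stages: same density, same phase, same time -/
def rel (ρ v β : ℕ → ℝ) (α : ℝ) (s s' : ℕ) : Prop :=
  ρ s = ρ s' ∧ ∃ n : ℤ, v s' - v s = n ∧ ∃ l : ℤ, n * α + β s' - β s = l

theorem rel_equiv (ρ v β : ℕ → ℝ) (α : ℝ) : Equivalence (rel ρ v β α) := by
  refine ⟨fun s => ⟨rfl, 0, by simp, 0, by simp⟩, ?_, ?_⟩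
  · rintro s s' ⟨h1, n, hn, l, hl⟩
    exact ⟨h1.symm, -n, by push_cast; linarith, -l, by push_cast; linarith⟩
  · rintro s s' s'' ⟨h1, n, hn, l, hl⟩ ⟨h2, n', hn', l', hl'⟩
    exact ⟨h1.trans h2, n + n', by push_cast; linarith, l + l', by push_cast; linarith⟩

open Classical in
/-- total sign of a class -/
noncomputable def net (m : ℕ) (σ : ℕ → ℤ) (ρ v β : ℕ → ℝ) (α : ℝ) (s : ℕ) : ℝ :=
  ∑ s' ∈ range m with rel ρ v β α s s', (σ s' : ℝ)

theorem one_le_abs_net {m : ℕ} {σ : ℕ → ℤ} {ρ v β : ℕ → ℝ} {α : ℝ} {s : ℕ}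
    (h : net m σ ρ v β α s ≠ 0) : 1 ≤ |net m σ ρ v β α s| := by
  classical
  have e : net m σ ρ v β α s
      = ((∑ s' ∈ range m with rel ρ v β α s s', σ s' : ℤ) : ℝ) := by
    unfold net; push_cast; rfl
  rw [e] at h ⊢
  have : (∑ s' ∈ range m with rel ρ v β α s s', σ s' : ℤ) ≠ 0 := by exact_mod_cast h
  exact_mod_cast Int.one_le_abs this

/-- sign with values in `{±1}` -/
noncomputable def sg (x : ℝ) : ℝ := if 0 ≤ x then 1 else -1

theorem abs_sg_le (x : ℝ) : |sg x| ≤ 1 := by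
  unfold sg; split_ifs <;> simp

theorem mul_sg (x : ℝ) : x * sg x = |x| := by
  unfold sg
  split_ifs with h
  · rw [mul_one, abs_of_nonneg h]
  · rw [abs_of_neg (not_le.1 h)]; ring

/-- centre of the tent of a slot -/
noncomputable def yc (ρ v : ℕ → ℝ) (χ V₁ V₂ : ℝ) (τ : ℕ → ℝ) (sj : ℕ → ℕ) (nj : ℕ → ℤ) (i : ℕ) : ℝ :=
  (nj i + lev χ V₁ V₂ (τ i) - v (sj i)) / ρ (sj i)

theorem slot_sep {U : Finset ℕ} {ρ v β : ℕ → ℝ} {α C' χ V₁ V₂ A ε : ℝ} {q J : ℕ} {τ : ℕ → ℝ}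
    (hs : SlotData J τ q) {sj : ℕ → ℕ} {nj : ℕ → ℤ} (hε : 0 ≤ ε)
    (hsel : ∀ j < J, sj j ∈ U ∧ 0 ≤ nj j ∧ nj j < q ∧
      τ j < Int.fract (nj j * α + β (sj j)) ∧ Int.fract (nj j * α + β (sj j)) < τ (j + 1) ∧
      NoConf U ρ v β α C' χ V₁ V₂ q J τ j (sj j) (nj j))
    (hA : 2 * A ≤ ε * (C' / q)) :
    ∀ i < J, ∀ i' < J, i ≠ i' →
      2 * A ≤ ε * |yc ρ v χ V₁ V₂ τ sj nj i - yc ρ v χ V₁ V₂ τ sj nj i'| := by
  intro i hi i' hi' hne
  obtain ⟨a1, a2, a3, a4, a5, a6⟩ := hsel i hi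
  obtain ⟨b1, b2, b3, b4, b5, b6⟩ := hsel i' hi'
  have h1 := a6 (sj i') b1 (nj i') i' hi' b4.le b5 (by
    rintro ⟨-, -, h⟩
    apply hne
    have h2 := slt_eq hs hi a4.le a5
    have h3 := slt_eq hs hi' b4.le b5
    rw [← h2, ← h3, h])
  have h2 : C' / q ≤ |yc ρ v χ V₁ V₂ τ sj nj i - yc ρ v χ V₁ V₂ τ sj nj i'| := by
    rw [abs_sub_comm]
    exact h1.le
  exact hA.trans (mul_le_mul_of_nonneg_left h2 hε)

/-- the contribution of slot `i` at stage `s` and index `n` -/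
noncomputable def gg (ρ v β : ℕ → ℝ) (α : ℝ) (τ : ℕ → ℝ) (u : ℝ → ℝ) (ψ : ℝ) (i s : ℕ) (n : ℤ) : ℝ :=
  if τ i ≤ Int.fract (n * α + β s) ∧ Int.fract (n * α + β s) < τ (i + 1) then
    UU (ρ s) u (n + ψ - v s) else 0

theorem gg_class {ρ v β : ℕ → ℝ} {α : ℝ} {τ : ℕ → ℝ} {u : ℝ → ℝ} {ψ : ℝ} {i m : ℕ} {M : ℤ}
    (hM : ∀ s < m, ∀ n : ℤ, M < |n| → UU (ρ s) u (n + ψ - v s) = 0)
    {s s' : ℕ} (hs : s < m) (hs' : s' < m) (h : rel ρ v β α s s') :
    ∑ n ∈ Finset.Icc (-M) M, gg ρ v β α τ u ψ i s n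
      = ∑ n ∈ Finset.Icc (-M) M, gg ρ v β α τ u ψ i s' n := by
  have key : ∀ s < m, ∑ n ∈ Finset.Icc (-M) M, gg ρ v β α τ u ψ i s n
      = ∑ᶠ n : ℤ, gg ρ v β α τ u ψ i s n := by
    intro s hs
    rw [finsum_eq_sum_of_support_subset]
    intro n hn
    rw [Function.mem_support] at hn
    rw [Finset.mem_coe, Finset.mem_Icc, ← abs_le]
    by_contra hcon
    apply hn
    unfold gg
    rw [hM s hs n (not_le.1 hcon), ite_self]
  rw [key s hs, key s' hs']
  obtain ⟨hρ, n₀, hn₀, l, hl⟩ := h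
  rw [← finsum_comp_equiv (Equiv.addRight n₀) (f := fun n => gg ρ v β α τ u ψ i s' n)]
  refine finsum_congr fun n => ?_
  have e1 : (Equiv.addRight n₀) n = n + n₀ := rfl
  rw [e1]
  have e2 : (((n + n₀ : ℤ)) : ℝ) * α + β s' = n * α + β s + l := by
    push_cast
    rw [← hl]; ring
  have e3 : ((n + n₀ : ℤ) : ℝ) + ψ - v s' = n + ψ - v s := by
    push_cast
    rw [← hn₀]; ring
  unfold gg
  rw [e2, e3, Int.fract_add_intCast, hρ]

theorem slot_sum {m : ℕ} {σ : ℕ → ℤ} {U : Finset ℕ} {ρ v β : ℕ → ℝ} {α C' χ V₁ V₂ A ε : ℝ}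
    {q J : ℕ} {τ : ℕ → ℝ} (hs : SlotData J τ q) {sj : ℕ → ℕ} {nj : ℕ → ℤ} (hε : 0 ≤ ε)
    (hA0 : 0 ≤ A) (hρ0 : ∀ s < m, 0 ≤ ρ s) (hv : ∀ s, 0 ≤ v s ∧ v s ≤ 1)
    (hU : ∀ s, s ∈ U ↔ s < m ∧ ρ s ≠ 0 ∧ net m σ ρ v β α s ≠ 0)
    (hsel : ∀ j < J, sj j ∈ U ∧ 0 ≤ nj j ∧ nj j < q ∧
      τ j < Int.fract (nj j * α + β (sj j)) ∧ Int.fract (nj j * α + β (sj j)) < τ (j + 1) ∧
      NoConf U ρ v β α C' χ V₁ V₂ q J τ j (sj j) (nj j))
    (hA : 2 * A ≤ ε * (C' / q)) {M : ℤ} (hMq : q + 1 ≤ M) {g : ℕ → ℝ}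
    (hg : ∀ i, g i = sg (net m σ ρ v β α (sj i))) {i : ℕ} (hi : i < J)
    (hM : ∀ s < m, ∀ n : ℤ, M < |n| →
      UU (ρ s) (tents A ε J (yc ρ v χ V₁ V₂ τ sj nj) g) (n + lev χ V₁ V₂ (τ i) - v s) = 0) :
    ∑ s ∈ range m, (σ s : ℝ) * (∑ n ∈ Finset.Icc (-M) M,
      gg ρ v β α τ (tents A ε J (yc ρ v χ V₁ V₂ τ sj nj) g) (lev χ V₁ V₂ (τ i)) i s n)
    = |net m σ ρ v β α (sj i)| * (ρ (sj i) * A) := by
  classical
  have hsep := slot_sep (U := U) hs hε hsel hA
  obtain ⟨c1, c2, c3, c4, c5, c6⟩ := hsel i hi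
  obtain ⟨d1, d2, d3⟩ := (hU (sj i)).1 c1
  have hρi : 0 < ρ (sj i) := lt_of_le_of_ne (hρ0 _ d1) (Ne.symm d2)
  -- values of `u` at events
  have hval : ∀ s ∈ U, ∀ n : ℤ, τ i ≤ Int.fract (n * α + β s) → Int.fract (n * α + β s) < τ (i + 1) →
      UU (ρ s) (tents A ε J (yc ρ v χ V₁ V₂ τ sj nj) g) (n + lev χ V₁ V₂ (τ i) - v s)
      = if (ρ s = ρ (sj i) ∧ (n : ℝ) - v s = nj i - v (sj i) ∧
        Int.fract (n * α + β s) = Int.fract (nj i * α + β (sj i))) then ρ (sj i) * (g i * A)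
        else 0 := by
    intro s hsU n h1 h2
    have hρs : 0 < ρ s := lt_of_le_of_ne (hρ0 _ ((hU s).1 hsU).1) (Ne.symm ((hU s).1 hsU).2.1)
    split_ifs with hsame
    · obtain ⟨e1, e2, e3⟩ := hsame
      unfold UU
      have e4 : ((n : ℝ) + lev χ V₁ V₂ (τ i) - v s) / ρ s = yc ρ v χ V₁ V₂ τ sj nj i := by
        unfold yc
        rw [e1]
        congr 1
        linarith
      rw [e4, tents_near hε hsep hi (by simpa using hA0), tent_self hA0, e1]
    · unfold UU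
      rw [tents_far, mul_zero]
      intro i' hi'
      obtain ⟨b1, b2, b3, b4, b5, b6⟩ := hsel i' hi'
      have h3 := b6 s hsU n i hi h1 h2 (by
        intro h
        by_cases hii : i' = i
        · rw [hii] at h
          exact hsame h
        · apply hii
          have h4 := slt_eq hs hi h1 h2
          have h5 := slt_eq hs hi' b4.le b5
          rw [← h4, ← h5, h.2.2])
      have h4 : C' / q ≤ |(n + lev χ V₁ V₂ (τ i) - v s) / ρ s - yc ρ v χ V₁ V₂ τ sj nj i'| := h3.le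
      have h5 := mul_le_mul_of_nonneg_left h4 hε
      linarith
  have hmain := class_sum (range m) (rel ρ v β α) (rel_equiv ρ v β α) (fun s => (σ s : ℝ))
    (fun s => ∑ n ∈ Finset.Icc (-M) M,
      gg ρ v β α τ (tents A ε J (yc ρ v χ V₁ V₂ τ sj nj) g) (lev χ V₁ V₂ (τ i)) i s n)
    (fun s hs' s' hs'' h => gg_class hM (mem_range.1 hs') (mem_range.1 hs'') h)
    (sj i) (mem_range.2 d1) (ρ (sj i) * (g i * A)) (by
      intro s hsm hnet
      rw [mem_range] at hsm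
      by_cases hρs : ρ s = 0
      · rw [if_neg (fun h => d2 (h.1.trans hρs))]
        refine Finset.sum_eq_zero fun n _ => ?_
        unfold gg UU
        rw [hρs, zero_mul, ite_self]
      · have hsU : s ∈ U := (hU s).2 ⟨hsm, hρs, by unfold net; convert hnet⟩
        split_ifs with hrel
        · obtain ⟨e1, n₀, hn₀, l, hl⟩ := hrel
          have hn1 : |(n₀ : ℝ)| ≤ 1 := by
            have h1 := hv s
            have h2 := hv (sj i)
            rw [← hn₀, abs_le]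
            constructor <;> linarith
          have hn1' : |n₀| ≤ 1 := by exact_mod_cast hn1
          rw [abs_le] at hn1'
          rw [Finset.sum_eq_single_of_mem (nj i + n₀)]
          · have e2 : (((nj i + n₀ : ℤ)) : ℝ) * α + β s = nj i * α + β (sj i) + l := by
              push_cast
              rw [← hl]; ring
            have e3 : Int.fract ((((nj i + n₀ : ℤ)) : ℝ) * α + β s)
                = Int.fract (nj i * α + β (sj i)) := by
              rw [e2, Int.fract_add_intCast]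
            unfold gg
            rw [if_pos (by rw [e3]; exact ⟨c4.le, c5⟩),
              hval s hsU _ (by rw [e3]; exact c4.le) (by rw [e3]; exact c5),
              if_pos ⟨e1.symm, by push_cast; linarith, e3⟩]
          · rw [Finset.mem_Icc]
            omega
          · intro n _ hne
            unfold gg
            split_ifs with hev
            · rw [hval s hsU n hev.1 hev.2, if_neg]
              rintro ⟨-, h2, -⟩
              apply hne
              have : (n : ℝ) = ((nj i + n₀ : ℤ) : ℝ) := by push_cast; linarith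
              exact_mod_cast this
            · rfl
        · refine Finset.sum_eq_zero fun n _ => ?_
          unfold gg
          split_ifs with hev
          · rw [hval s hsU n hev.1 hev.2, if_neg]
            rintro ⟨h1, h2, h3⟩
            apply hrel
            refine ⟨h1.symm, n - nj i, by push_cast; linarith,
              ⌊(n : ℝ) * α + β s⌋ - ⌊(nj i : ℝ) * α + β (sj i)⌋, ?_⟩
            rw [Int.fract, Int.fract] at h3
            push_cast
            linarith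
          · rfl)
    (by unfold net at d3; convert d3)
  refine hmain.trans ?_
  have e : (∑ s ∈ range m with rel ρ v β α (sj i) s, (σ s : ℝ)) = net m σ ρ v β α (sj i) := by
    unfold net; congr
  rw [e, hg i, ← mul_sg]
  ring

end Pool.Agent.Helper88.Rot
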