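import Pool.Agent.Helper88.Rot.Max

/-!
Stage functions of a word with irrational translation number, and the algebraic identity.
-/

namespace Pool.Agent.Helper88.Rot

open CircleDeg1Lift Filter Topology

/-- perturbed partial products -/
noncomputable def W (M : ℕ → CircleDeg1Liftˣ) (σ : ℕ → ℤ) (h : CircleDeg1Liftˣ) :
    ℕ → CircleDeg1Liftˣ
  | 0 => 1
  | s + 1 => M s * h ^ σ s * W M σ h s

/-- A cyclic sequence of `m` circle homeomorphisms with stage functions. -/
structure Sys (m : ℕ) (θ : ℝ) where
  M : ℕ → CircleDeg1Liftˣ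
  σ : ℕ → ℤ
  F : ℕ → ℝ → ℝ
  hσ : ∀ s, σ s = -1 ∨ σ s = 0 ∨ σ s = 1
  cont : ∀ s, Continuous (F s)
  mono : ∀ s, Monotone (F s)
  deg : ∀ s x, F s (x + 1) = F s x + 1
  step : ∀ s x, F (s + 1) (M s x) = F s x
  fin : ∀ x, F m x = F 0 x - θ

/-- The perturbation property of a real number. -/
def PL (θ : ℝ) : Prop := ∀ (m : ℕ) (S : Sys m θ), (∑ s ∈ Finset.range m, S.σ s) = 0 →
  (∃ x y, ∑ s ∈ Finset.range m, (S.σ s : ℝ) * S.F s x
    ≠ ∑ s ∈ Finset.range m, (S.σ s : ℝ) * S.F s y) →
  ∃ h : CircleDeg1Liftˣ, θ < translationNumber (W S.M S.σ h m)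

theorem exists_F (w : CircleDeg1Liftˣ) (hθ : Irrational (translationNumber w)) :
    ∃ F : ℝ → ℝ, Continuous F ∧ Monotone F ∧ (∀ x, F (x + 1) = F x + 1) ∧
      ∀ x, F (w x) = F x + translationNumber w := by
  set θ := translationNumber w with hθdef
  obtain ⟨F, hF⟩ := units_semiconj_of_translationNumber_eq
    (f₁ := w) (f₂ := T θ) (by rw [translationNumber_translate])
  have hF' : ∀ x, F (w x) = F x + θ := fun x => by
    rw [hF x]; show θ + F x = F x + θ; ring
  have hFinv : ∀ x, F ((w⁻¹ : CircleDeg1Liftˣ) x) = F x - θ := fun x => by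
    have := hF' ((w⁻¹ : CircleDeg1Liftˣ) x)
    rw [units_apply_inv_apply] at this
    linarith
  refine ⟨F, ?_, F.monotone, F.map_add_one, hF'⟩
  apply F.monotone.continuous_of_denseRange
  have hd : Dense ((AddSubgroup.closure {θ, 1} : AddSubgroup ℝ) : Set ℝ) := by
    rw [dense_addSubgroupClosure_pair_iff]
    simpa using hθ
  have hz : ∀ k : ℤ, ∀ x, F ((w ^ k : CircleDeg1Liftˣ) x) = F x + k * θ := by
    intro k
    induction k using Int.induction_on with
    | zero => intro x; simp
    | succ n ih =>
      intro x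
      have e : (w ^ ((n : ℤ) + 1) : CircleDeg1Liftˣ) x = (w ^ (n : ℤ) : CircleDeg1Liftˣ) (w x) := by
        rw [zpow_add_one]; rfl
      rw [e, ih, hF']
      push_cast
      ring
    | pred n ih =>
      intro x
      have e : (w ^ (-(n : ℤ) - 1) : CircleDeg1Liftˣ) x
          = (w ^ (-(n : ℤ)) : CircleDeg1Liftˣ) ((w⁻¹ : CircleDeg1Liftˣ) x) := by
        rw [zpow_sub_one]; rfl
      rw [e, ih, hFinv]
      push_cast
      ring
  have h1 : Dense ((fun x => F 0 + x) '' ((AddSubgroup.closure {θ, 1} : AddSubgroup ℝ) : Set ℝ)) :=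
    (Homeomorph.addLeft (F 0)).surjective.denseRange.dense_image
      (Homeomorph.addLeft (F 0)).continuous hd
  refine h1.mono ?_
  rintro _ ⟨g, hg, rfl⟩
  rw [SetLike.mem_coe, AddSubgroup.mem_closure_pair] at hg
  obtain ⟨k, n, rfl⟩ := hg
  refine ⟨(w ^ k : CircleDeg1Liftˣ) 0 + n, ?_⟩
  rw [F.map_add_int, hz]
  simp only [zsmul_eq_mul, mul_one]
  ring

section
variable {ι : Type}

/-- the `i`-th applied letter -/
noncomputable def lett (c : ℕ → Option (ι × Bool)) (g : ι → CircleDeg1Liftˣ) (i : ℕ) :
    CircleDeg1Liftˣ :=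
  match c i with
  | none => 1
  | some x => cond x.2 (g x.1) (g x.1)⁻¹

/-- product of the first `i` applied letters -/
noncomputable def PP (c : ℕ → Option (ι × Bool)) (g : ι → CircleDeg1Liftˣ) : ℕ → CircleDeg1Liftˣ
  | 0 => 1
  | i + 1 => lett c g i * PP c g i

theorem PP_congr {c c' : ℕ → Option (ι × Bool)} (g : ι → CircleDeg1Liftˣ) :
    ∀ n : ℕ, (∀ i < n, c i = c' i) → PP c g n = PP c' g n := by
  intro n
  induction n with
  | zero => intro _; rfl
  | succ n ih =>
    intro h
    have e : lett c g n = lett c' g n := by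
      unfold lett
      rw [h n (Nat.lt_succ_self n)]
    rw [PP, PP, e, ih fun i hi => h i (hi.trans (Nat.lt_succ_self n))]

theorem exists_letters (w : FreeGroup ι) : ∃ (c : ℕ → Option (ι × Bool)) (N : ℕ),
    ∀ g : ι → CircleDeg1Liftˣ, FreeGroup.lift g w = PP c g N := by
  classical
  obtain ⟨L, rfl⟩ : ∃ L, FreeGroup.mk L = w := ⟨_, FreeGroup.mk_toWord⟩
  induction L with
  | nil => exact ⟨fun _ => none, 0, fun g => by rw [FreeGroup.lift_mk]; rfl⟩
  | cons x L ih =>
    obtain ⟨c, N, hc⟩ := ih
    refine ⟨Function.update c N (some x), N + 1, fun g => ?_⟩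
    have h1 := hc g
    rw [FreeGroup.lift_mk] at h1 ⊢
    rw [List.map_cons, List.prod_cons, h1]
    have e1 : PP (Function.update c N (some x)) g (N + 1)
        = lett (Function.update c N (some x)) g N * PP (Function.update c N (some x)) g N := rfl
    have e2 : PP (Function.update c N (some x)) g N = PP c g N :=
      PP_congr g N fun i hi => Function.update_of_ne hi.ne _ _
    have e3 : lett (Function.update c N (some x)) g N = cond x.2 (g x.1) (g x.1)⁻¹ := by
      unfold lett
      rw [Function.update_self]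
    rw [e1, e2, e3]

end

section
variable {ι : Type}

open Classical in
/-- contribution of the generator `j` -/
noncomputable def Psi (F : ℕ → ℝ → ℝ) (c : ℕ → Option (ι × Bool)) (j : ι) (N : ℕ) (x : ℝ) : ℝ :=
  ∑ i ∈ Finset.range N, if (∃ b, c i = some (j, b)) then F (i + 1) x - F i x else 0

theorem sum_Psi [Fintype ι] (F : ℕ → ℝ → ℝ) (c : ℕ → Option (ι × Bool)) (g : ι → CircleDeg1Liftˣ)
    (hF : ∀ i x, F (i + 1) (lett c g i x) = F i x) (N : ℕ) (x : ℝ) :
    ∑ j, Psi F c j N x = F N x - F 0 x := by
  classical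
  unfold Psi
  rw [Finset.sum_comm]
  rw [← Finset.sum_range_sub (fun i => F i x) N]
  refine Finset.sum_congr rfl fun i _ => ?_
  cases hc : c i with
  | none =>
    have h1 := hF i x
    have h2 : lett c g i x = x := by
      unfold lett; rw [hc]; rfl
    rw [h2] at h1
    simp [h1]
  | some y =>
    obtain ⟨j, b⟩ := y
    rw [Finset.sum_eq_single j]
    · simp
    · intro j' _ hj'
      simp [Ne.symm hj']
    · simp

open Classical in
/-- the auxiliary function -/
noncomputable def GG (F : ℕ → ℝ → ℝ) (c : ℕ → Option (ι × Bool)) (j : ι) (N : ℕ) (x : ℝ) : ℝ :=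
  ∑ i ∈ Finset.range N, (if c i = some (j, true) then F (i + 1) x else
    if c i = some (j, false) then - F i x else 0)

theorem Psi_eq (F : ℕ → ℝ → ℝ) (c : ℕ → Option (ι × Bool)) (g : ι → CircleDeg1Liftˣ)
    (hF : ∀ i x, F (i + 1) (lett c g i x) = F i x) (j : ι) (N : ℕ) (x : ℝ) :
    Psi F c j N x = GG F c j N x - GG F c j N (g j x) := by
  classical
  unfold Psi GG
  rw [← Finset.sum_sub_distrib]
  refine Finset.sum_congr rfl fun i _ => ?_
  by_cases h1 : c i = some (j, true)
  · have h2 : lett c g i = g j := by unfold lett; rw [h1]; rfl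
    have h3 := hF i x
    rw [h2] at h3
    simp [h1, h3]
  · by_cases h1' : c i = some (j, false)
    · have h2 : lett c g i = (g j)⁻¹ := by unfold lett; rw [h1']; rfl
      have h3 := hF i (g j x)
      rw [h2, units_inv_apply_apply] at h3
      simp [h1', h3]
      ring
    · have h4 : ¬ ∃ b, c i = some (j, b) := by
        rintro ⟨b, hb⟩
        cases b
        · exact h1' hb
        · exact h1 hb
      simp [h1, h1', h4]

theorem GG_deg (F : ℕ → ℝ → ℝ) (c : ℕ → Option (ι × Bool))
    (hdeg : ∀ s x, F s (x + 1) = F s x + 1) (j : ι) (N : ℕ) :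
    ∃ e : ℤ, ∀ x, GG F c j N (x + 1) = GG F c j N x + e := by
  classical
  refine ⟨∑ i ∈ Finset.range N, (if c i = some (j, true) then 1 else
    if c i = some (j, false) then - 1 else 0), fun x => ?_⟩
  unfold GG
  push_cast
  rw [← Finset.sum_add_distrib]
  refine Finset.sum_congr rfl fun i _ => ?_
  by_cases h1 : c i = some (j, true)
  · simp [h1, hdeg]
  · by_cases h1' : c i = some (j, false)
    · simp [h1', hdeg]
      ring
    · simp [h1, h1']

theorem Psi_const_rational (F : ℕ → ℝ → ℝ) (c : ℕ → Option (ι × Bool)) (g : ι → CircleDeg1Liftˣ)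
    (hF : ∀ i x, F (i + 1) (lett c g i x) = F i x) (hdeg : ∀ s x, F s (x + 1) = F s x + 1)
    (j : ι) (N : ℕ) (q : ℕ) (p : ℤ) (hq : 0 < q) (hg : g j ^ q = T p) (C : ℝ)
    (hC : ∀ x, Psi F c j N x = C) : ∃ r : ℚ, C = r := by
  obtain ⟨e, he⟩ := GG_deg F c hdeg j N
  have h1 : ∀ x, GG F c j N (g j x) = GG F c j N x - C := fun x => by
    have := Psi_eq F c g hF j N x
    rw [hC] at this
    linarith
  have h2 : ∀ k : ℕ, ∀ x, GG F c j N ((g j ^ k : CircleDeg1Liftˣ) x) = GG F c j N x - k * C := by
    intro k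
    induction k with
    | zero => intro x; simp
    | succ k ih =>
      intro x
      have e1 : (g j ^ (k + 1) : CircleDeg1Liftˣ) x = (g j ^ k : CircleDeg1Liftˣ) (g j x) := by
        rw [pow_succ]; rfl
      rw [e1, ih, h1]
      push_cast
      ring
  have h3 : ∀ n : ℤ, ∀ x, GG F c j N (x + n) = GG F c j N x + n * e := by
    intro n
    induction n using Int.induction_on with
    | zero => intro x; simp
    | succ n ih =>
      intro x
      have := he (x + n)
      push_cast at ih ⊢
      rw [← add_assoc, this, ih]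
      ring
    | pred n ih =>
      intro x
      have := he (x + (-(n:ℝ) - 1))
      have ih' := ih x
      push_cast at ih' ⊢
      have e2 : x + (-(n:ℝ) - 1) + 1 = x + -(n:ℝ) := by ring
      rw [e2, ih'] at this
      linarith
  have h4 := h2 q 0
  rw [hg] at h4
  have h5 : T (p:ℝ) 0 = 0 + (p:ℝ) := by rw [T_apply]; ring
  rw [h5, h3] at h4
  have hq' : (q : ℝ) ≠ 0 := by exact_mod_cast hq.ne'
  refine ⟨-(p * e) / q, ?_⟩
  push_cast
  rw [eq_div_iff hq']
  linarith

end

section
variable {ι : Type}

open Classical in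
/-- signs of the doubled step sequence -/
noncomputable def stσ (c : ℕ → Option (ι × Bool)) (j : ι) (s : ℕ) : ℤ :=
  if (∃ b, c (s / 2) = some (j, b)) then (if s % 2 = 0 then -1 else 1) else 0

/-- maps of the doubled step sequence -/
noncomputable def stM (c : ℕ → Option (ι × Bool)) (g : ι → CircleDeg1Liftˣ) (s : ℕ) :
    CircleDeg1Liftˣ :=
  if s % 2 = 0 then lett c g (s / 2) else 1

theorem st_W [DecidableEq ι] (c : ℕ → Option (ι × Bool)) (g : ι → CircleDeg1Liftˣ) (j : ι)
    (h : CircleDeg1Liftˣ) (i : ℕ) :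
    W (stM c g) (stσ c j) h (2 * i) = PP c (Function.update g j (h * g j * h⁻¹)) i := by
  induction i with
  | zero => rfl
  | succ i ih =>
    have e1 : 2 * (i + 1) = 2 * i + 1 + 1 := by ring
    rw [e1, W, W, ih, PP]
    have e2 : stM c g (2 * i) = lett c g i := by
      unfold stM
      rw [if_pos (by omega)]
      congr 1
      omega
    have e3 : stM c g (2 * i + 1) = 1 := by
      unfold stM
      rw [if_neg (by omega)]
    rw [e2, e3, one_mul]
    have d1 : 2 * i / 2 = i := by omega
    have d2 : (2 * i + 1) / 2 = i := by omega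
    by_cases hj : ∃ b, c i = some (j, b)
    · have s1 : stσ c j (2 * i) = -1 := by
        unfold stσ
        rw [d1, if_pos hj, if_pos (by omega)]
      have s2 : stσ c j (2 * i + 1) = 1 := by
        unfold stσ
        rw [d2, if_pos hj, if_neg (by omega)]
      rw [s1, s2]
      obtain ⟨b, hb⟩ := hj
      have e4 : lett c (Function.update g j (h * g j * h⁻¹)) i = h * lett c g i * h⁻¹ := by
        unfold lett
        rw [hb]
        cases b <;> simp [mul_assoc]
      rw [e4]
      group
    · have s1 : stσ c j (2 * i) = 0 := by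
        unfold stσ
        rw [d1, if_neg hj]
      have s2 : stσ c j (2 * i + 1) = 0 := by
        unfold stσ
        rw [d2, if_neg hj]
      rw [s1, s2]
      have e4 : lett c (Function.update g j (h * g j * h⁻¹)) i = lett c g i := by
        unfold lett
        cases hc : c i with
        | none => rfl
        | some y =>
          obtain ⟨j', b⟩ := y
          have : j' ≠ j := by
            rintro rfl
            exact hj ⟨b, hc⟩
          simp [Function.update_of_ne this]
      rw [e4]
      group

theorem st_sum (F : ℕ → ℝ → ℝ) (c : ℕ → Option (ι × Bool)) (j : ι) (N : ℕ) (x : ℝ) :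
    ∑ s ∈ Finset.range (2 * N), (stσ c j s : ℝ) * F ((s + 1) / 2) x = Psi F c j N x := by
  unfold Psi
  induction N with
  | zero => simp
  | succ N ih =>
    rw [Finset.sum_range_succ, ← ih, show 2 * (N + 1) = 2 * N + 1 + 1 by ring,
      Finset.sum_range_succ, Finset.sum_range_succ]
    have d1 : 2 * N / 2 = N := by omega
    have d2 : (2 * N + 1) / 2 = N := by omega
    have d3 : (2 * N + 1 + 1) / 2 = N + 1 := by omega
    rw [d2, d3]
    by_cases hj : ∃ b, c N = some (j, b)
    · have s1 : stσ c j (2 * N) = -1 := by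
        unfold stσ
        rw [d1, if_pos hj, if_pos (by omega)]
      have s2 : stσ c j (2 * N + 1) = 1 := by
        unfold stσ
        rw [d2, if_pos hj, if_neg (by omega)]
      rw [s1, s2, if_pos hj]
      push_cast
      ring
    · have s1 : stσ c j (2 * N) = 0 := by
        unfold stσ
        rw [d1, if_neg hj]
      have s2 : stσ c j (2 * N + 1) = 0 := by
        unfold stσ
        rw [d2, if_neg hj]
      rw [s1, s2, if_neg hj]
      push_cast
      ring

theorem st_sum_sigma (c : ℕ → Option (ι × Bool)) (j : ι) (N : ℕ) :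
    ∑ s ∈ Finset.range (2 * N), stσ c j s = 0 := by
  have h := st_sum (fun _ _ => 1) c j N 0
  have h2 : Psi (fun _ _ => 1) c j N 0 = 0 := by
    unfold Psi
    apply Finset.sum_eq_zero
    intro i _
    simp
  rw [h2] at h
  simp only [mul_one] at h
  exact_mod_cast h

/-- If the perturbation property holds for the (irrational) translation number of a word, then
that representation is not a maximiser. -/
theorem exists_better [Fintype ι] (q : ι → ℕ) (p : ι → ℤ) (hq : ∀ j, 0 < q j) (w : FreeGroup ι)
    (g : ι → CircleDeg1Liftˣ) (hg : Adm q p g)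
    (hirr : Irrational (translationNumber (FreeGroup.lift g w)))
    (hPL : PL (translationNumber (FreeGroup.lift g w))) :
    ∃ g' : ι → CircleDeg1Liftˣ, Adm q p g' ∧
      translationNumber (FreeGroup.lift g w) < translationNumber (FreeGroup.lift g' w) := by
  classical
  obtain ⟨c, N, hc⟩ := exists_letters w
  obtain ⟨F₀, hcont, hmono, hdeg, hF₀⟩ := exists_F _ hirr
  set θ := translationNumber (FreeGroup.lift g w) with hθ
  set F : ℕ → ℝ → ℝ := fun i x => F₀ ((PP c g i)⁻¹ x) with hFdef
  have hFcont : ∀ i, Continuous (F i) := fun i => hcont.comp (unit_continuous _)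
  have hFmono : ∀ i, Monotone (F i) := fun i =>
    hmono.comp ((PP c g i)⁻¹ : CircleDeg1Liftˣ).val.monotone
  have hFdeg : ∀ i x, F i (x + 1) = F i x + 1 := fun i x => by
    simp only [hFdef, map_add_one, hdeg]
  have hstep : ∀ i x, F (i + 1) (lett c g i x) = F i x := fun i x => by
    simp only [hFdef]
    congr 1
    rw [PP, mul_inv_rev]
    show (PP c g i)⁻¹ ((lett c g i)⁻¹ (lett c g i x)) = _
    rw [units_inv_apply_apply]
  have hF0 : ∀ x, F 0 x = F₀ x := fun x => by
    simp only [hFdef, PP]
    simp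
  have hFN : ∀ x, F N x = F 0 x - θ := fun x => by
    rw [hF0]
    simp only [hFdef]
    rw [← hc g]
    have := hF₀ ((FreeGroup.lift g w)⁻¹ x)
    rw [units_apply_inv_apply] at this
    linarith
  -- some `Psi` is not constant
  have hnc : ∃ j, ∃ x y, Psi F c j N x ≠ Psi F c j N y := by
    by_contra hcon
    push Not at hcon
    have h1 : ∀ j, ∃ r : ℚ, Psi F c j N 0 = r := fun j =>
      Psi_const_rational F c g hstep hFdeg j N (q j) (p j) (hq j) (hg j) (Psi F c j N 0)
        fun x => hcon j x 0
    choose r hr using h1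
    have h2 := sum_Psi F c g hstep N 0
    rw [hFN, Finset.sum_congr rfl fun j _ => hr j] at h2
    apply hirr
    refine ⟨-∑ j, r j, ?_⟩
    push_cast
    linarith
  obtain ⟨j, x, y, hxy⟩ := hnc
  let S : Sys (2 * N) θ :=
    { M := stM c g
      σ := stσ c j
      F := fun s => F ((s + 1) / 2)
      hσ := fun s => by
        unfold stσ
        split_ifs <;> simp
      cont := fun s => hFcont _
      mono := fun s => hFmono _
      deg := fun s => hFdeg _
      step := fun s x => by
        unfold stM
        split_ifs with h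
        · have d1 : (s + 1 + 1) / 2 = s / 2 + 1 := by omega
          have d2 : (s + 1) / 2 = s / 2 := by omega
          rw [d1, d2]
          exact hstep _ _
        · have d1 : (s + 1 + 1) / 2 = (s + 1) / 2 := by omega
          rw [d1]
          rfl
      fin := fun x => by
        have d1 : (2 * N + 1) / 2 = N := by omega
        have d2 : (0 + 1) / 2 = 0 := by norm_num
        rw [d1, d2]
        exact hFN x }
  obtain ⟨h, hh⟩ := hPL (2 * N) S (st_sum_sigma c j N) ⟨x, y, by
    show ∑ s ∈ Finset.range (2 * N), (stσ c j s : ℝ) * F ((s + 1) / 2) x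
      ≠ ∑ s ∈ Finset.range (2 * N), (stσ c j s : ℝ) * F ((s + 1) / 2) y
    rw [st_sum, st_sum]
    exact hxy⟩
  refine ⟨Function.update g j (h * g j * h⁻¹), fun i => ?_, ?_⟩
  · by_cases hi : i = j
    · subst hi
      rw [Function.update_self]
      exact hg.conj h i
    · rw [Function.update_of_ne hi]
      exact hg i
  · rw [hc, ← st_W]
    exact hh

/-- The supremum is attained, and its value is rational or fails the perturbation property. -/
theorem max_rational [Fintype ι] (q : ι → ℕ) (p : ι → ℤ) (hq : ∀ j, 0 < q j) (w : FreeGroup ι) :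
    ∃ g : ι → CircleDeg1Liftˣ, Adm q p g ∧
      (∀ g' : ι → CircleDeg1Liftˣ, Adm q p g' →
        translationNumber (FreeGroup.lift g' w) ≤ translationNumber (FreeGroup.lift g w)) ∧
      (¬ Irrational (translationNumber (FreeGroup.lift g w)) ∨
        ¬ PL (translationNumber (FreeGroup.lift g w))) := by
  obtain ⟨g, hg, hmax⟩ := exists_max q p hq w
  refine ⟨g, hg, hmax, ?_⟩
  by_contra hcon
  push Not at hcon
  obtain ⟨g', hg', hlt⟩ := exists_better q p hq w g hg hcon.1 hcon.2
  exact absurd (hmax g' hg') (not_le.2 hlt)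

end

end Pool.Agent.Helper88.Rot
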