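import Pool.Agent.Helper88.Rot.Window

/-!
Effect of the perturbation on one stage function, in rescaled level coordinates.
-/

namespace Pool.Agent.Helper88.Rot

open CircleDeg1Lift Filter Topology

/-- rescaled bump, in level coordinates -/
noncomputable def UU (ρ : ℝ) (u : ℝ → ℝ) (ξ : ℝ) : ℝ := ρ * u (ξ / ρ)

theorem UU_lip {K ε : ℝ} {u : ℝ → ℝ} (hu : Bump K ε u) {ρ : ℝ} (hρ : 0 ≤ ρ) (ξ ξ' : ℝ) :
    |UU ρ u ξ - UU ρ u ξ'| ≤ ε * |ξ - ξ'| := by
  rcases hρ.eq_or_lt with h | h
  · subst h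
    simp only [UU, zero_mul, sub_self, abs_zero]
    exact mul_nonneg hu.εnn (abs_nonneg _)
  · unfold UU
    rw [← mul_sub, abs_mul, abs_of_pos h]
    calc ρ * |u (ξ / ρ) - u (ξ' / ρ)| ≤ ρ * (ε * |ξ / ρ - ξ' / ρ|) :=
          mul_le_mul_of_nonneg_left (hu.lip _ _) hρ
      _ = ε * |ξ - ξ'| := by
          rw [← sub_div, abs_div, abs_of_pos h]
          field_simp

theorem UU_supp {K ε : ℝ} {u : ℝ → ℝ} (hu : Bump K ε u) {ρ : ℝ} (hρ : 0 ≤ ρ) {ξ : ℝ}
    (h : ρ * K ≤ |ξ|) : UU ρ u ξ = 0 := by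
  rcases hρ.eq_or_lt with h0 | h0
  · subst h0; simp [UU]
  · unfold UU
    rw [hu.supp, mul_zero]
    rw [abs_div, abs_of_pos h0, le_div_iff₀ h0]
    linarith

theorem UU_small {K ε : ℝ} {u : ℝ → ℝ} (hu : Bump K ε u) {ρ ω : ℝ} (hρ : 0 ≤ ρ) (hω : 0 ≤ ω)
    {ξ : ℝ} (h : ρ * K - ω ≤ |ξ|) : |UU ρ u ξ| ≤ ε * ω := by
  rcases le_total (ρ * K) |ξ| with h1 | h1
  · rw [UU_supp hu hρ h1, abs_zero]
    exact mul_nonneg hu.εnn hω
  · have hK := hu.Kpos
    have hρK : 0 ≤ ρ * K := mul_nonneg hρ hK.le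
    rcases le_total 0 ξ with h0 | h0
    · rw [abs_of_nonneg h0] at h h1
      have h2 := UU_lip hu hρ ξ (ρ * K)
      rw [UU_supp hu hρ (le_abs_self (ρ * K)), sub_zero] at h2
      refine h2.trans (mul_le_mul_of_nonneg_left ?_ hu.εnn)
      rw [abs_le]; constructor <;> linarith
    · rw [abs_of_nonpos h0] at h h1
      have h2 := UU_lip hu hρ ξ (-(ρ * K))
      rw [UU_supp hu hρ (ξ := -(ρ * K)) (by rw [abs_neg]; exact le_abs_self (ρ * K)),
        sub_zero] at h2
      refine h2.trans (mul_le_mul_of_nonneg_left ?_ hu.εnn)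
      rw [abs_le]; constructor <;> linarith

theorem UU_bound {u : ℝ → ℝ} {A : ℝ} (hA : ∀ y, |u y| ≤ A) {ρ : ℝ} (hρ : 0 ≤ ρ) (ξ : ℝ) :
    |UU ρ u ξ| ≤ ρ * A := by
  unfold UU
  rw [abs_mul, abs_of_nonneg hρ]
  exact mul_le_mul_of_nonneg_left (hA _) hρ

/-- the leftmost point where the level `X` is reached -/
theorem exists_min_level (F : ℝ → ℝ) (hc : Continuous F) (hm : Monotone F)
    (hd : ∀ x, F (x + 1) = F x + 1) (X : ℝ) : ∃ z, F z = X ∧ ∀ z', X ≤ F z' → z ≤ z' := by
  let f : CircleDeg1Lift := ⟨⟨F, hm⟩, hd⟩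
  have hsurj : Function.Surjective F := (continuous_iff_surjective f).1 hc
  obtain ⟨z1, hz1⟩ := hsurj X
  obtain ⟨z0, hz0⟩ := hsurj (X - 1)
  set S := {z | X ≤ F z} with hS
  have hne : S.Nonempty := ⟨z1, hz1.ge⟩
  have hbd : BddBelow S := ⟨z0, fun z hz => by
    by_contra hcon
    push Not at hcon
    have := hm hcon.le
    have hz' : X ≤ F z := hz
    linarith⟩
  have hclosed : IsClosed S := isClosed_le continuous_const hc
  have hmem : sInf S ∈ S := hclosed.csInf_mem hne hbd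
  refine ⟨sInf S, le_antisymm ?_ hmem, fun z' hz' => csInf_le hbd hz'⟩
  have : sInf S ≤ z1 := csInf_le hbd hz1.ge
  exact (hm this).trans hz1.le

theorem rr_abs_ge {t c : ℝ} (l : ℤ) (h1 : l + c ≤ t) (h2 : t ≤ l + 1 - c) : c ≤ |rr t| := by
  unfold rr
  rcases le_or_gt (round t) l with h | h
  · have : (round t : ℝ) ≤ l := by exact_mod_cast h
    exact le_trans (by linarith) (le_abs_self _)
  · have : (l : ℝ) + 1 ≤ round t := by exact_mod_cast h
    exact le_trans (by linarith) (neg_le_abs _)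

theorem F_add_int {F : ℝ → ℝ} (hd : ∀ x, F (x + 1) = F x + 1) (x : ℝ) (n : ℤ) :
    F (x + n) = F x + n := by
  induction n using Int.induction_on with
  | zero => simp
  | succ n ih =>
    have := hd (x + n)
    push_cast at ih ⊢
    rw [← add_assoc, this, ih]
    ring
  | pred n ih =>
    have := hd (x + (-(n:ℝ) - 1))
    push_cast at ih ⊢
    have e2 : x + (-(n:ℝ) - 1) + 1 = x + -(n:ℝ) := by ring
    rw [e2, ih] at this
    linarith

/-- lower bound for the gain, in rescaled coordinates -/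
noncomputable def gain (σ : ℤ) (ρ : ℝ) (u : ℝ → ℝ) (N err ξ : ℝ) : ℝ :=
  if |ξ| ≤ N then σ * UU ρ u ξ - err else 0

theorem step_lemma {K ε A ω ρ Q z₀ N err : ℝ} {u : ℝ → ℝ} (hu : Bump K ε u)
    (hA : ∀ y, |u y| ≤ A) (hA0 : A ≤ 1 / 2) (hε : ε ≤ 1 / 2) {F : ℝ → ℝ} (hc : Continuous F)
    (hm : Monotone F)
    (hd : ∀ x, F (x + 1) = F x + 1) (hρ : 0 ≤ ρ) (hω0 : 0 ≤ ω) (hω : ω ≤ 1 / 4)
    (hwin : ∀ y, |y| ≤ K + 1 → |F (z₀ + y / Q) - F z₀ - ρ * y / Q| ≤ ω / Q)
    (hQ : 2 * K + 2 ≤ Q) (hQ' : 2 * (ρ * K + 1) ≤ Q) {h : CircleDeg1Liftˣ}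
    (hh : ∀ z, h z = z + uh u z₀ Q z) {σ : ℤ} (hσ : σ = -1 ∨ σ = 0 ∨ σ = 1)
    (hN : ρ * K + 1 ≤ N) (herr : 2 * ε * ρ * A + 3 * ω ≤ err) {X z : ℝ} (hz : X ≤ F z) :
    X + gain σ ρ u N err (Q * rr (X - F z₀)) / Q ≤ F ((h ^ σ : CircleDeg1Liftˣ) z) := by
  have hK := hu.Kpos
  have hQ0 : 0 < Q := by linarith
  have hA00 : 0 ≤ A := (abs_nonneg _).trans (hA 0)
  have hεnn := hu.εnn
  obtain ⟨z1, hz1, hmin⟩ := exists_min_level F hc hm hd X
  have hzz : z1 ≤ z := hmin z hz
  have hmono : (h ^ σ : CircleDeg1Liftˣ) z1 ≤ (h ^ σ : CircleDeg1Liftˣ) z :=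
    (h ^ σ : CircleDeg1Liftˣ).val.monotone hzz
  refine le_trans ?_ (hm hmono)
  set x := z1 - z₀ with hx
  set l := round x with hl
  set r := rr x with hr
  set y := Q * r with hy
  have hr1 : |r| ≤ 1 / 2 := rr_abs_le x
  have hz1' : z1 = z₀ + r + l := by
    have : r = x - l := rfl
    rw [this, hx]; ring
  have hX : X = F (z₀ + r) + l := by rw [← hz1, hz1', F_add_int hd]
  have hyr : r = y / Q := by rw [hy]; field_simp
  have hpow := h_zpow hu hε (by linarith : 2 * K ≤ Q) hh σ hσ z1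
  have huh : uh u z₀ Q z1 = u y / Q := rfl
  have hnnerr : 0 ≤ 2 * ε * ρ * A := by positivity
  rcases le_or_gt K |y| with hyK | hyK
  · -- outside the window
    have hu0 : u y = 0 := hu.supp y hyK
    rw [huh, hu0, zero_div, mul_zero, add_zero, abs_zero, mul_zero] at hpow
    have e : (h ^ σ : CircleDeg1Liftˣ) z1 = z1 := by
      have := abs_nonpos_iff.1 hpow
      linarith
    rw [e, hz1]
    have hc1 : (ρ * K - ω) / Q ≤ |rr (X - F z₀)| := by
      have w1 := abs_le.1 (hwin K (by rw [abs_of_pos hK]; linarith))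
      have w2 := abs_le.1 (hwin (-K) (by rw [abs_neg, abs_of_pos hK]; linarith))
      have hKQ : K / Q ≤ 1 / 2 := by rw [div_le_iff₀ hQ0]; linarith
      have g1 : (ρ * K - ω) / Q = ρ * K / Q - ω / Q := by rw [sub_div]
      have g2 : ρ * -K / Q = - (ρ * K / Q) := by ring
      rw [g2] at w2
      rw [g1]
      rcases le_total 0 y with h0 | h0
      · rw [abs_of_nonneg h0] at hyK
        have r1 : K / Q ≤ r := by rw [hyr]; gcongr
        have r2 : r ≤ 1 / 2 := (le_abs_self r).trans hr1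
        have f1 : F (z₀ + K / Q) ≤ F (z₀ + r) := hm (by linarith)
        have f2 : F (z₀ + r) ≤ F (z₀ + -K / Q + 1) := hm (by rw [neg_div]; linarith)
        rw [hd] at f2
        refine rr_abs_ge l ?_ ?_
        · rw [hX]; linarith [w1.1]
        · rw [hX]; linarith [w2.2]
      · rw [abs_of_nonpos h0] at hyK
        have r1 : r ≤ -K / Q := by rw [hyr]; gcongr; linarith
        have r2 : -(1 / 2) ≤ r := by
          have := neg_abs_le r
          linarith
        have f1 : F (z₀ + r) ≤ F (z₀ + -K / Q) := hm (by linarith)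
        have f2 : F (z₀ + K / Q) ≤ F (z₀ + r + 1) := hm (by linarith)
        rw [hd] at f2
        refine rr_abs_ge (l - 1) ?_ ?_
        · rw [hX]; push_cast; linarith [w1.1]
        · rw [hX]; push_cast; linarith [w2.2]
    have hξ : ρ * K - ω ≤ |Q * rr (X - F z₀)| := by
      rw [abs_mul, abs_of_pos hQ0]
      rw [div_le_iff₀ hQ0] at hc1
      linarith
    have hg : gain σ ρ u N err (Q * rr (X - F z₀)) ≤ 0 := by
      unfold gain
      split_ifs with hN'
      · have h1 := UU_small hu hρ hω0 hξ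
        have h2 : (σ : ℝ) * UU ρ u (Q * rr (X - F z₀)) ≤ |UU ρ u (Q * rr (X - F z₀))| := by
          rcases hσ with rfl | rfl | rfl
          · push_cast; rw [neg_one_mul]; exact neg_le_abs _
          · push_cast; rw [zero_mul]; exact abs_nonneg _
          · push_cast; rw [one_mul]; exact le_abs_self _
        have h3 : ε * ω ≤ 1 * ω := mul_le_mul_of_nonneg_right (by linarith) hω0
        linarith
      · exact le_rfl
    have : gain σ ρ u N err (Q * rr (X - F z₀)) / Q ≤ 0 := div_nonpos_of_nonpos_of_nonneg hg hQ0.le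
    linarith
  · -- inside the window
    have w1 := hwin y (by linarith)
    rw [← hyr] at w1
    set e1 : ℝ := Q * (F (z₀ + r) - F z₀) - ρ * y with he1
    have he1' : |e1| ≤ ω := by
      have : e1 = Q * (F (z₀ + r) - F z₀ - ρ * y / Q) := by rw [he1]; field_simp
      rw [this, abs_mul, abs_of_pos hQ0]
      have := mul_le_mul_of_nonneg_left w1 hQ0.le
      calc _ ≤ Q * (ω / Q) := this
        _ = ω := by field_simp
    have hρy : |ρ * y| ≤ ρ * K := by
      rw [abs_mul, abs_of_nonneg hρ]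
      exact mul_le_mul_of_nonneg_left hyK.le hρ
    have hXF : X - F z₀ - l = (ρ * y + e1) / Q := by
      rw [hX, he1]; field_simp; ring
    have hlt : |X - F z₀ - l| < 1 / 2 := by
      rw [hXF, abs_div, abs_of_pos hQ0, div_lt_iff₀ hQ0]
      have := abs_add_le (ρ * y) e1
      linarith
    have hrr := rr_eq_of_abs_lt l hlt
    have hξ : Q * rr (X - F z₀) = ρ * y + e1 := by
      rw [hrr, hXF]; field_simp
    rw [hξ]
    have hev : |ρ * y + e1| ≤ N := by
      have := abs_add_le (ρ * y) e1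
      linarith
    unfold gain
    rw [if_pos hev]
    -- new position
    set z2 := (h ^ σ : CircleDeg1Liftˣ) z1 with hz2
    rw [huh] at hpow
    set y2 := Q * (z2 - z₀ - l) with hy2
    have hy2' : y2 = y + σ * u y + Q * (z2 - (z1 + σ * (u y / Q))) := by
      rw [hy2, hz1', hyr]; field_simp; ring
    have he2 : |Q * (z2 - (z1 + σ * (u y / Q)))| ≤ 2 * ε * |u y| := by
      rw [abs_mul, abs_of_pos hQ0]
      calc Q * |z2 - (z1 + σ * (u y / Q))| ≤ Q * (2 * ε * |u y / Q|) :=
            mul_le_mul_of_nonneg_left hpow hQ0.le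
        _ = 2 * ε * |u y| := by rw [abs_div, abs_of_pos hQ0]; field_simp
    set e2 := Q * (z2 - (z1 + σ * (u y / Q))) with he2def
    have hσu : |(σ : ℝ) * u y| ≤ A := by
      rw [abs_mul]
      rcases hσ with rfl | rfl | rfl
      · simpa using hA y
      · simpa using hA00
      · simpa using hA y
    have he2A : |e2| ≤ 2 * ε * A := he2.trans (mul_le_mul_of_nonneg_left (hA y) (by positivity))
    have hy2K : |y2| ≤ K + 1 := by
      rw [hy2']
      have a1 := abs_add_le (y + σ * u y) e2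
      have a2 := abs_add_le y (σ * u y)
      have a3 : 2 * ε * A ≤ 1 * A := mul_le_mul_of_nonneg_right (by linarith) hA00
      linarith
    have w2 := hwin y2 hy2K
    have hz2F : F z2 = F (z₀ + y2 / Q) + l := by
      rw [← F_add_int hd]
      congr 1
      rw [hy2]; field_simp; ring
    set e3 : ℝ := Q * (F (z₀ + y2 / Q) - F z₀) - ρ * y2 with he3
    have he3' : |e3| ≤ ω := by
      have : e3 = Q * (F (z₀ + y2 / Q) - F z₀ - ρ * y2 / Q) := by rw [he3]; field_simp
      rw [this, abs_mul, abs_of_pos hQ0]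
      have := mul_le_mul_of_nonneg_left w2 hQ0.le
      calc _ ≤ Q * (ω / Q) := this
        _ = ω := by field_simp
    have hdiff : F z2 - X = (ρ * (y2 - y) + e3 - e1) / Q := by
      rw [hz2F, hX, he3, he1]; field_simp; ring
    have hUy : |UU ρ u (ρ * y + e1) - ρ * u y| ≤ ε * ω := by
      rcases hρ.eq_or_lt with h0 | h0
      · rw [← h0]
        simp only [UU, zero_mul, sub_self, abs_zero]
        positivity
      · have e : ρ * u y = UU ρ u (ρ * y) := by
          unfold UU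
          congr 2
          field_simp
        rw [e]
        refine (UU_lip hu hρ _ _).trans (mul_le_mul_of_nonneg_left ?_ hεnn)
        have : ρ * y + e1 - ρ * y = e1 := by ring
        rw [this]; exact he1'
    have hσU : (σ : ℝ) * UU ρ u (ρ * y + e1) ≤ σ * (ρ * u y) + ε * ω := by
      have h1 := abs_le.1 hUy
      rcases hσ with rfl | rfl | rfl
      · push_cast; linarith [h1.1]
      · push_cast; have : 0 ≤ ε * ω := by positivity
        linarith
      · push_cast; linarith [h1.2]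
    have hεω : ε * ω ≤ 1 * ω := mul_le_mul_of_nonneg_right (by linarith) hω0
    have he2ρ : -(2 * ε * ρ * A) ≤ ρ * e2 := by
      have := (abs_le.1 he2A).1
      have h2 := mul_le_mul_of_nonneg_left this hρ
      linarith
    have h1 := (abs_le.1 he3').1
    have h2 := (abs_le.1 he1').2
    have key : σ * UU ρ u (ρ * y + e1) - err ≤ ρ * (y2 - y) + e3 - e1 := by
      rw [hy2']
      have : ρ * (y + σ * u y + e2 - y) = σ * (ρ * u y) + ρ * e2 := by ring
      rw [this]
      linarith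
    have := div_le_div_of_nonneg_right key hQ0.le
    rw [← hdiff] at this
    linarith

end Pool.Agent.Helper88.Rot
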