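import Pool.Agent.Helper88.Rot.Index

/-!
Tent functions, classes, and small helper lemmas.
-/

namespace Pool.Agent.Helper88.Rot

open CircleDeg1Lift Filter Topology

/-- a signed tent -/
noncomputable def tent (A ε y₀ τ y : ℝ) : ℝ := τ * max 0 (A - ε * |y - y₀|)

theorem tent_far {A ε y₀ τ y : ℝ} (h : A ≤ ε * |y - y₀|) : tent A ε y₀ τ y = 0 := by
  unfold tent
  rw [max_eq_left (by linarith), mul_zero]

theorem tent_self {A ε y₀ τ : ℝ} (hA : 0 ≤ A) : tent A ε y₀ τ y₀ = τ * A := by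
  unfold tent
  simp [hA]

theorem tent_abs_le {A ε y₀ τ y : ℝ} (hA : 0 ≤ A) (hε : 0 ≤ ε) (hτ : |τ| ≤ 1) :
    |tent A ε y₀ τ y| ≤ A := by
  unfold tent
  rw [abs_mul]
  have h1 : |max 0 (A - ε * |y - y₀|)| ≤ A := by
    rw [abs_of_nonneg (le_max_left _ _)]
    apply max_le hA
    have := mul_nonneg hε (abs_nonneg (y - y₀))
    linarith
  calc |τ| * |max 0 (A - ε * |y - y₀|)| ≤ 1 * A :=
        mul_le_mul hτ h1 (abs_nonneg _) zero_le_one
    _ = A := one_mul A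

theorem tent_lip {A ε y₀ τ : ℝ} (hε : 0 ≤ ε) (hτ : |τ| ≤ 1) (y y' : ℝ) :
    |tent A ε y₀ τ y - tent A ε y₀ τ y'| ≤ ε * |y - y'| := by
  unfold tent
  rw [← mul_sub, abs_mul]
  have h1 : |max 0 (A - ε * |y - y₀|) - max 0 (A - ε * |y' - y₀|)|
      ≤ |(A - ε * |y - y₀|) - (A - ε * |y' - y₀|)| := by
    have := abs_max_sub_max_le_abs (A - ε * |y - y₀|) (A - ε * |y' - y₀|) 0
    rwa [max_comm, max_comm (A - ε * |y' - y₀|)] at this
  have h2 : |(A - ε * |y - y₀|) - (A - ε * |y' - y₀|)| ≤ ε * |y - y'| := by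
    have e : (A - ε * |y - y₀|) - (A - ε * |y' - y₀|) = ε * (|y' - y₀| - |y - y₀|) := by ring
    rw [e, abs_mul, abs_of_nonneg hε]
    apply mul_le_mul_of_nonneg_left _ hε
    have := abs_abs_sub_abs_le_abs_sub (y' - y₀) (y - y₀)
    have e2 : y' - y₀ - (y - y₀) = -(y - y') := by ring
    rwa [e2, abs_neg] at this
  calc |τ| * _ ≤ 1 * (ε * |y - y'|) := mul_le_mul hτ (h1.trans h2) (abs_nonneg _) zero_le_one
    _ = _ := one_mul _

theorem tent_bump {A ε y₀ τ K : ℝ} (hε : 0 ≤ ε) (hτ : |τ| ≤ 1) (hK : 0 < K)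
    (h : A ≤ ε * (K - |y₀|)) : Bump K ε (tent A ε y₀ τ) where
  Kpos := hK
  εnn := hε
  supp := fun y hy => by
    apply tent_far
    refine h.trans (mul_le_mul_of_nonneg_left ?_ hε)
    have := abs_sub_abs_le_abs_sub y y₀
    linarith
  lip := tent_lip hε hτ

theorem UU_tent_far {A ε y₀ τ ρ ξ : ℝ} (hρ : 0 ≤ ρ) (h : ρ * A ≤ ε * |ξ - ρ * y₀|) :
    UU ρ (tent A ε y₀ τ) ξ = 0 := by
  rcases hρ.eq_or_lt with h0 | h0
  · subst h0; simp [UU]
  · unfold UU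
    rw [tent_far, mul_zero]
    have e : ξ - ρ * y₀ = ρ * (ξ / ρ - y₀) := by field_simp
    rw [e, abs_mul, abs_of_pos h0] at h
    have : ρ * A ≤ ρ * (ε * |ξ / ρ - y₀|) := by linarith
    exact le_of_mul_le_mul_left this h0

theorem UU_tent_near {A ε y₀ τ ρ ξ : ℝ} (hA : 0 ≤ A) (hε : 0 ≤ ε) (hτ : |τ| ≤ 1) (hρ : 0 < ρ) :
    |UU ρ (tent A ε y₀ τ) ξ - ρ * (τ * A)| ≤ ε * |ξ - ρ * y₀| := by
  have e1 : ρ * (τ * A) = UU ρ (tent A ε y₀ τ) (ρ * y₀) := by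
    unfold UU
    rw [mul_div_cancel_left₀ _ hρ.ne', tent_self hA]
  rw [e1]
  unfold UU
  rw [← mul_sub, abs_mul, abs_of_pos hρ]
  calc ρ * |tent A ε y₀ τ (ξ / ρ) - tent A ε y₀ τ (ρ * y₀ / ρ)|
      ≤ ρ * (ε * |ξ / ρ - ρ * y₀ / ρ|) :=
        mul_le_mul_of_nonneg_left (tent_lip hε hτ _ _) hρ.le
    _ = ε * |ξ - ρ * y₀| := by
        rw [← sub_div, abs_div, abs_of_pos hρ]
        field_simp

open Classical in
/-- an unbalanced class exists -/
theorem exists_unbalanced (I : Finset ℕ) (r : ℕ → ℕ → Prop) (hr : Equivalence r)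
    (w σ : ℕ → ℝ) (hw : ∀ s s', r s s' → w s = w s') (hne : ∑ s ∈ I, σ s * w s ≠ 0) :
    ∃ s₁ ∈ I, w s₁ ≠ 0 ∧ ∑ s ∈ I with r s₁ s, σ s ≠ 0 := by
  let st : Setoid ℕ := ⟨r, hr⟩
  by_contra hcon
  push Not at hcon
  apply hne
  rw [← Finset.sum_fiberwise_of_maps_to (s := I) (t := I.image (Quotient.mk st))
    (g := Quotient.mk st) (fun i hi => Finset.mem_image_of_mem _ hi)]
  refine Finset.sum_eq_zero fun q hq => ?_
  obtain ⟨s₁, hs₁, rfl⟩ := Finset.mem_image.1 hq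
  have e1 : ∑ s ∈ I with Quotient.mk st s = Quotient.mk st s₁, σ s * w s
      = (∑ s ∈ I with r s₁ s, σ s) * w s₁ := by
    rw [Finset.sum_mul]
    have : (I.filter fun s => Quotient.mk st s = Quotient.mk st s₁) = I.filter (r s₁) := by
      ext s
      simp only [Finset.mem_filter, and_congr_right_iff]
      intro _
      rw [Quotient.eq]
      exact ⟨fun h => hr.symm h, fun h => hr.symm h⟩
    rw [this]
    refine Finset.sum_congr rfl fun s hs => ?_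
    rw [Finset.mem_filter] at hs
    rw [hw s₁ s hs.2]
  rw [e1]
  by_cases hw0 : w s₁ = 0
  · rw [hw0, mul_zero]
  · rw [hcon s₁ hs₁ hw0, zero_mul]

theorem exists_min_pos (P : ℕ → ℝ → Prop)
    (hanti : ∀ s d d', 0 < d' → d' ≤ d → P s d → P s d') (m : ℕ)
    (h : ∀ s < m, ∃ d > 0, P s d) : ∃ d > 0, ∀ s < m, P s d := by
  induction m with
  | zero => exact ⟨1, one_pos, fun s hs => absurd hs (Nat.not_lt_zero s)⟩
  | succ m ih =>
    obtain ⟨d, hd, h1⟩ := ih fun s hs => h s (by omega)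
    obtain ⟨d', hd', h2⟩ := h m (by omega)
    refine ⟨min d d', lt_min hd hd', fun s hs => ?_⟩
    rcases Nat.lt_succ_iff_lt_or_eq.1 hs with hs | rfl
    · exact hanti s d _ (lt_min hd hd') (min_le_left _ _) (h1 s hs)
    · exact hanti s d' _ (lt_min hd hd') (min_le_right _ _) h2

theorem rr_le_abs_sub (x : ℝ) (n : ℤ) : |rr x| ≤ |x - n| := round_le x n

theorem deriv_nonneg_of_mono {F : ℝ → ℝ} (hF : Monotone F) {ρ z : ℝ} (h : HasDerivAt F ρ z) :
    0 ≤ ρ := by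
  rw [hasDerivAt_iff_tendsto_slope] at h
  refine ge_of_tendsto h ?_
  filter_upwards [self_mem_nhdsWithin] with x hx
  rw [slope_def_field]
  rcases lt_or_gt_of_ne hx with hx | hx
  · exact div_nonneg_of_nonpos (sub_nonpos.2 (hF hx.le)) (sub_nonpos.2 hx.le)
  · exact div_nonneg (sub_nonneg.2 (hF hx.le)) (sub_nonneg.2 hx.le)

end Pool.Agent.Helper88.Rot
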