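import Pool.Agent.Helper88.Rot.CaseA
import Pool.Agent.Helper88.Rot.LL3

/-!
Sums of separated tents; counting of events; sums over classes.
-/

namespace Pool.Agent.Helper88.Rot

open CircleDeg1Lift Filter Topology Finset

/-- sum of tents -/
noncomputable def tents (A ε : ℝ) (J : ℕ) (yc g : ℕ → ℝ) (y : ℝ) : ℝ :=
  ∑ i ∈ range J, tent A ε (yc i) (g i) y

section
variable {A ε : ℝ} {J : ℕ} {yc g : ℕ → ℝ}

theorem tents_near (hε : 0 ≤ ε)
    (hsep : ∀ i < J, ∀ i' < J, i ≠ i' → 2 * A ≤ ε * |yc i - yc i'|) {i : ℕ} (hi : i < J) {y : ℝ}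
    (hy : ε * |y - yc i| ≤ A) : tents A ε J yc g y = tent A ε (yc i) (g i) y := by
  unfold tents
  refine Finset.sum_eq_single_of_mem i (mem_range.2 hi) fun i' hi' hne => ?_
  apply tent_far
  have h1 := hsep i hi i' (mem_range.1 hi') (Ne.symm hne)
  have h2 : |yc i - yc i'| ≤ |y - yc i'| + |y - yc i| := by
    have e : yc i - yc i' = (y - yc i') - (y - yc i) := by ring
    rw [e]; exact abs_sub _ _
  have h3 := mul_le_mul_of_nonneg_left h2 hε
  rw [mul_add] at h3
  linarith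

theorem tents_far {y : ℝ} (hy : ∀ i < J, A ≤ ε * |y - yc i|) : tents A ε J yc g y = 0 := by
  unfold tents
  exact Finset.sum_eq_zero fun i hi => tent_far (hy i (mem_range.1 hi))

theorem tent_bound {A ε y₀ τ y : ℝ} (hτ : |τ| ≤ 1) (h : ε * |y - y₀| ≤ A) :
    |tent A ε y₀ τ y| ≤ A - ε * |y - y₀| := by
  unfold tent
  rw [abs_mul, max_eq_right (by linarith), abs_of_nonneg (by linarith : 0 ≤ A - ε * |y - y₀|)]
  exact mul_le_of_le_one_left (by linarith) hτ

theorem tents_lip (hε : 0 ≤ ε) (hg : ∀ i, |g i| ≤ 1)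
    (hsep : ∀ i < J, ∀ i' < J, i ≠ i' → 2 * A ≤ ε * |yc i - yc i'|) (y y' : ℝ) :
    |tents A ε J yc g y - tents A ε J yc g y'| ≤ ε * |y - y'| := by
  have hz : ∀ z i, i < J → ¬ (∃ i < J, ε * |z - yc i| ≤ A) → tent A ε (yc i) (g i) z = 0 := by
    intro z i hi h
    push Not at h
    exact tent_far (h i hi).le
  have hz' : ∀ z, ¬ (∃ i < J, ε * |z - yc i| ≤ A) → tents A ε J yc g z = 0 := by
    intro z h
    push Not at h
    exact tents_far fun i hi => (h i hi).le
  by_cases h1 : ∃ i < J, ε * |y - yc i| ≤ A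
  · obtain ⟨i, hi, hy⟩ := h1
    rw [tents_near hε hsep hi hy]
    by_cases h2 : ∃ i < J, ε * |y' - yc i| ≤ A
    · obtain ⟨i', hi', hy'⟩ := h2
      rw [tents_near hε hsep hi' hy']
      by_cases hii : i = i'
      · rw [hii]
        exact tent_lip hε (hg i') _ _
      · have b1 := tent_bound (hg i) hy
        have b2 := tent_bound (hg i') hy'
        have b3 := hsep i hi i' hi' hii
        have b4 : |yc i - yc i'| ≤ |y - yc i| + |y' - yc i'| + |y - y'| := by
          have e : yc i - yc i' = -(y - yc i) + (y' - yc i') + (y - y') := by ring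
          have c1 := abs_add_le (-(y - yc i) + (y' - yc i')) (y - y')
          have c2 := abs_add_le (-(y - yc i)) (y' - yc i')
          rw [abs_neg] at c2
          rw [e]
          linarith
        have b5 := mul_le_mul_of_nonneg_left b4 hε
        rw [mul_add, mul_add] at b5
        have b6 := abs_sub (tent A ε (yc i) (g i) y) (tent A ε (yc i') (g i') y')
        linarith
    · rw [hz' y' h2, ← hz y' i hi h2]
      exact tent_lip hε (hg i) _ _
  · rw [hz' y h1]
    by_cases h2 : ∃ i < J, ε * |y' - yc i| ≤ A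
    · obtain ⟨i', hi', hy'⟩ := h2
      rw [tents_near hε hsep hi' hy', ← hz y i' hi' h1]
      exact tent_lip hε (hg i') _ _
    · rw [hz' y' h2, sub_zero, abs_zero]
      exact mul_nonneg hε (abs_nonneg _)

theorem tents_abs_le (hA : 0 ≤ A) (hε : 0 ≤ ε) (hg : ∀ i, |g i| ≤ 1)
    (hsep : ∀ i < J, ∀ i' < J, i ≠ i' → 2 * A ≤ ε * |yc i - yc i'|) (y : ℝ) :
    |tents A ε J yc g y| ≤ A := by
  by_cases h1 : ∃ i < J, ε * |y - yc i| ≤ A
  · obtain ⟨i, hi, hy⟩ := h1
    rw [tents_near hε hsep hi hy]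
    exact tent_abs_le hA hε (hg i)
  · push Not at h1
    rw [tents_far fun i hi => (h1 i hi).le, abs_zero]
    exact hA

theorem tents_bump {K : ℝ} (hA : 0 ≤ A) (hε : 0 ≤ ε) (hK : 0 < K) (hg : ∀ i, |g i| ≤ 1)
    (hsep : ∀ i < J, ∀ i' < J, i ≠ i' → 2 * A ≤ ε * |yc i - yc i'|)
    (h : ∀ i < J, A ≤ ε * (K - |yc i|)) : Bump K ε (tents A ε J yc g) where
  Kpos := hK
  εnn := hε
  supp := fun y hy => by
    apply tents_far
    intro i hi
    refine (h i hi).trans (mul_le_mul_of_nonneg_left ?_ hε)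
    have := abs_sub_abs_le_abs_sub y (yc i)
    linarith
  lip := tents_lip hε hg hsep

end

/-- counting the events of one stage in a slot -/
theorem card_window {α : ℝ} {q : ℕ} {p : ℤ} (h : Good α q p) (β x y : ℝ)
    (hxy : y - x ≤ 6 / (q : ℝ)) (hxy0 : x ≤ y) (M : ℤ) (hM : 0 ≤ M) (T : Finset ℤ)
    (hT : ∀ n ∈ T, (-M ≤ n ∧ n ≤ M) ∧ x ≤ Int.fract (n * α + β) ∧ Int.fract (n * α + β) < y) :
    (T.card : ℝ) ≤ 9 * (2 * M / q + 1) := by
  classical
  have hq : (0 : ℤ) < q := by exact_mod_cast h.1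
  have hq' : (0 : ℝ) < q := by exact_mod_cast h.1
  have hmap : ∀ n ∈ T, (n + M) / (q : ℤ) ∈ Finset.Icc (0 : ℤ) (2 * M / (q : ℤ)) := by
    intro n hn
    obtain ⟨⟨h1, h2⟩, -⟩ := hT n hn
    rw [Finset.mem_Icc]
    exact ⟨Int.ediv_nonneg (by omega) hq.le, Int.ediv_le_ediv hq (by omega)⟩
  have hcard := Finset.card_eq_sum_card_fiberwise hmap
  rw [hcard]
  push_cast
  calc ∑ b ∈ Finset.Icc (0 : ℤ) (2 * M / (q : ℤ)), ((T.filter fun n => (n + M) / (q : ℤ) = b).card : ℝ)
      ≤ ∑ b ∈ Finset.Icc (0 : ℤ) (2 * M / (q : ℤ)), (9 : ℝ) := by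
        refine Finset.sum_le_sum fun b _ => ?_
        refine h.card_block β x y hxy hxy0 (b * q - M) _ fun n hn => ?_
        rw [Finset.mem_filter] at hn
        obtain ⟨hn, hb⟩ := hn
        obtain ⟨-, h3, h4⟩ := hT n hn
        have e1 := Int.emod_add_mul_ediv (n + M) q
        have e2 := Int.emod_nonneg (n + M) hq.ne'
        have e3 := Int.emod_lt_of_pos (n + M) hq
        rw [hb] at e1
        have e4 : (q : ℤ) * b = b * q := mul_comm _ _
        rw [e4] at e1
        exact ⟨by omega, by omega, h3, h4⟩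
    _ = 9 * ((Finset.Icc (0 : ℤ) (2 * M / (q : ℤ))).card : ℝ) := by
        rw [Finset.sum_const, nsmul_eq_mul, mul_comm]
    _ ≤ 9 * (2 * M / q + 1) := by
        rw [Int.card_Icc]
        have h5 : 0 ≤ 2 * M / (q : ℤ) := Int.ediv_nonneg (by omega) hq.le
        have h6 : (((2 * M / (q : ℤ) + 1 - 0).toNat : ℕ) : ℤ) = 2 * M / (q : ℤ) + 1 := by omega
        have h7 : (((2 * M / (q : ℤ) + 1 - 0).toNat : ℕ) : ℝ) = ((2 * M / (q : ℤ) : ℤ) : ℝ) + 1 := by
          have : ((((2 * M / (q : ℤ) + 1 - 0).toNat : ℕ) : ℤ) : ℝ)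
            = ((2 * M / (q : ℤ) + 1 : ℤ) : ℝ) := by rw [h6]
          push_cast at this ⊢
          exact this
        rw [h7]
        have h8 : ((2 * M / (q : ℤ) : ℤ) : ℝ) ≤ 2 * M / q := by
          have h6 := Int.mul_ediv_self_le (x := 2 * M) (k := (q : ℤ)) hq.ne'
          rw [le_div_iff₀ hq', mul_comm]
          exact_mod_cast h6
        linarith

open Classical in
/-- the sum over all stages of a class function that is concentrated on one class modulo
balanced classes -/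
theorem class_sum (I : Finset ℕ) (r : ℕ → ℕ → Prop) (hr : Equivalence r) (σ G : ℕ → ℝ)
    (hG : ∀ s ∈ I, ∀ s' ∈ I, r s s' → G s = G s') (s₁ : ℕ) (hs₁ : s₁ ∈ I) (c : ℝ)
    (hc : ∀ s ∈ I, (∑ s' ∈ I with r s s', σ s') ≠ 0 → G s = if r s₁ s then c else 0)
    (hs₁' : (∑ s' ∈ I with r s₁ s', σ s') ≠ 0) :
    ∑ s ∈ I, σ s * G s = (∑ s ∈ I with r s₁ s, σ s) * c := by
  have e1 : ∑ s ∈ I, σ s * (if r s₁ s then c else 0) = (∑ s ∈ I with r s₁ s, σ s) * c := by
    rw [Finset.sum_mul, Finset.sum_filter]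
    refine Finset.sum_congr rfl fun s _ => ?_
    split_ifs <;> simp
  rw [← e1, ← sub_eq_zero, ← Finset.sum_sub_distrib]
  by_contra hne
  have h2 : ∑ s ∈ I, σ s * ((fun s => if h : s ∈ I then G s - (if r s₁ s then c else 0) else
      (if h : ∃ s' ∈ I, r s s' then G h.choose - (if r s₁ h.choose then c else 0) else 0)) s) ≠ 0 := by
    intro h
    refine hne (Eq.trans ?_ h)
    refine Finset.sum_congr rfl fun s hs => ?_
    simp only [hs, dif_pos]
    ring
  obtain ⟨s₂, hs₂, hw, hnet⟩ := exists_unbalanced I r hr _ σ (by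
    intro s s' hss
    have key : ∀ a b, a ∈ I → b ∈ I → r a b → G a - (if r s₁ a then c else 0)
        = G b - (if r s₁ b then c else 0) := by
      intro a b ha hb hab
      rw [hG a ha b hb hab]
      have : r s₁ a ↔ r s₁ b := ⟨fun h => hr.trans h hab, fun h => hr.trans h (hr.symm hab)⟩
      simp only [this]
    by_cases h1 : s ∈ I
    · by_cases h2 : s' ∈ I
      · simp only [h1, h2, dif_pos]
        exact key s s' h1 h2 hss
      · have h3 : ∃ s'' ∈ I, r s' s'' := ⟨s, h1, hr.symm hss⟩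
        simp only [h1, h2, dif_pos, dif_neg, h3, not_false_eq_true]
        exact key _ _ h1 h3.choose_spec.1 (hr.trans hss h3.choose_spec.2)
    · by_cases h2 : s' ∈ I
      · have h3 : ∃ s'' ∈ I, r s s'' := ⟨s', h2, hss⟩
        simp only [h1, h2, dif_pos, dif_neg, h3, not_false_eq_true]
        exact key _ _ h3.choose_spec.1 h2 (hr.trans (hr.symm h3.choose_spec.2) hss)
      · by_cases h3 : ∃ s'' ∈ I, r s s''
        · have h4 : ∃ s'' ∈ I, r s' s'' := by
            obtain ⟨a, ha, hra⟩ := h3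
            exact ⟨a, ha, hr.trans (hr.symm hss) hra⟩
          simp only [h1, h2, dif_neg, h3, h4, not_false_eq_true, dif_pos]
          exact key _ _ h3.choose_spec.1 h4.choose_spec.1
            (hr.trans (hr.symm h3.choose_spec.2) (hr.trans hss h4.choose_spec.2))
        · have h4 : ¬ ∃ s'' ∈ I, r s' s'' := by
            rintro ⟨a, ha, hra⟩
            exact h3 ⟨a, ha, hr.trans hss hra⟩
          simp only [h1, h2, dif_neg, h3, h4, not_false_eq_true]) h2
  simp only [hs₂, dif_pos] at hw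
  apply hw
  rw [hc s₂ hs₂ (by convert hnet)]
  ring

end Pool.Agent.Helper88.Rot
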