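import Pool.Agent.Helper88.Rot.Stage

/-!
The localised perturbation `h` and its effect on one stage function.
-/

namespace Pool.Agent.Helper88.Rot

open CircleDeg1Lift Filter Topology

/-- distance-to-integer coordinate -/
noncomputable def rr (x : ℝ) : ℝ := x - round x

theorem rr_abs_le (x : ℝ) : |rr x| ≤ 1 / 2 := abs_sub_round x

theorem rr_add_int (x : ℝ) (n : ℤ) : rr (x + n) = rr x := by
  unfold rr
  rw [round_add_intCast]
  push_cast
  ring

/-- a real within less than 1/2 of an integer -/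
theorem rr_eq_of_abs_lt {x : ℝ} (l : ℤ) (h : |x - l| < 1 / 2) : rr x = x - l := by
  have : round x = l := by
    rw [round_eq, Int.floor_eq_iff]
    rw [abs_lt] at h
    constructor <;> linarith
  rw [rr, this]

/-- Bump data: `u` is `ε`-Lipschitz and vanishes outside `(-K, K)`. -/
structure Bump (K ε : ℝ) (u : ℝ → ℝ) : Prop where
  Kpos : 0 < K
  εnn : 0 ≤ ε
  supp : ∀ y, K ≤ |y| → u y = 0
  lip : ∀ y y', |u y - u y'| ≤ ε * |y - y'|

namespace Bump
variable {K ε : ℝ} {u : ℝ → ℝ} (hu : Bump K ε u)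
include hu

theorem abs_le_of_le {Q y : ℝ} (hQ : 2 * K ≤ Q) (hy : |y| ≤ Q / 2) :
    |u y| ≤ ε * (Q / 2 - |y|) := by
  rcases le_total K |y| with h | h
  · rw [hu.supp y h, abs_zero]
    exact mul_nonneg hu.εnn (by linarith)
  · rcases le_total 0 y with h0 | h0
    · rw [abs_of_nonneg h0] at h hy ⊢
      have h1 := hu.lip y K
      rw [hu.supp K (le_abs_self K), sub_zero, abs_sub_comm, abs_of_nonneg (sub_nonneg.2 h)] at h1
      refine h1.trans (mul_le_mul_of_nonneg_left (by linarith) hu.εnn)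
    · rw [abs_of_nonpos h0] at h hy ⊢
      have h1 := hu.lip y (-K)
      rw [hu.supp (-K) (by rw [abs_neg]; exact le_abs_self K), sub_zero,
        abs_of_nonneg (by linarith : 0 ≤ y - -K)] at h1
      refine h1.trans (mul_le_mul_of_nonneg_left (by linarith) hu.εnn)

end Bump

/-- the periodised, rescaled bump -/
noncomputable def uh (u : ℝ → ℝ) (z₀ Q z : ℝ) : ℝ := u (Q * rr (z - z₀)) / Q

theorem uh_add_one (u : ℝ → ℝ) (z₀ Q z : ℝ) : uh u z₀ Q (z + 1) = uh u z₀ Q z := by
  unfold uh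
  have : z + 1 - z₀ = (z - z₀) + ((1 : ℤ) : ℝ) := by push_cast; ring
  rw [this, rr_add_int]

theorem uh_lip {K ε : ℝ} {u : ℝ → ℝ} (hu : Bump K ε u) {z₀ Q : ℝ} (hQ : 2 * K ≤ Q) (z z' : ℝ) :
    |uh u z₀ Q z - uh u z₀ Q z'| ≤ ε * |z - z'| := by
  have hQ0 : 0 < Q := by have := hu.Kpos; linarith
  have key : ∀ z z' : ℝ, z ≤ z' → |uh u z₀ Q z - uh u z₀ Q z'| ≤ ε * (z' - z) := by
    intro z z' hzz
    unfold uh
    rw [← sub_div, abs_div, abs_of_pos hQ0, div_le_iff₀ hQ0]
    set x := z - z₀ with hx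
    set x' := z' - z₀ with hx'
    have hxx : x ≤ x' := by linarith
    have e : z' - z = x' - x := by ring
    rw [e]
    by_cases hr : round x = round x'
    · refine (hu.lip _ _).trans ?_
      have : Q * rr x - Q * rr x' = -(Q * (x' - x)) := by
        unfold rr; rw [hr]; ring
      rw [this, abs_neg, abs_of_nonneg (mul_nonneg hQ0.le (sub_nonneg.2 hxx))]
      exact le_of_eq (by ring)
    · have hlt : round x < round x' := by
        refine lt_of_le_of_ne ?_ hr
        rw [round_eq, round_eq]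
        exact Int.floor_le_floor (by linarith)
      have hlt' : (round x : ℝ) + 1 ≤ round x' := by exact_mod_cast hlt
      have a1 := rr_abs_le x
      have a2 := rr_abs_le x'
      have b1 : |Q * rr x| ≤ Q / 2 := by
        rw [abs_mul, abs_of_pos hQ0]; nlinarith
      have b2 : |Q * rr x'| ≤ Q / 2 := by
        rw [abs_mul, abs_of_pos hQ0]; nlinarith
      have c1 := hu.abs_le_of_le hQ b1
      have c2 := hu.abs_le_of_le hQ b2
      have d1 : rr x ≤ |rr x| := le_abs_self _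
      have d2 : - rr x' ≤ |rr x'| := neg_le_abs _
      have e1 : |Q * rr x| = Q * |rr x| := by rw [abs_mul, abs_of_pos hQ0]
      have e2 : |Q * rr x'| = Q * |rr x'| := by rw [abs_mul, abs_of_pos hQ0]
      rw [e1] at c1
      rw [e2] at c2
      have f : x' - x = rr x' - rr x + (round x' - round x) := by unfold rr; ring
      calc |u (Q * rr x) - u (Q * rr x')| ≤ |u (Q * rr x)| + |u (Q * rr x')| := abs_sub _ _
        _ ≤ ε * (Q / 2 - Q * |rr x|) + ε * (Q / 2 - Q * |rr x'|) := add_le_add c1 c2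
        _ = ε * Q * (1 - |rr x| - |rr x'|) := by ring
        _ ≤ ε * Q * (x' - x) := by
            apply mul_le_mul_of_nonneg_left _ (mul_nonneg hu.εnn hQ0.le)
            -- 1 - |rr x| - |rr x'| ≤ x' - x
            rw [f]
            -- rr x ≤ |rr x|: gives -rr x ≥ -|rr x|
            linarith
        _ = ε * (x' - x) * Q := by ring
  rcases le_total z z' with h | h
  · have := key z z' h
    rwa [abs_sub_comm z z', abs_of_nonneg (sub_nonneg.2 h)]
  · have := key z' z h
    rwa [abs_sub_comm (uh u z₀ Q z), abs_of_nonneg (sub_nonneg.2 h)]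

/-- the perturbation exists as a unit -/
theorem exists_h {K ε : ℝ} {u : ℝ → ℝ} (hu : Bump K ε u) (hε : ε ≤ 1 / 2) {z₀ Q : ℝ}
    (hQ : 2 * K ≤ Q) : ∃ h : CircleDeg1Liftˣ, ∀ z, h z = z + uh u z₀ Q z := by
  have hlip := uh_lip hu (z₀ := z₀) hQ
  have hmono : StrictMono fun z => z + uh u z₀ Q z := by
    intro z z' hzz
    have := hlip z z'
    rw [abs_sub_comm z z', abs_of_pos (sub_pos.2 hzz)] at this
    have h2 := (abs_le.1 this).2
    show z + uh u z₀ Q z < z' + uh u z₀ Q z'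
    have : ε * (z' - z) ≤ 1 / 2 * (z' - z) :=
      mul_le_mul_of_nonneg_right hε (sub_nonneg.2 hzz.le)
    linarith
  have hcont : Continuous fun z => z + uh u z₀ Q z := by
    refine continuous_id.add ?_
    have : LipschitzWith (Real.toNNReal ε) (uh u z₀ Q) := by
      apply LipschitzWith.of_dist_le_mul
      intro x y
      rw [Real.dist_eq, Real.dist_eq, Real.coe_toNNReal ε hu.εnn]
      exact hlip x y
    exact this.continuous
  let f : CircleDeg1Lift := ⟨⟨fun z => z + uh u z₀ Q z, hmono.monotone⟩, fun z => by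
    show z + 1 + uh u z₀ Q (z + 1) = z + uh u z₀ Q z + 1
    rw [uh_add_one]; ring⟩
  have hu' : IsUnit f := isUnit_iff_bijective.2 ⟨hmono.injective,
    (continuous_iff_surjective f).1 hcont⟩
  obtain ⟨h, hh⟩ := hu'
  exact ⟨h, fun z => by rw [hh]; rfl⟩

/-- action of powers `-1, 0, 1` -/
theorem h_zpow {K ε : ℝ} {u : ℝ → ℝ} (hu : Bump K ε u) (hε : ε ≤ 1 / 2) {z₀ Q : ℝ}
    (hQ : 2 * K ≤ Q) {h : CircleDeg1Liftˣ} (hh : ∀ z, h z = z + uh u z₀ Q z) (σ : ℤ)
    (hσ : σ = -1 ∨ σ = 0 ∨ σ = 1) (z : ℝ) :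
    |(h ^ σ : CircleDeg1Liftˣ) z - (z + σ * uh u z₀ Q z)| ≤ 2 * ε * |uh u z₀ Q z| := by
  have hlip := uh_lip hu (z₀ := z₀) hQ
  have hnn : 0 ≤ 2 * ε * |uh u z₀ Q z| := mul_nonneg (mul_nonneg two_pos.le hu.εnn) (abs_nonneg _)
  rcases hσ with rfl | rfl | rfl
  · rw [zpow_neg_one]
    set w := (h⁻¹ : CircleDeg1Liftˣ) z with hw
    have h1 : w + uh u z₀ Q w = z := by rw [← hh, hw, units_apply_inv_apply]
    have h2 := hlip w z
    have h3 : w - z = - uh u z₀ Q w := by linarith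
    rw [h3, abs_neg] at h2
    have h4 : |uh u z₀ Q w| ≤ 2 * |uh u z₀ Q z| := by
      have h5 : |uh u z₀ Q w| ≤ |uh u z₀ Q w - uh u z₀ Q z| + |uh u z₀ Q z| := by
        have := abs_add_le (uh u z₀ Q w - uh u z₀ Q z) (uh u z₀ Q z)
        simpa using this
      have h6 : ε * |uh u z₀ Q w| ≤ 1 / 2 * |uh u z₀ Q w| :=
        mul_le_mul_of_nonneg_right hε (abs_nonneg _)
      linarith
    have e : w - (z + ((-1 : ℤ) : ℝ) * uh u z₀ Q z) = -(uh u z₀ Q w - uh u z₀ Q z) := by
      push_cast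
      linarith
    rw [e, abs_neg]
    calc |uh u z₀ Q w - uh u z₀ Q z| ≤ ε * |uh u z₀ Q w| := h2
      _ ≤ ε * (2 * |uh u z₀ Q z|) := mul_le_mul_of_nonneg_left h4 hu.εnn
      _ = _ := by ring
  · simpa using hnn
  · rw [zpow_one, hh]
    have e : z + uh u z₀ Q z - (z + ((1 : ℤ) : ℝ) * uh u z₀ Q z) = 0 := by push_cast; ring
    rw [e, abs_zero]
    exact hnn

end Pool.Agent.Helper88.Rot
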